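import Pool.Agent.H343R2.ZDefs
import Pool.Agent.H370R2.Dyadic

open Finset MeasureTheory Complex

namespace H343

open H370

/-- zeros up to height `T` with multiplicity -/
noncomputable def fcount (T : ℝ) : ℝ :=
  ∑ s ∈ (H370.zeta_zeros_finite T).toFinset, (H370.mult riemannZeta s : ℝ)

lemma fcount_mono {T T' : ℝ} (h : T ≤ T') : fcount T ≤ fcount T' := by
  unfold fcount
  apply sum_le_sum_of_subset_of_nonneg
  · intro s hs
    rw [Set.Finite.mem_toFinset] at hs ⊢
    exact ⟨hs.1, hs.2.1, hs.2.2.1, hs.2.2.2.1.trans h, hs.2.2.2.2⟩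
  · intro s _ _
    exact Nat.cast_nonneg _

lemma fcount_nonneg (T : ℝ) : 0 ≤ fcount T :=
  sum_nonneg fun _ _ => Nat.cast_nonneg _

lemma fcount_succ {T : ℝ} (hT : 1 ≤ T) :
    fcount (T + 1) ≤ fcount T + (NN riemannZeta T (T + 2) : ℝ) := by
  classical
  have hfin := zset_finite good_zeta T (T + 2) hT
  have hNN : NN riemannZeta T (T + 2) = ∑ s ∈ hfin.toFinset, mult riemannZeta s := by
    unfold NN
    exact finsum_mem_eq_finite_toFinset_sum _ hfin
  rw [hNN]
  push_cast
  unfold fcount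
  have hsub : (H370.zeta_zeros_finite (T + 1)).toFinset ⊆
      (H370.zeta_zeros_finite T).toFinset ∪ hfin.toFinset := by
    intro s hs
    rw [mem_union]
    rw [Set.Finite.mem_toFinset] at hs ⊢
    rw [Set.Finite.mem_toFinset]
    obtain ⟨a1, a2, a3, a4, a5⟩ := hs
    rcases le_or_gt s.im T with h1 | h1
    · exact Or.inl ⟨a1, a2, a3, h1, a5⟩
    · exact Or.inr ⟨a1, a2, h1, by linarith, a5⟩
  refine (sum_le_sum_of_subset_of_nonneg hsub (fun s _ _ => Nat.cast_nonneg _)).trans ?_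
  have h1 := sum_union_inter (s₁ := (H370.zeta_zeros_finite T).toFinset) (s₂ := hfin.toFinset)
    (f := fun s => (H370.mult riemannZeta s : ℝ))
  have h2 : 0 ≤ ∑ s ∈ (H370.zeta_zeros_finite T).toFinset ∩ hfin.toFinset,
      (H370.mult riemannZeta s : ℝ) := sum_nonneg fun _ _ => Nat.cast_nonneg _
  linarith

set_option maxHeartbeats 1000000 in
theorem zeta_count : ∃ C : ℝ, 0 < C ∧ ∀ T : ℝ, 1 ≤ T →
    ∑ s ∈ (H370.zeta_zeros_finite T).toFinset, (H370.mult riemannZeta s : ℝ) ≤ C * T ^ 2 := by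
  obtain ⟨C, hC, hz⟩ := zcount good_zeta
  set A : ℝ := fcount 3 + C with hA
  have hA0 : 0 < A := by
    have := fcount_nonneg 3
    linarith
  have key : ∀ n : ℕ, 1 ≤ n → fcount n ≤ A * (n : ℝ) ^ 2 := by
    intro n hn
    induction n, hn using Nat.le_induction with
    | base =>
      have h1 : fcount ((1 : ℕ) : ℝ) ≤ fcount 3 := fcount_mono (by norm_num)
      norm_num at h1 ⊢
      linarith
    | succ n hn ih =>
      have hnr : (1 : ℝ) ≤ n := by exact_mod_cast hn
      rcases Nat.lt_or_ge n 2 with h | h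
      · have h1 : fcount ((n + 1 : ℕ) : ℝ) ≤ fcount 3 := by
          apply fcount_mono
          have : n + 1 ≤ 3 := by omega
          exact_mod_cast this
        have h2 : (1 : ℝ) ≤ ((n + 1 : ℕ) : ℝ) ^ 2 := by
          push_cast
          nlinarith
        nlinarith
      · have h2r : (2 : ℝ) ≤ n := by exact_mod_cast h
        have h1 := fcount_succ (T := (n : ℝ)) hnr
        have h3 := hz ((n : ℝ) + 1) (by linarith)
        rw [show (n : ℝ) + 1 - 1 = n by ring, show (n : ℝ) + 1 + 1 = n + 2 by ring] at h3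
        have h4 : Real.log ((n : ℝ) + 1) ≤ n + 1 := by
          have := Real.log_le_sub_one_of_pos (show (0 : ℝ) < n + 1 by linarith)
          linarith
        have h5 : C * Real.log ((n : ℝ) + 1) ≤ C * (n + 1) := by gcongr
        have h6 : C ≤ A := by
          have := fcount_nonneg 3
          linarith
        push_cast
        have h7 : C * ((n : ℝ) + 1) ≤ A * (n + 1) := by gcongr
        nlinarith
  refine ⟨4 * A, by linarith, fun T hT => ?_⟩
  have h1 : fcount T ≤ fcount (⌈T⌉₊ : ℝ) := fcount_mono (Nat.le_ceil T)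
  have h2 := key ⌈T⌉₊ (Nat.one_le_ceil_iff.2 (by linarith))
  have h3 : (⌈T⌉₊ : ℝ) ≤ 2 * T := by
    have := Nat.ceil_lt_add_one (show 0 ≤ T by linarith)
    linarith
  have h4 : (⌈T⌉₊ : ℝ) ^ 2 ≤ (2 * T) ^ 2 := by gcongr
  change fcount T ≤ _
  nlinarith

set_option maxHeartbeats 1000000 in
theorem zeta_block (b : ℝ) (hb : 0 < b) (J : ℕ) : ∃ T0 : ℝ, 2 ≤ T0 ∧ ∀ T V U1 U2 u t : ℝ,
    T0 ≤ T → T ≤ 2 ^ J * V → 2 * V ≤ T → V ≤ U1 → U1 ≤ V + 1 → 2 * V - 1 ≤ U2 → U2 ≤ 2 * V →
    0 ≤ u → u ≤ 2 * Real.log T → V + Real.log V ≤ t → t ≤ 2 * V - Real.log V →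
    ‖GGb b u t (H370.zeta_zeros_finite T).toFinset (fun s => (H370.mult riemannZeta s : ℝ)) -
      AAb b riemannZeta U1 U2 u t‖ ≤ 1 := by
  classical
  obtain ⟨C, hC, hcount⟩ := zeta_count
  set J' : ℝ := J * Real.log 2 + 1 with hJ'
  have hlog2 : 0 < Real.log 2 := Real.log_pos (by norm_num)
  have hJ'1 : 1 ≤ J' := by
    have : 0 ≤ (J : ℝ) * Real.log 2 := by positivity
    linarith
  set L0 : ℝ := 2 * J' + 8 * (3 + b / 8 + |Real.log C|) / b with hL0
  have hq : 0 ≤ 8 * (3 + b / 8 + |Real.log C|) / b := by positivity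
  refine ⟨Real.exp L0, ?_, fun T V U1 U2 u t hT hTV hVT hU1 hU1' hU2 hU2' hu0 hu ht1 ht2 => ?_⟩
  · have h1 : (2 : ℝ) ≤ L0 := by linarith
    have h2 := Real.add_one_le_exp L0
    linarith
  -- basic facts
  have hTpos : 0 < T := (Real.exp_pos _).trans_le hT
  have hlogT : L0 ≤ Real.log T := by
    rw [Real.le_log_iff_exp_le hTpos]
    exact hT
  have hVpos : 0 < V := by
    by_contra h
    push Not at h
    have : (2 : ℝ) ^ J * V ≤ 0 := mul_nonpos_of_nonneg_of_nonpos (by positivity) h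
    linarith
  have hlogV : Real.log T - J * Real.log 2 ≤ Real.log V := by
    have h1 : Real.log T ≤ Real.log (2 ^ J * V) := Real.log_le_log hTpos hTV
    rw [Real.log_mul (by positivity) hVpos.ne', Real.log_pow] at h1
    linarith
  set L := Real.log T with hL
  have hd : L / 2 ≤ Real.log V - 1 := by
    have : 2 * J' ≤ L := by linarith
    linarith
  have hL2 : 2 ≤ L := by linarith
  have hT1 : 1 ≤ T := by
    have h2 := Real.add_one_le_exp L0
    linarith
  have hV1 : 1 ≤ V := by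
    by_contra h
    push Not at h
    have : Real.log V ≤ 0 := Real.log_nonpos hVpos.le h.le
    linarith
  -- the difference
  have hfin := zset_finite good_zeta U1 U2 (hV1.trans hU1)
  have hAA : AAb b riemannZeta U1 U2 u t =
      ∑ s ∈ hfin.toFinset, (mult riemannZeta s : ℂ) * hhb b u t s := by
    unfold AAb
    exact finsum_mem_eq_finite_toFinset_sum _ hfin
  have hsub : hfin.toFinset ⊆ (H370.zeta_zeros_finite T).toFinset := by
    intro s hs
    rw [Set.Finite.mem_toFinset] at hs ⊢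
    obtain ⟨a1, a2, a3, a4, a5⟩ := hs
    exact ⟨a1, a2, by linarith, by linarith, a5⟩
  have hdiff : GGb b u t (H370.zeta_zeros_finite T).toFinset
        (fun s => (H370.mult riemannZeta s : ℝ)) - AAb b riemannZeta U1 U2 u t =
      ∑ s ∈ (H370.zeta_zeros_finite T).toFinset \ hfin.toFinset,
        (mult riemannZeta s : ℂ) * hhb b u t s := by
    rw [hAA, sub_eq_iff_eq_add, sum_sdiff hsub]
    unfold GGb
    simp only [Complex.ofReal_natCast]
  rw [hdiff]
  have hbound : ∀ s ∈ (H370.zeta_zeros_finite T).toFinset \ hfin.toFinset,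
      ‖(mult riemannZeta s : ℂ) * hhb b u t s‖ ≤
        (mult riemannZeta s : ℝ) * (T * Real.exp (b / 8 - b * (L / 2) ^ 2 / 2)) := by
    intro s hs
    rw [mem_sdiff, Set.Finite.mem_toFinset, Set.Finite.mem_toFinset] at hs
    obtain ⟨⟨a1, a2, a3, a4, a5⟩, hns⟩ := hs
    have hout : s.im ≤ U1 ∨ U2 < s.im := by
      by_contra h
      push Not at h
      exact hns ⟨a1, a2, h.1, h.2, a5⟩
    have hdist : (L / 2) ^ 2 ≤ (s.im - t) ^ 2 := by
      rcases hout with h | h
      · have : L / 2 ≤ t - s.im := by linarith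
        nlinarith
      · have : L / 2 ≤ s.im - t := by linarith
        nlinarith
    rw [norm_mul, Complex.norm_natCast]
    apply mul_le_mul_of_nonneg_left _ (Nat.cast_nonneg _)
    have hs' : s = (⟨s.re, s.im⟩ : ℂ) := rfl
    rw [hs', norm_hhb]
    have e1 : Real.exp (u * (s.re - 1 / 2)) ≤ T := by
      have h1 : u * (s.re - 1 / 2) ≤ L := by nlinarith
      calc Real.exp (u * (s.re - 1 / 2)) ≤ Real.exp L := Real.exp_le_exp.2 h1
        _ = T := Real.exp_log hTpos
    have e2 : Real.exp (b * ((s.re - 1 / 2) ^ 2 - (s.im - t) ^ 2) / 2) ≤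
        Real.exp (b / 8 - b * (L / 2) ^ 2 / 2) := by
      apply Real.exp_le_exp.2
      have h1 : (s.re - 1 / 2) ^ 2 ≤ 1 / 4 := by nlinarith
      have h2 : b * (s.re - 1 / 2) ^ 2 ≤ b * (1 / 4) := by gcongr
      have h3 : b * (L / 2) ^ 2 ≤ b * (s.im - t) ^ 2 := by gcongr
      linarith
    exact mul_le_mul e1 e2 (Real.exp_pos _).le hTpos.le
  refine (norm_sum_le_of_le _ hbound).trans ?_
  rw [← sum_mul]
  have h1 : ∑ s ∈ (H370.zeta_zeros_finite T).toFinset \ hfin.toFinset,
      (mult riemannZeta s : ℝ) ≤ C * T ^ 2 := by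
    refine le_trans ?_ (hcount T hT1)
    apply sum_le_sum_of_subset_of_nonneg sdiff_subset
    intro s _ _
    exact Nat.cast_nonneg _
  have h2 : (0 : ℝ) ≤ T * Real.exp (b / 8 - b * (L / 2) ^ 2 / 2) := by positivity
  refine (mul_le_mul_of_nonneg_right h1 h2).trans ?_
  have h3 : C * T ^ 2 * (T * Real.exp (b / 8 - b * (L / 2) ^ 2 / 2)) =
      Real.exp (Real.log C + 3 * L + (b / 8 - b * (L / 2) ^ 2 / 2)) := by
    rw [Real.exp_add, Real.exp_add, Real.exp_log hC]
    have : Real.exp (3 * L) = T ^ 3 := by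
      rw [show (3 : ℝ) * L = ((3 : ℕ) : ℝ) * L by norm_num, Real.exp_nat_mul, Real.exp_log hTpos]
    rw [this]
    ring
  rw [h3]
  rw [show (1 : ℝ) = Real.exp 0 by simp]
  apply Real.exp_le_exp.2
  have h4 : 8 * (3 + b / 8 + |Real.log C|) / b ≤ L := by linarith
  rw [div_le_iff₀ hb] at h4
  have h5 := le_abs_self (Real.log C)
  have h6 : |Real.log C| ≤ |Real.log C| * L := by
    have := abs_nonneg (Real.log C)
    nlinarith
  have h7 : b / 8 ≤ b / 8 * L := by nlinarith
  have h8 : 8 * (3 + b / 8 + |Real.log C|) * L ≤ L * b * L :=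
    mul_le_mul_of_nonneg_right h4 (by linarith)
  have h9 : b * (L / 2) ^ 2 / 2 = L * b * L / 8 := by ring
  have h10 : 8 * (3 + b / 8 + |Real.log C|) * L =
      8 * (3 * L + b / 8 * L + |Real.log C| * L) := by ring
  rw [h9]
  rw [h10] at h8
  linarith

end H343
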