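import Pool.Agent.H343R2.ZDefs

/-! # TEAM P, zero side 1: Gaussian and Montgomery pair sums (task 17) -/

open Finset MeasureTheory Complex

namespace H343

/-- the product of two Gaussian factors as a single exponential of a quadratic -/
lemma hhb_mul_conj (b u t : ℝ) (s s' : ℂ) :
    hhb b u t s * (starRingEnd ℂ) (hhb b u t s') =
      cexp ((-(b : ℂ)) * (t : ℂ) ^ 2 +
        ((b : ℂ) * I * (((starRingEnd ℂ) s' - 1 / 2) - (s - 1 / 2))) * (t : ℂ) +
        ((b : ℂ) * ((s - 1 / 2) ^ 2 + ((starRingEnd ℂ) s' - 1 / 2) ^ 2) / 2 +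
          (u : ℂ) * (s + (starRingEnd ℂ) s' - 1))) := by
  unfold hhb
  rw [map_mul, ← Complex.exp_conj, ← Complex.exp_conj, ← Complex.exp_add, ← Complex.exp_add,
    ← Complex.exp_add]
  congr 1
  simp only [map_mul, map_sub, map_div₀, map_pow, map_one, map_ofNat, Complex.conj_ofReal,
    Complex.conj_I]
  linear_combination (-(b : ℂ) * (t : ℂ) ^ 2) * Complex.I_sq * (-1)

lemma normSq_GGb (b u t : ℝ) (Z : Finset ℂ) (m : ℂ → ℝ) :
    ((‖GGb b u t Z m‖ ^ 2 : ℝ) : ℂ) =
      ∑ s ∈ Z, ∑ s' ∈ Z, ((m s * m s' : ℝ) : ℂ) *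
        (hhb b u t s * (starRingEnd ℂ) (hhb b u t s')) := by
  rw [← Complex.normSq_eq_norm_sq, Complex.normSq_eq_conj_mul_self, mul_comm]
  unfold GGb
  rw [map_sum, Finset.sum_mul_sum]
  refine Finset.sum_congr rfl fun s _ => Finset.sum_congr rfl fun s' _ => ?_
  rw [map_mul, Complex.conj_ofReal]
  push_cast
  ring

theorem pair_gauss (b u : ℝ) (hb : 0 < b) (Z : Finset ℂ) (m : ℂ → ℝ) :
    MeasureTheory.Integrable (fun t : ℝ => ‖GGb b u t Z m‖ ^ 2) ∧
    PPair (kG b) u Z m = ((Real.sqrt (b / Real.pi) * ∫ t : ℝ, ‖GGb b u t Z m‖ ^ 2 : ℝ) : ℂ) := by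
  have hbre : (-(b : ℂ)).re < 0 := by simpa using hb
  have hb0 : (b : ℂ) ≠ 0 := by exact_mod_cast hb.ne'
  have hterm : ∀ s s' : ℂ, Integrable (fun t : ℝ => ((m s * m s' : ℝ) : ℂ) *
        (hhb b u t s * (starRingEnd ℂ) (hhb b u t s'))) := by
    intro s s'
    apply Integrable.const_mul
    simp_rw [hhb_mul_conj]
    exact integrable_cexp_quadratic' hbre _ _
  have hint : Integrable (fun t : ℝ => ((‖GGb b u t Z m‖ ^ 2 : ℝ) : ℂ)) := by
    simp_rw [normSq_GGb]
    exact integrable_finsetSum _ fun s _ => integrable_finsetSum _ fun s' _ => hterm s s'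
  refine ⟨?_, ?_⟩
  · exact hint.re
  · have h1 : ((∫ t : ℝ, ‖GGb b u t Z m‖ ^ 2 : ℝ) : ℂ) =
        ∑ s ∈ Z, ∑ s' ∈ Z, ((m s * m s' : ℝ) : ℂ) *
          ((Real.sqrt (Real.pi / b) : ℂ) * (cexp (u * (s + (starRingEnd ℂ) s' - 1)) *
            kG b (s + (starRingEnd ℂ) s' - 1))) := by
      rw [← integral_complex_ofReal]
      simp_rw [normSq_GGb]
      rw [integral_finsetSum _ fun s _ => integrable_finsetSum _ fun s' _ => hterm s s']
      refine Finset.sum_congr rfl fun s _ => ?_
      rw [integral_finsetSum _ fun s' _ => hterm s s']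
      refine Finset.sum_congr rfl fun s' _ => ?_
      rw [integral_const_mul]
      congr 1
      simp_rw [hhb_mul_conj]
      rw [integral_cexp_quadratic hbre, neg_neg]
      congr 1
      · rw [Real.sqrt_eq_rpow, Complex.ofReal_cpow (by positivity)]
        push_cast
        rfl
      · unfold kG
        rw [← Complex.exp_add]
        congr 1
        field_simp
        ring_nf
        simp only [Complex.I_sq]
        ring
    have h2 : Real.sqrt (b / Real.pi) * Real.sqrt (Real.pi / b) = 1 := by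
      rw [← Real.sqrt_mul (by positivity)]
      rw [show b / Real.pi * (Real.pi / b) = 1 by field_simp]
      exact Real.sqrt_one
    have h2' : (Real.sqrt (b / Real.pi) : ℂ) * (Real.sqrt (Real.pi / b) : ℂ) = 1 := by
      exact_mod_cast h2
    rw [Complex.ofReal_mul, h1]
    unfold PPair
    rw [Finset.mul_sum]
    refine Finset.sum_congr rfl fun s _ => ?_
    rw [Finset.mul_sum]
    refine Finset.sum_congr rfl fun s' _ => ?_
    linear_combination (-(((m s * m s' : ℝ) : ℂ) *
      (cexp (u * (s + (starRingEnd ℂ) s' - 1)) * kG b (s + (starRingEnd ℂ) s' - 1)))) * h2'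

lemma PPair_kG_nonneg (b u : ℝ) (hb : 0 < b) (Z : Finset ℂ) (m : ℂ → ℝ) :
    0 ≤ (PPair (kG b) u Z m).re := by
  rw [(pair_gauss b u hb Z m).2, Complex.ofReal_re]
  have : 0 ≤ ∫ t : ℝ, ‖GGb b u t Z m‖ ^ 2 := integral_nonneg fun t => by positivity
  positivity

lemma integrable_laplace (z : ℂ) (h1 : -2 < z.re) (h2 : z.re < 2) :
    Integrable (fun a : ℝ => ((Real.exp (-2 * |a|) : ℝ) : ℂ) * cexp (a * z)) ∧
    ∫ a : ℝ, ((Real.exp (-2 * |a|) : ℝ) : ℂ) * cexp (a * z) = 4 / (4 - z ^ 2) := by
  have hA : IntegrableOn (fun a : ℝ => ((Real.exp (-2 * |a|) : ℝ) : ℂ) * cexp (a * z))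
      (Set.Ioi 0) := by
    have := integrableOn_exp_mul_complex_Ioi (a := z - 2) (by simp; linarith) 0
    refine this.congr_fun (fun a ha => ?_) measurableSet_Ioi
    have ha' : 0 < a := ha
    simp only [abs_of_pos ha']
    push_cast
    rw [← Complex.exp_add]
    congr 1
    ring
  have hB : IntegrableOn (fun a : ℝ => ((Real.exp (-2 * |a|) : ℝ) : ℂ) * cexp (a * z))
      (Set.Iic 0) := by
    have := integrableOn_exp_mul_complex_Iic (a := z + 2) (by simp; linarith) 0
    refine this.congr_fun (fun a ha => ?_) measurableSet_Iic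
    have ha' : a ≤ 0 := ha
    simp only [abs_of_nonpos ha']
    push_cast
    rw [← Complex.exp_add]
    congr 1
    ring
  have hint : Integrable (fun a : ℝ => ((Real.exp (-2 * |a|) : ℝ) : ℂ) * cexp (a * z)) := by
    rw [← integrableOn_univ, ← Set.Iic_union_Ioi (a := (0 : ℝ))]
    exact hB.union hA
  refine ⟨hint, ?_⟩
  rw [← intervalIntegral.integral_Iic_add_Ioi hB hA]
  have e1 : ∫ a in Set.Iic (0 : ℝ), ((Real.exp (-2 * |a|) : ℝ) : ℂ) * cexp (a * z) =
      1 / (z + 2) := by
    rw [setIntegral_congr_fun (g := fun a : ℝ => cexp ((z + 2) * a)) measurableSet_Iic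
      (fun a ha => ?_)]
    · rw [integral_exp_mul_complex_Iic (by simp; linarith)]
      simp
    · have ha' : a ≤ 0 := ha
      simp only [abs_of_nonpos ha']
      push_cast
      rw [← Complex.exp_add]
      congr 1
      ring
  have e2 : ∫ a in Set.Ioi (0 : ℝ), ((Real.exp (-2 * |a|) : ℝ) : ℂ) * cexp (a * z) =
      - (1 / (z - 2)) := by
    rw [setIntegral_congr_fun (g := fun a : ℝ => cexp ((z - 2) * a)) measurableSet_Ioi
      (fun a ha => ?_)]
    · rw [integral_exp_mul_complex_Ioi (by simp; linarith)]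
      simp
      ring
    · have ha' : 0 < a := ha
      simp only [abs_of_pos ha']
      push_cast
      rw [← Complex.exp_add]
      congr 1
      ring
  rw [e1, e2]
  have n1 : z + 2 ≠ 0 := by
    intro h
    have := congrArg Complex.re h
    simp at this
    linarith
  have n2 : z - 2 ≠ 0 := by
    intro h
    have := congrArg Complex.re h
    simp at this
    linarith
  have n3 : (4 - z ^ 2 : ℂ) ≠ 0 := by
    have : (4 - z ^ 2 : ℂ) = -((z + 2) * (z - 2)) := by ring
    rw [this]
    exact neg_ne_zero.mpr (mul_ne_zero n1 n2)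
  field_simp
  ring

lemma integral_heat (b : ℝ) (z : ℂ) (h1 : -2 < z.re) (h2 : z.re < 2) :
    ∫ r in (0 : ℝ)..(b / 4), (4 * cexp (-4 * (r : ℂ)) * kG (4 * r) z) =
      4 / (4 - z ^ 2) - cexp (-b) * kG b z * (4 / (4 - z ^ 2)) := by
  have n1 : z + 2 ≠ 0 := by
    intro h
    have := congrArg Complex.re h
    simp at this
    linarith
  have n2 : z - 2 ≠ 0 := by
    intro h
    have := congrArg Complex.re h
    simp at this
    linarith
  have n3 : (4 - z ^ 2 : ℂ) ≠ 0 := by
    have : (4 - z ^ 2 : ℂ) = -((z + 2) * (z - 2)) := by ring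
    rw [this]
    exact neg_ne_zero.mpr (mul_ne_zero n1 n2)
  have n4 : (z ^ 2 - 4 : ℂ) ≠ 0 := by
    have : (z ^ 2 - 4 : ℂ) = -(4 - z ^ 2) := by ring
    rw [this]
    exact neg_ne_zero.mpr n3
  have e : ∀ r : ℝ, (4 * cexp (-4 * (r : ℂ)) * kG (4 * r) z) = 4 * cexp ((z ^ 2 - 4) * r) := by
    intro r
    unfold kG
    rw [mul_assoc, ← Complex.exp_add]
    congr 2
    push_cast
    ring
  simp_rw [e]
  rw [intervalIntegral.integral_const_mul, integral_exp_mul_complex n4]
  unfold kG
  rw [← Complex.exp_add]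
  have e3 : cexp ((z ^ 2 - 4) * ((b / 4 : ℝ) : ℂ)) = cexp (-(b : ℂ) + (b : ℂ) * z ^ 2 / 4) := by
    congr 1
    push_cast
    ring
  rw [e3]
  simp only [Complex.ofReal_zero, mul_zero, Complex.exp_zero]
  field_simp
  ring

theorem pair_W (b u A : ℝ) (hb : 0 < b) (hA : 0 ≤ A) (Z : Finset ℂ) (m : ℂ → ℝ)
    (hZ : ∀ s ∈ Z, 0 < s.re ∧ s.re < 1) :
    (PPair kW u Z m).im = 0 ∧
    Real.exp (-b) * (∫ a in (-A)..A, Real.exp (-2 * |a|) * (PPair (kG b) (u + a) Z m).re) ≤
      (PPair kW u Z m).re := by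
  have hz : ∀ s ∈ Z, ∀ s' ∈ Z, -2 < (s + (starRingEnd ℂ) s' - 1).re ∧
      (s + (starRingEnd ℂ) s' - 1).re < 2 := by
    intro s hs s' hs'
    have := hZ s hs
    have := hZ s' hs'
    simp only [Complex.sub_re, Complex.add_re, Complex.conj_re, Complex.one_re]
    constructor <;> linarith
  refine ⟨?_, ?_⟩
  · rw [← Complex.conj_eq_iff_im]
    unfold PPair
    conv_rhs => rw [Finset.sum_comm]
    simp_rw [map_sum]
    refine Finset.sum_congr rfl fun s _ => Finset.sum_congr rfl fun s' _ => ?_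
    unfold kW
    rw [map_mul, map_mul, ← Complex.exp_conj, Complex.conj_ofReal]
    simp only [map_mul, map_sub, map_add, map_div₀, map_pow, map_one, map_ofNat,
      Complex.conj_ofReal, Complex.conj_conj]
    rw [mul_comm (m s) (m s'), add_comm ((starRingEnd ℂ) s) s']
  · -- first integral identity
    have hI1 : Integrable (fun a : ℝ => ((Real.exp (-2 * |a|) : ℝ) : ℂ) *
        PPair (kG b) (u + a) Z m) ∧
        ∫ a : ℝ, ((Real.exp (-2 * |a|) : ℝ) : ℂ) * PPair (kG b) (u + a) Z m =
        ∑ s ∈ Z, ∑ s' ∈ Z, ((m s * m s' : ℝ) : ℂ) *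
          (cexp (u * (s + (starRingEnd ℂ) s' - 1)) * kG b (s + (starRingEnd ℂ) s' - 1) *
            kW (s + (starRingEnd ℂ) s' - 1)) := by
      have e : (fun a : ℝ => ((Real.exp (-2 * |a|) : ℝ) : ℂ) *
          PPair (kG b) (u + a) Z m) = fun a : ℝ => ∑ s ∈ Z, ∑ s' ∈ Z,
          (((m s * m s' : ℝ) : ℂ) * (cexp (u * (s + (starRingEnd ℂ) s' - 1)) *
            kG b (s + (starRingEnd ℂ) s' - 1))) * (((Real.exp (-2 * |a|) : ℝ) : ℂ) *
            cexp (a * (s + (starRingEnd ℂ) s' - 1))) := by
        funext a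
        unfold PPair
        rw [Finset.mul_sum]
        refine Finset.sum_congr rfl fun s _ => ?_
        rw [Finset.mul_sum]
        refine Finset.sum_congr rfl fun s' _ => ?_
        have : cexp (((u + a : ℝ) : ℂ) * (s + (starRingEnd ℂ) s' - 1)) =
            cexp (u * (s + (starRingEnd ℂ) s' - 1)) *
              cexp (a * (s + (starRingEnd ℂ) s' - 1)) := by
          rw [← Complex.exp_add]
          congr 1
          push_cast
          ring
        rw [this]
        ring
      have ht : ∀ s ∈ Z, ∀ s' ∈ Z, Integrable (fun a : ℝ =>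
          (((m s * m s' : ℝ) : ℂ) * (cexp (u * (s + (starRingEnd ℂ) s' - 1)) *
            kG b (s + (starRingEnd ℂ) s' - 1))) * (((Real.exp (-2 * |a|) : ℝ) : ℂ) *
            cexp (a * (s + (starRingEnd ℂ) s' - 1)))) := by
        intro s hs s' hs'
        exact (integrable_laplace _ (hz s hs s' hs').1 (hz s hs s' hs').2).1.const_mul _
      rw [e]
      refine ⟨integrable_finsetSum _ fun s hs => integrable_finsetSum _ fun s' hs' =>
        ht s hs s' hs', ?_⟩
      rw [integral_finsetSum _ fun s hs => integrable_finsetSum _ fun s' hs' => ht s hs s' hs']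
      refine Finset.sum_congr rfl fun s hs => ?_
      rw [integral_finsetSum _ fun s' hs' => ht s hs s' hs']
      refine Finset.sum_congr rfl fun s' hs' => ?_
      rw [integral_const_mul,
        (integrable_laplace _ (hz s hs s' hs').1 (hz s hs s' hs').2).2]
      unfold kW
      ring
    -- second integral identity
    have hI2 : ∫ r in (0 : ℝ)..(b / 4), (4 * cexp (-4 * (r : ℂ)) * PPair (kG (4 * r)) u Z m) =
        ∑ s ∈ Z, ∑ s' ∈ Z, ((m s * m s' : ℝ) : ℂ) *
          (cexp (u * (s + (starRingEnd ℂ) s' - 1)) *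
            (kW (s + (starRingEnd ℂ) s' - 1) - cexp (-b) * kG b (s + (starRingEnd ℂ) s' - 1) *
            kW (s + (starRingEnd ℂ) s' - 1))) := by
      have e : (fun r : ℝ => (4 * cexp (-4 * (r : ℂ)) * PPair (kG (4 * r)) u Z m)) =
          fun r : ℝ => ∑ s ∈ Z, ∑ s' ∈ Z,
          (((m s * m s' : ℝ) : ℂ) * cexp (u * (s + (starRingEnd ℂ) s' - 1))) *
            (4 * cexp (-4 * (r : ℂ)) * kG (4 * r) (s + (starRingEnd ℂ) s' - 1)) := by
        funext r
        unfold PPair
        rw [Finset.mul_sum]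
        refine Finset.sum_congr rfl fun s _ => ?_
        rw [Finset.mul_sum]
        refine Finset.sum_congr rfl fun s' _ => ?_
        ring
      have hc : ∀ s s' : ℂ, Continuous (fun r : ℝ =>
          (((m s * m s' : ℝ) : ℂ) * cexp (u * (s + (starRingEnd ℂ) s' - 1))) *
            (4 * cexp (-4 * (r : ℂ)) * kG (4 * r) (s + (starRingEnd ℂ) s' - 1))) := by
        intro s s'
        unfold kG
        fun_prop
      rw [e, intervalIntegral.integral_finsetSum fun s _ =>
        (continuous_finsetSum _ fun s' _ => hc s s').intervalIntegrable _ _]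
      refine Finset.sum_congr rfl fun s hs => ?_
      rw [intervalIntegral.integral_finsetSum fun s' _ => (hc s s').intervalIntegrable _ _]
      refine Finset.sum_congr rfl fun s' hs' => ?_
      rw [intervalIntegral.integral_const_mul,
        integral_heat b _ (hz s hs s' hs').1 (hz s hs s' hs').2]
      unfold kW
      ring
    -- combine
    have hcomb : PPair kW u Z m =
        cexp (-b) * (∫ a : ℝ, ((Real.exp (-2 * |a|) : ℝ) : ℂ) * PPair (kG b) (u + a) Z m) +
        ∫ r in (0 : ℝ)..(b / 4), (4 * cexp (-4 * (r : ℂ)) * PPair (kG (4 * r)) u Z m) := by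
      rw [hI1.2, hI2, Finset.mul_sum, ← Finset.sum_add_distrib]
      unfold PPair
      refine Finset.sum_congr rfl fun s _ => ?_
      rw [Finset.mul_sum, ← Finset.sum_add_distrib]
      refine Finset.sum_congr rfl fun s' _ => ?_
      ring
    have hre : ∀ x : ℂ, (cexp (-b) * x).re = Real.exp (-b) * x.re := by
      intro x
      rw [show cexp (-b) = ((Real.exp (-b) : ℝ) : ℂ) by push_cast; rfl, Complex.re_ofReal_mul]
    rw [hcomb, Complex.add_re, hre]
    have hint1 : Integrable (fun a : ℝ => Real.exp (-2 * |a|) *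
        (PPair (kG b) (u + a) Z m).re) := by
      refine hI1.1.re.congr (Filter.Eventually.of_forall fun a => ?_)
      simp only [RCLike.re_eq_complex_re, Complex.re_ofReal_mul]
    have h1 : (∫ a : ℝ, ((Real.exp (-2 * |a|) : ℝ) : ℂ) * PPair (kG b) (u + a) Z m).re =
        ∫ a : ℝ, Real.exp (-2 * |a|) * (PPair (kG b) (u + a) Z m).re := by
      have := integral_re hI1.1
      simp only [RCLike.re_eq_complex_re, Complex.re_ofReal_mul] at this
      exact this.symm
    have h2 : ∫ a in (-A)..A, Real.exp (-2 * |a|) * (PPair (kG b) (u + a) Z m).re ≤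
        ∫ a : ℝ, Real.exp (-2 * |a|) * (PPair (kG b) (u + a) Z m).re := by
      rw [intervalIntegral.integral_of_le (by linarith)]
      refine setIntegral_le_integral hint1 (Filter.Eventually.of_forall fun a => ?_)
      have := PPair_kG_nonneg b (u + a) hb Z m
      simp only [Pi.zero_apply]
      positivity
    have h3 : 0 ≤ (∫ r in (0 : ℝ)..(b / 4),
        (4 * cexp (-4 * (r : ℂ)) * PPair (kG (4 * r)) u Z m)).re := by
      have hcont : Continuous (fun r : ℝ =>
          (4 * cexp (-4 * (r : ℂ)) * PPair (kG (4 * r)) u Z m)) := by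
        unfold PPair kG
        fun_prop
      rw [intervalIntegral.integral_of_le (by linarith)]
      have hi : Integrable (fun r : ℝ =>
          (4 * cexp (-4 * (r : ℂ)) * PPair (kG (4 * r)) u Z m))
          (volume.restrict (Set.Ioc 0 (b / 4))) :=
        (hcont.intervalIntegrable 0 (b / 4)).1
      have := integral_re hi
      simp only [RCLike.re_eq_complex_re] at this
      rw [← this]
      refine setIntegral_nonneg measurableSet_Ioc fun r hr => ?_
      have h0 := PPair_kG_nonneg (4 * r) u (by linarith [hr.1]) Z m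
      rw [show (4 * cexp (-4 * (r : ℂ))) = ((4 * Real.exp (-4 * r) : ℝ) : ℂ) by push_cast; rfl,
        Complex.re_ofReal_mul]
      positivity
    have h4 : 0 < Real.exp (-b) := Real.exp_pos _
    rw [h1]
    have := mul_le_mul_of_nonneg_left h2 h4.le
    linarith

end H343
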