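import Pool.Agent.H343R2.PrimeSide
import Pool.Agent.H343R2.ZPair
import Pool.Agent.H343R2.ZCount

open Finset MeasureTheory Complex

namespace H343

namespace ZSide

/-- zeros with ordinate in `(0, T]` -/
noncomputable def Z0 (T : ℝ) : Finset ℂ := (H370.zeta_zeros_finite T).toFinset

/-- multiplicity -/
noncomputable def mz (s : ℂ) : ℝ := (H370.mult riemannZeta s : ℝ)

lemma norm_PPb (b u t : ℝ) :
    ‖PPb b (fun n => (ArithmeticFunction.vonMangoldt n : ℂ)) u t‖ = ‖AAt b (Real.exp u) t‖ := by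
  have h : PPb b (fun n => (ArithmeticFunction.vonMangoldt n : ℂ)) u t =
      cexp ((t * u : ℝ) * I) * AAt b (Real.exp u) t := by
    unfold PPb AAt
    rw [← tsum_mul_left]
    apply tsum_congr
    intro n
    have e1 : cexp (I * t * (u - Real.log n)) =
        cexp ((t * u : ℝ) * I) * cexp (-(t * Real.log n : ℝ) * I) := by
      rw [← Complex.exp_add]
      congr 1
      push_cast
      ring
    rw [e1, Real.log_exp]
    have e2 : -(u - Real.log n) ^ 2 / (2 * b) = -(Real.log n - u) ^ 2 / (2 * b) := by ring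
    rw [e2]
    push_cast
    ring
  rw [h, norm_mul, Complex.norm_exp_ofReal_mul_I, one_mul]

lemma GGb_cont (b u : ℝ) (Z : Finset ℂ) (m : ℂ → ℝ) : Continuous (fun t => GGb b u t Z m) := by
  unfold GGb hhb
  fun_prop

lemma block_ineq (b η : ℝ) (hb : 0 < b) (hη : 0 < η) : ∃ C : ℝ, 0 < C ∧ ∀ J : ℕ, ∃ T0 : ℝ,
    ∀ T V u : ℝ, T0 ≤ T → T ≤ 2 ^ J * V → 2 * V ≤ T → 1 / 2 * Real.log V ≤ u →
      u ≤ 2 * Real.log V →
      (1 / (1 + η)) * ((1 / (2 * Real.pi * b)) *
        (∫ t in (V + Real.log V)..(2 * V - Real.log V), ‖AAt b (Real.exp u) t‖ ^ 2) - C * V) ≤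
      ∫ t in (V + Real.log V)..(2 * V - Real.log V), ‖GGb b u t (Z0 T) mz‖ ^ 2 := by
  obtain ⟨C1, T1, hC1, hT1, hEF⟩ := explicit_formula_zeta H370.good_zeta 2 b (by norm_num) hb
  have hπ := Real.pi_pos
  set sq : ℝ := 1 / Real.sqrt (2 * Real.pi * b) with hsq
  have hsq0 : 0 < sq := by
    have : 0 < Real.sqrt (2 * Real.pi * b) := Real.sqrt_pos.2 (by positivity)
    positivity
  have hsq2 : sq ^ 2 = 1 / (2 * Real.pi * b) := by
    rw [hsq, div_pow, one_pow, Real.sq_sqrt (by positivity)]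
  set C' : ℝ := 1 + C1 + sq * (8 * b) with hC'
  have hC'0 : 0 < C' := by positivity
  refine ⟨(1 + 1 / η) * C' ^ 2, by positivity, ?_⟩
  intro J
  obtain ⟨T2, hT2, hblock⟩ := zeta_block b hb J
  refine ⟨max T2 (2 ^ J * (max T1 10)), ?_⟩
  intro T V u hT hTV hVT hu1 hu2
  have hTT2 : T2 ≤ T := (le_max_left _ _).trans hT
  have h2J : (0 : ℝ) < 2 ^ J := by positivity
  have hV : max T1 10 ≤ V := by
    have h1 : 2 ^ J * (max T1 10) ≤ 2 ^ J * V := ((le_max_right _ _).trans hT).trans hTV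
    exact le_of_mul_le_mul_left h1 h2J
  have hVT1 : T1 ≤ V := (le_max_left _ _).trans hV
  have hV10 : 10 ≤ V := (le_max_right _ _).trans hV
  have hV0 : 0 < V := by linarith
  have hlogV : 1 ≤ Real.log V := by
    rw [Real.le_log_iff_exp_le hV0]
    have := Real.exp_one_lt_d9
    linarith
  have hlogV2 : 2 * Real.log V ≤ V := by
    have h1 : Real.log V = 2 * Real.log (Real.sqrt V) := by
      rw [Real.log_sqrt hV0.le]; ring
    have h2 := Real.log_le_sub_one_of_pos (Real.sqrt_pos.2 hV0)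
    have h3 : Real.sqrt V * Real.sqrt V = V := Real.mul_self_sqrt hV0.le
    nlinarith [sq_nonneg (Real.sqrt V - 2)]
  have hu0 : 0 ≤ u := by linarith
  have hTlog : Real.log V ≤ Real.log T := Real.log_le_log hV0 (by linarith)
  obtain ⟨U1, U2, hU1, hU1', hU2, hU2', hef⟩ := hEF V hVT1
  have hpoint : ∀ t : ℝ, V + Real.log V ≤ t → t ≤ 2 * V - Real.log V →
      (1 / (1 + η)) * ((1 / (2 * Real.pi * b)) * ‖AAt b (Real.exp u) t‖ ^ 2 -
        (1 + 1 / η) * C' ^ 2) ≤ ‖GGb b u t (Z0 T) mz‖ ^ 2 := by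
    intro t ht1 ht2
    have h1 := hblock T V U1 U2 u t hTT2 hTV hVT hU1 hU1' hU2 hU2' hu0 (by linarith) ht1 ht2
    have h2 := hef u t hu0 hu2 ht1 ht2
    set G := GGb b u t (Z0 T) mz with hG
    set AB := AAb b riemannZeta U1 U2 u t with hAB
    set P := PPb b (fun n => (ArithmeticFunction.vonMangoldt n : ℂ)) u t with hP
    have h3 : ‖((sq : ℝ) : ℂ) * (Real.log V * cexp (I * u * t) * Real.exp (-u ^ 2 / (2 * b)))‖ ≤
        sq * (8 * b) := by
      have e0 : ‖cexp (I * u * t)‖ = 1 := by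
        rw [show I * (u : ℂ) * t = ((u * t : ℝ) : ℂ) * I by push_cast; ring,
          Complex.norm_exp_ofReal_mul_I]
      rw [norm_mul, norm_mul, norm_mul, e0, Complex.norm_real, Complex.norm_real,
        Complex.norm_real, Real.norm_of_nonneg hsq0.le, Real.norm_of_nonneg (by linarith),
        Real.norm_of_nonneg (Real.exp_pos _).le, mul_one]
      apply mul_le_mul_of_nonneg_left _ hsq0.le
      have e1 : Real.exp (-u ^ 2 / (2 * b)) ≤ 8 * b / (Real.log V) ^ 2 := by
        have e2 : (Real.log V) ^ 2 / (8 * b) ≤ u ^ 2 / (2 * b) := by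
          rw [div_le_div_iff₀ (by positivity) (by positivity)]
          have e2' : (Real.log V) ^ 2 ≤ 4 * u ^ 2 := by nlinarith
          have e2'' := mul_le_mul_of_nonneg_right e2' (show 0 ≤ 2 * b by positivity)
          linarith
        have e3 : Real.exp (-u ^ 2 / (2 * b)) ≤ Real.exp (-((Real.log V) ^ 2 / (8 * b))) := by
          apply Real.exp_le_exp.2
          rw [neg_div]
          linarith
        refine e3.trans ?_
        rw [Real.exp_neg, show 8 * b / (Real.log V) ^ 2 = ((Real.log V) ^ 2 / (8 * b))⁻¹ by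
          rw [inv_div]]
        apply inv_anti₀ (by positivity)
        have := Real.add_one_le_exp ((Real.log V) ^ 2 / (8 * b))
        linarith
      calc Real.log V * Real.exp (-u ^ 2 / (2 * b)) ≤ Real.log V * (8 * b / (Real.log V) ^ 2) := by
            gcongr
        _ = 8 * b / Real.log V := by field_simp
        _ ≤ 8 * b := div_le_self (by positivity) hlogV
    have h4 : sq * ‖AAt b (Real.exp u) t‖ ≤ ‖G‖ + C' := by
      have e1 : ((sq : ℝ) : ℂ) * P = ((sq : ℝ) : ℂ) * (Real.log V * cexp (I * u * t) *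
          Real.exp (-u ^ 2 / (2 * b))) - G + (G - AB) + (AB - ((sq : ℝ) : ℂ) *
          (Real.log V * cexp (I * u * t) * Real.exp (-u ^ 2 / (2 * b)) - P)) := by ring
      have e2 : sq * ‖AAt b (Real.exp u) t‖ = ‖((sq : ℝ) : ℂ) * P‖ := by
        rw [norm_mul, Complex.norm_real, Real.norm_of_nonneg hsq0.le, hP, norm_PPb]
      have e3 : C1 * Real.exp (-u) ≤ C1 := by
        have : Real.exp (-u) ≤ 1 := Real.exp_le_one_iff.2 (by linarith)
        nlinarith
      have h1' : ‖G - AB‖ ≤ 1 := h1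
      rw [e2, e1]
      refine (norm_add_le _ _).trans ?_
      refine (add_le_add (norm_add_le _ _) le_rfl).trans ?_
      refine (add_le_add (add_le_add (norm_sub_le _ _) le_rfl) le_rfl).trans ?_
      rw [hC']
      linarith
    have hG0 : 0 ≤ ‖G‖ := norm_nonneg _
    have hA0 : 0 ≤ ‖AAt b (Real.exp u) t‖ := norm_nonneg _
    have h5 : (1 / (2 * Real.pi * b)) * ‖AAt b (Real.exp u) t‖ ^ 2 ≤
        (1 + η) * ‖G‖ ^ 2 + (1 + 1 / η) * C' ^ 2 := by
      rw [← hsq2, ← mul_pow]
      calc (sq * ‖AAt b (Real.exp u) t‖) ^ 2 ≤ (‖G‖ + C') ^ 2 := by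
            gcongr
        _ ≤ (1 + η) * ‖G‖ ^ 2 + (1 + 1 / η) * C' ^ 2 := by
            have e4 : (1 + η) * ‖G‖ ^ 2 + (1 + 1 / η) * C' ^ 2 - (‖G‖ + C') ^ 2 =
                (η * ‖G‖ - C') ^ 2 / η := by
              field_simp; ring
            have e5 : 0 ≤ (η * ‖G‖ - C') ^ 2 / η := by positivity
            linarith
    rw [one_div, inv_mul_le_iff₀ (by positivity)]
    linarith
  have hle : V + Real.log V ≤ 2 * V - Real.log V := by linarith
  have hAc : Continuous (fun t => ‖AAt b (Real.exp u) t‖ ^ 2) :=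
    ((AAt_cont b (Real.exp u) hb (Real.one_le_exp hu0)).norm).pow 2
  have hGc : Continuous (fun t => ‖GGb b u t (Z0 T) mz‖ ^ 2) :=
    ((GGb_cont b u (Z0 T) mz).norm).pow 2
  have hint : ∫ t in (V + Real.log V)..(2 * V - Real.log V), (1 / (1 + η)) *
      ((1 / (2 * Real.pi * b)) * ‖AAt b (Real.exp u) t‖ ^ 2 - (1 + 1 / η) * C' ^ 2) ≤
      ∫ t in (V + Real.log V)..(2 * V - Real.log V), ‖GGb b u t (Z0 T) mz‖ ^ 2 := by
    apply intervalIntegral.integral_mono_on hle
    · exact (continuous_const.mul ((continuous_const.mul hAc).sub continuous_const)).intervalIntegrable _ _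
    · exact hGc.intervalIntegrable _ _
    · intro t ht
      exact hpoint t ht.1 ht.2
  refine le_trans ?_ hint
  have e8 : ∫ t in (V + Real.log V)..(2 * V - Real.log V),
      ((1 / (2 * Real.pi * b)) * ‖AAt b (Real.exp u) t‖ ^ 2 - (1 + 1 / η) * C' ^ 2) =
      (1 / (2 * Real.pi * b)) *
        (∫ t in (V + Real.log V)..(2 * V - Real.log V), ‖AAt b (Real.exp u) t‖ ^ 2) -
      (2 * V - Real.log V - (V + Real.log V)) * ((1 + 1 / η) * C' ^ 2) := by
    rw [intervalIntegral.integral_sub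
      (f := fun t => (1 / (2 * Real.pi * b)) * ‖AAt b (Real.exp u) t‖ ^ 2)
      (g := fun _ => (1 + 1 / η) * C' ^ 2)
      ((continuous_const.mul hAc).intervalIntegrable _ _) (continuous_const.intervalIntegrable _ _),
      intervalIntegral.integral_const_mul, intervalIntegral.integral_const, smul_eq_mul]
  rw [intervalIntegral.integral_const_mul, e8]
  have h6 : (2 * V - Real.log V - (V + Real.log V)) * ((1 + 1 / η) * C' ^ 2) ≤
      (1 + 1 / η) * C' ^ 2 * V := by
    have : 0 ≤ (1 + 1 / η) * C' ^ 2 := by positivity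
    nlinarith
  have h7 : 0 ≤ 1 / (1 + η) := by positivity
  apply mul_le_mul_of_nonneg_left _ h7
  linarith

/-- dyadic blocks -/
lemma sum_blocks (f : ℝ → ℝ) (hf : Continuous f) (hf0 : ∀ t, 0 ≤ f t) (hfi : Integrable f)
    (T : ℝ) (hT : 0 < T) (J : ℕ) :
    ∑ j ∈ range J, (∫ t in (T / 2 ^ (j + 1))..(2 * (T / 2 ^ (j + 1))), f t) ≤ ∫ t, f t := by
  have h1 : ∑ j ∈ range J, (∫ t in (T / 2 ^ (j + 1))..(2 * (T / 2 ^ (j + 1))), f t) =
      ∫ t in (T / 2 ^ J)..T, f t := by
    induction J with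
    | zero => simp
    | succ J ih =>
      rw [sum_range_succ, ih]
      have h2 : 2 * (T / 2 ^ (J + 1)) = T / 2 ^ J := by
        rw [pow_succ]; field_simp
      rw [h2, add_comm]
      exact intervalIntegral.integral_add_adjacent_intervals (hf.intervalIntegrable _ _)
        (hf.intervalIntegrable _ _)
  rw [h1]
  have h2 : T / 2 ^ J ≤ T := div_le_self hT.le (one_le_pow₀ (by norm_num))
  rw [intervalIntegral.integral_of_le h2]
  exact setIntegral_le_integral hfi (Filter.Eventually.of_forall hf0)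

lemma sum_V (T : ℝ) (J : ℕ) : ∑ j ∈ range J, T / 2 ^ (j + 1) = T * (1 - 1 / 2 ^ J) := by
  induction J with
  | zero => simp
  | succ J ih =>
    rw [sum_range_succ, ih, pow_succ]
    field_simp
    ring

theorem gauss_lower (δ A : ℝ) (hδ : 0 < δ) (hδ1 : δ ≤ 1) (hA : 0 ≤ A) : ∃ b : ℝ, 0 < b ∧
    b ≤ δ / 4 ∧ ∃ T0 : ℝ, 1 ≤ T0 ∧ ∀ T α a : ℝ, T0 ≤ T → 1 ≤ α → 4 * δ ≤ 3 / 2 - α → |a| ≤ A →
      (3 / 2 - α - 4 * δ) * (T / (2 * Real.pi) * Real.log T) ≤
        (PPair (kG b) (α * Real.log T + a) (Z0 T) mz).re := by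
  obtain ⟨b0, hb0, hps⟩ := prime_side δ hδ
  set b : ℝ := min b0 (δ / 4) with hbdef
  have hb : 0 < b := lt_min hb0 (by positivity)
  have hπ := Real.pi_pos
  refine ⟨b, hb, min_le_right _ _, ?_⟩
  obtain ⟨T1, hT1⟩ := hps b hb (min_le_left _ _)
  obtain ⟨C, hC, hblk⟩ := block_ineq b (δ / 4) hb (by positivity)
  set J : ℕ := ⌈4 / δ⌉₊ with hJ
  have hJ1 : 4 / δ ≤ J := Nat.le_ceil _
  have hJ2 : (1 : ℝ) / 2 ^ J ≤ δ / 4 := by
    have h1 : (J : ℝ) ≤ 2 ^ J := by exact_mod_cast (Nat.lt_two_pow_self (n := J)).le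
    rw [div_le_iff₀ (by positivity)]
    rw [div_le_iff₀ hδ] at hJ1
    nlinarith
  obtain ⟨T2, hT2⟩ := hblk J
  set K : ℝ := 2 * Real.pi * (C * Real.sqrt (b / Real.pi)) with hK
  have hK0 : 0 ≤ K := by positivity
  set M : ℝ := (A + 3 * J + K + 1) / δ + (A / b0 + J) + 2 * A + 1 with hM
  have hJ0 : (0 : ℝ) ≤ J := Nat.cast_nonneg _
  obtain ⟨T3, hT3⟩ := Filter.eventually_atTop.1 (Real.tendsto_log_atTop.eventually_ge_atTop M)
  refine ⟨max (max T2 (2 ^ J * T1)) (max T3 1), (le_max_right _ _).trans (le_max_right _ _), ?_⟩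
  intro T α a hT hα hg ha
  have hTT2 : T2 ≤ T := ((le_max_left _ _).trans (le_max_left _ _)).trans hT
  have hTT1 : 2 ^ J * T1 ≤ T := ((le_max_right _ _).trans (le_max_left _ _)).trans hT
  have hL := hT3 T (((le_max_left _ _).trans (le_max_right _ _)).trans hT)
  have hT1' : 1 ≤ T := ((le_max_right _ _).trans (le_max_right _ _)).trans hT
  have hT0 : 0 < T := by linarith
  set L := Real.log T with hLdef
  have hq1 : 0 ≤ (A + 3 * J + K + 1) / δ := by positivity
  have hq2 : 0 ≤ A / b0 := by positivity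
  have hL1 : (A + 3 * J + K + 1) / δ ≤ L := by linarith
  rw [div_le_iff₀ hδ] at hL1
  have hL2 : A / b0 ≤ L - J := by linarith
  rw [div_le_iff₀ hb0] at hL2
  have hL3 : 2 * A + 1 ≤ L := by linarith
  have hL4 : J + 1 ≤ L := by linarith
  set u := α * L + a with hu
  have ha1 := (abs_le.1 ha).1
  have ha2 := (abs_le.1 ha).2
  have hul : L - A ≤ u := by rw [hu]; nlinarith
  have huu : u ≤ α * L + A := by rw [hu]; linarith
  obtain ⟨hint, hpg⟩ := pair_gauss b u hb (Z0 T) mz
  rw [hpg, Complex.ofReal_re]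
  set G : ℝ → ℝ := fun t => ‖GGb b u t (Z0 T) mz‖ ^ 2 with hG
  have hGc : Continuous G := ((GGb_cont b u (Z0 T) mz).norm).pow 2
  have hG0 : ∀ t, 0 ≤ G t := fun t => by positivity
  set g : ℝ := 3 / 2 - α - 2 * δ with hgdef
  have hg1 : 2 * δ ≤ g := by rw [hgdef]; linarith
  have hg2 : g ≤ 1 / 2 := by rw [hgdef]; linarith
  set sbp := Real.sqrt (b / Real.pi) with hsbp
  have hsbp0 : 0 ≤ sbp := Real.sqrt_nonneg _
  have hsb : sbp * Real.sqrt (Real.pi * b) = b := by
    rw [hsbp, ← Real.sqrt_mul (by positivity)]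
    rw [show b / Real.pi * (Real.pi * b) = b ^ 2 by field_simp, Real.sqrt_sq hb.le]
  -- one block
  have hone : ∀ j ∈ range J, (1 / (1 + δ / 4)) * ((g * (L - J) - K) / (2 * Real.pi)) *
      (T / 2 ^ (j + 1)) ≤
      sbp * ∫ t in (T / 2 ^ (j + 1))..(2 * (T / 2 ^ (j + 1))), G t := by
    intro j hj
    rw [mem_range] at hj
    set V := T / 2 ^ (j + 1) with hV
    have hp : (1 : ℝ) ≤ 2 ^ (j + 1) := one_le_pow₀ (by norm_num)
    have hp2 : (2 : ℝ) ^ (j + 1) ≤ 2 ^ J := pow_le_pow_right₀ (by norm_num) (by omega)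
    have hV0 : 0 < V := by positivity
    have hVT : V * 2 ^ (j + 1) = T := by rw [hV]; field_simp
    have hVT1 : T ≤ 2 ^ J * V := by
      rw [← hVT, mul_comm]
      gcongr
    have hVT2 : 2 * V ≤ T := by
      rw [← hVT, pow_succ]
      have : (1 : ℝ) ≤ 2 ^ j := one_le_pow₀ (by norm_num)
      nlinarith
    have hlogV : Real.log V = L - (j + 1) * Real.log 2 := by
      rw [hV, Real.log_div hT0.ne' (by positivity), Real.log_pow]
      push_cast
      ring
    have hln2 : Real.log 2 ≤ 1 := by have := Real.log_two_lt_d9; linarith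
    have hln2' : 0 < Real.log 2 := Real.log_pos (by norm_num)
    have hjJ : (j : ℝ) + 1 ≤ J := by exact_mod_cast hj
    have hlV1 : L - J ≤ Real.log V := by
      rw [hlogV]
      have : ((j : ℝ) + 1) * Real.log 2 ≤ J * 1 := by gcongr
      linarith
    have hlV2 : Real.log V ≤ L := by
      rw [hlogV]
      have : 0 ≤ ((j : ℝ) + 1) * Real.log 2 := by positivity
      linarith
    have hlV0 : 0 < Real.log V := by linarith
    have hVT3 : T1 ≤ V := by
      have h1 : 2 ^ J * T1 ≤ 2 ^ J * V := hTT1.trans hVT1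
      exact le_of_mul_le_mul_left h1 (by positivity)
    have hc1 : (1 - b0) * Real.log V ≤ u := by
      have h1 : (L - J) * b0 ≤ Real.log V * b0 := by gcongr
      nlinarith
    have hc2 : u ≤ 3 / 2 * Real.log V := by
      have h1 : α * L ≤ (3 / 2 - 4 * δ) * L := by
        apply mul_le_mul_of_nonneg_right _ (by linarith)
        linarith
      nlinarith
    have hc3 : max 1 (u / Real.log V) ≤ α + δ := by
      apply max_le (by linarith)
      rw [div_le_iff₀ hlV0]
      have h1 : (α + δ) * (L - J) ≤ (α + δ) * Real.log V := by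
        apply mul_le_mul_of_nonneg_left hlV1 (by linarith)
      have h2 : (α + δ) * J ≤ 3 * J := by
        apply mul_le_mul_of_nonneg_right _ hJ0
        linarith
      nlinarith
    have h1 := hT1 V u hVT3 hc1 hc2
    have h2 := hT2 T V u hTT2 hVT1 hVT2 (by linarith) (by linarith)
    set IA := ∫ t in (V + Real.log V)..(2 * V - Real.log V), ‖AAt b (Real.exp u) t‖ ^ 2 with hIA
    have h3 : g * Real.sqrt (Real.pi * b) * (V * (L - J)) ≤ IA := by
      refine le_trans ?_ h1
      have h4 : g ≤ 3 / 2 - max 1 (u / Real.log V) - δ := by rw [hgdef]; linarith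
      have h5 : 0 ≤ Real.sqrt (Real.pi * b) := Real.sqrt_nonneg _
      have h6 : 0 ≤ L - J := by linarith
      calc g * Real.sqrt (Real.pi * b) * (V * (L - J)) ≤
          g * Real.sqrt (Real.pi * b) * (V * Real.log V) := by
            have : 0 ≤ g := by linarith
            gcongr
        _ ≤ _ := by gcongr
    have hlogV2 : 2 * Real.log V ≤ V := by
      have h1 : Real.log V = 2 * Real.log (Real.sqrt V) := by
        rw [Real.log_sqrt hV0.le]; ring
      have h2 := Real.log_le_sub_one_of_pos (Real.sqrt_pos.2 hV0)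
      have h3 : Real.sqrt V * Real.sqrt V = V := Real.mul_self_sqrt hV0.le
      nlinarith [sq_nonneg (Real.sqrt V - 2)]
    have h4 : ∫ t in (V + Real.log V)..(2 * V - Real.log V), G t ≤ ∫ t in V..(2 * V), G t := by
      apply intervalIntegral.integral_mono_interval (by linarith) (by linarith) (by linarith)
      · exact Filter.Eventually.of_forall hG0
      · exact hGc.intervalIntegrable _ _
    have h5 : (1 / (1 + δ / 4)) * ((1 / (2 * Real.pi * b)) *
        (g * Real.sqrt (Real.pi * b) * (V * (L - J))) - C * V) ≤ ∫ t in V..(2 * V), G t := by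
      refine le_trans ?_ (h2.trans h4)
      gcongr
    calc (1 / (1 + δ / 4)) * ((g * (L - J) - K) / (2 * Real.pi)) * V
        = sbp * ((1 / (1 + δ / 4)) * ((1 / (2 * Real.pi * b)) *
        (g * Real.sqrt (Real.pi * b) * (V * (L - J))) - C * V)) := by
          have e1 : sbp * ((1 / (1 + δ / 4)) * ((1 / (2 * Real.pi * b)) *
            (g * Real.sqrt (Real.pi * b) * (V * (L - J))) - C * V)) =
            (1 / (1 + δ / 4)) * ((sbp * Real.sqrt (Real.pi * b)) * (1 / (2 * Real.pi * b)) *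
            (g * (V * (L - J))) - C * sbp * V) := by ring
          rw [e1, hsb, hK]
          field_simp
      _ ≤ _ := mul_le_mul_of_nonneg_left h5 hsbp0
  have hsum := sum_le_sum hone
  rw [← mul_sum, sum_V, ← mul_sum] at hsum
  have hblocks := sum_blocks G hGc hG0 hint T hT0 J
  have h6 : (1 / (1 + δ / 4)) * ((g * (L - J) - K) / (2 * Real.pi)) * (T * (1 - 1 / 2 ^ J)) ≤
      sbp * ∫ t, G t := hsum.trans (mul_le_mul_of_nonneg_left hblocks hsbp0)
  refine le_trans ?_ h6
  have hX : 0 ≤ g * (L - J) - K := by nlinarith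
  have hη1 : 1 - δ / 4 ≤ 1 / (1 + δ / 4) := by
    rw [le_div_iff₀ (by positivity)]
    nlinarith
  have hη2 : 1 - δ / 4 ≤ 1 - 1 / 2 ^ J := by linarith
  have hη3 : 0 ≤ 1 - δ / 4 := by linarith
  calc (3 / 2 - α - 4 * δ) * (T / (2 * Real.pi) * L)
      = (T / (2 * Real.pi)) * ((g - 2 * δ) * L) := by rw [hgdef]; ring
    _ ≤ (T / (2 * Real.pi)) * ((1 - δ / 4) * (1 - δ / 4) * (g * (L - J) - K)) := by
        apply mul_le_mul_of_nonneg_left _ (by positivity)
        have h7 : (1 - δ / 2) * (g * (L - J) - K) ≤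
          (1 - δ / 4) * (1 - δ / 4) * (g * (L - J) - K) := by
          apply mul_le_mul_of_nonneg_right _ hX
          have h11 : (1 - δ / 4) * (1 - δ / 4) = 1 - δ / 2 + δ ^ 2 / 16 := by ring
          rw [h11]
          have := sq_nonneg δ
          linarith
        have h8 : δ / 2 * (g * (L - J) - K) ≤ δ / 2 * (1 / 2 * L) := by
          apply mul_le_mul_of_nonneg_left _ (by positivity)
          have h10 : g * (L - J) ≤ 1 / 2 * (L - J) := by
            apply mul_le_mul_of_nonneg_right hg2; linarith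
          linarith
        have h9 : g * J ≤ 1 / 2 * J := by gcongr
        linarith
    _ = (1 - δ / 4) * ((g * (L - J) - K) / (2 * Real.pi)) * (T * (1 - δ / 4)) := by ring
    _ ≤ (1 / (1 + δ / 4)) * ((g * (L - J) - K) / (2 * Real.pi)) * (T * (1 - 1 / 2 ^ J)) := by
        have : 0 ≤ (g * (L - J) - K) / (2 * Real.pi) := by positivity
        gcongr

lemma PPair_cont (b u : ℝ) (Z : Finset ℂ) (m : ℂ → ℝ) :
    Continuous (fun a : ℝ => (PPair (kG b) (u + a) Z m).re) := by
  unfold PPair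
  apply Complex.continuous_re.comp
  fun_prop

lemma exp_abs_integral (A : ℝ) (hA : 0 ≤ A) :
    ∫ a in (-A)..A, Real.exp (-2 * |a|) = 1 - Real.exp (-2 * A) := by
  have hc : Continuous (fun a : ℝ => Real.exp (-2 * |a|)) := by fun_prop
  have h1 : ∫ a in (0 : ℝ)..A, Real.exp (-2 * |a|) = (1 - Real.exp (-2 * A)) / 2 := by
    have e1 : ∫ a in (0 : ℝ)..A, Real.exp (-2 * |a|) = ∫ a in (0 : ℝ)..A, Real.exp (-2 * a) := by
      apply intervalIntegral.integral_congr
      intro a ha
      rw [Set.uIcc_of_le hA] at ha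
      simp only
      rw [abs_of_nonneg ha.1]
    rw [e1, intervalIntegral.integral_comp_mul_left (fun x => Real.exp x) (by norm_num), integral_exp]
    simp
    ring
  have h2 : ∫ a in (-A)..0, Real.exp (-2 * |a|) = (1 - Real.exp (-2 * A)) / 2 := by
    have h3 := intervalIntegral.integral_comp_neg (fun a : ℝ => Real.exp (-2 * |a|)) (a := 0) (b := A)
    simp only [abs_neg, neg_zero] at h3
    rw [← h3, h1]
  rw [← intervalIntegral.integral_add_adjacent_intervals (b := 0) (hc.intervalIntegrable _ _)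
    (hc.intervalIntegrable _ _), h1, h2]
  ring

end ZSide

open ZSide in
/-- lower bound for the pair sum beyond `α = 1`, unconditional -/
theorem pair_lower (ε : ℝ) (hε : 0 < ε) : ∃ T0 : ℝ, 1 ≤ T0 ∧ ∀ T α : ℝ, T0 ≤ T → 1 ≤ α →
    α ≤ 3 / 2 → (3 / 2 - α - ε) * (T / (2 * Real.pi) * Real.log T) ≤
      (PPair kW (α * Real.log T) (Z0 T) mz).re := by
  set δ : ℝ := min ε 1 / 8 with hδdef
  have hε1 : 0 < min ε 1 := lt_min hε one_pos
  have hδ : 0 < δ := by positivity
  have hδ1 : δ ≤ 1 := by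
    have := min_le_right ε 1
    rw [hδdef]; linarith
  have hδε : 8 * δ ≤ ε := by
    have := min_le_left ε 1
    rw [hδdef]; linarith
  obtain ⟨b, hb, hb4, T0, hT0, hG⟩ := gauss_lower δ (2 / δ) hδ hδ1 (by positivity)
  refine ⟨T0, hT0, ?_⟩
  intro T α hT hα1 hα2
  have hT1 : 1 ≤ T := hT0.trans hT
  have hπ := Real.pi_pos
  have hZ : ∀ s ∈ Z0 T, 0 < s.re ∧ s.re < 1 := by
    intro s hs
    unfold Z0 at hs
    rw [Set.Finite.mem_toFinset] at hs
    exact ⟨hs.1, hs.2.1⟩
  have hX : 0 ≤ T / (2 * Real.pi) * Real.log T := by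
    have := Real.log_nonneg hT1
    positivity
  set X := T / (2 * Real.pi) * Real.log T with hXdef
  by_cases hg : 4 * δ ≤ 3 / 2 - α
  · have hA : 0 ≤ 2 / δ := by positivity
    have h := (pair_W b (α * Real.log T) (2 / δ) hb hA (Z0 T) mz hZ).2
    refine le_trans ?_ h
    have hLB : ∀ a ∈ Set.Icc (-(2 / δ)) (2 / δ), Real.exp (-2 * |a|) *
        ((3 / 2 - α - 4 * δ) * X) ≤ Real.exp (-2 * |a|) *
        (PPair (kG b) ((α * Real.log T : ℝ) + a) (Z0 T) mz).re := by
      intro a ha
      apply mul_le_mul_of_nonneg_left _ (Real.exp_pos _).le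
      exact hG T α a hT hα1 hg (abs_le.2 ha)
    have h1 := intervalIntegral.integral_mono_on (a := -(2 / δ)) (b := 2 / δ) (μ := volume)
      (by linarith)
      ((show Continuous (fun a : ℝ => Real.exp (-2 * |a|) * ((3 / 2 - α - 4 * δ) * X)) by
        fun_prop).intervalIntegrable _ _)
      (((show Continuous (fun a : ℝ => Real.exp (-2 * |a|)) by fun_prop).mul
        (PPair_cont b (α * Real.log T) (Z0 T) mz)).intervalIntegrable _ _) hLB
    rw [intervalIntegral.integral_mul_const, exp_abs_integral _ hA] at h1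
    have h2 : 1 - δ / 4 ≤ Real.exp (-b) := by
      have := Real.add_one_le_exp (-b); linarith
    have h3 : 1 - δ / 4 ≤ 1 - Real.exp (-2 * (2 / δ)) := by
      have h4 : Real.exp (-2 * (2 / δ)) ≤ δ / 4 := by
        rw [show -2 * (2 / δ) = -(4 / δ) by ring, Real.exp_neg,
          show δ / 4 = (4 / δ)⁻¹ by rw [inv_div]]
        apply inv_anti₀ (by positivity)
        have := Real.add_one_le_exp (4 / δ)
        linarith
      linarith
    have h5 : 0 ≤ (3 / 2 - α - 4 * δ) * X := mul_nonneg (by linarith) hX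
    have h6 : 0 ≤ 1 - δ / 4 := by linarith
    calc (3 / 2 - α - ε) * X ≤ (1 - δ / 4) * ((1 - δ / 4) * ((3 / 2 - α - 4 * δ) * X)) := by
          have h7 : (3 / 2 - α - ε) ≤ (1 - δ / 4) * ((1 - δ / 4) * (3 / 2 - α - 4 * δ)) := by
            have h8 : 0 ≤ 3 / 2 - α - 4 * δ := by linarith
            have h9 : (1 - δ / 2) * (3 / 2 - α - 4 * δ) ≤
                (1 - δ / 4) * ((1 - δ / 4) * (3 / 2 - α - 4 * δ)) := by
              rw [← mul_assoc]
              apply mul_le_mul_of_nonneg_right _ h8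
              have h11 : (1 - δ / 4) * (1 - δ / 4) = 1 - δ / 2 + δ ^ 2 / 16 := by ring
              rw [h11]
              have := sq_nonneg δ
              linarith
            have h10 : δ / 2 * (3 / 2 - α - 4 * δ) ≤ δ / 2 * (1 / 2) := by
              apply mul_le_mul_of_nonneg_left _ (by positivity)
              linarith
            linarith
          calc (3 / 2 - α - ε) * X ≤ ((1 - δ / 4) * ((1 - δ / 4) * (3 / 2 - α - 4 * δ))) * X := by
                gcongr
            _ = _ := by ring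
      _ ≤ Real.exp (-b) * ((1 - Real.exp (-2 * (2 / δ))) * ((3 / 2 - α - 4 * δ) * X)) := by
          gcongr
      _ ≤ _ := mul_le_mul_of_nonneg_left h1 (Real.exp_pos _).le
  · push Not at hg
    have h := (pair_W b (α * Real.log T) 0 hb le_rfl (Z0 T) mz hZ).2
    simp only [neg_zero, intervalIntegral.integral_same, mul_zero] at h
    refine le_trans ?_ h
    apply mul_nonpos_of_nonpos_of_nonneg _ hX
    linarith

end H343
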