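import Pool.Agent.H343R2.NormA
import Pool.Agent.H343R2.Count
import Pool.Agent.H343R2.PhiSum

open Finset MeasureTheory

namespace H343

namespace NormAux

/-- `∑_{Q<q≤R} d(q)/φ(q)² ≤ C R^δ / Q` -/
lemma div_phi_sum (δ : ℝ) (hδ : 0 < δ) : ∃ C : ℝ, 0 < C ∧ ∀ Q R : ℕ, 1 ≤ Q →
    ∑ q ∈ Mod Q R, (q.divisors.card : ℝ) / (Nat.totient q : ℝ) ^ 2 ≤ C * (R : ℝ) ^ δ / Q := by
  obtain ⟨C1, hC1, h1⟩ := div_bound (δ / 3) (by positivity)
  obtain ⟨c2, hc2, h2⟩ := phi_bound (δ / 3) (by positivity)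
  refine ⟨C1 / c2 ^ 2, by positivity, ?_⟩
  intro Q R hQ
  have hterm : ∀ q ∈ Mod Q R, (q.divisors.card : ℝ) / (Nat.totient q : ℝ) ^ 2 ≤
      C1 / c2 ^ 2 * (R : ℝ) ^ δ * (1 / (q : ℝ) ^ 2) := by
    intro q hq
    unfold Mod at hq
    rw [mem_filter, mem_Ioc] at hq
    have hq1 : 1 ≤ q := by omega
    have hq0 : (0 : ℝ) < q := by exact_mod_cast hq1
    have h3 := h1 q hq1
    have h4 := h2 q hq1
    have h5 : 0 < c2 * (q : ℝ) ^ (1 - δ / 3) := by positivity
    calc (q.divisors.card : ℝ) / (Nat.totient q : ℝ) ^ 2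
        ≤ (C1 * (q : ℝ) ^ (δ / 3)) / (c2 * (q : ℝ) ^ (1 - δ / 3)) ^ 2 := by
          apply div_le_div₀ (by positivity) h3 (by positivity)
          exact pow_le_pow_left₀ h5.le h4 2
      _ = C1 / c2 ^ 2 * (q : ℝ) ^ δ * (1 / (q : ℝ) ^ 2) := by
          rw [mul_pow, ← Real.rpow_natCast ((q : ℝ) ^ (1 - δ / 3)) 2, ← Real.rpow_mul hq0.le]
          have e1 : (q : ℝ) ^ δ = (q : ℝ) ^ (δ / 3) * (q : ℝ) ^ (2 * δ / 3) := by
            rw [← Real.rpow_add hq0]; congr 1; ring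
          have e2 : (q : ℝ) ^ (2 : ℕ) = (q : ℝ) ^ ((1 - δ / 3) * ((2 : ℕ) : ℝ)) *
              (q : ℝ) ^ (2 * δ / 3) := by
            rw [← Real.rpow_natCast, ← Real.rpow_add hq0]; congr 1; push_cast; ring
          rw [e2, e1]
          have : (q : ℝ) ^ (2 * δ / 3) ≠ 0 := by positivity
          field_simp
      _ ≤ C1 / c2 ^ 2 * (R : ℝ) ^ δ * (1 / (q : ℝ) ^ 2) := by
          apply mul_le_mul_of_nonneg_right _ (by positivity)
          apply mul_le_mul_of_nonneg_left _ (by positivity)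
          apply Real.rpow_le_rpow hq0.le _ hδ.le
          exact_mod_cast hq.1.2
  refine (sum_le_sum hterm).trans ?_
  rw [← mul_sum]
  have htel : ∑ q ∈ Mod Q R, 1 / (q : ℝ) ^ 2 ≤ 1 / (Q : ℝ) := by
    calc ∑ q ∈ Mod Q R, 1 / (q : ℝ) ^ 2 ≤ ∑ q ∈ Ioc Q R, 1 / (q : ℝ) ^ 2 := by
          apply sum_le_sum_of_subset_of_nonneg
          · exact filter_subset _ _
          · intro _ _ _; positivity
      _ ≤ 1 / (Q : ℝ) := by
          have := sum_Ioc_inv_sq_le_sub (α := ℝ) (k := Q) (n := max Q R) (by omega) (le_max_left _ _)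
          have h6 : ∑ q ∈ Ioc Q R, 1 / (q : ℝ) ^ 2 ≤ ∑ i ∈ Ioc Q (max Q R), ((i : ℝ) ^ 2)⁻¹ := by
            simp_rw [one_div]
            apply sum_le_sum_of_subset_of_nonneg
            · apply Ioc_subset_Ioc_right
              exact le_max_right _ _
            · intro _ _ _; positivity
          refine h6.trans (this.trans ?_)
          have : (0 : ℝ) ≤ ((max Q R : ℕ) : ℝ)⁻¹ := by positivity
          rw [one_div]
          linarith
  calc C1 / c2 ^ 2 * (R : ℝ) ^ δ * ∑ q ∈ Mod Q R, 1 / (q : ℝ) ^ 2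
      ≤ C1 / c2 ^ 2 * (R : ℝ) ^ δ * (1 / Q) := mul_le_mul_of_nonneg_left htel (by positivity)
    _ = C1 / c2 ^ 2 * (R : ℝ) ^ δ / Q := by ring

lemma asym (C ε η : ℝ) (hC : 0 < C) (hε : 0 < ε) (hη : 0 < η) : ∃ H0 : ℝ, 1 ≤ H0 ∧
    ∀ H : ℝ, H0 ≤ H → C * H ^ (1 - ε) * (1 + Real.log H) ^ 2 ≤ η * H * Real.log H := by
  refine ⟨max (Real.exp 1) ((C * 64 / (ε ^ 2 * η)) ^ (2 / ε)), ?_, ?_⟩
  · exact (Real.one_le_exp zero_le_one).trans (le_max_left _ _)
  intro H hH
  have hH1 : Real.exp 1 ≤ H := (le_max_left _ _).trans hH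
  have hH2 := (le_max_right _ _).trans hH
  have hH0 : 0 < H := (Real.exp_pos 1).trans_le hH1
  have hlog : 1 ≤ Real.log H := by
    rw [Real.le_log_iff_exp_le hH0]
    exact hH1
  have h1 : C * 64 / (ε ^ 2 * η) ≤ H ^ (ε / 2) := by
    have h := Real.rpow_le_rpow (by positivity) hH2 (by positivity : 0 ≤ ε / 2)
    rw [← Real.rpow_mul (by positivity)] at h
    have e : 2 / ε * (ε / 2) = 1 := by field_simp
    rw [e, Real.rpow_one] at h
    exact h
  have h2 : Real.log H ≤ H ^ (ε / 4) / (ε / 4) := Real.log_le_rpow_div hH0.le (by positivity)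
  have h3 : (Real.log H) ^ 2 ≤ 16 / ε ^ 2 * H ^ (ε / 2) := by
    calc (Real.log H) ^ 2 ≤ (H ^ (ε / 4) / (ε / 4)) ^ 2 :=
          pow_le_pow_left₀ (by linarith) h2 2
      _ = 16 / ε ^ 2 * H ^ (ε / 2) := by
          rw [div_pow, ← Real.rpow_natCast, ← Real.rpow_mul hH0.le]
          have : ε / 4 * ((2 : ℕ) : ℝ) = ε / 2 := by push_cast; ring
          rw [this]
          field_simp
          ring
  have hpos : 0 < H ^ (ε / 2) := by positivity
  have h4 : C * (4 * (Real.log H) ^ 2) ≤ η * H ^ ε := by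
    calc C * (4 * (Real.log H) ^ 2) ≤ C * (4 * (16 / ε ^ 2 * H ^ (ε / 2))) := by gcongr
      _ = η * ((C * 64 / (ε ^ 2 * η)) * H ^ (ε / 2)) := by field_simp; ring
      _ ≤ η * (H ^ (ε / 2) * H ^ (ε / 2)) := by gcongr
      _ = η * H ^ ε := by rw [← Real.rpow_add hH0]; congr 2; ring
  have h5 : H ^ (1 - ε) * H ^ ε = H := by
    rw [← Real.rpow_add hH0]
    simp
  have h6 : (1 + Real.log H) ^ 2 ≤ 4 * (Real.log H) ^ 2 := by nlinarith
  calc C * H ^ (1 - ε) * (1 + Real.log H) ^ 2 ≤ C * H ^ (1 - ε) * (4 * (Real.log H) ^ 2) := by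
        gcongr
    _ = H ^ (1 - ε) * (C * (4 * (Real.log H) ^ 2)) := by ring
    _ ≤ H ^ (1 - ε) * (η * H ^ ε) := by gcongr
    _ = η * (H ^ (1 - ε) * H ^ ε) := by ring
    _ = η * H := by rw [h5]
    _ ≤ η * H * Real.log H := by
        have : 0 < η * H := by positivity
        nlinarith

lemma final_calc (H I J LLv E x Y R2 logK C1 C2 C3 C4 C5 ε SS : ℝ)
    (hH : 1 ≤ H) (hI : 0 ≤ I) (hJ : 0 ≤ J) (hLL : 0 ≤ LLv) (hE : 0 ≤ E) (hx : 0 < x) (hY : 0 < Y)
    (hHdef : H = x * Y) (hR2 : 0 ≤ R2) (hR2' : R2 ≤ H ^ (1 - 2 * ε)) (hlogK : 0 ≤ logK)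
    (hC1 : 0 < C1) (hC2 : 0 < C2) (hC3 : 0 < C3) (hC4 : 0 < C4) (hC5 : 0 < C5) (hε : 0 < ε)
    (hK : 1 + logK ≤ C5 * (1 + Real.log H))
    (hE2 : x * E ≤ C4 * H ^ (1 - ε))
    (hSS : SS ≤ Y * J * LLv + C2 * E)
    (hsq2 : Y * J * LLv + C2 * E ≤ H ^ ε * (1 + Real.log H) * (J * C3 + C2 * C4)) :
    (x * I + C1 * R2 * (1 + logK)) * SS ≤ H * I * J * LLv +
      (I * C2 * C4 + C1 * C5 * (J * C3 + C2 * C4)) * H ^ (1 - ε) * (1 + Real.log H) ^ 2 := by
  have hHpos : 0 < H := by linarith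
  have hlogH : 0 ≤ Real.log H := Real.log_nonneg hH
  have hsq0 : 0 ≤ Y * J * LLv + C2 * E := by positivity
  calc (x * I + C1 * R2 * (1 + logK)) * SS
        ≤ (x * I + C1 * R2 * (1 + logK)) * (Y * J * LLv + C2 * E) :=
          mul_le_mul_of_nonneg_left hSS (by positivity)
      _ = H * I * J * LLv + (I * C2 * (x * E) +
          C1 * (R2 * (1 + logK) * (Y * J * LLv + C2 * E))) := by
          rw [hHdef]; ring
      _ ≤ H * I * J * LLv + (I * C2 * (C4 * H ^ (1 - ε)) +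
          C1 * (H ^ (1 - 2 * ε) * (C5 * (1 + Real.log H)) *
            (H ^ ε * (1 + Real.log H) * (J * C3 + C2 * C4)))) := by
          have a1 : I * C2 * (x * E) ≤ I * C2 * (C4 * H ^ (1 - ε)) :=
            mul_le_mul_of_nonneg_left hE2 (by positivity)
          have a2 : R2 * (1 + logK) ≤ H ^ (1 - 2 * ε) * (C5 * (1 + Real.log H)) :=
            mul_le_mul hR2' hK (by positivity) (by positivity)
          have a3 : R2 * (1 + logK) * (Y * J * LLv + C2 * E) ≤
            H ^ (1 - 2 * ε) * (C5 * (1 + Real.log H)) *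
            (H ^ ε * (1 + Real.log H) * (J * C3 + C2 * C4)) :=
            mul_le_mul a2 hsq2 hsq0 (by positivity)
          have a4 := mul_le_mul_of_nonneg_left a3 hC1.le
          linarith
      _ = H * I * J * LLv + (I * C2 * C4 * H ^ (1 - ε) +
          C1 * C5 * (J * C3 + C2 * C4) * (H ^ (1 - 2 * ε) * H ^ ε) * (1 + Real.log H) ^ 2) := by
          ring
      _ = H * I * J * LLv + (I * C2 * C4 * H ^ (1 - ε) * 1 +
          C1 * C5 * (J * C3 + C2 * C4) * H ^ (1 - ε) * (1 + Real.log H) ^ 2) := by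
          rw [← Real.rpow_add hHpos]
          have : 1 - 2 * ε + ε = 1 - ε := by ring
          rw [this, mul_one]
      _ ≤ H * I * J * LLv + (I * C2 * C4 * H ^ (1 - ε) * (1 + Real.log H) ^ 2 +
          C1 * C5 * (J * C3 + C2 * C4) * H ^ (1 - ε) * (1 + Real.log H) ^ 2) := by
          have h1 : 1 ≤ (1 + Real.log H) ^ 2 := by nlinarith
          have := mul_le_mul_of_nonneg_left h1 (by positivity : 0 ≤ I * C2 * C4 * H ^ (1 - ε))
          linarith
      _ = _ := by ring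

/-- separation of reduced fractions -/
lemma frac_sep (q q' a a' R : ℕ) (hq : 1 ≤ q) (hq' : 1 ≤ q') (hR : q ≤ R) (hR' : q' ≤ R)
    (ha : a.Coprime q) (ha' : a'.Coprime q') (hne : ¬ (q = q' ∧ a = a')) :
    1 / (R : ℝ) ^ 2 ≤ |(a : ℝ) / q - a' / q'| := by
  have hq0 : (0 : ℝ) < q := by exact_mod_cast hq
  have hq0' : (0 : ℝ) < q' := by exact_mod_cast hq'
  have hne2 : (a : ℤ) * q' - a' * q ≠ 0 := by
    intro h
    have h1 : a * q' = a' * q := by
      have : (a : ℤ) * q' = a' * q := by linarith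
      exact_mod_cast this
    have h2 : q ∣ q' := by
      have : q ∣ a * q' := by rw [h1]; exact dvd_mul_left _ _
      exact (Nat.Coprime.symm ha).dvd_of_dvd_mul_left this
    have h3 : q' ∣ q := by
      have : q' ∣ a' * q := by rw [← h1]; exact dvd_mul_left _ _
      exact (Nat.Coprime.symm ha').dvd_of_dvd_mul_left this
    have h4 : q = q' := Nat.dvd_antisymm h2 h3
    subst h4
    exact hne ⟨rfl, Nat.eq_of_mul_eq_mul_right (by omega) h1⟩
  have h1 : (1 : ℝ) ≤ |(a : ℝ) * q' - a' * q| := by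
    have := Int.one_le_abs hne2
    have h2 : ((1 : ℤ) : ℝ) ≤ ((|(a : ℤ) * q' - a' * q| : ℤ) : ℝ) := by exact_mod_cast this
    push_cast at h2
    exact h2
  have h2 : (a : ℝ) / q - a' / q' = ((a : ℝ) * q' - a' * q) / (q * q') := by
    field_simp
  rw [h2, abs_div, abs_of_pos (mul_pos hq0 hq0')]
  apply div_le_div₀ (by positivity) h1 (by positivity)
  have h3 : (q : ℝ) ≤ R := by exact_mod_cast hR
  have h4 : (q' : ℝ) ≤ R := by exact_mod_cast hR'
  nlinarith

end NormAux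

open NormAux

/-- norm of the test function -/
theorem norm_sum {B : ℝ} {ρ l : ℝ → ℝ} (hρ : Test B ρ) (hl : Test B l) (ε η : ℝ) (hε : 0 < ε)
    (hε1 : ε ≤ 1 / 100) (hη : 0 < η) : ∃ H0 : ℝ, ∀ x Y : ℝ, Range ε x Y → H0 ≤ x * Y →
    ∀ Q R N M : ℕ, Cuts ε B x Y Q R N M →
    x * ∫ v, Real.exp v * ρ v ^ 2 * ‖∑ q ∈ Mod Q R, ∑ a ∈ (Icc 1 N).filter (fun a => a.Coprime q),
        (((ArithmeticFunction.moebius q : ℤ) : ℝ) / (Nat.totient q : ℝ)
          * l (Real.log (a / (q * Y))) : ℝ) * ex (x * Real.exp v * (a / q))‖ ^ 2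
      ≤ x * Y * (∫ v, ρ v ^ 2 * Real.exp v) * (∫ v, l v ^ 2 * Real.exp v) * LL Q R
        + η * (x * Y) * Real.log (x * Y) := by
  classical
  obtain ⟨C1, hC1, h1⟩ := abstract_norm hρ
  have hl2 : Test B (fun v => l v ^ 2) :=
    ⟨hl.smooth.pow 2, fun v hv => by simp [hl.supp v hv]⟩
  obtain ⟨C2, hC2, h2⟩ := coprime_count hl2
  obtain ⟨C3, hC3, h3⟩ := LL_upper
  obtain ⟨C4, hC4, h4⟩ := div_phi_sum ε hε
  set I := ∫ v, ρ v ^ 2 * Real.exp v with hI
  set J := ∫ v, l v ^ 2 * Real.exp v with hJ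
  have hI0 : 0 ≤ I := integral_nonneg (fun v => by positivity)
  have hJ0 : 0 ≤ J := integral_nonneg (fun v => by positivity)
  set C5 := 1 + Real.log (Real.exp B + 1) with hC5
  have hC5' : 0 ≤ Real.log (Real.exp B + 1) :=
    Real.log_nonneg (by linarith [Real.exp_pos B])
  have hC50 : 0 < C5 := by
    rw [hC5]
    linarith
  set CT := I * C2 * C4 + C1 * C5 * (J * C3 + C2 * C4) with hCT
  have hCT0 : 0 < CT := by positivity
  obtain ⟨H0, hH0, hasym⟩ := asym CT ε η hCT0 hε hη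
  refine ⟨H0, ?_⟩
  intro x Y hr hH Q R N M hcut
  set H := x * Y with hHdef
  have hH1 : 1 ≤ H := hH0.trans hH
  have hHpos : 0 < H := by linarith
  have hlogH : 0 ≤ Real.log H := Real.log_nonneg hH1
  have hx := hr.hx
  have hY := hr.hY
  have hLL0 : 0 ≤ LL Q R := sum_nonneg (fun _ _ => by positivity)
  by_cases hemp : Mod Q R = ∅
  · rw [hemp]
    simp only [sum_empty, norm_zero]
    have : (0:ℝ) ≤ η * H * Real.log H := by positivity
    have h' : 0 ≤ H * I * J * LL Q R := by positivity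
    simp
    linarith
  -- facts on Q and R
  have hQR : Q < R := by
    obtain ⟨q, hq⟩ := nonempty_iff_ne_empty.mpr hemp
    unfold Mod at hq
    rw [mem_filter, mem_Ioc] at hq
    omega
  have hR1 : 1 ≤ R := by omega
  have hRr : (1 : ℝ) ≤ R := by exact_mod_cast hR1
  have hQr : (1 : ℝ) ≤ Q := (Real.one_le_rpow hH1 (by positivity)).trans hcut.hQ1
  have hQ1 : 1 ≤ Q := by exact_mod_cast hQr
  have hYH : Y ≤ H ^ ε := by
    have h5 : H ^ (1 - ε) * H ^ ε = H := by
      rw [← Real.rpow_add hHpos]; simp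
    have h6 := hr.hlow
    rw [← hHdef] at h6
    have h7 : H ^ (1 - ε) * Y ≤ H ^ (1 - ε) * H ^ ε := by
      rw [h5, hHdef]
      exact mul_le_mul_of_nonneg_right h6 hY.le
    exact le_of_mul_le_mul_left h7 (by positivity)
  have hR2 : (R : ℝ) ^ 2 ≤ H ^ (1 - 2 * ε) := by
    calc (R : ℝ) ^ 2 ≤ (H ^ (1 / 2 - ε)) ^ 2 := pow_le_pow_left₀ (by positivity) hcut.hR 2
      _ = H ^ (1 - 2 * ε) := by
        rw [← Real.rpow_natCast, ← Real.rpow_mul hHpos.le]
        congr 1
        push_cast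
        ring
  have hRH : (R : ℝ) ≤ H := by
    refine hcut.hR.trans ?_
    calc H ^ (1 / 2 - ε) ≤ H ^ (1 : ℝ) := Real.rpow_le_rpow_of_exponent_le hH1 (by linarith)
      _ = H := Real.rpow_one H
  have hLL : LL Q R ≤ C3 * (1 + Real.log H) := by
    refine (h3 Q R).trans ?_
    have := Real.log_le_log (by linarith) hRH
    apply mul_le_mul_of_nonneg_left _ hC3.le
    linarith
  set E := ∑ q ∈ Mod Q R, (q.divisors.card : ℝ) / (Nat.totient q : ℝ) ^ 2 with hE
  have hE0 : 0 ≤ E := sum_nonneg (fun _ _ => by positivity)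
  have hQpos : (0 : ℝ) < Q := by linarith
  have hRe : (R : ℝ) ^ ε ≤ H ^ ε := Real.rpow_le_rpow (by positivity) hRH hε.le
  have hE1 : E ≤ C4 := by
    refine (h4 Q R hQ1).trans ?_
    rw [div_le_iff₀ hQpos]
    apply mul_le_mul_of_nonneg_left _ hC4.le
    refine hRe.trans (le_trans ?_ hcut.hQ1)
    exact Real.rpow_le_rpow_of_exponent_le hH1 (by linarith)
  have hE2 : x * E ≤ C4 * H ^ (1 - ε) := by
    have h5 : E ≤ C4 * H ^ ε / (H ^ (4 * ε) / Y) := by
      refine (h4 Q R hQ1).trans ?_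
      apply div_le_div₀ (by positivity) _ (by positivity) hcut.hQ2
      exact mul_le_mul_of_nonneg_left hRe hC4.le
    calc x * E ≤ x * (C4 * H ^ ε / (H ^ (4 * ε) / Y)) := mul_le_mul_of_nonneg_left h5 hx.le
      _ = C4 * (H * H ^ ε / H ^ (4 * ε)) := by
          rw [hHdef]
          field_simp
      _ = C4 * H ^ (1 - 3 * ε) := by
          congr 1
          rw [div_eq_iff (by positivity), ← Real.rpow_add hHpos]
          have : H * H ^ ε = H ^ (1 + ε) := by
            rw [Real.rpow_add hHpos, Real.rpow_one]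
          rw [this]
          congr 1
          ring
      _ ≤ C4 * H ^ (1 - ε) := by
          apply mul_le_mul_of_nonneg_left _ hC4.le
          exact Real.rpow_le_rpow_of_exponent_le hH1 (by linarith)
  -- the index set
  set c : (Σ _ : ℕ, ℕ) → ℝ := fun p => ((ArithmeticFunction.moebius p.1 : ℤ) : ℝ) /
    (Nat.totient p.1 : ℝ) * l (Real.log (p.2 / (p.1 * Y))) with hc
  set θ : (Σ _ : ℕ, ℕ) → ℝ := fun p => (p.2 : ℝ) / p.1 with hθ
  set S0 : Finset (Σ _ : ℕ, ℕ) := (Mod Q R).sigma (fun q => (Icc 1 N).filter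
    (fun a => a.Coprime q)) with hS0
  set S : Finset (Σ _ : ℕ, ℕ) := S0.filter (fun p => (p.2 : ℝ) ≤ Real.exp B * p.1 * Y) with hS
  have hS0mem : ∀ p ∈ S0, (Q < p.1 ∧ p.1 ≤ R) ∧ Squarefree p.1 ∧ 1 ≤ p.2 ∧ p.2 ≤ N ∧
      p.2.Coprime p.1 := by
    intro p hp
    rw [hS0, mem_sigma, mem_filter, mem_Icc] at hp
    unfold Mod at hp
    rw [mem_filter, mem_Ioc] at hp
    exact ⟨hp.1.1, hp.1.2, hp.2.1.1, hp.2.1.2, hp.2.2⟩
  have hcne : ∀ p ∈ S0, c p ≠ 0 → (p.2 : ℝ) ≤ Real.exp B * p.1 * Y := by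
    intro p hp hcp
    obtain ⟨⟨h5, h6⟩, h7, h8, h9, h10⟩ := hS0mem p hp
    by_contra hcon
    push Not at hcon
    apply hcp
    have hp1 : (0 : ℝ) < p.1 := by
      have : 0 < p.1 := by omega
      exact_mod_cast this
    have h11 : Real.exp B < p.2 / (p.1 * Y) := by
      rw [lt_div_iff₀ (by positivity)]
      linarith
    have h12 : B ≤ Real.log (p.2 / (p.1 * Y)) := by
      rw [Real.le_log_iff_exp_le ((Real.exp_pos B).trans h11)]
      exact h11.le
    rw [hc]
    simp only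
    rw [hl.supp _ (h12.trans (le_abs_self _)), mul_zero]
  have hsumS : ∀ v : ℝ, (∑ q ∈ Mod Q R, ∑ a ∈ (Icc 1 N).filter (fun a => a.Coprime q),
        ((((ArithmeticFunction.moebius q : ℤ) : ℝ) / (Nat.totient q : ℝ)
          * l (Real.log (a / (q * Y))) : ℝ) : ℂ) * ex (x * Real.exp v * (a / q))) =
      ∑ p ∈ S, (c p : ℂ) * ex (x * Real.exp v * θ p) := by
    intro v
    rw [sum_sigma', hS, sum_filter_of_ne]
    intro p hp hne
    apply hcne p hp
    intro h0
    apply hne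
    rw [h0]
    simp
  simp_rw [hsumS]
  -- sum of squares
  have hsq : ∑ p ∈ S, c p ^ 2 ≤ Y * J * LL Q R + C2 * E := by
    calc ∑ p ∈ S, c p ^ 2 ≤ ∑ p ∈ S0, c p ^ 2 := by
          apply sum_le_sum_of_subset_of_nonneg (filter_subset _ _)
          intro _ _ _
          positivity
      _ = ∑ q ∈ Mod Q R, ∑ a ∈ (Icc 1 N).filter (fun a => a.Coprime q),
            (((ArithmeticFunction.moebius q : ℤ) : ℝ) / (Nat.totient q : ℝ)
              * l (Real.log (a / (q * Y)))) ^ 2 := by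
          rw [sum_sigma']
      _ ≤ ∑ q ∈ Mod Q R, (Y * J * (1 / Nat.totient q) +
            C2 * ((q.divisors.card : ℝ) / (Nat.totient q : ℝ) ^ 2)) := by
          apply sum_le_sum
          intro q hq
          unfold Mod at hq
          rw [mem_filter, mem_Ioc] at hq
          have hq1 : 1 ≤ q := by omega
          have hφ : (0 : ℝ) < Nat.totient q := by
            exact_mod_cast Nat.totient_pos.mpr hq1
          have hcc := h2 q N Y hq1 hY (by
            refine le_trans ?_ hcut.hN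
            have : (q : ℝ) ≤ R := by exact_mod_cast hq.1.2
            have := Real.exp_pos B
            gcongr)
          have hcc2 := (abs_le.mp hcc).2
          have hmu : (((ArithmeticFunction.moebius q : ℤ) : ℝ)) ^ 2 ≤ 1 := by
            have h5 := ArithmeticFunction.abs_moebius_le_one (n := q)
            have h6 : |((ArithmeticFunction.moebius q : ℤ) : ℝ)| ≤ 1 := by exact_mod_cast h5
            rw [← sq_abs]
            have h7 := abs_nonneg ((ArithmeticFunction.moebius q : ℤ) : ℝ)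
            nlinarith
          have hs0 : 0 ≤ ∑ a ∈ (Icc 1 N).filter (fun a => a.Coprime q),
              l (Real.log (a / (q * Y))) ^ 2 := sum_nonneg (fun _ _ => by positivity)
          calc ∑ a ∈ (Icc 1 N).filter (fun a => a.Coprime q),
                (((ArithmeticFunction.moebius q : ℤ) : ℝ) / (Nat.totient q : ℝ)
                * l (Real.log (a / (q * Y)))) ^ 2
              = (((ArithmeticFunction.moebius q : ℤ) : ℝ)) ^ 2 / (Nat.totient q : ℝ) ^ 2 *
                ∑ a ∈ (Icc 1 N).filter (fun a => a.Coprime q), l (Real.log (a / (q * Y))) ^ 2 := by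
                rw [mul_sum]
                apply sum_congr rfl
                intro a _
                rw [mul_pow, div_pow]
            _ ≤ 1 / (Nat.totient q : ℝ) ^ 2 *
                ∑ a ∈ (Icc 1 N).filter (fun a => a.Coprime q), l (Real.log (a / (q * Y))) ^ 2 := by
                gcongr
            _ ≤ 1 / (Nat.totient q : ℝ) ^ 2 *
                (Nat.totient q * Y * J + C2 * q.divisors.card) := by
                gcongr
                rw [hJ]
                linarith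
            _ = Y * J * (1 / Nat.totient q) +
                C2 * ((q.divisors.card : ℝ) / (Nat.totient q : ℝ) ^ 2) := by
                field_simp
      _ = Y * J * LL Q R + C2 * E := by
          rw [sum_add_distrib, ← mul_sum, ← mul_sum]
          rfl
  have hsq2 : Y * J * LL Q R + C2 * E ≤ H ^ ε * (1 + Real.log H) * (J * C3 + C2 * C4) := by
    have hHe : 1 ≤ H ^ ε := Real.one_le_rpow hH1 hε.le
    have h5 : Y * J * LL Q R ≤ H ^ ε * J * (C3 * (1 + Real.log H)) := by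
      gcongr
    have h6 : C2 * E ≤ C2 * C4 * (H ^ ε * (1 + Real.log H)) := by
      calc C2 * E ≤ C2 * C4 := by gcongr
        _ = C2 * C4 * 1 := by ring
        _ ≤ C2 * C4 * (H ^ ε * (1 + Real.log H)) := by
          gcongr
          nlinarith
    calc Y * J * LL Q R + C2 * E ≤ H ^ ε * J * (C3 * (1 + Real.log H)) +
          C2 * C4 * (H ^ ε * (1 + Real.log H)) := add_le_add h5 h6
      _ = _ := by ring
  -- K
  set K : ℕ := ⌈Real.exp B * Y * (R : ℝ) ^ 2⌉₊ with hK
  have hKpos : 0 < Real.exp B * Y * (R : ℝ) ^ 2 := by positivity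
  have hK1 : 1 ≤ K := Nat.one_le_ceil_iff.mpr hKpos
  have hKle : (K : ℝ) ≤ (Real.exp B + 1) * H := by
    have h5 : (K : ℝ) < Real.exp B * Y * (R : ℝ) ^ 2 + 1 := Nat.ceil_lt_add_one hKpos.le
    have h6 : Y * (R : ℝ) ^ 2 ≤ H := by
      calc Y * (R : ℝ) ^ 2 ≤ H ^ ε * H ^ (1 - 2 * ε) := by gcongr
        _ = H ^ (1 - ε) := by rw [← Real.rpow_add hHpos]; congr 1; ring
        _ ≤ H ^ (1 : ℝ) := Real.rpow_le_rpow_of_exponent_le hH1 (by linarith)
        _ = H := Real.rpow_one H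
    have h7 := Real.exp_pos B
    nlinarith
  have hlogK : 1 + Real.log K ≤ C5 * (1 + Real.log H) := by
    have hKr : (0 : ℝ) < K := by exact_mod_cast hK1
    have h5 := Real.log_le_log hKr hKle
    rw [Real.log_mul (by positivity) hHpos.ne'] at h5
    rw [hC5]
    nlinarith
  have hmain := h1 (Σ _ : ℕ, ℕ) inferInstance S θ c x (1 / (R : ℝ) ^ 2) K hx (by positivity) hK1
    ?_ ?_
  · rw [one_div, inv_inv] at hmain
    refine hmain.trans ?_
    have hlogK0 : 0 ≤ Real.log K := Real.log_nonneg (by exact_mod_cast hK1)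
    have hf := final_calc H I J (LL Q R) E x Y ((R : ℝ) ^ 2) (Real.log K) C1 C2 C3 C4 C5 ε
      (∑ p ∈ S, c p ^ 2) hH1 hI0 hJ0 hLL0 hE0 hx hY hHdef (sq_nonneg _) hR2 hlogK0 hC1 hC2 hC3 hC4
      hC50 hε hlogK hE2 hsq hsq2
    have hf2 := hasym H hH
    exact hf.trans (add_le_add le_rfl hf2)
  · -- separation
    intro p hp p' hp' hne
    rw [hS, mem_filter] at hp hp'
    obtain ⟨⟨h5, h6⟩, h7, h8, h9, h10⟩ := hS0mem p hp.1
    obtain ⟨⟨h5', h6'⟩, h7', h8', h9', h10'⟩ := hS0mem p' hp'.1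
    refine frac_sep p.1 p'.1 p.2 p'.2 R (by omega) (by omega) h6 h6' h10 h10' ?_
    rintro ⟨e1, e2⟩
    exact hne (Sigma.ext e1 (heq_of_eq e2))
  · -- range
    have hθr : ∀ p ∈ S, 0 ≤ θ p ∧ θ p ≤ Real.exp B * Y := by
      intro p hp
      rw [hS, mem_filter] at hp
      obtain ⟨⟨h5, h6⟩, h7, h8, h9, h10⟩ := hS0mem p hp.1
      have hp1 : (0 : ℝ) < p.1 := by
        have : 0 < p.1 := by omega
        exact_mod_cast this
      refine ⟨by positivity, ?_⟩
      rw [hθ]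
      simp only
      rw [div_le_iff₀ hp1]
      linarith [hp.2]
    intro p hp p' hp'
    have h5 := hθr p hp
    have h6 := hθr p' hp'
    have h7 : Real.exp B * Y ≤ K * (1 / (R : ℝ) ^ 2) := by
      rw [mul_one_div, le_div_iff₀ (by positivity)]
      exact Nat.le_ceil _
    rw [abs_le]
    constructor <;> linarith

end H343
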