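import Pool.Agent.H343R2.NonStat

set_option autoImplicit false
set_option maxHeartbeats 1000000

open Complex Filter Topology Set MeasureTheory
open scoped FourierTransform SchwartzMap

namespace H343

/-! ### Fourier analysis with the variable `t = 2 π ξ` -/

lemma plancherel_t (ψ : 𝓢(ℝ, ℂ)) :
    ∫ t : ℝ, ‖𝓕 ψ (t / (2 * Real.pi))‖ ^ 2 = 2 * Real.pi * ∫ w, ‖ψ w‖ ^ 2 := by
  rw [Measure.integral_comp_div (fun ξ : ℝ => ‖𝓕 ψ ξ‖ ^ 2) (2 * Real.pi),
    SchwartzMap.integral_norm_sq_fourier, abs_of_pos (by positivity), smul_eq_mul]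

lemma inversion_t (ψ : 𝓢(ℝ, ℂ)) (w : ℝ) :
    ∫ t : ℝ, cexp ((t * w : ℝ) * I) * 𝓕 ψ (t / (2 * Real.pi)) = 2 * Real.pi * ψ w := by
  have h1 : 𝓕⁻ (𝓕 ψ) w = ψ w := by rw [FourierTransform.fourierInv_fourier_eq]
  have h2 : 𝓕⁻ (𝓕 ψ) w = ∫ ξ : ℝ, cexp ((2 * Real.pi * ξ * w : ℝ) * I) * 𝓕 ψ ξ := by
    rw [SchwartzMap.fourierInv_coe, Real.fourierInv_eq_fourier_neg,
      Real.fourier_real_eq_integral_exp_smul]
    congr 1
    funext ξ
    rw [smul_eq_mul]
    congr 3
    ring_nf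
  have h3 := Measure.integral_comp_div
    (fun ξ : ℝ => cexp ((2 * Real.pi * ξ * w : ℝ) * I) * 𝓕 ψ ξ) (2 * Real.pi)
  rw [← h2, h1, abs_of_pos (by positivity)] at h3
  have hpi : (2 * Real.pi : ℝ) ≠ 0 := by positivity
  calc ∫ t : ℝ, cexp ((t * w : ℝ) * I) * 𝓕 ψ (t / (2 * Real.pi))
      = ∫ t : ℝ, cexp ((2 * Real.pi * (t / (2 * Real.pi)) * w : ℝ) * I) *
          𝓕 ψ (t / (2 * Real.pi)) := by
        congr 1
        funext t
        congr 4
        field_simp
    _ = _ := by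
        rw [h3, Complex.real_smul]
        push_cast
        ring

lemma integrable_t (ψ : 𝓢(ℝ, ℂ)) : Integrable (fun t : ℝ => 𝓕 ψ (t / (2 * Real.pi))) :=
  ((𝓕 ψ).integrable).comp_div (by positivity)

lemma continuous_t (ψ : 𝓢(ℝ, ℂ)) : Continuous (fun t : ℝ => 𝓕 ψ (t / (2 * Real.pi))) :=
  ((𝓕 ψ).continuous).comp (by fun_prop)

lemma integrable_sq_t (ψ : 𝓢(ℝ, ℂ)) :
    Integrable (fun t : ℝ => ‖𝓕 ψ (t / (2 * Real.pi))‖ ^ 2) := by
  have h : Integrable (fun ξ : ℝ => ‖𝓕 ψ ξ‖ ^ 2) := by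
    have := ((𝓕 ψ).memLp 2 volume).integrable_norm_pow (by norm_num)
    simpa using this
  exact h.comp_div (by positivity)

/-- the abstract duality inequality -/
lemma dual_ineq (A : ℝ → ℂ) (hA : Continuous A) (MA : ℝ) (hAb : ∀ t, ‖A t‖ ≤ MA)
    (ψ : 𝓢(ℝ, ℂ)) (t1 t2 T D : ℝ) (h12 : t1 ≤ t2) (hT : 0 < T)
    (hD : ∀ t, (t ≤ t1 ∨ t2 ≤ t) → ‖𝓕 ψ (t / (2 * Real.pi))‖ ≤ D / (T ^ 2 + t ^ 2)) :
    2 * (∫ t : ℝ, A t * (starRingEnd ℂ) (𝓕 ψ (t / (2 * Real.pi)))).re
      - 2 * Real.pi * (∫ w, ‖ψ w‖ ^ 2) - 2 * (MA * (D * (Real.pi / T))) ≤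
      ∫ t in t1..t2, ‖A t‖ ^ 2 := by
  set B : ℝ → ℂ := fun t => 𝓕 ψ (t / (2 * Real.pi)) with hB
  have hBc : Continuous B := continuous_t ψ
  have hBi : Integrable B := integrable_t ψ
  have hB2 : Integrable (fun t => ‖B t‖ ^ 2) := integrable_sq_t ψ
  have hMA : 0 ≤ MA := (norm_nonneg _).trans (hAb 0)
  have hD0 : 0 ≤ D := by
    have h := (norm_nonneg _).trans (hD t1 (Or.inl le_rfl))
    by_contra hc
    push Not at hc
    have : D / (T ^ 2 + t1 ^ 2) < 0 := div_neg_of_neg_of_pos hc (by positivity)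
    linarith
  have hABc : Continuous (fun t => A t * (starRingEnd ℂ) (B t)) :=
    hA.mul (Complex.continuous_conj.comp hBc)
  have hABi : Integrable (fun t => A t * (starRingEnd ℂ) (B t)) := by
    refine (hBi.norm.const_mul MA).mono' hABc.aestronglyMeasurable (Eventually.of_forall fun t => ?_)
    rw [norm_mul, RCLike.norm_conj]
    exact mul_le_mul_of_nonneg_right (hAb t) (norm_nonneg _)
  have hABre : Integrable (fun t => (A t * (starRingEnd ℂ) (B t)).re) := hABi.re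
  -- the integrand
  set f : ℝ → ℝ := fun t => 2 * (A t * (starRingEnd ℂ) (B t)).re - ‖B t‖ ^ 2 with hf
  have hfi : Integrable f := (hABre.const_mul 2).sub hB2
  have hfc : Continuous f := by
    apply Continuous.sub
    · exact continuous_const.mul (Complex.continuous_re.comp hABc)
    · exact (hBc.norm.pow 2)
  have hpt : ∀ t, f t ≤ ‖A t‖ ^ 2 := by
    intro t
    have h := sq_nonneg ‖A t - B t‖
    rw [← Complex.normSq_eq_norm_sq, Complex.normSq_sub, Complex.normSq_eq_norm_sq,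
      Complex.normSq_eq_norm_sq] at h
    simp only [hf]
    linarith
  have h1 : ∫ t in t1..t2, f t ≤ ∫ t in t1..t2, ‖A t‖ ^ 2 := by
    apply intervalIntegral.integral_mono_on h12 (hfc.intervalIntegrable _ _)
      ((hA.norm.pow 2).intervalIntegrable _ _)
    intro t _
    exact hpt t
  have h2 : ∫ t in t1..t2, f t = (∫ t, f t) - ∫ t in (Ioc t1 t2)ᶜ, f t := by
    rw [intervalIntegral.integral_of_le h12, ← integral_add_compl measurableSet_Ioc hfi]
    ring
  have h3 : ∫ t, f t = 2 * (∫ t : ℝ, A t * (starRingEnd ℂ) (B t)).re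
      - 2 * Real.pi * ∫ w, ‖ψ w‖ ^ 2 := by
    have e1 : ∫ t, f t = (∫ t, 2 * (A t * (starRingEnd ℂ) (B t)).re) - ∫ t, ‖B t‖ ^ 2 :=
      integral_sub (hABre.const_mul 2) hB2
    rw [e1, plancherel_t ψ, integral_const_mul]
    congr 2
    have := integral_re hABi
    simpa using this
  have hinvi : Integrable (fun t : ℝ => (T ^ 2 + t ^ 2)⁻¹) := by
    have h := (integrable_inv_one_add_sq).comp_div hT.ne'
    refine (h.const_mul ((T ^ 2)⁻¹)).congr (Eventually.of_forall fun t => ?_)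
    simp only
    field_simp
  have hinv : ∫ t : ℝ, (T ^ 2 + t ^ 2)⁻¹ = Real.pi / T := by
    have h := Measure.integral_comp_div (fun t : ℝ => (1 + t ^ 2)⁻¹) T
    rw [integral_univ_inv_one_add_sq, abs_of_pos hT, smul_eq_mul] at h
    have h' : ∫ t : ℝ, (T ^ 2 + t ^ 2)⁻¹ = ∫ t : ℝ, (T ^ 2)⁻¹ * (1 + (t / T) ^ 2)⁻¹ := by
      congr 1
      funext t
      field_simp
    rw [h', integral_const_mul, h]
    field_simp
  have h4 : ∫ t in (Ioc t1 t2)ᶜ, f t ≤ 2 * (MA * (D * (Real.pi / T))) := by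
    have hm : ∀ t ∈ (Ioc t1 t2)ᶜ, f t ≤ 2 * (MA * D) * (T ^ 2 + t ^ 2)⁻¹ := by
      intro t ht
      have ht' : t ≤ t1 ∨ t2 ≤ t := by
        rw [mem_compl_iff, mem_Ioc, not_and_or, not_lt, not_le] at ht
        rcases ht with ht | ht
        · exact Or.inl ht
        · exact Or.inr ht.le
      have hb := hD t ht'
      have h5 : (A t * (starRingEnd ℂ) (B t)).re ≤ MA * (D / (T ^ 2 + t ^ 2)) := by
        refine (Complex.re_le_norm _).trans ?_
        rw [norm_mul, RCLike.norm_conj]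
        exact mul_le_mul (hAb t) hb (norm_nonneg _) hMA
      have h6 := sq_nonneg ‖B t‖
      simp only [hf]
      rw [div_eq_mul_inv] at h5
      linarith
    calc ∫ t in (Ioc t1 t2)ᶜ, f t ≤ ∫ t in (Ioc t1 t2)ᶜ, 2 * (MA * D) * (T ^ 2 + t ^ 2)⁻¹ :=
          setIntegral_mono_on hfi.integrableOn (hinvi.const_mul _).integrableOn
            measurableSet_Ioc.compl hm
      _ ≤ ∫ t, 2 * (MA * D) * (T ^ 2 + t ^ 2)⁻¹ := by
          apply setIntegral_le_integral (hinvi.const_mul _)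
          exact Eventually.of_forall fun t => by positivity
      _ = 2 * (MA * (D * (Real.pi / T))) := by
          rw [integral_const_mul, hinv]; ring
  change 2 * (∫ t : ℝ, A t * (starRingEnd ℂ) (B t)).re
      - 2 * Real.pi * (∫ w, ‖ψ w‖ ^ 2) - 2 * (MA * (D * (Real.pi / T))) ≤ _
  rw [← h3]
  calc (∫ t, f t) - 2 * (MA * (D * (Real.pi / T))) ≤ (∫ t, f t) - ∫ t in (Ioc t1 t2)ᶜ, f t :=
        sub_le_sub_left h4 _
    _ = ∫ t in t1..t2, f t := h2.symm
    _ ≤ _ := h1

/-! ### The coefficients -/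

/-- coefficients of `AAt` -/
noncomputable def aa (b x : ℝ) (n : ℕ) : ℝ :=
  ArithmeticFunction.vonMangoldt n / Real.sqrt n *
    Real.exp (-(Real.log n - Real.log x) ^ 2 / (2 * b))

lemma aa_nonneg (b x : ℝ) (n : ℕ) : 0 ≤ aa b x n := by
  unfold aa
  have := ArithmeticFunction.vonMangoldt_nonneg (n := n)
  positivity

lemma sum_inv_sqrt (M : ℕ) : ∑ n ∈ Finset.range (M + 1), 1 / Real.sqrt n ≤ 2 * Real.sqrt M := by
  induction M with
  | zero => simp
  | succ M ih =>
    rw [Finset.sum_range_succ]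
    have h1 : 0 < Real.sqrt ((M + 1 : ℕ) : ℝ) := by positivity
    have h2 : Real.sqrt ((M + 1 : ℕ) : ℝ) ^ 2 = M + 1 := by
      rw [Real.sq_sqrt (by positivity)]; push_cast; ring
    have h3 : Real.sqrt (M : ℝ) ^ 2 = M := Real.sq_sqrt (by positivity)
    have h4 : 0 ≤ Real.sqrt (M : ℝ) := Real.sqrt_nonneg _
    have h5 : 1 / Real.sqrt ((M + 1 : ℕ) : ℝ) ≤ 2 * Real.sqrt ((M + 1 : ℕ) : ℝ) - 2 * Real.sqrt M := by
      rw [div_le_iff₀ h1]
      nlinarith [sq_nonneg (Real.sqrt ((M + 1 : ℕ) : ℝ) - Real.sqrt M)]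
    linarith

lemma sum_inv_sqrt3 (N : ℕ) (hN : 1 ≤ N) (M : ℕ) :
    ∑ i ∈ Finset.range M, 1 / (((N + i : ℕ) : ℝ) * Real.sqrt ((N + i : ℕ) : ℝ)) ≤
      6 / Real.sqrt N - 6 / Real.sqrt ((N + M : ℕ) : ℝ) := by
  induction M with
  | zero => simp
  | succ M ih =>
    rw [Finset.sum_range_succ]
    set k : ℕ := N + M with hk
    have hk1 : (1 : ℝ) ≤ k := by exact_mod_cast (by omega : 1 ≤ k)
    have e1 : ((N + (M + 1) : ℕ) : ℝ) = (k : ℝ) + 1 := by rw [hk]; push_cast; ring
    rw [e1]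
    set a := Real.sqrt (k : ℝ) with ha
    set d := Real.sqrt ((k : ℝ) + 1) with hd
    have ha0 : 0 < a := Real.sqrt_pos.2 (by linarith)
    have hd0 : 0 < d := Real.sqrt_pos.2 (by linarith)
    have ha2 : a ^ 2 = k := Real.sq_sqrt (by linarith)
    have hd2 : d ^ 2 = k + 1 := Real.sq_sqrt (by linarith)
    have had : (d - a) * (d + a) = 1 := by ring_nf; rw [ha2, hd2]; ring
    have h5 : 1 / ((k : ℝ) * a) ≤ 6 / a - 6 / d := by
      rw [← ha2]
      rw [div_sub_div _ _ ha0.ne' hd0.ne', div_le_div_iff₀ (by positivity) (by positivity)]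
      have h6 : a * d * (d + a) ≤ 6 * (a ^ 2 * a) := by nlinarith [sq_nonneg (a - d)]
      have h7 : a * d = (d - a) * (a * d * (d + a)) := by
        linear_combination (-(a * d)) * had
      have h8 : 0 ≤ d - a := by
        by_contra hc
        push Not at hc
        have : (d - a) * (d + a) < 0 := mul_neg_of_neg_of_pos hc (by positivity)
        linarith
      nlinarith [mul_le_mul_of_nonneg_left h6 h8]
    linarith

lemma aa_bound1 (b x : ℝ) (hb : 0 < b) (hx : 1 ≤ x) (n : ℕ) (hn : 1 ≤ n) :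
    ArithmeticFunction.vonMangoldt n * Real.exp (-(Real.log n - Real.log x) ^ 2 / (2 * b)) ≤
      Real.exp (2 * b) * (1 + Real.log x) ∧
    ArithmeticFunction.vonMangoldt n * Real.exp (-(Real.log n - Real.log x) ^ 2 / (2 * b)) ≤
      Real.exp (2 * b) * (1 + Real.log x) * (x / n) := by
  have hx0 : 0 < x := by linarith
  have hn0 : (0 : ℝ) < n := by exact_mod_cast hn
  have hlx : 0 ≤ Real.log x := Real.log_nonneg hx
  set w := Real.log n - Real.log x with hw
  have hL : ArithmeticFunction.vonMangoldt n ≤ Real.log x + w := by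
    have := ArithmeticFunction.vonMangoldt_le_log (n := n)
    linarith
  have hL0 := ArithmeticFunction.vonMangoldt_nonneg (n := n)
  have hxn : x / n = Real.exp (-w) := by
    rw [hw, neg_sub, Real.exp_sub, Real.exp_log hx0, Real.exp_log hn0]
  rw [hxn]
  have he2b : 1 ≤ Real.exp (2 * b) := Real.one_le_exp (by positivity)
  rcases le_or_gt w 0 with h | h
  · have hg : Real.exp (-w ^ 2 / (2 * b)) ≤ 1 := by
      apply Real.exp_le_one_iff.2
      apply div_nonpos_of_nonpos_of_nonneg _ (by positivity)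
      nlinarith
    have h1 : ArithmeticFunction.vonMangoldt n * Real.exp (-w ^ 2 / (2 * b)) ≤ 1 + Real.log x := by
      calc _ ≤ ArithmeticFunction.vonMangoldt n * 1 := mul_le_mul_of_nonneg_left hg hL0
        _ ≤ 1 + Real.log x := by linarith
    have h2 : 1 + Real.log x ≤ Real.exp (2 * b) * (1 + Real.log x) := by nlinarith
    refine ⟨h1.trans h2, (h1.trans h2).trans ?_⟩
    have h3 : 1 ≤ Real.exp (-w) := Real.one_le_exp (by linarith)
    have h4 : 0 ≤ Real.exp (2 * b) * (1 + Real.log x) := by positivity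
    nlinarith
  · have hkey : (1 + w) * Real.exp (-w ^ 2 / (2 * b)) ≤ Real.exp (2 * b) * Real.exp (-w) := by
      have h1 : 1 + w ≤ Real.exp w := by linarith [Real.add_one_le_exp w]
      calc (1 + w) * Real.exp (-w ^ 2 / (2 * b)) ≤ Real.exp w * Real.exp (-w ^ 2 / (2 * b)) := by
            gcongr
        _ = Real.exp (w + -w ^ 2 / (2 * b)) := by rw [Real.exp_add]
        _ ≤ Real.exp (2 * b + -w) := by
            apply Real.exp_le_exp.2
            have : 2 * w - 2 * b ≤ w ^ 2 / (2 * b) := by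
              rw [le_div_iff₀ (by positivity)]
              nlinarith [sq_nonneg (w - 2 * b)]
            have e : -w ^ 2 / (2 * b) = -(w ^ 2 / (2 * b)) := by ring
            rw [e]
            linarith
        _ = Real.exp (2 * b) * Real.exp (-w) := Real.exp_add _ _
    have h2 : ArithmeticFunction.vonMangoldt n * Real.exp (-w ^ 2 / (2 * b)) ≤
        Real.exp (2 * b) * (1 + Real.log x) * Real.exp (-w) := by
      calc _ ≤ ((1 + Real.log x) * (1 + w)) * Real.exp (-w ^ 2 / (2 * b)) := by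
            apply mul_le_mul_of_nonneg_right _ (Real.exp_pos _).le
            nlinarith
        _ = (1 + Real.log x) * ((1 + w) * Real.exp (-w ^ 2 / (2 * b))) := by ring
        _ ≤ (1 + Real.log x) * (Real.exp (2 * b) * Real.exp (-w)) := by gcongr
        _ = _ := by ring
    refine ⟨h2.trans ?_, h2⟩
    have h3 : Real.exp (-w) ≤ 1 := Real.exp_le_one_iff.2 (by linarith)
    have h4 : 0 ≤ Real.exp (2 * b) * (1 + Real.log x) := by positivity
    nlinarith

lemma aa_sum_range (b x : ℝ) (hb : 0 < b) (hx : 1 ≤ x) (M : ℕ) :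
    ∑ n ∈ Finset.range M, aa b x n ≤ 9 * Real.exp (2 * b) * (Real.sqrt x * (1 + Real.log x)) := by
  have hx0 : 0 < x := by linarith
  have hlx : 0 ≤ Real.log x := Real.log_nonneg hx
  set K := Real.exp (2 * b) * (1 + Real.log x) with hK
  have hK0 : 0 ≤ K := by positivity
  set N : ℕ := ⌊x⌋₊ + 1 with hN
  have hN1 : (x : ℝ) ≤ N := by
    rw [hN]; push_cast; exact (Nat.lt_floor_add_one x).le
  have hN2 : ((⌊x⌋₊ : ℕ) : ℝ) ≤ x := Nat.floor_le hx0.le
  have hNpos : 1 ≤ N := by omega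
  have hb1 : ∀ n : ℕ, aa b x n ≤ K * (1 / Real.sqrt n) := by
    intro n
    rcases Nat.eq_zero_or_pos n with h | h
    · subst h; simp [aa]
    · have := (aa_bound1 b x hb hx n h).1
      unfold aa
      rw [div_mul_eq_mul_div, ← mul_one_div, hK]
      gcongr
  have hb2 : ∀ n : ℕ, 1 ≤ n → aa b x n ≤ K * x * (1 / ((n : ℝ) * Real.sqrt n)) := by
    intro n h
    have h0 := (aa_bound1 b x hb hx n h).2
    have hn0 : (0 : ℝ) < n := by exact_mod_cast h
    have hs : 0 < Real.sqrt n := Real.sqrt_pos.2 hn0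
    unfold aa
    calc _ = (ArithmeticFunction.vonMangoldt n *
          Real.exp (-(Real.log n - Real.log x) ^ 2 / (2 * b))) / Real.sqrt n := by ring
      _ ≤ (Real.exp (2 * b) * (1 + Real.log x) * (x / n)) / Real.sqrt n := by gcongr
      _ = K * x * (1 / ((n : ℝ) * Real.sqrt n)) := by
          rw [hK]; field_simp
  have hsx : Real.sqrt x * Real.sqrt x = x := Real.mul_self_sqrt hx0.le
  have hsx0 : 0 < Real.sqrt x := Real.sqrt_pos.2 hx0
  calc ∑ n ∈ Finset.range M, aa b x n ≤ ∑ n ∈ Finset.range (N + M), aa b x n := by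
        apply Finset.sum_le_sum_of_subset_of_nonneg
        · intro n hn
          rw [Finset.mem_range] at *
          omega
        · intro n _ _
          exact aa_nonneg b x n
    _ = ∑ n ∈ Finset.range N, aa b x n + ∑ i ∈ Finset.range M, aa b x (N + i) :=
        Finset.sum_range_add _ _ _
    _ ≤ ∑ n ∈ Finset.range N, K * (1 / Real.sqrt n) +
        ∑ i ∈ Finset.range M, K * x * (1 / (((N + i : ℕ) : ℝ) * Real.sqrt ((N + i : ℕ) : ℝ))) := by
        apply add_le_add
        · exact Finset.sum_le_sum fun n _ => hb1 n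
        · exact Finset.sum_le_sum fun i _ => hb2 (N + i) (by omega)
    _ = K * ∑ n ∈ Finset.range N, (1 / Real.sqrt n) + K * x *
        ∑ i ∈ Finset.range M, (1 / (((N + i : ℕ) : ℝ) * Real.sqrt ((N + i : ℕ) : ℝ))) := by
        rw [← Finset.mul_sum, ← Finset.mul_sum]
    _ ≤ K * (2 * Real.sqrt x) + K * x * (6 / Real.sqrt x) := by
        apply add_le_add
        · apply mul_le_mul_of_nonneg_left _ hK0
          refine (sum_inv_sqrt ⌊x⌋₊).trans ?_
          have := Real.sqrt_le_sqrt hN2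
          linarith
        · apply mul_le_mul_of_nonneg_left _ (by positivity)
          refine (sum_inv_sqrt3 N hNpos M).trans ?_
          have h1 : 0 ≤ 6 / Real.sqrt ((N + M : ℕ) : ℝ) := by positivity
          have h2 : 6 / Real.sqrt N ≤ 6 / Real.sqrt x := by
            apply div_le_div_of_nonneg_left (by norm_num) hsx0
            exact Real.sqrt_le_sqrt hN1
          linarith
    _ = 8 * (K * Real.sqrt x) := by
        have : x * (6 / Real.sqrt x) = 6 * Real.sqrt x := by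
          field_simp
          nlinarith
        rw [mul_assoc K x, this]; ring
    _ ≤ 9 * Real.exp (2 * b) * (Real.sqrt x * (1 + Real.log x)) := by
        rw [hK]
        have : 0 ≤ Real.exp (2 * b) * (Real.sqrt x * (1 + Real.log x)) := by positivity
        nlinarith

lemma aa_summable (b x : ℝ) (hb : 0 < b) (hx : 1 ≤ x) : Summable (aa b x) :=
  summable_of_sum_range_le (aa_nonneg b x) (aa_sum_range b x hb hx)

lemma aa_tsum (b x : ℝ) (hb : 0 < b) (hx : 1 ≤ x) :
    ∑' n, aa b x n ≤ 9 * Real.exp (2 * b) * (Real.sqrt x * (1 + Real.log x)) :=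
  Real.tsum_le_of_sum_range_le (aa_nonneg b x) (aa_sum_range b x hb hx)

lemma AAt_eq (b x t : ℝ) : AAt b x t =
    ∑' n : ℕ, ((aa b x n : ℝ) : ℂ) * cexp (-(t * Real.log n : ℝ) * I) := rfl

lemma norm_term (b x t : ℝ) (n : ℕ) :
    ‖((aa b x n : ℝ) : ℂ) * cexp (-(t * Real.log n : ℝ) * I)‖ = aa b x n := by
  have : -((t * Real.log n : ℝ) : ℂ) = ((-(t * Real.log n) : ℝ) : ℂ) := by push_cast; ring
  rw [norm_mul, this, Complex.norm_exp_ofReal_mul_I, mul_one, Complex.norm_real, Real.norm_eq_abs,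
    abs_of_nonneg (aa_nonneg b x n)]

lemma AAt_cont (b x : ℝ) (hb : 0 < b) (hx : 1 ≤ x) : Continuous (AAt b x) := by
  have : AAt b x = fun t => ∑' n : ℕ, ((aa b x n : ℝ) : ℂ) * cexp (-(t * Real.log n : ℝ) * I) := rfl
  rw [this]
  apply continuous_tsum _ (aa_summable b x hb hx) (fun n t => (norm_term b x t n).le)
  intro n
  fun_prop

lemma AAt_bound (b x t : ℝ) (hb : 0 < b) (hx : 1 ≤ x) :
    ‖AAt b x t‖ ≤ 9 * Real.exp (2 * b) * (Real.sqrt x * (1 + Real.log x)) := by
  rw [AAt_eq]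
  refine le_trans ?_ (aa_tsum b x hb hx)
  exact tsum_of_norm_bounded (aa_summable b x hb hx).hasSum (fun n => (norm_term b x t n).le)

/-- the mixed term -/
lemma mixed (b x : ℝ) (hb : 0 < b) (hx : 1 ≤ x) (ψ : 𝓢(ℝ, ℂ)) :
    ∫ t : ℝ, AAt b x t * (starRingEnd ℂ) (𝓕 ψ (t / (2 * Real.pi))) =
      2 * Real.pi * ∑' n : ℕ, ((aa b x n : ℝ) : ℂ) * (starRingEnd ℂ) (ψ (Real.log n)) := by
  set B : ℝ → ℂ := fun t => 𝓕 ψ (t / (2 * Real.pi)) with hB
  have hBc : Continuous B := continuous_t ψ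
  have hBi : Integrable B := integrable_t ψ
  set f : ℕ → ℝ → ℂ := fun n t => ((aa b x n : ℝ) : ℂ) * cexp (-(t * Real.log n : ℝ) * I) *
    (starRingEnd ℂ) (B t) with hf
  have hfn : ∀ n t, ‖f n t‖ = aa b x n * ‖B t‖ := by
    intro n t
    simp only [hf]
    rw [norm_mul, norm_term, RCLike.norm_conj]
  have hfi : ∀ n, Integrable (f n) := by
    intro n
    refine (hBi.norm.const_mul (aa b x n)).mono' ?_ (Eventually.of_forall fun t => (hfn n t).le)
    apply Continuous.aestronglyMeasurable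
    exact (by fun_prop : Continuous fun t : ℝ => ((aa b x n : ℝ) : ℂ) *
      cexp (-(t * Real.log n : ℝ) * I)).mul (Complex.continuous_conj.comp hBc)
  have hsum : Summable fun n => ∫ t, ‖f n t‖ := by
    simp_rw [hfn]
    simp_rw [integral_const_mul]
    exact (aa_summable b x hb hx).mul_right _
  have key := hasSum_integral_of_summable_integral_norm hfi hsum
  have e1 : (fun t : ℝ => AAt b x t * (starRingEnd ℂ) (B t)) = fun t => ∑' n, f n t := by
    funext t
    simp only [hf]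
    rw [tsum_mul_right, AAt_eq]
  rw [e1, ← key.tsum_eq, ← tsum_mul_left]
  congr 1
  funext n
  have e2 : ∫ t, f n t = ((aa b x n : ℝ) : ℂ) *
      (starRingEnd ℂ) (∫ t : ℝ, cexp ((t * Real.log n : ℝ) * I) * B t) := by
    rw [← integral_conj, ← integral_const_mul]
    congr 1
    funext t
    simp only [hf]
    rw [map_mul, mul_assoc]
    congr 2
    rw [← Complex.exp_conj]
    congr 1
    rw [map_mul, conj_I, conj_ofReal]
    push_cast
    ring
  rw [e2, inversion_t ψ (Real.log n)]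
  rw [map_mul, map_mul, conj_ofReal]
  have : (starRingEnd ℂ) (2 : ℂ) = 2 := by
    have := conj_ofReal (2 : ℝ)
    exact_mod_cast this
  rw [this]
  ring

/-! ### The test function -/

/-- exponential polynomial -/
noncomputable def SS {ι : Type} (S : Finset ι) (θ c : ι → ℝ) (y : ℝ) : ℂ :=
  ∑ i ∈ S, (c i : ℂ) * ex (y * θ i)

noncomputable def bt {ι : Type} (ρ : ℝ → ℝ) (S : Finset ι) (θ c : ι → ℝ) (x w : ℝ) : ℂ :=
  ((ρ (w - Real.log x) * Real.exp (w / 2) : ℝ) : ℂ) * SS S θ c (Real.exp w)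

lemma ex_contDiff (θ : ℝ) : ContDiff ℝ ((⊤ : ℕ∞) : WithTop ℕ∞) (fun w : ℝ => ex (Real.exp w * θ)) := by
  unfold ex
  have h1 : ContDiff ℝ ((⊤ : ℕ∞) : WithTop ℕ∞) (fun w : ℝ => (2 * Real.pi * (Real.exp w * θ) : ℝ)) := by
    fun_prop
  exact ((Complex.ofRealCLM.contDiff.comp h1).mul contDiff_const).cexp

lemma bt_contDiff {ι : Type} {ρ : ℝ → ℝ} {κ : ℝ} (hρ : Test κ ρ) (S : Finset ι) (θ c : ι → ℝ)
    (x : ℝ) : ContDiff ℝ ((⊤ : ℕ∞) : WithTop ℕ∞) (bt ρ S θ c x) := by
  unfold bt SS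
  apply ContDiff.mul
  · apply Complex.ofRealCLM.contDiff.comp
    apply ContDiff.mul
    · exact hρ.smooth.comp (by fun_prop)
    · fun_prop
  · apply ContDiff.sum
    intro i _
    exact contDiff_const.mul (ex_contDiff (θ i))

lemma bt_compact {ι : Type} {ρ : ℝ → ℝ} {κ : ℝ} (hρ : Test κ ρ) (S : Finset ι) (θ c : ι → ℝ)
    (x : ℝ) : HasCompactSupport (bt ρ S θ c x) := by
  apply HasCompactSupport.intro (isCompact_Icc (a := Real.log x - κ) (b := Real.log x + κ))
  intro w hw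
  have : κ ≤ |w - Real.log x| := by
    rw [mem_Icc, not_and_or, not_le, not_le] at hw
    rw [le_abs]
    rcases hw with hw | hw
    · right; linarith
    · left; linarith
  simp [bt, hρ.supp _ this]

/-- the Schwartz function -/
noncomputable def btS {ι : Type} {ρ : ℝ → ℝ} {κ : ℝ} (hρ : Test κ ρ) (S : Finset ι) (θ c : ι → ℝ)
    (x : ℝ) : 𝓢(ℝ, ℂ) := (bt_compact hρ S θ c x).toSchwartzMap (bt_contDiff hρ S θ c x)

lemma btS_apply {ι : Type} {ρ : ℝ → ℝ} {κ : ℝ} (hρ : Test κ ρ) (S : Finset ι) (θ c : ι → ℝ)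
    (x w : ℝ) : btS hρ S θ c x w = bt ρ S θ c x w := rfl

lemma ex_norm (y : ℝ) : ‖ex y‖ = 1 := by
  unfold ex
  exact Complex.norm_exp_ofReal_mul_I _

lemma ex_cont : Continuous ex := by unfold ex; fun_prop

/-- the `L²` norm -/
lemma bt_norm {ι : Type} {ρ : ℝ → ℝ} (S : Finset ι) (θ c : ι → ℝ)
    (x : ℝ) (hx : 0 < x) : ∫ w, ‖bt ρ S θ c x w‖ ^ 2 =
      x * ∫ v, Real.exp v * ρ v ^ 2 * ‖∑ i ∈ S, (c i : ℂ) * ex (x * Real.exp v * θ i)‖ ^ 2 := by
  rw [← integral_add_right_eq_self _ (Real.log x), ← integral_const_mul]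
  congr 1
  funext v
  unfold bt SS
  rw [norm_mul, Complex.norm_real, Real.norm_eq_abs, mul_pow, sq_abs, add_sub_cancel_right,
    Real.exp_add v, Real.exp_log hx, mul_comm (Real.exp v) x]
  have : Real.exp ((v + Real.log x) / 2) ^ 2 = Real.exp v * x := by
    rw [← Real.exp_nat_mul]
    have : ((2 : ℕ) : ℝ) * ((v + Real.log x) / 2) = v + Real.log x := by push_cast; ring
    rw [this, Real.exp_add, Real.exp_log hx]
  rw [mul_pow, this]
  ring

/-- the Fourier transform of the test function -/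
lemma bt_fourier {ι : Type} {ρ : ℝ → ℝ} {κ : ℝ} (hρ : Test κ ρ) (S : Finset ι) (θ c : ι → ℝ)
    (x t : ℝ) (hx : 0 < x) : 𝓕 (btS hρ S θ c x) (t / (2 * Real.pi)) =
      cexp (-(t * Real.log x : ℝ) * I) * Real.sqrt x * ∑ i ∈ S, (c i : ℂ) *
        ∫ v, ((ρ v * Real.exp (v / 2) : ℝ) : ℂ) *
          cexp (((2 * Real.pi * x * θ i) * Real.exp v - t * v : ℝ) * I) := by
  have hsum : ∀ i ∈ S, Integrable (fun v : ℝ => (c i : ℂ) * (((ρ v * Real.exp (v / 2) : ℝ) : ℂ) *
          cexp (((2 * Real.pi * x * θ i) * Real.exp v - t * v : ℝ) * I))) := by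
    intro i _
    apply Integrable.const_mul
    apply Continuous.integrable_of_hasCompactSupport
    · have := hρ.smooth.continuous
      fun_prop
    · apply HasCompactSupport.intro (isCompact_Icc (a := -κ) (b := κ))
      intro v hv
      have : κ ≤ |v| := by
        rw [mem_Icc, not_and_or, not_le, not_le] at hv
        rw [le_abs]
        rcases hv with hv | hv
        · right; linarith
        · left; linarith
      simp [hρ.supp _ this]
  rw [SchwartzMap.fourier_coe, Real.fourier_real_eq_integral_exp_smul,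
    ← integral_add_right_eq_self _ (Real.log x)]
  simp_rw [← integral_const_mul]
  rw [← integral_finsetSum S hsum, ← integral_const_mul]
  congr 1
  funext v
  rw [smul_eq_mul, btS_apply]
  unfold bt SS
  rw [add_sub_cancel_right, Real.exp_add v, Real.exp_log hx, Finset.mul_sum, Finset.mul_sum,
    Finset.mul_sum]
  apply Finset.sum_congr rfl
  intro i _
  have hpi : (2 * Real.pi : ℝ) ≠ 0 := by positivity
  have e1 : -2 * Real.pi * (v + Real.log x) * (t / (2 * Real.pi)) = -(t * Real.log x) + -(t * v) := by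
    field_simp
    ring
  have e2 : Real.exp ((v + Real.log x) / 2) = Real.exp (v / 2) * Real.sqrt x := by
    rw [add_div, Real.exp_add, Real.sqrt_eq_rpow, Real.rpow_def_of_pos hx]
    congr 2; ring
  rw [e1, e2]
  unfold ex
  have e3 : cexp (((-(t * Real.log x) + -(t * v) : ℝ) : ℂ) * I) *
      cexp (((2 * Real.pi * (Real.exp v * x * θ i) : ℝ) : ℂ) * I) =
      cexp (-((t * Real.log x : ℝ) : ℂ) * I) *
        cexp ((((2 * Real.pi * x * θ i) * Real.exp v - t * v : ℝ) : ℂ) * I) := by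
    rw [← Complex.exp_add, ← Complex.exp_add]
    congr 1
    push_cast
    ring
  push_cast at e3 ⊢
  linear_combination ((ρ v : ℂ) * (cexp (v / 2) * (Real.sqrt x : ℂ)) * (c i : ℂ)) * e3

theorem duality (b : ℝ) (hb : 0 < b) {ρ : ℝ → ℝ} {κ : ℝ} (hκ : 0 < κ) (hκ1 : κ ≤ 1 / 20)
    (hρ : Test κ ρ) : ∃ C T0 : ℝ, 0 < C ∧ 0 < T0 ∧ ∀ (x T : ℝ) (ι : Type) (S : Finset ι)
      (θ c : ι → ℝ), 1 ≤ x → T0 ≤ T → (∀ i ∈ S, (1 + 4 * κ) * T ≤ 2 * Real.pi * x * θ i) →
      (∀ i ∈ S, 2 * Real.pi * x * θ i ≤ (2 - 8 * κ) * T) →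
      2 * Real.pi * (2 * (∑' n : ℕ, ((ArithmeticFunction.vonMangoldt n *
            (ρ (Real.log (n / x)) * Real.exp (-(Real.log (n / x)) ^ 2 / (2 * b))) : ℝ) : ℂ) *
            ∑ i ∈ S, (c i : ℂ) * ex (n * θ i)).re
          - x * ∫ v, Real.exp v * ρ v ^ 2 * ‖∑ i ∈ S, (c i : ℂ) * ex (x * Real.exp v * θ i)‖ ^ 2)
        - C * x * (1 + Real.log x) / T * ∑ i ∈ S, |c i|
      ≤ ∫ t in (T + Real.log T)..(2 * T - Real.log T), ‖AAt b x t‖ ^ 2 := by
  obtain ⟨C1, hC1, hns⟩ := nonstat hκ hκ1 hρ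
  obtain ⟨T1, hT1⟩ : ∃ T1 : ℝ, ∀ T : ℝ, T1 ≤ T → Real.log T ≤ 2 * κ * T := by
    have h := (Real.isLittleO_log_id_atTop.def (by positivity : (0 : ℝ) < 2 * κ))
    obtain ⟨T1, hT1⟩ := (eventually_atTop.1 h)
    refine ⟨max T1 1, fun T hT => ?_⟩
    have h1 := hT1 T ((le_max_left _ _).trans hT)
    have h2 : 1 ≤ T := (le_max_right _ _).trans hT
    rw [Real.norm_eq_abs, Real.norm_eq_abs, id, abs_of_nonneg (Real.log_nonneg h2),
      abs_of_nonneg (by linarith : (0:ℝ) ≤ T)] at h1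
    exact h1
  refine ⟨18 * Real.exp (2 * b) * C1 * Real.pi, max T1 1, by positivity, by positivity, ?_⟩
  intro x T ι S θ c hx hT hθ1 hθ2
  have hT1' : T1 ≤ T := (le_max_left _ _).trans hT
  have hT2 : 1 ≤ T := (le_max_right _ _).trans hT
  have hT0 : 0 < T := by linarith
  have hx0 : 0 < x := by linarith
  have hlog := hT1 T hT1'
  have hlog0 : 0 ≤ Real.log T := Real.log_nonneg hT2
  have hlx : 0 ≤ Real.log x := Real.log_nonneg hx
  have h12 : T + Real.log T ≤ 2 * T - Real.log T := by nlinarith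
  have he1 : 1 - κ ≤ Real.exp (-κ) := by
    have := Real.add_one_le_exp (-κ); linarith
  have he2 : Real.exp κ ≤ 1 + κ + κ ^ 2 := by
    have := Real.abs_exp_sub_one_sub_id_le (x := κ) (by rw [abs_of_pos hκ]; linarith)
    have := (abs_le.1 this).2
    linarith
  set ψ := btS hρ S θ c x with hψ
  set MA := 9 * Real.exp (2 * b) * (Real.sqrt x * (1 + Real.log x)) with hMA
  set D := Real.sqrt x * (∑ i ∈ S, |c i|) * C1 with hD
  have hdec : ∀ t, (t ≤ T + Real.log T ∨ 2 * T - Real.log T ≤ t) →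
      ‖𝓕 ψ (t / (2 * Real.pi))‖ ≤ D / (T ^ 2 + t ^ 2) := by
    intro t ht
    rw [hψ, bt_fourier hρ S θ c x t hx0, norm_mul, norm_mul]
    have e1 : ‖cexp (-(t * Real.log x : ℝ) * I)‖ = 1 := by
      have : -((t * Real.log x : ℝ) : ℂ) = ((-(t * Real.log x) : ℝ) : ℂ) := by push_cast; ring
      rw [this, Complex.norm_exp_ofReal_mul_I]
    rw [e1, one_mul, Complex.norm_real, Real.norm_eq_abs, abs_of_nonneg (Real.sqrt_nonneg _)]
    have hterm : ∀ i ∈ S, ‖(c i : ℂ) * ∫ v, ((ρ v * Real.exp (v / 2) : ℝ) : ℂ) *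
          cexp (((2 * Real.pi * x * θ i) * Real.exp v - t * v : ℝ) * I)‖ ≤
          |c i| * (C1 / (T ^ 2 + t ^ 2)) := by
      intro i hi
      rw [norm_mul, Complex.norm_real, Real.norm_eq_abs]
      apply mul_le_mul_of_nonneg_left _ (abs_nonneg _)
      have hV1 := hθ1 i hi
      have hV2 := hθ2 i hi
      set V := 2 * Real.pi * x * θ i with hV
      have hVT : T ≤ V := by nlinarith
      have hcond : t ≤ V * Real.exp (-κ) * (1 - κ / 2) ∨ V * Real.exp κ * (1 + κ / 2) ≤ t := by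
        rcases ht with ht | ht
        · left
          have h1 : (1 + 4 * κ) * T * ((1 - κ) * (1 - κ / 2)) ≤
              V * (Real.exp (-κ) * (1 - κ / 2)) := by
            apply mul_le_mul hV1 _ (by nlinarith) (by linarith)
            apply mul_le_mul_of_nonneg_right he1 (by linarith)
          have h2 : (1 + 2 * κ) ≤ (1 + 4 * κ) * ((1 - κ) * (1 - κ / 2)) := by
            nlinarith [mul_pos hκ hκ, mul_pos (mul_pos hκ hκ) hκ]
          have h3 := mul_le_mul_of_nonneg_right h2 hT0.le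
          nlinarith
        · right
          have h1 : V * (Real.exp κ * (1 + κ / 2)) ≤
              ((2 - 8 * κ) * T) * ((1 + κ + κ ^ 2) * (1 + κ / 2)) := by
            apply mul_le_mul hV2 _ (by positivity) (by nlinarith)
            apply mul_le_mul_of_nonneg_right he2 (by linarith)
          have h2 : (2 - 8 * κ) * ((1 + κ + κ ^ 2) * (1 + κ / 2)) ≤ 2 - 2 * κ := by
            have h3 : (1 + κ + κ ^ 2) * (1 + κ / 2) ≤ 1 + 2 * κ := by
              nlinarith [mul_pos hκ hκ, mul_pos (mul_pos hκ hκ) hκ]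
            nlinarith [mul_pos hκ hκ]
          have h3 := mul_le_mul_of_nonneg_right h2 hT0.le
          nlinarith
      refine (hns V t (by linarith) hcond).trans ?_
      apply div_le_div_of_nonneg_left hC1.le (by positivity)
      have : T ^ 2 ≤ V ^ 2 := pow_le_pow_left₀ hT0.le hVT 2
      linarith
    calc Real.sqrt x * ‖_‖ ≤ Real.sqrt x * ∑ i ∈ S, |c i| * (C1 / (T ^ 2 + t ^ 2)) := by
          apply mul_le_mul_of_nonneg_left _ (Real.sqrt_nonneg _)
          exact norm_sum_le_of_le S hterm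
      _ = D / (T ^ 2 + t ^ 2) := by
          rw [← Finset.sum_mul, hD]; ring
  have key := dual_ineq (AAt b x) (AAt_cont b x hb hx) MA (fun t => AAt_bound b x t hb hx) ψ
    (T + Real.log T) (2 * T - Real.log T) T D h12 hT0 hdec
  refine le_trans (le_of_eq ?_) key
  have hmix := mixed b x hb hx ψ
  have hL2 : ∫ w, ‖ψ w‖ ^ 2 = _ := bt_norm (ρ := ρ) S θ c x hx0
  rw [hmix, hL2]
  have e1 : (2 * Real.pi * ∑' n : ℕ, ((aa b x n : ℝ) : ℂ) * (starRingEnd ℂ) (ψ (Real.log n))).re =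
      2 * Real.pi * (∑' n : ℕ, ((ArithmeticFunction.vonMangoldt n *
            (ρ (Real.log (n / x)) * Real.exp (-(Real.log (n / x)) ^ 2 / (2 * b))) : ℝ) : ℂ) *
            ∑ i ∈ S, (c i : ℂ) * ex (n * θ i)).re := by
    have h1 : (2 * Real.pi : ℂ) = ((2 * Real.pi : ℝ) : ℂ) := by push_cast; ring
    rw [h1, re_ofReal_mul]
    congr 1
    have h2 : (∑' n : ℕ, ((ArithmeticFunction.vonMangoldt n *
            (ρ (Real.log (n / x)) * Real.exp (-(Real.log (n / x)) ^ 2 / (2 * b))) : ℝ) : ℂ) *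
            ∑ i ∈ S, (c i : ℂ) * ex (n * θ i)) =
        (starRingEnd ℂ) (∑' n : ℕ, ((aa b x n : ℝ) : ℂ) * (starRingEnd ℂ) (ψ (Real.log n))) := by
      rw [Complex.conj_tsum]
      congr 1
      funext n
      rw [map_mul, conj_ofReal, Complex.conj_conj]
      rcases Nat.eq_zero_or_pos n with h | h
      · subst h; simp [aa]
      · have hn0 : (0 : ℝ) < n := by exact_mod_cast h
        have hs : Real.sqrt n ≠ 0 := (Real.sqrt_pos.2 hn0).ne'
        rw [hψ, btS_apply]
        unfold bt SS aa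
        rw [Real.log_div hn0.ne' hx0.ne', Real.exp_log hn0]
        have e2 : Real.exp (Real.log n / 2) = Real.sqrt n := by
          rw [Real.sqrt_eq_rpow, Real.rpow_def_of_pos hn0]
          congr 1; ring
        rw [e2, ← mul_assoc (_ : ℂ) (_ : ℂ) (_ : ℂ), ← ofReal_mul]
        congr 2
        field_simp
    rw [h2, conj_re]
  rw [e1, hMA, hD]
  have hsx : Real.sqrt x * Real.sqrt x = x := Real.mul_self_sqrt hx0.le
  have e3 : 2 * (9 * Real.exp (2 * b) * (Real.sqrt x * (1 + Real.log x)) *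
      (Real.sqrt x * (∑ i ∈ S, |c i|) * C1 * (Real.pi / T))) =
      18 * Real.exp (2 * b) * C1 * Real.pi * x * (1 + Real.log x) / T * ∑ i ∈ S, |c i| := by
    calc _ = 18 * Real.exp (2 * b) * C1 * Real.pi * (Real.sqrt x * Real.sqrt x) *
          (1 + Real.log x) / T * ∑ i ∈ S, |c i| := by ring
      _ = _ := by rw [hsx]
  rw [e3]
  ring

end H343
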