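import Pool.Agent.H343R2.Defs
import Pool.Agent.H343R2.Count
import Pool.Agent.H343R2.Pnt
import Pool.Agent.H343R2.Gauss
import Pool.Agent.H343R2.PhiSum
import Pool.Agent.H343R2.Key

open Finset

namespace H343

lemma char_zero {q : ℕ} (χ : DirichletCharacter ℂ q) (a : ℕ) (h : ¬ a.Coprime q) :
    χ (a : ZMod q) = 0 := by
  apply MulChar.map_nonunit
  rwa [ZMod.isUnit_iff_coprime]

lemma KK_eq (l : ℝ → ℝ) (Y : ℝ) (N : ℕ) {q : ℕ} (χ : DirichletCharacter ℂ q) :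
    KK l Y N χ = ∑ a ∈ (Icc 1 N).filter (fun a => a.Coprime q),
      χ (a : ZMod q) * (l (Real.log (a / (q * Y))) : ℂ) := by
  unfold KK
  rw [Finset.sum_filter]
  apply Finset.sum_congr rfl
  intro a _
  split_ifs with h
  · rfl
  · rw [char_zero χ a h, zero_mul]

lemma PS_eq (f : ℝ → ℝ) (x : ℝ) (M : ℕ) {q : ℕ} (χ : DirichletCharacter ℂ q) :
    PS f x M χ = ∑ n ∈ (Icc 1 M).filter (fun n => n.Coprime q),
      (ArithmeticFunction.vonMangoldt n : ℂ) * χ (n : ZMod q) * (f (Real.log (n / x)) : ℂ) := by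
  unfold PS
  rw [Finset.sum_filter]
  apply Finset.sum_congr rfl
  intro a _
  split_ifs with h
  · rfl
  · rw [char_zero χ a h, mul_zero, zero_mul]

/-- characters expansion of the coprime part -/
lemma char_expand (l f : ℝ → ℝ) (x Y : ℝ) (N M q : ℕ) (hq : 1 ≤ q) (c : ℝ) :
    ∑ a ∈ (Icc 1 N).filter (fun a => a.Coprime q),
      ((c * l (Real.log (a / (q * Y))) : ℝ) : ℂ) *
      ∑ n ∈ (Icc 1 M).filter (fun n => n.Coprime q),
        ((ArithmeticFunction.vonMangoldt n * f (Real.log (n / x)) : ℝ) : ℂ) * ex (n * (a / q)) =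
    ((c / (Nat.totient q : ℝ) : ℝ) : ℂ) * ∑ χ : DirichletCharacter ℂ q,
      GS χ⁻¹ * KK l Y N χ * PS f x M χ := by
  have hphi : ((Nat.totient q : ℝ) : ℂ) ≠ 0 := by
    have := Nat.totient_pos.2 hq
    exact_mod_cast this.ne'
  have h1 : ∀ χ : DirichletCharacter ℂ q, GS χ⁻¹ * KK l Y N χ * PS f x M χ =
      ∑ a ∈ (Icc 1 N).filter (fun a => a.Coprime q),
        ∑ n ∈ (Icc 1 M).filter (fun n => n.Coprime q),
          ((l (Real.log (a / (q * Y))) : ℝ) : ℂ) *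
            ((ArithmeticFunction.vonMangoldt n * f (Real.log (n / x)) : ℝ) : ℂ) *
            (χ ((a * n : ℕ) : ZMod q) * GS χ⁻¹) := by
    intro χ
    rw [mul_assoc, KK_eq, PS_eq, Finset.sum_mul_sum, Finset.mul_sum]
    apply Finset.sum_congr rfl
    intro a _
    rw [Finset.mul_sum]
    apply Finset.sum_congr rfl
    intro n _
    push_cast
    rw [map_mul]
    ring
  simp_rw [h1]
  rw [Finset.sum_comm, Finset.mul_sum]
  apply Finset.sum_congr rfl
  intro a ha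
  rw [Finset.sum_comm, Finset.mul_sum, Finset.mul_sum]
  apply Finset.sum_congr rfl
  intro n hn
  rw [Finset.mem_filter] at ha hn
  have hcop : (a * n).Coprime q := Nat.Coprime.mul_left ha.2 hn.2
  rw [← Finset.mul_sum, ← GS_expand q (a * n) hq hcop]
  have e : (n : ℝ) * ((a : ℝ) / q) = ((a * n : ℕ) : ℝ) / q := by push_cast; ring
  rw [e]
  push_cast at hphi ⊢
  field_simp

lemma KK_one (l : ℝ → ℝ) (Y : ℝ) (N q : ℕ) :
    KK l Y N (1 : DirichletCharacter ℂ q) =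
      ((∑ a ∈ (Icc 1 N).filter (fun a => a.Coprime q), l (Real.log (a / (q * Y))) : ℝ) : ℂ) := by
  rw [KK_eq]
  push_cast
  apply Finset.sum_congr rfl
  intro a ha
  rw [Finset.mem_filter] at ha
  rw [MulChar.one_apply ((ZMod.isUnit_iff_coprime a q).mpr ha.2), one_mul]

lemma PS_one (f : ℝ → ℝ) (x : ℝ) (M q : ℕ) :
    PS f x M (1 : DirichletCharacter ℂ q) =
      ((∑ n ∈ (Icc 1 M).filter (fun n => n.Coprime q), ArithmeticFunction.vonMangoldt n *
        f (Real.log (n / x)) : ℝ) : ℂ) := by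
  rw [PS_eq]
  push_cast
  apply Finset.sum_congr rfl
  intro a ha
  rw [Finset.mem_filter] at ha
  rw [MulChar.one_apply ((ZMod.isUnit_iff_coprime a q).mpr ha.2), mul_one]

lemma prod_err (K P K0 P0 e1 e2 : ℝ) (h1 : |K - K0| ≤ e1) (h2 : |P - P0| ≤ e2) :
    |K * P - K0 * P0| ≤ e1 * |P0| + |K0| * e2 + e1 * e2 := by
  have he1 : 0 ≤ e1 := (abs_nonneg _).trans h1
  have e : K * P - K0 * P0 = (K - K0) * P0 + K0 * (P - P0) + (K - K0) * (P - P0) := by ring
  rw [e]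
  refine (abs_add_le _ _).trans (add_le_add ((abs_add_le _ _).trans (add_le_add ?_ ?_)) ?_)
  · rw [abs_mul]; gcongr
  · rw [abs_mul]; gcongr
  · rw [abs_mul]; gcongr

open Classical in
lemma q_term (f l : ℝ → ℝ) (x Y : ℝ) (N M q : ℕ) (hq : 1 ≤ q) (hsq : Squarefree q) (hx : 0 ≤ x)
    (hY : 0 ≤ Y) (If Il E1 E2 E3 E4 : ℝ)
    (hK : |∑ a ∈ (Icc 1 N).filter (fun a => a.Coprime q), l (Real.log (a / (q * Y)))
        - Nat.totient q * Y * Il| ≤ E1)
    (hP : |∑ n ∈ (Icc 1 M).filter (fun n => n.Coprime q), ArithmeticFunction.vonMangoldt n *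
          f (Real.log (n / x)) - x * If| ≤ E2)
    (hN : ∑ n ∈ (Icc 1 M).filter (fun n => ¬ n.Coprime q), ArithmeticFunction.vonMangoldt n *
          |f (Real.log (n / x))| ≤ E3)
    (hW : ∑ a ∈ (Icc 1 N).filter (fun a => a.Coprime q), |l (Real.log (a / (q * Y)))| ≤ E4) :
    ‖∑ a ∈ (Icc 1 N).filter (fun a => a.Coprime q),
        (((ArithmeticFunction.moebius q : ℤ) : ℝ) / (Nat.totient q : ℝ)
          * l (Real.log (a / (q * Y))) : ℝ) *
        ∑ n ∈ Icc 1 M, ((ArithmeticFunction.vonMangoldt n * f (Real.log (n / x)) : ℝ) : ℂ) *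
          ex (n * (a / q)) - ((x * Y * If * Il * (1 / (Nat.totient q : ℝ)) : ℝ) : ℂ)‖ ≤
      1 / (Nat.totient q : ℝ) ^ 2 * (E1 * (x * |If|) + (Nat.totient q * Y * |Il|) * E2 + E1 * E2)
      + 1 / (Nat.totient q : ℝ) * E4 * E3
      + 1 / (Nat.totient q : ℝ) ^ 2 *
      ∑ χ ∈ (univ : Finset (DirichletCharacter ℂ q)).filter (fun χ => χ ≠ 1),
        ‖GS χ⁻¹‖ * ‖KK l Y N χ‖ * ‖PS f x M χ‖ := by
  have hphi : (0:ℝ) < Nat.totient q := by exact_mod_cast Nat.totient_pos.2 hq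
  set φ : ℝ := (Nat.totient q : ℝ) with hφ
  set c : ℝ := ((ArithmeticFunction.moebius q : ℤ) : ℝ) / φ with hc
  have hmu : |((ArithmeticFunction.moebius q : ℤ) : ℝ)| = 1 := by
    have := ArithmeticFunction.abs_moebius_eq_one_of_squarefree hsq
    exact_mod_cast this
  have hmu2 : ((ArithmeticFunction.moebius q : ℤ) : ℝ) * ((ArithmeticFunction.moebius q : ℤ) : ℝ)
      = 1 := by
    rw [← abs_mul_abs_self, hmu, one_mul]
  have hcabs : |c| = 1 / φ := by
    rw [hc, abs_div, hmu, abs_of_pos hphi]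
  set w : ℕ → ℝ := fun a => l (Real.log (a / (q * Y))) with hw
  set p : ℕ → ℝ := fun n => ArithmeticFunction.vonMangoldt n * f (Real.log (n / x)) with hp
  -- split
  have hsplit : ∑ a ∈ (Icc 1 N).filter (fun a => a.Coprime q), ((c * w a : ℝ) : ℂ) *
        ∑ n ∈ Icc 1 M, ((p n : ℝ) : ℂ) * ex (n * (a / q)) =
      ((c / φ : ℝ) : ℂ) * ∑ χ : DirichletCharacter ℂ q, GS χ⁻¹ * KK l Y N χ * PS f x M χ +
      ∑ a ∈ (Icc 1 N).filter (fun a => a.Coprime q), ((c * w a : ℝ) : ℂ) *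
        ∑ n ∈ (Icc 1 M).filter (fun n => ¬ n.Coprime q), ((p n : ℝ) : ℂ) * ex (n * (a / q)) := by
    rw [← char_expand l f x Y N M q hq c, ← Finset.sum_add_distrib]
    apply Finset.sum_congr rfl
    intro a _
    rw [← mul_add, Finset.sum_filter_add_sum_filter_not]
  have hchar : ∑ χ : DirichletCharacter ℂ q, GS χ⁻¹ * KK l Y N χ * PS f x M χ =
      ∑ χ ∈ (univ : Finset (DirichletCharacter ℂ q)).filter (fun χ => χ ≠ 1),
        GS χ⁻¹ * KK l Y N χ * PS f x M χ +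
      ((((ArithmeticFunction.moebius q : ℤ) : ℝ) *
        ((∑ a ∈ (Icc 1 N).filter (fun a => a.Coprime q), w a) *
        ∑ n ∈ (Icc 1 M).filter (fun n => n.Coprime q), p n) : ℝ) : ℂ) := by
    rw [← Finset.sum_filter_add_sum_filter_not univ (fun χ : DirichletCharacter ℂ q => χ ≠ 1)]
    congr 1
    have : (univ : Finset (DirichletCharacter ℂ q)).filter (fun χ => ¬ χ ≠ 1) = {1} := by
      ext χ; simp
    rw [this, Finset.sum_singleton, inv_one, GS_one q hq, KK_one, PS_one]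
    rw [Complex.ofReal_mul, Complex.ofReal_mul, Complex.ofReal_intCast, ← mul_assoc]
  have hncop : ‖∑ a ∈ (Icc 1 N).filter (fun a => a.Coprime q), ((c * w a : ℝ) : ℂ) *
        ∑ n ∈ (Icc 1 M).filter (fun n => ¬ n.Coprime q), ((p n : ℝ) : ℂ) * ex (n * (a / q))‖ ≤
      1 / φ * E4 * E3 := by
    have hE3 : ∀ a : ℕ, ‖∑ n ∈ (Icc 1 M).filter (fun n => ¬ n.Coprime q),
        ((p n : ℝ) : ℂ) * ex (n * (a / q))‖ ≤ E3 := by
      intro a
      refine (norm_sum_le _ _).trans (le_trans (le_of_eq ?_) hN)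
      apply Finset.sum_congr rfl
      intro n _
      rw [norm_mul, Gauss.norm_ex, mul_one, Complex.norm_real, Real.norm_eq_abs, hp, abs_mul,
        abs_of_nonneg ArithmeticFunction.vonMangoldt_nonneg]
    have hE30 : 0 ≤ E3 := (norm_nonneg _).trans (hE3 0)
    calc _ ≤ ∑ a ∈ (Icc 1 N).filter (fun a => a.Coprime q), 1 / φ * |w a| * E3 := by
          refine (norm_sum_le _ _).trans (Finset.sum_le_sum fun a _ => ?_)
          rw [norm_mul, Complex.norm_real, Real.norm_eq_abs, abs_mul, hcabs]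
          exact mul_le_mul_of_nonneg_left (hE3 a) (by positivity)
      _ = 1 / φ * (∑ a ∈ (Icc 1 N).filter (fun a => a.Coprime q), |w a|) * E3 := by
          rw [Finset.mul_sum, Finset.sum_mul]
      _ ≤ 1 / φ * E4 * E3 := by gcongr
  have hnon : ‖((c / φ : ℝ) : ℂ) *
      ∑ χ ∈ (univ : Finset (DirichletCharacter ℂ q)).filter (fun χ => χ ≠ 1),
        GS χ⁻¹ * KK l Y N χ * PS f x M χ‖ ≤ 1 / φ ^ 2 *
      ∑ χ ∈ (univ : Finset (DirichletCharacter ℂ q)).filter (fun χ => χ ≠ 1),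
        ‖GS χ⁻¹‖ * ‖KK l Y N χ‖ * ‖PS f x M χ‖ := by
    rw [norm_mul, Complex.norm_real, Real.norm_eq_abs, abs_div, hcabs, abs_of_pos hphi]
    have : 1 / φ / φ = 1 / φ ^ 2 := by field_simp
    rw [this]
    apply mul_le_mul_of_nonneg_left _ (by positivity)
    refine (norm_sum_le _ _).trans (le_of_eq ?_)
    apply Finset.sum_congr rfl
    intro χ _
    rw [norm_mul, norm_mul]
  have hmain : |c / φ * (((ArithmeticFunction.moebius q : ℤ) : ℝ) *
        ((∑ a ∈ (Icc 1 N).filter (fun a => a.Coprime q), w a) *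
        ∑ n ∈ (Icc 1 M).filter (fun n => n.Coprime q), p n)) -
        x * Y * If * Il * (1 / φ)| ≤
      1 / φ ^ 2 * (E1 * (x * |If|) + (φ * Y * |Il|) * E2 + E1 * E2) := by
    have h := prod_err _ _ _ _ _ _ hK hP
    have e : c / φ * (((ArithmeticFunction.moebius q : ℤ) : ℝ) *
        ((∑ a ∈ (Icc 1 N).filter (fun a => a.Coprime q), w a) *
        ∑ n ∈ (Icc 1 M).filter (fun n => n.Coprime q), p n)) -
        x * Y * If * Il * (1 / φ) =
        1 / φ ^ 2 * ((∑ a ∈ (Icc 1 N).filter (fun a => a.Coprime q), w a) *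
        (∑ n ∈ (Icc 1 M).filter (fun n => n.Coprime q), p n) - (φ * Y * Il) * (x * If)) := by
      have e1 : c / φ * (((ArithmeticFunction.moebius q : ℤ) : ℝ) *
        ((∑ a ∈ (Icc 1 N).filter (fun a => a.Coprime q), w a) *
        ∑ n ∈ (Icc 1 M).filter (fun n => n.Coprime q), p n)) = 
        (((ArithmeticFunction.moebius q : ℤ) : ℝ) * ((ArithmeticFunction.moebius q : ℤ) : ℝ)) *
          (1 / φ ^ 2 * ((∑ a ∈ (Icc 1 N).filter (fun a => a.Coprime q), w a) *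
        ∑ n ∈ (Icc 1 M).filter (fun n => n.Coprime q), p n)) := by
        rw [hc]; field_simp
      rw [e1, hmu2, one_mul]
      field_simp
    rw [e, abs_mul, abs_of_pos (show 0 < 1 / φ ^ 2 by positivity)]
    apply mul_le_mul_of_nonneg_left _ (by positivity)
    refine h.trans (le_of_eq ?_)
    rw [abs_mul x, abs_of_nonneg hx, abs_mul (φ * Y), abs_of_nonneg (by positivity : 0 ≤ φ * Y)]
  rw [hsplit, hchar, mul_add]
  have e : ∀ a b c d : ℂ, a + b + c - d = (b - d) + c + a := by intros; ring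
  rw [e]
  refine (norm_add_le _ _).trans (add_le_add ((norm_add_le _ _).trans (add_le_add ?_ hncop)) hnon)
  rw [← Complex.ofReal_mul, ← Complex.ofReal_sub, Complex.norm_real, Real.norm_eq_abs]
  exact hmain


/-- per-`q` estimate, purely real -/
lemma real_term (φ q d D x Y L C1 C2 C3 aIf aIl e M0 eB : ℝ) (hq : 1 ≤ q) (hφ : 0 < φ)
    (hd : 0 ≤ d) (hdD : d ≤ D) (hφd : q ≤ φ * d) (hx : 0 ≤ x) (hY : 0 ≤ Y) (hL : 0 ≤ L)
    (hC1 : 0 ≤ C1) (hC2 : 0 ≤ C2) (hC3 : 0 ≤ C3) (hIf : 0 ≤ aIf) (hIl : 0 ≤ aIl)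
    (he1 : e ≤ 1) (hM0 : 0 ≤ M0) (heB : 0 ≤ eB) :
    1 / φ ^ 2 * ((C1 * d) * (x * aIf) + (φ * Y * aIl) * (e * x + C2 * d * L) +
      (C1 * d) * (e * x + C2 * d * L)) + 1 / φ * (M0 * (eB * q * Y)) * (C3 * d * L) ≤
    e * aIl * (x * Y) * (1 / φ) + C1 * (aIf + 1) * x * D ^ 3 * (1 / q ^ 2) +
      ((aIl * C2 + M0 * eB * C3) * Y * L * D ^ 2 + C1 * C2 * L * D ^ 4) := by
  have hD : 0 ≤ D := hd.trans hdD
  have hq0 : 0 < q := by linarith
  set r : ℝ := 1 / φ with hr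
  have hr0 : 0 < r := by positivity
  have hrφ : r * φ = 1 := by rw [hr]; field_simp
  have hrq : q * r ≤ D := by
    calc q * r ≤ (φ * d) * r := by gcongr
      _ = d * (r * φ) := by ring
      _ = d := by rw [hrφ, mul_one]
      _ ≤ D := hdD
  have hrD : r ≤ D := by nlinarith
  have hrDq : r ≤ D / q := by rw [le_div_iff₀ hq0]; linarith
  have h1 : r ^ 2 * d ≤ D ^ 3 * (1 / q ^ 2) := by
    calc r ^ 2 * d ≤ (D / q) ^ 2 * D := by gcongr
      _ = D ^ 3 * (1 / q ^ 2) := by field_simp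
  have h2 : r * d ≤ D ^ 2 := by
    calc r * d ≤ D * D := by gcongr
      _ = D ^ 2 := by ring
  have h3 : r ^ 2 * d ^ 2 ≤ D ^ 4 := by
    calc r ^ 2 * d ^ 2 ≤ D ^ 2 * D ^ 2 := by gcongr
      _ = D ^ 4 := by ring
  have h4 : (q * r) * d ≤ D ^ 2 := by
    calc (q * r) * d ≤ D * D := by gcongr
      _ = D ^ 2 := by ring
  have e2 : 1 / φ ^ 2 = r ^ 2 := by rw [hr]; field_simp
  rw [e2]
  have expand : r ^ 2 * ((C1 * d) * (x * aIf) + (φ * Y * aIl) * (e * x + C2 * d * L) +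
      (C1 * d) * (e * x + C2 * d * L)) + r * (M0 * (eB * q * Y)) * (C3 * d * L) =
      C1 * (aIf + e) * x * (r ^ 2 * d) + (r * φ) * (Y * aIl * e * x * r) +
      (r * φ) * (aIl * C2 * Y * L * (r * d)) + C1 * C2 * L * (r ^ 2 * d ^ 2) +
      M0 * eB * C3 * Y * L * ((q * r) * d) := by ring
  rw [expand, hrφ, one_mul, one_mul]
  have t1 : C1 * (aIf + e) * x * (r ^ 2 * d) ≤ C1 * (aIf + 1) * x * (D ^ 3 * (1 / q ^ 2)) := by
    gcongr
  have t2 : aIl * C2 * Y * L * (r * d) ≤ aIl * C2 * Y * L * D ^ 2 := by gcongr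
  have t3 : C1 * C2 * L * (r ^ 2 * d ^ 2) ≤ C1 * C2 * L * D ^ 4 := by gcongr
  have t4 : M0 * eB * C3 * Y * L * ((q * r) * d) ≤ M0 * eB * C3 * Y * L * D ^ 2 := by gcongr
  nlinarith [t1, t2, t3, t4]

lemma weight_count {B M0 : ℝ} {l : ℝ → ℝ} (hl : Test B l) (hM : ∀ v, |l v| ≤ M0) (N q : ℕ)
    (Y : ℝ) (hq : 1 ≤ q) (hY : 0 < Y) :
    ∑ a ∈ (Icc 1 N).filter (fun a => a.Coprime q), |l (Real.log (a / (q * Y)))| ≤
      M0 * (Real.exp B * q * Y) := by
  have hq0 : (0:ℝ) < q := by exact_mod_cast hq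
  have hM0 : 0 ≤ M0 := (abs_nonneg _).trans (hM 0)
  set K : ℕ := ⌊Real.exp B * q * Y⌋₊ with hK
  have hb : 0 ≤ Real.exp B * q * Y := by positivity
  calc ∑ a ∈ (Icc 1 N).filter (fun a => a.Coprime q), |l (Real.log (a / (q * Y)))|
      ≤ ∑ a ∈ Icc 1 K, M0 := by
        rw [← Finset.sum_filter_add_sum_filter_not ((Icc 1 N).filter (fun a => a.Coprime q))
          (fun a => a ≤ K)]
        have hz : ∑ a ∈ ((Icc 1 N).filter (fun a => a.Coprime q)).filter (fun a => ¬ a ≤ K),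
            |l (Real.log (a / (q * Y)))| = 0 := by
          apply Finset.sum_eq_zero
          intro a ha
          rw [Finset.mem_filter, not_le] at ha
          have h1 : Real.exp B * q * Y < a := (Nat.floor_lt hb).1 ha.2
          have h2 : B ≤ Real.log (a / (q * Y)) := by
            have ha0 : (0:ℝ) < a := lt_of_le_of_lt hb h1
            rw [Real.le_log_iff_exp_le (by positivity), le_div_iff₀ (by positivity)]
            linarith
          rw [hl.supp _ (h2.trans (le_abs_self _)), abs_zero]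
        rw [hz, add_zero]
        refine (Finset.sum_le_sum fun a _ => hM _).trans ?_
        apply Finset.sum_le_sum_of_subset_of_nonneg
        · intro a ha
          simp only [Finset.mem_filter, Finset.mem_Icc] at ha ⊢
          exact ⟨ha.1.1.1, ha.2⟩
        · intro a _ _
          exact hM0
    _ = M0 * K := by simp [mul_comm]
    _ ≤ M0 * (Real.exp B * q * Y) := by
        gcongr
        exact Nat.floor_le hb

lemma sum_inv_sq (Q R : ℕ) (hQ : 1 ≤ Q) :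
    ∑ q ∈ Mod Q R, 1 / (q : ℝ) ^ 2 ≤ 1 / (Q : ℝ) := by
  rcases le_or_gt Q R with h | h
  · calc ∑ q ∈ Mod Q R, 1 / (q : ℝ) ^ 2 ≤ ∑ q ∈ Ioc Q R, 1 / (q : ℝ) ^ 2 := by
          apply Finset.sum_le_sum_of_subset_of_nonneg (Finset.filter_subset _ _)
          intro q _ _
          positivity
      _ = ∑ q ∈ Ioc Q R, ((q : ℝ) ^ 2)⁻¹ := by simp
      _ ≤ (Q : ℝ)⁻¹ - (R : ℝ)⁻¹ := sum_Ioc_inv_sq_le_sub (by omega) h
      _ ≤ 1 / Q := by
          have : (0:ℝ) ≤ (R : ℝ)⁻¹ := by positivity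
          rw [one_div]; linarith
  · have : Mod Q R = ∅ := by
      unfold Mod
      rw [Finset.Ioc_eq_empty (by omega), Finset.filter_empty]
    rw [this, Finset.sum_empty]
    positivity

lemma card_Mod (Q R : ℕ) : ((Mod Q R).card : ℝ) ≤ R := by
  have h1 : (Mod Q R).card ≤ (Ioc Q R).card := Finset.card_filter_le _ _
  rw [Nat.card_Ioc] at h1
  have : (Mod Q R).card ≤ R := by omega
  exact_mod_cast this


theorem main_sum {B : ℝ} {f l : ℝ → ℝ} (hf : Test B f) (hl : Test B l) (ε η : ℝ) (hε : 0 < ε)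
    (hε1 : ε ≤ 1 / 100) (hη : 0 < η) : ∃ H0 : ℝ, ∀ x Y : ℝ, Range ε x Y → H0 ≤ x * Y →
    ∀ Q R N M : ℕ, Cuts ε B x Y Q R N M →
    ‖∑ q ∈ Mod Q R, ∑ a ∈ (Icc 1 N).filter (fun a => a.Coprime q),
        (((ArithmeticFunction.moebius q : ℤ) : ℝ) / (Nat.totient q : ℝ)
          * l (Real.log (a / (q * Y))) : ℝ) *
        ∑ n ∈ Icc 1 M, ((ArithmeticFunction.vonMangoldt n * f (Real.log (n / x)) : ℝ) : ℂ) *
          ex (n * (a / q))
      - ((x * Y * (∫ v, f v * Real.exp v) * (∫ v, l v * Real.exp v) * LL Q R : ℝ) : ℂ)‖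
      ≤ η * (x * Y) * Real.log (x * Y) := by
  classical
  obtain ⟨CL, hCL, hLL⟩ := LL_upper
  obtain ⟨M0, hM0, hMl⟩ := hl.bounded
  obtain ⟨C1, hC1, hcop⟩ := coprime_count hl
  set If := ∫ v, f v * Real.exp v with hIf
  set Il := ∫ v, l v * Real.exp v with hIl
  set η' : ℝ := min 1 (η / (4 * (CL * (|Il| + 1)))) with hη'
  have hIl0 : 0 < CL * (|Il| + 1) := by positivity
  have hη'0 : 0 < η' := lt_min one_pos (by positivity)
  have hη'1 : η' ≤ 1 := min_le_left _ _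
  have hη'2 : η' * (CL * (|Il| + 1)) ≤ η / 4 := by
    calc η' * (CL * (|Il| + 1)) ≤ (η / (4 * (CL * (|Il| + 1)))) * (CL * (|Il| + 1)) := by
          gcongr; exact min_le_right _ _
      _ = η / 4 := by field_simp
  obtain ⟨X0, C2, hX0, hC2, hpnt⟩ := pnt_smooth hf η' hη'0
  obtain ⟨C3, hC3, hnc⟩ := not_coprime hf
  obtain ⟨Cd, hCd, hdiv⟩ := div_bound (ε / 8) (by positivity)
  obtain ⟨H1, hkey⟩ := key hf hl ε hε hε1
  set K : ℝ := C1 * (|If| + 1) * Cd ^ 3 +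
    (|Il| * C2 + M0 * Real.exp B * C3) * (3 / 2) * Cd ^ 2 + C1 * C2 * (3 / 2) * Cd ^ 4 + 1 with hK
  have hK0 : 0 < K := by positivity
  have hev : ∃ H2 : ℝ, ∀ H : ℝ, H2 ≤ H → K * H ^ (-(ε / 40)) ≤ η / 2 := by
    have h1 : Filter.Tendsto (fun H : ℝ => K * H ^ (-(ε / 40))) Filter.atTop (nhds (K * 0)) :=
      (tendsto_rpow_neg_atTop (by positivity)).const_mul K
    rw [mul_zero] at h1
    have h2 := h1.eventually_le_const (show (0:ℝ) < η / 2 by positivity)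
    exact Filter.eventually_atTop.1 h2
  obtain ⟨H2, hH2⟩ := hev
  refine ⟨max (max H1 H2) (max (Real.exp 1) ((max X0 2) ^ 2)), ?_⟩
  intro x Y hr hH Q R N M hcut
  set H := x * Y with hHdef
  have hx := hr.hx
  have hY := hr.hY
  have hHH1 : H1 ≤ H := (le_max_left _ _).trans ((le_max_left _ _).trans hH)
  have hHH2 : H2 ≤ H := (le_max_right _ _).trans ((le_max_left _ _).trans hH)
  have hHe : Real.exp 1 ≤ H := (le_max_left _ _).trans ((le_max_right _ _).trans hH)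
  have hHX : (max X0 2) ^ 2 ≤ H := (le_max_right _ _).trans ((le_max_right _ _).trans hH)
  have hH0 : 0 < H := by positivity
  have hH1 : 1 ≤ H := hr.h1
  have hlogH : 1 ≤ Real.log H := by
    rw [Real.le_log_iff_exp_le hH0]; exact hHe
  have hYe : Y ≤ H ^ ε := by
    have h1 : H ^ (1 - ε) * Y ≤ H ^ (1 - ε) * H ^ ε := by
      rw [← Real.rpow_add hH0, sub_add_cancel, Real.rpow_one]
      calc H ^ (1 - ε) * Y ≤ x * Y := by gcongr; exact hr.hlow
        _ = H := rfl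
    exact le_of_mul_le_mul_left h1 (Real.rpow_pos_of_pos hH0 _)
  have hxL : Real.log x ≤ 3 / 2 * Real.log H := by
    rw [← Real.log_rpow hH0]
    exact Real.log_le_log hx hr.hhigh
  have hxm : max X0 2 ≤ x := by
    have h1 : max X0 2 ≤ H ^ (1 / 2 : ℝ) := by
      rw [← Real.sqrt_eq_rpow]
      exact Real.le_sqrt_of_sq_le hHX
    refine h1.trans (le_trans ?_ hr.hlow)
    exact Real.rpow_le_rpow_of_exponent_le hH1 (by linarith)
  have hxX0 : X0 ≤ x := (le_max_left _ _).trans hxm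
  have hx2 : 2 ≤ x := (le_max_right _ _).trans hxm
  have hL0 : 0 ≤ Real.log x := Real.log_nonneg (by linarith)
  set L := Real.log x with hL
  have hQ0 : (0:ℝ) < Q := lt_of_lt_of_le (Real.rpow_pos_of_pos hH0 _) hcut.hQ1
  have hQ1 : 1 ≤ Q := by exact_mod_cast hQ0
  have hRH : (R : ℝ) ≤ H := hcut.hR.trans (by
    calc H ^ (1 / 2 - ε) ≤ H ^ (1:ℝ) := Real.rpow_le_rpow_of_exponent_le hH1 (by linarith)
      _ = H := Real.rpow_one H)
  set D := Cd * H ^ (ε / 8) with hD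
  have hD0 : 0 < D := by positivity
  -- facts on `q`
  have hqf : ∀ q ∈ Mod Q R, 1 ≤ q ∧ q ≤ R ∧ Squarefree q ∧ (q.divisors.card : ℝ) ≤ D := by
    intro q hq
    rw [Mod, Finset.mem_filter, Finset.mem_Ioc] at hq
    refine ⟨by omega, hq.1.2, hq.2, ?_⟩
    refine (hdiv q (by omega)).trans ?_
    rw [hD]
    have : (q : ℝ) ≤ H := le_trans (by exact_mod_cast hq.1.2) hRH
    gcongr
  set E : ℝ := ((|Il| * C2 + M0 * Real.exp B * C3) * Y * L * D ^ 2 + C1 * C2 * L * D ^ 4) with hE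
  have hE0 : 0 ≤ E := by positivity
  set G : ℕ → ℝ := fun q => 1 / (Nat.totient q : ℝ) ^ 2 *
      ∑ χ ∈ (univ : Finset (DirichletCharacter ℂ q)).filter (fun χ => χ ≠ 1),
        ‖GS χ⁻¹‖ * ‖KK l Y N χ‖ * ‖PS f x M χ‖ with hG
  have hterm : ∀ q ∈ Mod Q R, ‖∑ a ∈ (Icc 1 N).filter (fun a => a.Coprime q),
        (((ArithmeticFunction.moebius q : ℤ) : ℝ) / (Nat.totient q : ℝ)
          * l (Real.log (a / (q * Y))) : ℝ) *
        ∑ n ∈ Icc 1 M, ((ArithmeticFunction.vonMangoldt n * f (Real.log (n / x)) : ℝ) : ℂ) *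
          ex (n * (a / q)) - ((x * Y * If * Il * (1 / (Nat.totient q : ℝ)) : ℝ) : ℂ)‖ ≤
      η' * |Il| * H * (1 / (Nat.totient q : ℝ)) + C1 * (|If| + 1) * x * D ^ 3 * (1 / (q:ℝ) ^ 2)
        + E + G q := by
    intro q hq
    obtain ⟨hq1, hqR, hsq, hdD⟩ := hqf q hq
    have hqr : (1:ℝ) ≤ q := by exact_mod_cast hq1
    have hqR' : (q:ℝ) ≤ R := by exact_mod_cast hqR
    have hNq : Real.exp B * q * Y ≤ N := le_trans (by gcongr) hcut.hN
    have h := q_term f l x Y N M q hq1 hsq hx.le hY.le If Il (C1 * q.divisors.card)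
      (η' * x + C2 * q.divisors.card * L) (C3 * q.divisors.card * L)
      (M0 * (Real.exp B * q * Y)) (hcop q N Y hq1 hY hNq) (hpnt x q M hxX0 hq1 hcut.hM)
      (hnc x q M hx2 hq1) (weight_count hl hMl N q Y hq1 hY)
    refine h.trans ?_
    have hφ : (0:ℝ) < Nat.totient q := by exact_mod_cast Nat.totient_pos.2 hq1
    have h2 := real_term (Nat.totient q : ℝ) q q.divisors.card D x Y L C1 C2 C3 |If| |Il| η' M0
      (Real.exp B) hqr hφ (by positivity) hdD (by exact_mod_cast phi_mul_card q hq1) hx.le hY.le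
      hL0 hC1.le hC2.le hC3.le (abs_nonneg _) (abs_nonneg _) hη'1 hM0.le (Real.exp_pos B).le
    simp only [hG]
    have h3 := add_le_add_left h2 (1 / (Nat.totient q : ℝ) ^ 2 *
      ∑ χ ∈ (univ : Finset (DirichletCharacter ℂ q)).filter (fun χ => χ ≠ 1),
        ‖GS χ⁻¹‖ * ‖KK l Y N χ‖ * ‖PS f x M χ‖)
    refine le_trans (le_of_eq ?_) (h3.trans (le_of_eq ?_))
    · congr 1
    · ring
  -- sum over q
  have hLLe : ((x * Y * If * Il * LL Q R : ℝ) : ℂ) =
      ∑ q ∈ Mod Q R, ((x * Y * If * Il * (1 / (Nat.totient q : ℝ)) : ℝ) : ℂ) := by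
    rw [LL, Finset.mul_sum, Complex.ofReal_sum]
  have hsum : ‖∑ q ∈ Mod Q R, ∑ a ∈ (Icc 1 N).filter (fun a => a.Coprime q),
        (((ArithmeticFunction.moebius q : ℤ) : ℝ) / (Nat.totient q : ℝ)
          * l (Real.log (a / (q * Y))) : ℝ) *
        ∑ n ∈ Icc 1 M, ((ArithmeticFunction.vonMangoldt n * f (Real.log (n / x)) : ℝ) : ℂ) *
          ex (n * (a / q)) - ((x * Y * If * Il * LL Q R : ℝ) : ℂ)‖ ≤
      η' * |Il| * H * LL Q R + C1 * (|If| + 1) * x * D ^ 3 * (1 / (Q:ℝ)) + E * R +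
        H ^ (1 - ε / 40) := by
    rw [hLLe, ← Finset.sum_sub_distrib]
    refine (norm_sum_le _ _).trans ((Finset.sum_le_sum hterm).trans ?_)
    rw [Finset.sum_add_distrib, Finset.sum_add_distrib, Finset.sum_add_distrib]
    rw [← Finset.mul_sum, ← Finset.mul_sum, Finset.sum_const, nsmul_eq_mul, ← LL]
    have h1 := sum_inv_sq Q R hQ1
    have h2 := card_Mod Q R
    have h3 := hkey x Y hr hHH1 Q R N M hcut
    have h4 : ∑ q ∈ Mod Q R, G q ≤ H ^ (1 - ε / 40) := by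
      refine le_trans (le_of_eq ?_) h3
      rfl
    have h5 : ((Mod Q R).card : ℝ) * E ≤ E * R := by
      rw [mul_comm E]; gcongr
    have h6 : C1 * (|If| + 1) * x * D ^ 3 * ∑ q ∈ Mod Q R, 1 / (q:ℝ) ^ 2 ≤
        C1 * (|If| + 1) * x * D ^ 3 * (1 / (Q:ℝ)) := by gcongr
    linarith
  refine hsum.trans ?_
  -- final numerics
  have hP : ∀ a : ℝ, a ≤ 1 - ε / 40 → H ^ a ≤ H ^ (1 - ε / 40) := fun a ha =>
    Real.rpow_le_rpow_of_exponent_le hH1 ha
  have hpow : ∀ n : ℕ, (H ^ (ε / 8)) ^ n = H ^ (n * (ε / 8)) := by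
    intro n
    rw [← Real.rpow_natCast, ← Real.rpow_mul hH0.le]
    congr 1; ring
  -- (ii)
  have b1 : η' * |Il| * H * LL Q R ≤ η / 2 * (H * Real.log H) := by
    have h1 : LL Q R ≤ CL * (2 * Real.log H) := by
      refine (hLL Q R).trans ?_
      gcongr
      have : Real.log R ≤ Real.log H := by
        rcases Nat.eq_zero_or_pos R with h0 | h0
        · rw [h0]; simp; linarith
        · exact Real.log_le_log (by exact_mod_cast h0) hRH
      linarith
    have hLL0 : 0 ≤ LL Q R := Finset.sum_nonneg fun q _ => by positivity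
    calc η' * |Il| * H * LL Q R ≤ η' * (|Il| + 1) * H * LL Q R := by gcongr; linarith
      _ ≤ η' * (|Il| + 1) * H * (CL * (2 * Real.log H)) := by gcongr
      _ = (η' * (CL * (|Il| + 1))) * (2 * (H * Real.log H)) := by ring
      _ ≤ η / 4 * (2 * (H * Real.log H)) := by gcongr
      _ = η / 2 * (H * Real.log H) := by ring
  -- (i)
  have b2 : C1 * (|If| + 1) * x * D ^ 3 * (1 / (Q:ℝ)) ≤
      C1 * (|If| + 1) * Cd ^ 3 * (H ^ (1 - ε / 40) * Real.log H) := by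
    have h1 : x * (1 / (Q:ℝ)) ≤ H ^ (1 - 4 * ε) := by
      have h2 : H ^ (4 * ε) ≤ Q * Y := by
        have := hcut.hQ2
        rwa [div_le_iff₀ hY] at this
      rw [mul_one_div, div_le_iff₀ hQ0]
      have h3 : x * H ^ (4 * ε) ≤ H * Q := by
        calc x * H ^ (4 * ε) ≤ x * (Q * Y) := by gcongr
          _ = H * Q := by rw [hHdef]; ring
      have h4 : H ^ (1 - 4 * ε) * H ^ (4 * ε) = H := by
        rw [← Real.rpow_add hH0, sub_add_cancel, Real.rpow_one]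
      have h5 : 0 < H ^ (4 * ε) := Real.rpow_pos_of_pos hH0 _
      apply le_of_mul_le_mul_right _ h5
      calc x * H ^ (4 * ε) ≤ H * Q := h3
        _ = (H ^ (1 - 4 * ε) * H ^ (4 * ε)) * Q := by rw [h4]
        _ = H ^ (1 - 4 * ε) * Q * H ^ (4 * ε) := by ring
    have h6 : (H ^ (ε / 8)) ^ 3 * H ^ (1 - 4 * ε) ≤ H ^ (1 - ε / 40) := by
      rw [hpow, ← Real.rpow_add hH0]
      apply hP
      push_cast
      linarith
    calc C1 * (|If| + 1) * x * D ^ 3 * (1 / (Q:ℝ))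
        = C1 * (|If| + 1) * Cd ^ 3 * ((H ^ (ε / 8)) ^ 3 * (x * (1 / (Q:ℝ)))) := by
          rw [hD]; ring
      _ ≤ C1 * (|If| + 1) * Cd ^ 3 * ((H ^ (ε / 8)) ^ 3 * H ^ (1 - 4 * ε)) := by gcongr
      _ ≤ C1 * (|If| + 1) * Cd ^ 3 * (H ^ (1 - ε / 40) * Real.log H) := by
          apply mul_le_mul_of_nonneg_left _ (by positivity)
          calc (H ^ (ε / 8)) ^ 3 * H ^ (1 - 4 * ε) ≤ H ^ (1 - ε / 40) * 1 := by
                rw [mul_one]; exact h6
            _ ≤ H ^ (1 - ε / 40) * Real.log H := by gcongr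
  have b3 : E * R ≤ ((|Il| * C2 + M0 * Real.exp B * C3) * (3 / 2) * Cd ^ 2 +
      C1 * C2 * (3 / 2) * Cd ^ 4) * (H ^ (1 - ε / 40) * Real.log H) := by
    have h1 : (H ^ (ε / 8)) ^ 2 * (Y * R) ≤ H ^ (1 - ε / 40) := by
      calc (H ^ (ε / 8)) ^ 2 * (Y * R) ≤ (H ^ (ε / 8)) ^ 2 * (H ^ ε * H ^ (1 / 2 - ε)) := by
            gcongr; exact hcut.hR
        _ ≤ H ^ (1 - ε / 40) := by
            rw [hpow, ← Real.rpow_add hH0, ← Real.rpow_add hH0]
            apply hP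
            push_cast
            linarith
    have h2 : (H ^ (ε / 8)) ^ 4 * R ≤ H ^ (1 - ε / 40) := by
      calc (H ^ (ε / 8)) ^ 4 * R ≤ (H ^ (ε / 8)) ^ 4 * H ^ (1 / 2 - ε) := by
            gcongr; exact hcut.hR
        _ ≤ H ^ (1 - ε / 40) := by
            rw [hpow, ← Real.rpow_add hH0]
            apply hP
            push_cast
            linarith
    have e1 : E * R = L * ((|Il| * C2 + M0 * Real.exp B * C3) * Cd ^ 2 *
        ((H ^ (ε / 8)) ^ 2 * (Y * R)) + C1 * C2 * Cd ^ 4 * ((H ^ (ε / 8)) ^ 4 * R)) := by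
      rw [hE, hD]; ring
    rw [e1]
    calc L * ((|Il| * C2 + M0 * Real.exp B * C3) * Cd ^ 2 *
        ((H ^ (ε / 8)) ^ 2 * (Y * R)) + C1 * C2 * Cd ^ 4 * ((H ^ (ε / 8)) ^ 4 * R))
        ≤ (3 / 2 * Real.log H) * ((|Il| * C2 + M0 * Real.exp B * C3) * Cd ^ 2 *
          H ^ (1 - ε / 40) + C1 * C2 * Cd ^ 4 * H ^ (1 - ε / 40)) := by gcongr
      _ = _ := by ring
  have b4 : H ^ (1 - ε / 40) ≤ 1 * (H ^ (1 - ε / 40) * Real.log H) := by
    rw [one_mul]
    calc H ^ (1 - ε / 40) = H ^ (1 - ε / 40) * 1 := (mul_one _).symm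
      _ ≤ H ^ (1 - ε / 40) * Real.log H := by gcongr
  have b5 : K * (H ^ (1 - ε / 40) * Real.log H) ≤ η / 2 * (H * Real.log H) := by
    have h1 : H ^ (1 - ε / 40) = H * H ^ (-(ε / 40)) := by
      rw [sub_eq_add_neg, Real.rpow_add hH0, Real.rpow_one]
    rw [h1]
    calc K * (H * H ^ (-(ε / 40)) * Real.log H) = (K * H ^ (-(ε / 40))) * (H * Real.log H) := by
          ring
      _ ≤ η / 2 * (H * Real.log H) := by
          gcongr
          exact hH2 H hHH2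
  calc η' * |Il| * H * LL Q R + C1 * (|If| + 1) * x * D ^ 3 * (1 / (Q:ℝ)) + E * R +
        H ^ (1 - ε / 40)
      ≤ η / 2 * (H * Real.log H) + K * (H ^ (1 - ε / 40) * Real.log H) := by
        rw [hK]
        linarith
    _ ≤ η / 2 * (H * Real.log H) + η / 2 * (H * Real.log H) := by gcongr
    _ = η * H * Real.log H := by ring

end H343
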