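import Pool.Agent.H343R2.Defs

set_option autoImplicit false
set_option maxHeartbeats 1000000

open Complex Filter Topology Set MeasureTheory

namespace H343

/-- one integration by parts -/
lemma ibp {κ : ℝ} (hκ : 0 < κ) {G G' p : ℝ → ℝ} {e : ℝ → ℂ}
    (hG : ∀ v ∈ Icc (-κ) κ, HasDerivAt G (G' v) v)
    (he : ∀ v, HasDerivAt e (I * p v * e v) v)
    (hG' : ContinuousOn G' (Icc (-κ) κ)) (hp : Continuous p)
    (h1 : G (-κ) = 0) (h2 : G κ = 0) :
    ∫ v in (-κ)..κ, ((G v * p v : ℝ) : ℂ) * e v = I * ∫ v in (-κ)..κ, (G' v : ℂ) * e v := by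
  have hle : -κ ≤ κ := by linarith
  have hec : Continuous e := continuous_iff_continuousAt.2 fun v => (he v).continuousAt
  have key := intervalIntegral.integral_mul_deriv_eq_deriv_mul (a := -κ) (b := κ)
    (u := fun v => (G v : ℂ)) (v := e) (u' := fun v => (G' v : ℂ)) (v' := fun v => I * p v * e v)
    (by
      intro v hv
      rw [uIcc_of_le hle] at hv
      exact (hG v hv).ofReal_comp)
    (fun v _ => he v)
    (by
      apply ContinuousOn.intervalIntegrable
      rw [uIcc_of_le hle]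
      exact continuous_ofReal.comp_continuousOn hG')
    (by
      apply Continuous.intervalIntegrable
      fun_prop)
  simp only [h1, h2, ofReal_zero, zero_mul, sub_zero, zero_sub] at key
  have e1 : ∫ v in (-κ)..κ, (G v : ℂ) * (I * p v * e v) =
      I * ∫ v in (-κ)..κ, ((G v * p v : ℝ) : ℂ) * e v := by
    rw [← intervalIntegral.integral_const_mul]
    apply intervalIntegral.integral_congr
    intro v _
    simp only
    push_cast
    ring
  rw [e1] at key
  have hI : I * I = -1 := I_mul_I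
  linear_combination (-I) * key + (∫ v in (-κ)..κ, ((G v * p v : ℝ) : ℂ) * e v) * hI

/-- lower bound for the derivative of the phase -/
lemma phase_lower {κ V t v : ℝ} (hκ : 0 < κ) (hκ1 : κ ≤ 1 / 20) (hV : 1 ≤ V)
    (h : t ≤ V * Real.exp (-κ) * (1 - κ / 2) ∨ V * Real.exp κ * (1 + κ / 2) ≤ t)
    (hv : v ∈ Icc (-κ) κ) : κ / 16 * (V + |t|) ≤ |V * Real.exp v - t| := by
  have he1 : Real.exp (-κ) ≤ Real.exp v := Real.exp_le_exp.2 hv.1
  have he2 : Real.exp v ≤ Real.exp κ := Real.exp_le_exp.2 hv.2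
  have he3 : 1 - κ ≤ Real.exp (-κ) := by
    have := Real.add_one_le_exp (-κ); linarith
  have he4 : Real.exp (-κ) ≤ 1 := Real.exp_le_one_iff.2 (by linarith)
  have he5 : 1 ≤ Real.exp κ := Real.one_le_exp hκ.le
  have hV1 := mul_le_mul_of_nonneg_left he1 (by linarith : (0 : ℝ) ≤ V)
  have hV2 := mul_le_mul_of_nonneg_left he2 (by linarith : (0 : ℝ) ≤ V)
  have hV3 := mul_le_mul_of_nonneg_left he3 (by linarith : (0 : ℝ) ≤ V)
  have hV4 := mul_le_mul_of_nonneg_left he4 (by linarith : (0 : ℝ) ≤ V)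
  have hV5 := mul_le_mul_of_nonneg_left he5 (by linarith : (0 : ℝ) ≤ V)
  rcases h with h | h
  · have hpos : 0 ≤ V * Real.exp v - t := by
      have : V * Real.exp (-κ) * (1 - κ / 2) ≤ V * Real.exp (-κ) := by
        have : 0 ≤ V * Real.exp (-κ) := by positivity
        nlinarith
      linarith
    rw [abs_of_nonneg hpos]
    rcases le_or_gt 0 t with ht | ht
    · rw [abs_of_nonneg ht]
      set P := V * Real.exp (-κ) with hP
      have hP0 : 19 / 20 * V ≤ P := by nlinarith
      have htV : t ≤ V := by nlinarith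
      nlinarith
    · rw [abs_of_neg ht]
      have : (V + -t) * (κ / 16) ≤ (V + -t) * (19 / 20) := by
        apply mul_le_mul_of_nonneg_left _ (by linarith)
        linarith
      nlinarith
  · set P := V * Real.exp κ with hP
    have hPt : P ≤ t := by nlinarith
    have ht0 : 0 < t := by linarith
    rw [abs_of_nonneg ht0.le, abs_sub_comm, abs_of_nonneg (by linarith)]
    have h3 : P * (κ / 2) ≤ t - P := by nlinarith
    have h4 : t * (κ / 4) ≤ t - P := by
      have : t * (κ / 2) ≤ (t - P) * (1 + κ / 2) := by nlinarith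
      nlinarith
    nlinarith

lemma test_deriv_zero {f : ℝ → ℝ} {κ : ℝ} (hκ : 0 < κ) (hf : Differentiable ℝ f)
    (h0 : ∀ v, κ ≤ |v| → f v = 0) (v : ℝ) (hv : κ ≤ |v|) : deriv f v = 0 := by
  rcases le_or_gt 0 v with h | h
  · rw [abs_of_nonneg h] at hv
    have h1 : HasDerivWithinAt f 0 (Ici v) v := by
      apply (hasDerivWithinAt_const v (Ici v) (0 : ℝ)).congr
      · intro w hw
        exact h0 w (by rw [abs_of_nonneg (h.trans hw)]; exact hv.trans hw)
      · exact h0 v (by rwa [abs_of_nonneg h])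
    have h2 := (hf v).hasDerivAt.hasDerivWithinAt (s := Ici v)
    exact (uniqueDiffWithinAt_Ici v).eq_deriv _ h2 h1
  · rw [abs_of_neg h] at hv
    have h1 : HasDerivWithinAt f 0 (Iic v) v := by
      apply (hasDerivWithinAt_const v (Iic v) (0 : ℝ)).congr
      · intro w hw
        have hw' : w ≤ v := hw
        exact h0 w (by rw [abs_of_nonpos (hw'.trans h.le)]; linarith)
      · exact h0 v (by rwa [abs_of_neg h])
    have h2 := (hf v).hasDerivAt.hasDerivWithinAt (s := Iic v)
    exact (uniqueDiffWithinAt_Iic v).eq_deriv _ h2 h1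

theorem nonstat {ρ : ℝ → ℝ} {κ : ℝ} (hκ : 0 < κ) (hκ1 : κ ≤ 1 / 20) (hρ : Test κ ρ) :
    ∃ C : ℝ, 0 < C ∧ ∀ V t : ℝ, 1 ≤ V →
      (t ≤ V * Real.exp (-κ) * (1 - κ / 2) ∨ V * Real.exp κ * (1 + κ / 2) ≤ t) →
      ‖∫ v, ((ρ v * Real.exp (v / 2) : ℝ) : ℂ) *
          Complex.exp ((V * Real.exp v - t * v : ℝ) * Complex.I)‖ ≤ C / (V ^ 2 + t ^ 2) := by
  set F : ℝ → ℝ := fun v => ρ v * Real.exp (v / 2) with hF
  have hFs : ContDiff ℝ ((⊤ : ℕ∞) : WithTop ℕ∞) F := by
    apply hρ.smooth.mul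
    fun_prop
  have hF0 : ∀ v, κ ≤ |v| → F v = 0 := fun v hv => by simp [hF, hρ.supp v hv]
  have hF1s : ContDiff ℝ ((⊤ : ℕ∞) : WithTop ℕ∞) (deriv F) :=
    (contDiff_infty_iff_deriv.1 hFs).2
  have hF2s : ContDiff ℝ ((⊤ : ℕ∞) : WithTop ℕ∞) (deriv (deriv F)) :=
    (contDiff_infty_iff_deriv.1 hF1s).2
  have hFd : Differentiable ℝ F := (contDiff_infty_iff_deriv.1 hFs).1
  have hF1d : Differentiable ℝ (deriv F) := (contDiff_infty_iff_deriv.1 hF1s).1
  have hF1z : ∀ v, κ ≤ |v| → deriv F v = 0 := test_deriv_zero hκ hFd hF0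
  set F1 := deriv F with hF1
  set F2 := deriv F1 with hF2
  -- bound
  obtain ⟨K, hK0, hKb⟩ : ∃ K : ℝ, 0 < K ∧ ∀ v ∈ Icc (-κ) κ, |F v| ≤ K ∧ |F1 v| ≤ K ∧ |F2 v| ≤ K := by
    obtain ⟨K0, h0⟩ := isCompact_Icc.exists_bound_of_continuousOn
      (hFs.continuous.continuousOn (s := Icc (-κ) κ))
    obtain ⟨K1, h1⟩ := isCompact_Icc.exists_bound_of_continuousOn
      (hF1s.continuous.continuousOn (s := Icc (-κ) κ))
    obtain ⟨K2, h2⟩ := isCompact_Icc.exists_bound_of_continuousOn
      (hF2s.continuous.continuousOn (s := Icc (-κ) κ))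
    refine ⟨|K0| + |K1| + |K2| + 1, by positivity, fun v hv => ⟨?_, ?_, ?_⟩⟩
    · have := h0 v hv; rw [Real.norm_eq_abs] at this
      linarith [le_abs_self K0, abs_nonneg K1, abs_nonneg K2]
    · have := h1 v hv; rw [Real.norm_eq_abs] at this
      linarith [le_abs_self K1, abs_nonneg K0, abs_nonneg K2]
    · have := h2 v hv; rw [Real.norm_eq_abs] at this
      linarith [le_abs_self K2, abs_nonneg K1, abs_nonneg K0]
  set c := κ / 16 with hc
  have hc0 : 0 < c := by positivity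
  refine ⟨2 * κ * (K * (1 / c ^ 2 + 8 / c ^ 3 + 12 / c ^ 4)), by positivity, ?_⟩
  intro V t hV ht
  set p : ℝ → ℝ := fun v => V * Real.exp v - t with hp
  set E : ℝ → ℝ := fun v => V * Real.exp v with hE
  set e : ℝ → ℂ := fun v => Complex.exp ((V * Real.exp v - t * v : ℝ) * Complex.I) with he
  have hpc : Continuous p := by fun_prop
  have hEc : Continuous E := by fun_prop
  have hpd : ∀ v, HasDerivAt p (E v) v := fun v =>
    ((Real.hasDerivAt_exp v).const_mul V).sub_const t
  have hEd : ∀ v, HasDerivAt E (E v) v := fun v => (Real.hasDerivAt_exp v).const_mul V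
  have hed : ∀ v, HasDerivAt e (I * p v * e v) v := by
    intro v
    have h1 : HasDerivAt (fun v : ℝ => (V * Real.exp v - t * v : ℝ)) (p v) v := by
      have := ((Real.hasDerivAt_exp v).const_mul V).fun_sub ((hasDerivAt_id' v).const_mul t)
      simpa [hp] using this
    have h2 := (h1.ofReal_comp.mul_const I).cexp
    simp only [he]
    convert h2 using 1
    ring
  set M := V + |t| with hM
  have hM0 : 0 < M := by positivity
  have hpl : ∀ v ∈ Icc (-κ) κ, c * M ≤ |p v| := fun v hv => phase_lower hκ hκ1 hV ht hv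
  have hp0 : ∀ v ∈ Icc (-κ) κ, p v ≠ 0 := by
    intro v hv h0
    have := hpl v hv
    rw [h0, abs_zero] at this
    have : 0 < c * M := by positivity
    linarith
  have hE2 : ∀ v ∈ Icc (-κ) κ, |E v| ≤ 2 * M := by
    intro v hv
    have h1 : Real.exp v ≤ 2 := by
      have h2 : Real.exp v ≤ Real.exp (1 / 2) := Real.exp_le_exp.2 (by linarith [hv.2])
      have h3 := Real.exp_one_lt_d9
      have h4 : Real.exp (1 / 2) ^ 2 = Real.exp 1 := by
        rw [← Real.exp_nat_mul]; norm_num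
      nlinarith [Real.exp_pos (1 / 2)]
    simp only [hE]
    rw [abs_of_nonneg (by positivity)]
    have : V * Real.exp v ≤ V * 2 := mul_le_mul_of_nonneg_left h1 (by linarith)
    linarith [abs_nonneg t]
  -- first step
  set G1 : ℝ → ℝ := fun v => F v / p v with hG1
  set H1 : ℝ → ℝ := fun v => F1 v / p v - F v * E v / (p v) ^ 2 with hH1
  have hG1d : ∀ v ∈ Icc (-κ) κ, HasDerivAt G1 (H1 v) v := by
    intro v hv
    have h := (hFd v).hasDerivAt.fun_div (hpd v) (hp0 v hv)
    refine h.congr_deriv ?_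
    have hpv := hp0 v hv
    simp only [hH1]
    have e0 : p v ≠ 0 := hpv
    have e1 : deriv F v = F1 v := rfl
    rw [e1]
    generalize p v = P at *
    field_simp
  set G2 : ℝ → ℝ := fun v => H1 v / p v with hG2
  set H2 : ℝ → ℝ := fun v => F2 v / (p v) ^ 2 - 3 * (F1 v * E v) / (p v) ^ 3 -
    F v * E v / (p v) ^ 3 + 3 * (F v * (E v) ^ 2) / (p v) ^ 4 with hH2
  have hG2d : ∀ v ∈ Icc (-κ) κ, HasDerivAt G2 (H2 v) v := by
    intro v hv
    have hpv := hp0 v hv
    have h1 := ((hF1d v).hasDerivAt.fun_div (hpd v) hpv).fun_sub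
      (((hFd v).hasDerivAt.fun_mul (hEd v)).fun_div ((hpd v).fun_pow 2) (pow_ne_zero 2 hpv))
    have h2 := h1.fun_div (hpd v) hpv
    refine h2.congr_deriv ?_
    simp only [hH2]
    have e0 : p v ≠ 0 := hpv
    have e1 : deriv F v = F1 v := rfl
    have e2 : deriv F1 v = F2 v := rfl
    rw [e1, e2]
    generalize p v = P at *
    generalize F v = f0 at *
    generalize F1 v = f1 at *
    generalize F2 v = f2 at *
    generalize E v = ee at *
    field_simp
    ring
  have hH1c : ContinuousOn H1 (Icc (-κ) κ) := by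
    apply ContinuousOn.sub
    · exact hF1s.continuous.continuousOn.div hpc.continuousOn hp0
    · exact (hFs.continuous.mul hEc).continuousOn.div (hpc.pow 2).continuousOn
        (fun v hv => pow_ne_zero 2 (hp0 v hv))
  have hH2c : ContinuousOn H2 (Icc (-κ) κ) := by
    have hFc := hFs.continuous
    have hF1c := hF1s.continuous
    have hF2c := hF2s.continuous
    apply ContinuousOn.add
    · apply ContinuousOn.sub
      · apply ContinuousOn.sub
        · exact hF2c.continuousOn.div (hpc.pow 2).continuousOn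
            (fun v hv => pow_ne_zero 2 (hp0 v hv))
        · exact ((hF1c.mul hEc).const_mul 3).continuousOn.div (hpc.pow 3).continuousOn
            (fun v hv => pow_ne_zero 3 (hp0 v hv))
      · exact (hFc.mul hEc).continuousOn.div (hpc.pow 3).continuousOn
            (fun v hv => pow_ne_zero 3 (hp0 v hv))
    · exact ((hFc.mul (hEc.pow 2)).const_mul 3).continuousOn.div (hpc.pow 4).continuousOn
            (fun v hv => pow_ne_zero 4 (hp0 v hv))
  have hκl : κ ≤ |-κ| := by rw [abs_neg]; exact le_abs_self κ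
  have hκr : κ ≤ |κ| := le_abs_self κ
  have hint : ∫ v, ((ρ v * Real.exp (v / 2) : ℝ) : ℂ) *
          Complex.exp ((V * Real.exp v - t * v : ℝ) * Complex.I) =
      ∫ v in (-κ)..κ, ((F v : ℝ) : ℂ) * e v := by
    rw [intervalIntegral.integral_of_le (by linarith)]
    symm
    apply setIntegral_eq_integral_of_forall_compl_eq_zero
    intro v hv
    have : κ ≤ |v| := by
      rw [mem_Ioc, not_and_or, not_lt, not_le] at hv
      rcases hv with hv | hv
      · rw [abs_of_nonpos (by linarith)]; linarith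
      · rw [abs_of_nonneg (by linarith)]; exact hv.le
    rw [hF0 v this, ofReal_zero, zero_mul]
  have step1 := ibp hκ hG1d hed hH1c hpc (by simp [hG1, hF0 _ hκl]) (by simp [hG1, hF0 _ hκr])
  have step2 := ibp hκ hG2d hed hH2c hpc (by simp [hG2, hH1, hF0 _ hκl, hF1z _ hκl])
    (by simp [hG2, hH1, hF0 _ hκr, hF1z _ hκr])
  have e1 : ∫ v in (-κ)..κ, ((G1 v * p v : ℝ) : ℂ) * e v = ∫ v in (-κ)..κ, ((F v : ℝ) : ℂ) * e v := by
    apply intervalIntegral.integral_congr
    intro v hv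
    rw [uIcc_of_le (by linarith)] at hv
    simp only [hG1]
    rw [div_mul_cancel₀ _ (hp0 v hv)]
  have e2 : ∫ v in (-κ)..κ, ((G2 v * p v : ℝ) : ℂ) * e v = ∫ v in (-κ)..κ, ((H1 v : ℝ) : ℂ) * e v := by
    apply intervalIntegral.integral_congr
    intro v hv
    rw [uIcc_of_le (by linarith)] at hv
    simp only [hG2]
    rw [div_mul_cancel₀ _ (hp0 v hv)]
  rw [hint, ← e1, step1, ← e2, step2]
  rw [← mul_assoc, I_mul_I, neg_one_mul, norm_neg]
  have hen : ∀ v, ‖e v‖ = 1 := fun v => Complex.norm_exp_ofReal_mul_I _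
  have hb : ∀ v ∈ Icc (-κ) κ, |H2 v| ≤ K * (1 / c ^ 2 + 8 / c ^ 3 + 12 / c ^ 4) / M ^ 2 := by
    intro v hv
    obtain ⟨k0, k1, k2⟩ := hKb v hv
    have hpv := hpl v hv
    have hev := hE2 v hv
    have hcM : 0 < c * M := by positivity
    have t1 : |F2 v / (p v) ^ 2| ≤ K / (c * M) ^ 2 := by
      rw [abs_div, abs_pow]
      gcongr
    have t2 : |3 * (F1 v * E v) / (p v) ^ 3| ≤ 3 * (K * (2 * M)) / (c * M) ^ 3 := by
      rw [abs_div, abs_pow, abs_mul, abs_mul, abs_of_pos (by norm_num : (0:ℝ) < 3)]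
      gcongr
    have t3 : |F v * E v / (p v) ^ 3| ≤ (K * (2 * M)) / (c * M) ^ 3 := by
      rw [abs_div, abs_pow, abs_mul]
      gcongr
    have t4 : |3 * (F v * (E v) ^ 2) / (p v) ^ 4| ≤ 3 * (K * (2 * M) ^ 2) / (c * M) ^ 4 := by
      rw [abs_div, abs_pow, abs_mul, abs_mul, abs_of_pos (by norm_num : (0:ℝ) < 3), abs_pow]
      gcongr
    calc |H2 v| ≤ |F2 v / (p v) ^ 2| + |3 * (F1 v * E v) / (p v) ^ 3| + |F v * E v / (p v) ^ 3| +
          |3 * (F v * (E v) ^ 2) / (p v) ^ 4| := by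
          simp only [hH2]
          exact (abs_add_le _ _).trans (add_le_add_left ((abs_sub _ _).trans
            (add_le_add_left (abs_sub _ _) _)) _)
      _ ≤ K / (c * M) ^ 2 + 3 * (K * (2 * M)) / (c * M) ^ 3 + (K * (2 * M)) / (c * M) ^ 3 +
          3 * (K * (2 * M) ^ 2) / (c * M) ^ 4 := by gcongr
      _ = K * (1 / c ^ 2 + 8 / c ^ 3 + 12 / c ^ 4) / M ^ 2 := by
          field_simp
          ring
  have hMt : V ^ 2 + t ^ 2 ≤ M ^ 2 := by
    have : |t| ^ 2 = t ^ 2 := sq_abs t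
    have h0 := abs_nonneg t
    simp only [hM]
    nlinarith
  calc ‖∫ v in (-κ)..κ, (H2 v : ℂ) * e v‖ ≤
        (K * (1 / c ^ 2 + 8 / c ^ 3 + 12 / c ^ 4) / M ^ 2) * |κ - -κ| := by
        apply intervalIntegral.norm_integral_le_of_norm_le_const
        intro v hv
        rw [uIoc_of_le (by linarith)] at hv
        rw [norm_mul, hen, mul_one, Complex.norm_real, Real.norm_eq_abs]
        exact hb v ⟨hv.1.le, hv.2⟩
    _ = 2 * κ * (K * (1 / c ^ 2 + 8 / c ^ 3 + 12 / c ^ 4)) / M ^ 2 := by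
        rw [abs_of_nonneg (by linarith)]; ring
    _ ≤ 2 * κ * (K * (1 / c ^ 2 + 8 / c ^ 3 + 12 / c ^ 4)) / (V ^ 2 + t ^ 2) := by
        apply div_le_div_of_nonneg_left (by positivity) (by positivity) hMt

end H343
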