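import Pool.Agent.H343R2.Defs
import Pool.Agent.Helper112.Arith

open Finset MeasureTheory

namespace H343

namespace NormAux

lemma onesided {ι : Type*} [DecidableEq ι] (T : Finset ι) (t : ι → ℝ) (K : ℕ) (hK : 1 ≤ K)
    (h1 : ∀ j ∈ T, 1 ≤ t j) (h2 : ∀ j ∈ T, t j ≤ K)
    (sep : ∀ i ∈ T, ∀ j ∈ T, i ≠ j → 1 ≤ |t i - t j|) :
    ∑ j ∈ T, 1 / t j ≤ 1 + Real.log K := by
  have hf : ∀ j ∈ T, 1 ≤ ⌊t j⌋₊ := by
    intro j hj
    rw [Nat.one_le_floor_iff]
    exact h1 j hj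
  have hinj : Set.InjOn (fun j => ⌊t j⌋₊) T := by
    intro i hi j hj hij
    by_contra hne
    have h := sep i hi j hj hne
    have h3 := Nat.floor_le (zero_le_one.trans (h1 i hi))
    have h4 := Nat.floor_le (zero_le_one.trans (h1 j hj))
    have h5 := Nat.lt_floor_add_one (t i)
    have h6 := Nat.lt_floor_add_one (t j)
    simp only at hij
    rw [hij] at h3 h5
    have : |t i - t j| < 1 := by
      rw [abs_lt]
      constructor <;> linarith
    linarith
  calc ∑ j ∈ T, 1 / t j ≤ ∑ j ∈ T, 1 / ((⌊t j⌋₊ : ℕ) : ℝ) := by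
        apply sum_le_sum
        intro j hj
        apply one_div_le_one_div_of_le
        · have := hf j hj
          positivity
        · exact Nat.floor_le (zero_le_one.trans (h1 j hj))
    _ = ∑ k ∈ T.image (fun j => ⌊t j⌋₊), 1 / (k : ℝ) := by
        rw [sum_image hinj]
    _ ≤ ∑ k ∈ Icc 1 K, 1 / (k : ℝ) := by
        apply sum_le_sum_of_subset_of_nonneg
        · intro k hk
          rw [mem_image] at hk
          obtain ⟨j, hj, rfl⟩ := hk
          rw [mem_Icc]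
          refine ⟨hf j hj, ?_⟩
          have : (⌊t j⌋₊ : ℝ) ≤ K := (Nat.floor_le (zero_le_one.trans (h1 j hj))).trans (h2 j hj)
          exact_mod_cast this
        · intro k _ _
          positivity
    _ ≤ 1 + Real.log K := Pool.Agent.Helper112.harm_le K hK

lemma row_sum {ι : Type*} [DecidableEq ι] (S : Finset ι) (θ : ι → ℝ) (δ : ℝ) (hδ : 0 < δ)
    (K : ℕ) (hK : 1 ≤ K) (sep : ∀ i ∈ S, ∀ j ∈ S, i ≠ j → δ ≤ |θ i - θ j|)
    (rng : ∀ i ∈ S, ∀ j ∈ S, |θ i - θ j| ≤ K * δ) (i : ι) (hi : i ∈ S) :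
    ∑ j ∈ S.erase i, 1 / |θ i - θ j| ≤ 2 * δ⁻¹ * (1 + Real.log K) := by
  have hsplit : ∑ j ∈ S.erase i, 1 / |θ i - θ j| =
      ∑ j ∈ (S.erase i).filter (fun j => θ i < θ j), 1 / |θ i - θ j| +
      ∑ j ∈ (S.erase i).filter (fun j => ¬ θ i < θ j), 1 / |θ i - θ j| :=
    (sum_filter_add_sum_filter_not _ _ _).symm
  have hgen : ∀ T : Finset ι, T ⊆ S.erase i → (∀ j ∈ T, ∀ k ∈ T, 0 ≤ (θ j - θ i) * (θ k - θ i)) →
      ∑ j ∈ T, 1 / |θ i - θ j| ≤ δ⁻¹ * (1 + Real.log K) := by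
    intro T hT hs
    have hmem : ∀ j ∈ T, j ∈ S ∧ i ≠ j := by
      intro j hj
      have := hT hj
      rw [mem_erase] at this
      exact ⟨this.2, this.1.symm⟩
    have h := onesided T (fun j => |θ i - θ j| / δ) K hK ?_ ?_ ?_
    · calc ∑ j ∈ T, 1 / |θ i - θ j| = δ⁻¹ * ∑ j ∈ T, 1 / (|θ i - θ j| / δ) := by
            rw [mul_sum]
            apply sum_congr rfl
            intro j hj
            have h0 : 0 < |θ i - θ j| := lt_of_lt_of_le hδ (sep i hi j (hmem j hj).1 (hmem j hj).2)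
            field_simp
        _ ≤ δ⁻¹ * (1 + Real.log K) := mul_le_mul_of_nonneg_left h (by positivity)
    · intro j hj
      rw [le_div_iff₀ hδ, one_mul]
      exact sep i hi j (hmem j hj).1 (hmem j hj).2
    · intro j hj
      rw [div_le_iff₀ hδ]
      exact rng i hi j (hmem j hj).1
    · intro j hj k hk hjk
      have h3 := sep j (hmem j hj).1 k (hmem k hk).1 hjk
      have h4 : |(|θ i - θ j| / δ) - (|θ i - θ k| / δ)| = |θ j - θ k| / δ := by
        rw [← sub_div, abs_div, abs_of_pos hδ]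
        congr 1
        have h5 := hs j hj k hk
        rw [← sq_eq_sq₀ (abs_nonneg _) (abs_nonneg _), sq_abs, sq_abs, sub_sq, sq_abs, sq_abs]
        have h6 : |θ i - θ j| * |θ i - θ k| = (θ j - θ i) * (θ k - θ i) := by
          rw [← abs_mul, ← abs_of_nonneg h5]
          congr 1
          ring
        rw [mul_assoc, h6]
        ring
      rw [h4, le_div_iff₀ hδ, one_mul]
      exact h3
  rw [hsplit]
  have hA := hgen _ (filter_subset (fun j => θ i < θ j) _) (by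
    intro j hj k hk
    rw [mem_filter] at hj hk
    exact mul_nonneg (by linarith [hj.2]) (by linarith [hk.2]))
  have hB := hgen _ (filter_subset (fun j => ¬ θ i < θ j) _) (by
    intro j hj k hk
    rw [mem_filter] at hj hk
    exact mul_nonneg_of_nonpos_of_nonpos (by linarith [not_lt.mp hj.2]) (by linarith [not_lt.mp hk.2]))
  linarith

lemma ex_norm (y : ℝ) : ‖ex y‖ = 1 := by
  unfold ex
  exact Complex.norm_exp_ofReal_mul_I _

lemma ex_cont : Continuous ex := by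
  unfold ex
  fun_prop

lemma ex_deriv (y : ℝ) : HasDerivAt ex (2 * Real.pi * Complex.I * ex y) y := by
  unfold ex
  have h1 : HasDerivAt (fun x : ℝ => ((2 * Real.pi * x : ℝ) * Complex.I : ℂ))
      (2 * Real.pi * Complex.I) y := by
    have h0 : HasDerivAt (fun x : ℝ => (2 * Real.pi * x : ℝ)) (2 * Real.pi) y := by
      simpa using (hasDerivAt_id y).const_mul (2 * Real.pi)
    have := (h0.ofReal_comp).mul_const Complex.I
    simpa using this
  have h2 := h1.cexp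
  have e : 2 * (Real.pi : ℂ) * Complex.I * Complex.exp ((2 * Real.pi * y : ℝ) * Complex.I) =
    Complex.exp ((2 * Real.pi * y : ℝ) * Complex.I) * (2 * Real.pi * Complex.I) := by ring
  rw [e]
  exact h2

lemma test_cont {B : ℝ} {f : ℝ → ℝ} (hf : Test B f) : Continuous f := hf.smooth.continuous

lemma test_supp {B : ℝ} {f : ℝ → ℝ} (hf : Test B f) : HasCompactSupport f := by
  apply HasCompactSupport.intro (isCompact_Icc : IsCompact (Set.Icc (-B) B))
  intro v hv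
  apply hf.supp
  by_contra h
  push Not at h
  exact hv (Set.mem_Icc.mpr ⟨by linarith [abs_lt.mp h], by linarith [abs_lt.mp h]⟩)

/-- any continuous multiple of `ρ²` is integrable -/
lemma integrable_mul {B : ℝ} {ρ : ℝ → ℝ} (hρ : Test B ρ) (g : ℝ → ℂ) (hg : Continuous g) :
    Integrable (fun v => ((ρ v ^ 2 : ℝ) : ℂ) * g v) := by
  have hc : Continuous (fun v => ((ρ v ^ 2 : ℝ) : ℂ) * g v) := by
    have := test_cont hρ
    fun_prop
  apply hc.integrable_of_hasCompactSupport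
  apply HasCompactSupport.mul_right
  have h1 := test_supp hρ
  have h2 : HasCompactSupport ((fun y : ℝ => ((y ^ 2 : ℝ) : ℂ)) ∘ ρ) := h1.comp_left (by simp)
  exact h2

/-- the oscillatory integral -/
noncomputable def G (ρ : ℝ → ℝ) (x τ : ℝ) : ℂ :=
  x * ∫ v, ((Real.exp v * ρ v ^ 2 : ℝ) : ℂ) * ex (x * Real.exp v * τ)

lemma G_bound {B : ℝ} {ρ : ℝ → ℝ} (hρ : Test B ρ) : ∃ C : ℝ, 0 < C ∧ ∀ x τ : ℝ, τ ≠ 0 →
    ‖G ρ x τ‖ ≤ C / |τ| := by
  refine ⟨(∫ v, |2 * ρ v * deriv ρ v|) + 1, ?_, ?_⟩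
  · have : 0 ≤ ∫ v, |2 * ρ v * deriv ρ v| := integral_nonneg (fun _ => abs_nonneg _)
    linarith
  intro x τ hτ
  have hd : ∀ v, HasDerivAt ρ (deriv ρ v) v := fun v =>
    ((hρ.smooth.differentiable (by simp)) v).hasDerivAt
  have hcd : Continuous (deriv ρ) := hρ.smooth.continuous_deriv (by simp)
  have hc := test_cont hρ
  have hs := test_supp hρ
  set E : ℝ → ℂ := fun v => ex (x * Real.exp v * τ) with hE
  have hEc : Continuous E := ex_cont.comp (by fun_prop)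
  have hEd : ∀ v, HasDerivAt E (((x * Real.exp v * τ : ℝ) : ℂ) * (2 * Real.pi * Complex.I * E v)) v := by
    intro v
    have h1 : HasDerivAt (fun v : ℝ => x * Real.exp v * τ) (x * Real.exp v * τ) v :=
      ((Real.hasDerivAt_exp v).const_mul x).mul_const τ
    have h2 := (ex_deriv (x * Real.exp v * τ)).scomp v h1
    rw [Complex.real_smul] at h2
    exact h2
  have hsq : ∀ v, HasDerivAt (fun v => ((ρ v ^ 2 : ℝ) : ℂ)) ((2 * ρ v * deriv ρ v : ℝ) : ℂ) v := by
    intro v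
    have := ((hd v).pow 2).ofReal_comp
    simpa using this
  have hh : ∀ v, HasDerivAt (fun v => ((ρ v ^ 2 : ℝ) : ℂ) * E v)
      (((2 * ρ v * deriv ρ v : ℝ) : ℂ) * E v +
        2 * Real.pi * Complex.I * τ * (x * (((Real.exp v * ρ v ^ 2 : ℝ) : ℂ) * E v))) v := by
    intro v
    have h1 := (hsq v).mul (hEd v)
    have e : ((2 * ρ v * deriv ρ v : ℝ) : ℂ) * E v +
        2 * Real.pi * Complex.I * τ * (x * (((Real.exp v * ρ v ^ 2 : ℝ) : ℂ) * E v)) =
        ((2 * ρ v * deriv ρ v : ℝ) : ℂ) * E v + ((ρ v ^ 2 : ℝ) : ℂ) *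
        (((x * Real.exp v * τ : ℝ) : ℂ) * (2 * Real.pi * Complex.I * E v)) := by
      push_cast
      ring
    rw [e]
    exact h1
  have hi0 : Integrable (fun v => ((ρ v ^ 2 : ℝ) : ℂ) * E v) := integrable_mul hρ E hEc
  have hi1 : Integrable (fun v => ((2 * ρ v * deriv ρ v : ℝ) : ℂ) * E v) := by
    have hcc : Continuous (fun v => ((2 * ρ v * deriv ρ v : ℝ) : ℂ) * E v) := by fun_prop
    apply hcc.integrable_of_hasCompactSupport
    apply HasCompactSupport.mul_right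
    have h2 : HasCompactSupport (fun v => 2 * ρ v * deriv ρ v) := (hs.mul_left).mul_right
    have h3 : HasCompactSupport ((fun y : ℝ => (y : ℂ)) ∘ (fun v => 2 * ρ v * deriv ρ v)) :=
      h2.comp_left (by simp)
    exact h3
  have hi2 : Integrable (fun v => ((Real.exp v * ρ v ^ 2 : ℝ) : ℂ) * E v) := by
    have := integrable_mul hρ (fun v => (Real.exp v : ℂ) * E v) (by fun_prop)
    refine this.congr (Filter.Eventually.of_forall ?_)
    intro v
    simp only
    push_cast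
    ring
  have hi3 : Integrable (fun v => 2 * (Real.pi : ℂ) * Complex.I * τ *
      (x * (((Real.exp v * ρ v ^ 2 : ℝ) : ℂ) * E v))) := (hi2.const_mul _).const_mul _
  have hz := integral_eq_zero_of_hasDerivAt_of_integrable hh (hi1.add hi3) hi0
  rw [integral_add hi1 hi3, integral_const_mul, integral_const_mul] at hz
  have hG : G ρ x τ = x * ∫ v, ((Real.exp v * ρ v ^ 2 : ℝ) : ℂ) * E v := rfl
  rw [← hG] at hz
  have hn : ‖2 * (Real.pi : ℂ) * Complex.I * τ * G ρ x τ‖ ≤ ∫ v, |2 * ρ v * deriv ρ v| := by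
    have : 2 * (Real.pi : ℂ) * Complex.I * τ * G ρ x τ =
      - ∫ v, ((2 * ρ v * deriv ρ v : ℝ) : ℂ) * E v := by
      linear_combination hz
    rw [this, norm_neg]
    refine (norm_integral_le_integral_norm _).trans (le_of_eq ?_)
    congr 1
    ext v
    rw [norm_mul, hE, ex_norm, mul_one, Complex.norm_real, Real.norm_eq_abs]
  rw [norm_mul, norm_mul, norm_mul, norm_mul, Complex.norm_I, Complex.norm_real, Complex.norm_real,
    Real.norm_eq_abs, Real.norm_eq_abs, abs_of_pos Real.pi_pos] at hn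
  have hτ' : 0 < |τ| := abs_pos.mpr hτ
  rw [le_div_iff₀ hτ']
  have hG0 : 0 ≤ ‖G ρ x τ‖ := norm_nonneg _
  have h2 : ‖(2 : ℂ)‖ = 2 := by simp
  rw [h2] at hn
  have h3 : 0 ≤ |τ| * ‖G ρ x τ‖ := by positivity
  nlinarith [Real.pi_gt_three]

lemma expand {B : ℝ} {ρ : ℝ → ℝ} (hρ : Test B ρ) {ι : Type*} (S : Finset ι) (θ c : ι → ℝ)
    (x : ℝ) :
    ((x * ∫ v, Real.exp v * ρ v ^ 2 * ‖∑ i ∈ S, (c i : ℂ) * ex (x * Real.exp v * θ i)‖ ^ 2 : ℝ) : ℂ)
      = ∑ i ∈ S, ∑ j ∈ S, ((c i * c j : ℝ) : ℂ) * G ρ x (θ i - θ j) := by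
  have hconj : ∀ y : ℝ, (starRingEnd ℂ) (ex y) = ex (-y) := by
    intro y
    unfold ex
    rw [← Complex.exp_conj]
    congr 1
    rw [map_mul, Complex.conj_ofReal, Complex.conj_I]
    push_cast
    ring
  have hadd : ∀ y z : ℝ, ex y * ex z = ex (y + z) := by
    intro y z
    unfold ex
    rw [← Complex.exp_add]
    congr 1
    push_cast
    ring
  have hpt : ∀ v : ℝ, ((Real.exp v * ρ v ^ 2 *
      ‖∑ i ∈ S, (c i : ℂ) * ex (x * Real.exp v * θ i)‖ ^ 2 : ℝ) : ℂ) =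
      ∑ i ∈ S, ∑ j ∈ S, ((c i * c j : ℝ) : ℂ) * (((Real.exp v * ρ v ^ 2 : ℝ) : ℂ) *
        ex (x * Real.exp v * (θ i - θ j))) := by
    intro v
    have h1 : ((‖∑ i ∈ S, (c i : ℂ) * ex (x * Real.exp v * θ i)‖ ^ 2 : ℝ) : ℂ) =
        ∑ i ∈ S, ∑ j ∈ S, ((c i * c j : ℝ) : ℂ) * ex (x * Real.exp v * (θ i - θ j)) := by
      rw [← Complex.normSq_eq_norm_sq, ← Complex.mul_conj, map_sum, sum_mul_sum]
      apply sum_congr rfl
      intro i _
      apply sum_congr rfl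
      intro j _
      rw [map_mul, hconj, Complex.conj_ofReal]
      have : x * Real.exp v * (θ i - θ j) = x * Real.exp v * θ i + -(x * Real.exp v * θ j) := by ring
      rw [this, ← hadd]
      push_cast
      ring
    rw [Complex.ofReal_mul, h1, mul_sum]
    apply sum_congr rfl
    intro i _
    rw [mul_sum]
    apply sum_congr rfl
    intro j _
    ring
  have hint : ∀ i j : ι, Integrable (fun v => ((c i * c j : ℝ) : ℂ) *
      (((Real.exp v * ρ v ^ 2 : ℝ) : ℂ) * ex (x * Real.exp v * (θ i - θ j)))) := by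
    intro i j
    apply Integrable.const_mul
    have hEc : Continuous (fun v : ℝ => ex (x * Real.exp v * (θ i - θ j))) :=
      ex_cont.comp (by fun_prop)
    have := integrable_mul hρ (fun v => (Real.exp v : ℂ) * ex (x * Real.exp v * (θ i - θ j)))
      (by fun_prop)
    refine this.congr (Filter.Eventually.of_forall ?_)
    intro v
    simp only
    push_cast
    ring
  rw [Complex.ofReal_mul, ← integral_complex_ofReal]
  simp_rw [hpt]
  rw [integral_finsetSum _ (fun i _ => integrable_finsetSum _ (fun j _ => hint i j)), mul_sum]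
  apply sum_congr rfl
  intro i _
  rw [integral_finsetSum _ (fun j _ => hint i j), mul_sum]
  apply sum_congr rfl
  intro j _
  rw [integral_const_mul]
  unfold G
  ring

/-- the general norm estimate for separated frequencies -/
lemma abstract_norm {B : ℝ} {ρ : ℝ → ℝ} (hρ : Test B ρ) : ∃ C : ℝ, 0 < C ∧
    ∀ (ι : Type) (_ : DecidableEq ι) (S : Finset ι) (θ c : ι → ℝ) (x δ : ℝ) (K : ℕ), 0 < x →
      0 < δ → 1 ≤ K → (∀ i ∈ S, ∀ j ∈ S, i ≠ j → δ ≤ |θ i - θ j|) →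
      (∀ i ∈ S, ∀ j ∈ S, |θ i - θ j| ≤ K * δ) →
      x * ∫ v, Real.exp v * ρ v ^ 2 * ‖∑ i ∈ S, (c i : ℂ) * ex (x * Real.exp v * θ i)‖ ^ 2 ≤
        (x * (∫ v, ρ v ^ 2 * Real.exp v) + C * δ⁻¹ * (1 + Real.log K)) * ∑ i ∈ S, c i ^ 2 := by
  obtain ⟨C1, hC1, hG⟩ := G_bound hρ
  refine ⟨2 * C1, by positivity, ?_⟩
  intro ι _ S θ c x δ K hx hδ hK sep rng
  have hI : 0 ≤ ∫ v, ρ v ^ 2 * Real.exp v := integral_nonneg (fun v => by positivity)
  have h0 : G ρ x 0 = ((x * ∫ v, ρ v ^ 2 * Real.exp v : ℝ) : ℂ) := by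
    unfold G
    rw [Complex.ofReal_mul, ← integral_complex_ofReal]
    congr 2
    ext v
    have : ex (x * Real.exp v * 0) = 1 := by
      unfold ex
      simp
    rw [this, mul_one, mul_comm (Real.exp v)]
  have hL := expand hρ S θ c x
  have hL0 : 0 ≤ x * ∫ v, Real.exp v * ρ v ^ 2 *
      ‖∑ i ∈ S, (c i : ℂ) * ex (x * Real.exp v * θ i)‖ ^ 2 :=
    mul_nonneg hx.le (integral_nonneg (fun v => by positivity))
  have hn : x * ∫ v, Real.exp v * ρ v ^ 2 *
      ‖∑ i ∈ S, (c i : ℂ) * ex (x * Real.exp v * θ i)‖ ^ 2 =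
      ‖∑ i ∈ S, ∑ j ∈ S, ((c i * c j : ℝ) : ℂ) * G ρ x (θ i - θ j)‖ := by
    rw [← hL, Complex.norm_real, Real.norm_eq_abs, abs_of_nonneg hL0]
  rw [hn]
  have hlog : 0 ≤ Real.log K := Real.log_nonneg (by exact_mod_cast hK)
  -- bound each term
  have hterm : ∀ i ∈ S, ‖∑ j ∈ S, ((c i * c j : ℝ) : ℂ) * G ρ x (θ i - θ j)‖ ≤
      c i ^ 2 * (x * ∫ v, ρ v ^ 2 * Real.exp v) +
      ∑ j ∈ S.erase i, (c i ^ 2 + c j ^ 2) / 2 * (C1 / |θ i - θ j|) := by
    intro i hi
    rw [← add_sum_erase S _ hi]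
    refine (norm_add_le _ _).trans (add_le_add ?_ ((norm_sum_le _ _).trans (sum_le_sum ?_)))
    · rw [sub_self, h0, norm_mul, Complex.norm_real, Complex.norm_real, Real.norm_eq_abs,
        Real.norm_eq_abs, abs_of_nonneg (mul_nonneg hx.le hI), abs_of_nonneg (mul_self_nonneg _)]
      rw [sq]
    · intro j hj
      rw [mem_erase] at hj
      have hne : θ i - θ j ≠ 0 := by
        have := sep i hi j hj.2 hj.1.symm
        intro h
        rw [h, abs_zero] at this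
        linarith
      rw [norm_mul, Complex.norm_real, Real.norm_eq_abs]
      apply mul_le_mul _ (hG x _ hne) (norm_nonneg _) (by positivity)
      rw [abs_le]
      constructor <;> nlinarith [sq_nonneg (c i + c j), sq_nonneg (c i - c j)]
  have hsum1 : ∑ i ∈ S, ∑ j ∈ S.erase i, (c i ^ 2 + c j ^ 2) / 2 * (C1 / |θ i - θ j|) =
      ∑ i ∈ S, ∑ j ∈ S.erase i, c i ^ 2 * (C1 / |θ i - θ j|) := by
    have hA : ∑ i ∈ S, ∑ j ∈ S.erase i, c j ^ 2 * (C1 / |θ i - θ j|) =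
        ∑ i ∈ S, ∑ j ∈ S.erase i, c i ^ 2 * (C1 / |θ i - θ j|) := by
      rw [sum_comm' (t' := S) (s' := fun j => S.erase j)]
      · apply sum_congr rfl
        intro i _
        apply sum_congr rfl
        intro j _
        rw [abs_sub_comm]
      · intro i j
        simp only [mem_erase]
        constructor
        · rintro ⟨h1, h2, h3⟩
          exact ⟨⟨h2.symm, h1⟩, h3⟩
        · rintro ⟨⟨h1, h2⟩, h3⟩
          exact ⟨h2, h1.symm, h3⟩
    have hB : ∑ i ∈ S, ∑ j ∈ S.erase i, (c i ^ 2 + c j ^ 2) / 2 * (C1 / |θ i - θ j|) =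
        (1 / 2) * ∑ i ∈ S, ∑ j ∈ S.erase i, c i ^ 2 * (C1 / |θ i - θ j|) +
        (1 / 2) * ∑ i ∈ S, ∑ j ∈ S.erase i, c j ^ 2 * (C1 / |θ i - θ j|) := by
      rw [mul_sum, mul_sum, ← sum_add_distrib]
      apply sum_congr rfl
      intro i _
      rw [mul_sum, mul_sum, ← sum_add_distrib]
      apply sum_congr rfl
      intro j _
      ring
    rw [hB, hA]
    ring
  have hsum2 : ∑ i ∈ S, ∑ j ∈ S.erase i, c i ^ 2 * (C1 / |θ i - θ j|) ≤
      ∑ i ∈ S, c i ^ 2 * (2 * C1 * δ⁻¹ * (1 + Real.log K)) := by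
    apply sum_le_sum
    intro i hi
    rw [← mul_sum]
    apply mul_le_mul_of_nonneg_left _ (sq_nonneg _)
    have h1 : ∑ j ∈ S.erase i, C1 / |θ i - θ j| = C1 * ∑ j ∈ S.erase i, 1 / |θ i - θ j| := by
      rw [mul_sum]
      apply sum_congr rfl
      intro j _
      ring
    rw [h1]
    have h2 := row_sum S θ δ hδ K hK sep rng i hi
    calc C1 * ∑ j ∈ S.erase i, 1 / |θ i - θ j| ≤ C1 * (2 * δ⁻¹ * (1 + Real.log K)) :=
          mul_le_mul_of_nonneg_left h2 hC1.le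
      _ = _ := by ring
  calc ‖∑ i ∈ S, ∑ j ∈ S, ((c i * c j : ℝ) : ℂ) * G ρ x (θ i - θ j)‖
      ≤ ∑ i ∈ S, ‖∑ j ∈ S, ((c i * c j : ℝ) : ℂ) * G ρ x (θ i - θ j)‖ := norm_sum_le _ _
    _ ≤ ∑ i ∈ S, (c i ^ 2 * (x * ∫ v, ρ v ^ 2 * Real.exp v) +
      ∑ j ∈ S.erase i, (c i ^ 2 + c j ^ 2) / 2 * (C1 / |θ i - θ j|)) := sum_le_sum hterm
    _ = ∑ i ∈ S, c i ^ 2 * (x * ∫ v, ρ v ^ 2 * Real.exp v) +
      ∑ i ∈ S, ∑ j ∈ S.erase i, (c i ^ 2 + c j ^ 2) / 2 * (C1 / |θ i - θ j|) := sum_add_distrib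
    _ ≤ ∑ i ∈ S, c i ^ 2 * (x * ∫ v, ρ v ^ 2 * Real.exp v) +
      ∑ i ∈ S, c i ^ 2 * (2 * C1 * δ⁻¹ * (1 + Real.log K)) := by
        rw [hsum1]
        linarith [hsum2]
    _ = _ := by
        rw [← sum_mul, ← sum_mul]
        ring

end NormAux

end H343
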