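import Pool.Agent.H343R2.Defs
import Pool.Agent.H343R2.Count

open Finset MeasureTheory

namespace H343.PSide

lemma chi_exists (κ : ℝ) (hκ : 0 < κ) : ∃ χ : ℝ → ℝ,
    ContDiff ℝ ((⊤ : ℕ∞) : WithTop ℕ∞) χ ∧ (∀ v, 0 ≤ χ v) ∧ (∀ v, χ v ≤ 1) ∧
    (∀ v, |v| ≤ κ / 2 → χ v = 1) ∧ (∀ v, κ ≤ |v| → χ v = 0) := by
  let f : ContDiffBump (0 : ℝ) := ⟨κ / 2, κ, by positivity, by linarith⟩
  refine ⟨f, f.contDiff, fun v => f.nonneg, fun v => f.le_one, fun v hv => ?_, fun v hv => ?_⟩
  · apply f.one_of_mem_closedBall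
    rw [Metric.mem_closedBall, dist_zero_right]
    exact hv
  · apply f.zero_of_le_dist
    rw [dist_zero_right]
    exact hv

/-- bump function on `[log (1+4κ), log (2-8κ)]` -/
lemma ell_exists (κ : ℝ) (hκ : 0 < κ) (hκ1 : κ ≤ 1 / 100) : ∃ l : ℝ → ℝ, Test 1 l ∧
    (∀ v, 0 ≤ l v) ∧ (∀ v, l v ≤ 1) ∧
    (∀ v, l v ≠ 0 → 1 + 4 * κ ≤ Real.exp v ∧ Real.exp v ≤ 2 - 8 * κ) ∧
    1 - 16 * κ ≤ ∫ v, l v * Real.exp v := by
  set a : ℝ := Real.log (1 + 4 * κ) with ha
  set b : ℝ := Real.log (2 - 8 * κ) with hb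
  have ha0 : 0 < a := Real.log_pos (by linarith)
  have ha1 : a ≤ 4 * κ := by
    have := Real.log_le_sub_one_of_pos (show 0 < 1 + 4 * κ by linarith)
    rw [ha]; linarith
  have hb1 : b ≤ 1 := by
    rw [hb]
    have := Real.log_le_sub_one_of_pos (show 0 < 2 - 8 * κ by linarith)
    linarith
  have hb0 : 1 / 2 ≤ b := by
    rw [hb]
    have h1 : Real.log (2 - 8 * κ) = -Real.log (2 - 8 * κ)⁻¹ := by rw [Real.log_inv]; ring
    have h2 := Real.log_le_sub_one_of_pos (show 0 < (2 - 8 * κ)⁻¹ by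
      apply inv_pos.2; linarith)
    have h3 : (2 - 8 * κ)⁻¹ ≤ (19/10 : ℝ)⁻¹ := by
      apply inv_anti₀ (by norm_num)
      linarith
    rw [h1]
    have h4 : (19/10 : ℝ)⁻¹ < 0.53 := by norm_num
    -- need a slightly better bound
    have h5 : Real.log (2 - 8 * κ) ≥ Real.log (17/10) := by
      apply Real.log_le_log (by norm_num); linarith
    have h6 : (1/2 : ℝ) ≤ Real.log (17/10) := by
      rw [Real.le_log_iff_exp_le (by norm_num)]
      have h7 : Real.exp (1/2) ^ 2 ≤ (17/10) ^ 2 := by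
        rw [← Real.exp_nat_mul]
        have := Real.exp_one_lt_d9
        norm_num
        linarith
      exact abs_le_of_sq_le_sq' h7 (by norm_num) |>.2
    rw [← h1]
    linarith
  have hea : Real.exp a = 1 + 4 * κ := Real.exp_log (by linarith)
  have heb : Real.exp b = 2 - 8 * κ := Real.exp_log (by linarith)
  let f : ContDiffBump ((a + b) / 2 : ℝ) := ⟨(b - a) / 2 - κ, (b - a) / 2, by linarith, by linarith⟩
  have hsupp : ∀ v, f v ≠ 0 → a < v ∧ v < b := by
    intro v hv
    by_contra hcon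
    apply hv
    apply f.zero_of_le_dist
    rw [Real.dist_eq]
    show (b - a) / 2 ≤ |v - (a + b) / 2|
    rw [le_abs]
    rcases lt_or_ge a v with h | h
    · left
      have : b ≤ v := by
        by_contra h2
        exact hcon ⟨h, lt_of_not_ge h2⟩
      linarith
    · right
      linarith
  refine ⟨f, ⟨f.contDiff, fun v hv => ?_⟩, fun v => f.nonneg, fun v => f.le_one, fun v hv => ?_, ?_⟩
  · by_contra hne
    obtain ⟨h1, h2⟩ := hsupp v hne
    rw [abs_of_pos (by linarith)] at hv
    linarith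
  · obtain ⟨h1, h2⟩ := hsupp v hv
    rw [← hea, ← heb]
    exact ⟨Real.exp_le_exp.2 h1.le, Real.exp_le_exp.2 h2.le⟩
  · have hint : Integrable (fun v => f v * Real.exp v) := by
      apply Continuous.integrable_of_hasCompactSupport
      · exact f.continuous.mul Real.continuous_exp
      · exact f.hasCompactSupport.mul_right
    have hab : a + κ ≤ b - κ := by linarith
    have h1 : ∫ v in (a + κ)..(b - κ), Real.exp v ≤ ∫ v, f v * Real.exp v := by
      rw [intervalIntegral.integral_of_le hab, ← integral_indicator measurableSet_Ioc]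
      apply integral_mono_of_nonneg
      · refine Filter.Eventually.of_forall fun v => ?_
        apply Set.indicator_nonneg
        intro v _
        exact (Real.exp_pos v).le
      · exact hint
      · refine Filter.Eventually.of_forall fun v => ?_
        simp only [Set.indicator]
        split_ifs with hv
        · have : f v = 1 := by
            apply f.one_of_mem_closedBall
            rw [Metric.mem_closedBall, Real.dist_eq]
            show |v - (a + b) / 2| ≤ (b - a) / 2 - κ
            rw [abs_le]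
            constructor <;> linarith [hv.1, hv.2]
          rw [this, one_mul]
        · exact mul_nonneg f.nonneg (Real.exp_pos v).le
    rw [integral_exp] at h1
    have h2 : Real.exp (b - κ) = (2 - 8 * κ) * Real.exp (-κ) := by
      rw [sub_eq_add_neg, Real.exp_add, heb]
    have h3 : Real.exp (a + κ) = (1 + 4 * κ) * Real.exp κ := by
      rw [Real.exp_add, hea]
    rw [h2, h3] at h1
    have h4 : 1 - κ ≤ Real.exp (-κ) := by
      have := Real.add_one_le_exp (-κ); linarith
    have h5 : Real.exp κ ≤ 1 + 2 * κ := by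
      have h6 : Real.exp (-κ) * Real.exp κ = 1 := by rw [← Real.exp_add]; simp
      have h7 : 0 < Real.exp κ := Real.exp_pos κ
      have h8 : (1 - κ) * Real.exp κ ≤ 1 :=
        (mul_le_mul_of_nonneg_right h4 h7.le).trans h6.le
      nlinarith
    have h6 : (2 - 8 * κ) * (1 - κ) ≤ (2 - 8 * κ) * Real.exp (-κ) := by
      apply mul_le_mul_of_nonneg_left h4; linarith
    have h7 : (1 + 4 * κ) * Real.exp κ ≤ (1 + 4 * κ) * (1 + 2 * κ) := by
      apply mul_le_mul_of_nonneg_left h5; linarith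
    nlinarith

/-- Gaussian mass near the origin -/
lemma gauss_mass (κ b : ℝ) (hκ : 0 < κ) (hb : 0 < b) (hq : 12 * b / κ ^ 2 ≤ 1) (χ : ℝ → ℝ)
    (hc : Continuous χ) (h0 : ∀ v, 0 ≤ χ v) (h2 : ∀ v, |v| ≤ κ / 2 → χ v = 1)
    (h3 : ∀ v, κ ≤ |v| → χ v = 0) :
    (1 - κ) * ((1 - 12 * b / κ ^ 2) * Real.sqrt (Real.pi * b)) ≤
      ∫ v, (χ v * Real.exp (-v ^ 2 / (2 * b))) * Real.exp (-v ^ 2 / (2 * b)) * Real.exp v := by
  have hg1 : Integrable (fun v : ℝ => Real.exp (-(1 / b) * v ^ 2)) :=
    integrable_exp_neg_mul_sq (by positivity)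
  have hg2 : Integrable (fun v : ℝ => Real.exp (-(1 / (2 * b)) * v ^ 2)) :=
    integrable_exp_neg_mul_sq (by positivity)
  have e1 : ∫ v : ℝ, Real.exp (-(1 / b) * v ^ 2) = Real.sqrt (Real.pi * b) := by
    rw [integral_gaussian]
    congr 1
    field_simp
  have e2 : ∫ v : ℝ, Real.exp (-(1 / (2 * b)) * v ^ 2) = Real.sqrt 2 * Real.sqrt (Real.pi * b) := by
    rw [integral_gaussian, ← Real.sqrt_mul (by norm_num)]
    congr 1
    field_simp
  have hsupp : HasCompactSupport χ := by
    apply HasCompactSupport.of_support_subset_isCompact (isCompact_Icc (a := -κ) (b := κ))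
    intro v hv
    by_contra hcon
    apply hv
    apply h3
    rw [Set.mem_Icc, not_and_or, not_le, not_le] at hcon
    rw [le_abs]
    rcases hcon with h | h
    · right; linarith
    · left; linarith
  have hint : Integrable (fun v => (χ v * Real.exp (-v ^ 2 / (2 * b))) *
      Real.exp (-v ^ 2 / (2 * b)) * Real.exp v) := by
    apply Continuous.integrable_of_hasCompactSupport
    · fun_prop
    · exact ((hsupp.mul_right).mul_right).mul_right
  set E : ℝ := Real.exp (-(κ ^ 2 / (8 * b))) with hE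
  have hE1 : E ≤ 8 * b / κ ^ 2 := by
    have h4 : κ ^ 2 / (8 * b) + 1 ≤ Real.exp (κ ^ 2 / (8 * b)) := Real.add_one_le_exp _
    rw [hE, Real.exp_neg]
    rw [show 8 * b / κ ^ 2 = (κ ^ 2 / (8 * b))⁻¹ by rw [inv_div]]
    apply inv_anti₀ (by positivity)
    linarith
  have hmain : ∫ v : ℝ, Real.exp (-κ) * (Real.exp (-(1 / b) * v ^ 2) -
      E * Real.exp (-(1 / (2 * b)) * v ^ 2)) ≤
      ∫ v, (χ v * Real.exp (-v ^ 2 / (2 * b))) * Real.exp (-v ^ 2 / (2 * b)) * Real.exp v := by
    apply integral_mono ((hg1.sub (hg2.const_mul E)).const_mul _) hint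
    intro v
    simp only
    have e3 : Real.exp (-v ^ 2 / (2 * b)) * Real.exp (-v ^ 2 / (2 * b)) =
        Real.exp (-(1 / b) * v ^ 2) := by
      rw [← Real.exp_add]; congr 1; field_simp; ring
    have e4 : (χ v * Real.exp (-v ^ 2 / (2 * b))) * Real.exp (-v ^ 2 / (2 * b)) * Real.exp v =
        χ v * Real.exp (-(1 / b) * v ^ 2) * Real.exp v := by
      rw [← e3]; ring
    rw [e4]
    by_cases hv : |v| ≤ κ / 2
    · rw [h2 v hv, one_mul]
      have h5 : Real.exp (-κ) ≤ Real.exp v := by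
        apply Real.exp_le_exp.2
        have := (abs_le.1 hv).1
        linarith
      have h6 : Real.exp (-(1 / b) * v ^ 2) - E * Real.exp (-(1 / (2 * b)) * v ^ 2) ≤
          Real.exp (-(1 / b) * v ^ 2) := by
        have : 0 ≤ E * Real.exp (-(1 / (2 * b)) * v ^ 2) := by positivity
        linarith
      calc Real.exp (-κ) * (Real.exp (-(1 / b) * v ^ 2) - E * Real.exp (-(1 / (2 * b)) * v ^ 2))
          ≤ Real.exp (-κ) * Real.exp (-(1 / b) * v ^ 2) := by gcongr
        _ ≤ Real.exp v * Real.exp (-(1 / b) * v ^ 2) := by gcongr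
        _ = _ := mul_comm _ _
    · push Not at hv
      have h5 : Real.exp (-(1 / b) * v ^ 2) ≤ E * Real.exp (-(1 / (2 * b)) * v ^ 2) := by
        rw [hE, ← Real.exp_add]
        apply Real.exp_le_exp.2
        have h6 : (κ / 2) ^ 2 ≤ v ^ 2 := by
          rw [← sq_abs v]
          gcongr
        have h7 : κ ^ 2 / (8 * b) ≤ 1 / (2 * b) * v ^ 2 := by
          rw [div_mul_eq_mul_div, div_le_div_iff₀ (by positivity) (by positivity)]
          nlinarith
        have h8 : (1 / b) * v ^ 2 = 1 / (2 * b) * v ^ 2 + 1 / (2 * b) * v ^ 2 := by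
          field_simp; ring
        linarith
      have h6 : Real.exp (-κ) * (Real.exp (-(1 / b) * v ^ 2) -
          E * Real.exp (-(1 / (2 * b)) * v ^ 2)) ≤ 0 := by
        apply mul_nonpos_of_nonneg_of_nonpos (Real.exp_pos _).le
        linarith
      refine h6.trans ?_
      have := h0 v
      positivity
  refine le_trans ?_ hmain
  rw [integral_const_mul, integral_sub hg1 (hg2.const_mul E), integral_const_mul, e1, e2]
  have h4 : 1 - κ ≤ Real.exp (-κ) := by
    have := Real.add_one_le_exp (-κ); linarith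
  have hs2 : Real.sqrt 2 ≤ 3 / 2 := by
    rw [Real.sqrt_le_left (by norm_num)]
    norm_num
  have hS : 0 ≤ Real.sqrt (Real.pi * b) := Real.sqrt_nonneg _
  have hbk : 0 ≤ b / κ ^ 2 := by positivity
  have h5 : E * (Real.sqrt 2 * Real.sqrt (Real.pi * b)) ≤
      12 * b / κ ^ 2 * Real.sqrt (Real.pi * b) := by
    calc E * (Real.sqrt 2 * Real.sqrt (Real.pi * b)) ≤
        (8 * b / κ ^ 2) * ((3 / 2) * Real.sqrt (Real.pi * b)) := by gcongr
      _ = _ := by ring
  calc (1 - κ) * ((1 - 12 * b / κ ^ 2) * Real.sqrt (Real.pi * b))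
      ≤ Real.exp (-κ) * ((1 - 12 * b / κ ^ 2) * Real.sqrt (Real.pi * b)) := by
        apply mul_le_mul_of_nonneg_right h4
        exact mul_nonneg (by linarith) hS
    _ ≤ _ := by
        apply mul_le_mul_of_nonneg_left _ (Real.exp_pos _).le
        linarith

end H343.PSide
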