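import Pool.Agent.H343R2.PS1
import Pool.Agent.H343R2.Duality
import Pool.Agent.H343R2.MainSum
import Pool.Agent.H343R2.Norm

open Finset MeasureTheory

namespace H343.PSide

/-- coefficients -/
noncomputable def cc (l : ℝ → ℝ) (Y : ℝ) (p : ℕ × ℕ) : ℝ :=
  ((ArithmeticFunction.moebius p.1 : ℤ) : ℝ) / (Nat.totient p.1 : ℝ)
    * l (Real.log (p.2 / (p.1 * Y)))

open Classical in
/-- index set -/
noncomputable def SS (l : ℝ → ℝ) (Y : ℝ) (Q R N : ℕ) : Finset (ℕ × ℕ) :=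
  (Mod Q R ×ˢ Icc 1 N).filter (fun p => p.2.Coprime p.1 ∧ l (Real.log (p.2 / (p.1 * Y))) ≠ 0)

lemma sum_SS (l : ℝ → ℝ) (Y : ℝ) (Q R N : ℕ) (g : ℕ × ℕ → ℂ) :
    ∑ p ∈ SS l Y Q R N, (cc l Y p : ℂ) * g p = ∑ q ∈ Mod Q R,
      ∑ a ∈ (Icc 1 N).filter (fun a => a.Coprime q),
        (((ArithmeticFunction.moebius q : ℤ) : ℝ) / (Nat.totient q : ℝ)
          * l (Real.log (a / (q * Y))) : ℝ) * g (q, a) := by
  unfold SS
  rw [sum_filter, sum_product]
  apply sum_congr rfl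
  intro q _
  rw [sum_filter]
  apply sum_congr rfl
  intro a _
  simp only [cc]
  by_cases h1 : a.Coprime q
  · rw [if_pos h1]
    by_cases h2 : l (Real.log (a / (q * Y))) = 0
    · rw [if_neg (by push Not; intro _; exact h2), h2]
      simp
    · rw [if_pos ⟨h1, h2⟩]
  · rw [if_neg h1, if_neg (fun h => h1 h.1)]

lemma abs_moebius_le (n : ℕ) : |((ArithmeticFunction.moebius n : ℤ) : ℝ)| ≤ 1 := by
  exact_mod_cast ArithmeticFunction.abs_moebius_le_one

lemma cc_sum {l : ℝ → ℝ} (hl0 : ∀ v, 0 ≤ l v) (hl1 : ∀ v, l v ≤ 1)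
    (hl2 : ∀ v, l v ≠ 0 → Real.exp v ≤ 2) : ∃ C : ℝ, 0 < C ∧ ∀ (Y : ℝ) (Q R N : ℕ), 0 < Y →
      ∑ p ∈ SS l Y Q R N, |cc l Y p| ≤ C * Y * (R * Real.sqrt R) := by
  obtain ⟨c, hc, hφ⟩ := phi_bound (1 / 2) (by norm_num)
  refine ⟨2 / c, by positivity, ?_⟩
  intro Y Q R N hY
  unfold SS
  rw [sum_filter, sum_product]
  have hq : ∀ q ∈ Mod Q R, ∑ a ∈ Icc 1 N, (if a.Coprime q ∧ l (Real.log (a / (q * Y))) ≠ 0
      then |cc l Y (q, a)| else 0) ≤ 2 / c * Y * Real.sqrt R := by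
    intro q hq
    rw [Mod, mem_filter, mem_Ioc] at hq
    have hq1 : 1 ≤ q := by omega
    have hq0 : (0 : ℝ) < q := by exact_mod_cast hq1
    have hφ0 : (0 : ℝ) < Nat.totient q := by exact_mod_cast Nat.totient_pos.2 hq1
    have hφ1 := hφ q hq1
    rw [show (1 - 1 / 2 : ℝ) = 1 / 2 by norm_num, ← Real.sqrt_eq_rpow] at hφ1
    have h1 : ∀ a ∈ Icc 1 N, (if a.Coprime q ∧ l (Real.log (a / (q * Y))) ≠ 0
      then |cc l Y (q, a)| else 0) ≤ if a ∈ Icc 1 ⌊2 * q * Y⌋₊ then 1 / (Nat.totient q : ℝ)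
        else 0 := by
      intro a ha
      rw [mem_Icc] at ha
      have ha0 : (0 : ℝ) < a := by exact_mod_cast ha.1
      split_ifs with h2 h3 h3
      · unfold cc
        simp only
        rw [abs_mul, abs_div, abs_of_pos hφ0, abs_of_nonneg (hl0 _)]
        calc |((ArithmeticFunction.moebius q : ℤ) : ℝ)| / (Nat.totient q : ℝ) *
              l (Real.log (a / (q * Y))) ≤ 1 / (Nat.totient q : ℝ) * 1 := by
              have := abs_moebius_le q
              have := hl1 (Real.log (a / (q * Y)))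
              have := hl0 (Real.log (a / (q * Y)))
              gcongr
          _ = _ := mul_one _
      · exfalso
        apply h3
        rw [mem_Icc]
        refine ⟨ha.1, Nat.le_floor ?_⟩
        have h4 := hl2 _ h2.2
        rw [Real.exp_log (by positivity), div_le_iff₀ (by positivity)] at h4
        linarith
      · positivity
      · exact le_rfl
    refine (sum_le_sum h1).trans ?_
    rw [← sum_filter]
    calc ∑ a ∈ (Icc 1 N).filter (fun a => a ∈ Icc 1 ⌊2 * q * Y⌋₊), 1 / (Nat.totient q : ℝ)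
        ≤ ∑ a ∈ Icc 1 ⌊2 * q * Y⌋₊, 1 / (Nat.totient q : ℝ) := by
          apply sum_le_sum_of_subset_of_nonneg
          · intro a ha
            rw [mem_filter] at ha
            exact ha.2
          · intro a _ _
            positivity
      _ = (⌊2 * q * Y⌋₊ : ℕ) * (1 / (Nat.totient q : ℝ)) := by
          rw [sum_const, Nat.card_Icc, nsmul_eq_mul]
          simp
      _ ≤ (2 * q * Y) * (1 / (c * Real.sqrt q)) := by
          have h5 : ((⌊2 * q * Y⌋₊ : ℕ) : ℝ) ≤ 2 * q * Y := Nat.floor_le (by positivity)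
          have h6 : 0 < c * Real.sqrt q := by
            have := Real.sqrt_pos.2 hq0
            positivity
          gcongr
      _ = 2 / c * Y * Real.sqrt q := by
          have h7 : (q : ℝ) = Real.sqrt q * Real.sqrt q := (Real.mul_self_sqrt hq0.le).symm
          have h8 : Real.sqrt q ≠ 0 := (Real.sqrt_pos.2 hq0).ne'
          calc (2 * (q : ℝ) * Y) * (1 / (c * Real.sqrt q)) =
              (2 * (Real.sqrt q * Real.sqrt q) * Y) * (1 / (c * Real.sqrt q)) := by rw [← h7]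
            _ = _ := by field_simp
      _ ≤ 2 / c * Y * Real.sqrt R := by
          have : (q : ℝ) ≤ R := by exact_mod_cast hq.1.2
          gcongr
  calc ∑ q ∈ Mod Q R, ∑ a ∈ Icc 1 N, (if (q, a).2.Coprime (q, a).1 ∧
          l (Real.log ((q, a).2 / ((q, a).1 * Y))) ≠ 0 then |cc l Y (q, a)| else 0)
      ≤ ∑ q ∈ Mod Q R, 2 / c * Y * Real.sqrt R := sum_le_sum hq
    _ = (Mod Q R).card * (2 / c * Y * Real.sqrt R) := by rw [sum_const, nsmul_eq_mul]
    _ ≤ R * (2 / c * Y * Real.sqrt R) := by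
        have : (Mod Q R).card ≤ R := by
          refine (card_filter_le _ _).trans ?_
          rw [Nat.card_Ioc]; omega
        have : ((Mod Q R).card : ℝ) ≤ R := by exact_mod_cast this
        gcongr
    _ = _ := by ring

/-- the core inequality -/
lemma core (b κ : ℝ) (hb : 0 < b) (hκ : 0 < κ) (hκ1 : κ ≤ 1 / 100) {χ l : ℝ → ℝ}
    (hχ : ContDiff ℝ ((⊤ : ℕ∞) : WithTop ℕ∞) χ)
    (hχ3 : ∀ v, κ ≤ |v| → χ v = 0) (hl : Test 1 l)
    (hl0 : ∀ v, 0 ≤ l v) (hl1 : ∀ v, l v ≤ 1)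
    (hl2 : ∀ v, l v ≠ 0 → 1 + 4 * κ ≤ Real.exp v ∧ Real.exp v ≤ 2 - 8 * κ)
    (ε η : ℝ) (hε : 0 < ε) (hε1 : ε ≤ 1 / 100) (hη : 0 < η) :
    ∃ C T0 : ℝ, 0 < C ∧ 1 ≤ T0 ∧ ∀ x T : ℝ, 1 ≤ x → T0 ≤ T →
      Range ε x (T / (2 * Real.pi * x)) →
      ∀ Q R N M : ℕ, Cuts ε 1 x (T / (2 * Real.pi * x)) Q R N M →
      T * (2 * ((∫ v, (χ v * Real.exp (-v ^ 2 / (2 * b))) * Real.exp (-v ^ 2 / (2 * b)) *
              Real.exp v) * (∫ v, l v * Real.exp v)) -
          (∫ v, (χ v * Real.exp (-v ^ 2 / (2 * b))) ^ 2 * Real.exp v) *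
            (∫ v, l v ^ 2 * Real.exp v)) * LL Q R
        - 3 * η * T * Real.log T - C * (1 + Real.log x) * (T ^ (3 / 4 : ℝ)) ≤
      ∫ t in (T + Real.log T)..(2 * T - Real.log T), ‖AAt b x t‖ ^ 2 := by
  set ρ : ℝ → ℝ := fun v => χ v * Real.exp (-v ^ 2 / (2 * b)) with hρdef
  have hρs : ContDiff ℝ ((⊤ : ℕ∞) : WithTop ℕ∞) ρ := by
    apply hχ.mul
    fun_prop
  have hρκ : Test κ ρ := ⟨hρs, fun v hv => by simp only [hρdef]; rw [hχ3 v hv]; simp⟩
  have hρ1 : Test 1 ρ := ⟨hρs, fun v hv => by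
    simp only [hρdef]; rw [hχ3 v (by linarith)]; simp⟩
  set f : ℝ → ℝ := fun v => ρ v * Real.exp (-v ^ 2 / (2 * b)) with hfdef
  have hf1 : Test 1 f := ⟨hρs.mul (by fun_prop), fun v hv => by
    simp only [hfdef]; rw [hρ1.supp v hv]; simp⟩
  obtain ⟨C1, T1, hC1, hT1, hdual⟩ := duality b hb hκ (by linarith) hρκ
  obtain ⟨H1, hmain⟩ := main_sum hf1 hl ε η hε hε1 hη
  obtain ⟨H2, hnorm⟩ := norm_sum hρ1 hl ε η hε hε1 hη
  obtain ⟨C2, hC2, hcc⟩ := cc_sum hl0 hl1 (fun v hv => by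
    have := (hl2 v hv).2; linarith)
  have hπ := Real.pi_pos
  refine ⟨C1 * C2, max (max T1 1) (max (2 * Real.pi * H1) (2 * Real.pi * H2)), by positivity,
    (le_max_right _ _).trans (le_max_left _ _), ?_⟩
  intro x T hx hT hR Q R N M hCut
  have hTT1 : T1 ≤ T := ((le_max_left _ _).trans (le_max_left _ _)).trans hT
  have hT1' : 1 ≤ T := ((le_max_right _ _).trans (le_max_left _ _)).trans hT
  have hH1 : 2 * Real.pi * H1 ≤ T := ((le_max_left _ _).trans (le_max_right _ _)).trans hT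
  have hH2 : 2 * Real.pi * H2 ≤ T := ((le_max_right _ _).trans (le_max_right _ _)).trans hT
  set Y : ℝ := T / (2 * Real.pi * x) with hYdef
  have hx0 : 0 < x := by linarith
  have hY : 0 < Y := hR.hY
  have hxY : x * Y = T / (2 * Real.pi) := by rw [hYdef]; field_simp
  have hTx : T = 2 * Real.pi * (x * Y) := by rw [hxY]; field_simp
  have hH1' : H1 ≤ x * Y := by rw [hxY, le_div_iff₀ (by positivity)]; linarith
  have hH2' : H2 ≤ x * Y := by rw [hxY, le_div_iff₀ (by positivity)]; linarith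
  have hm := hmain x Y hR hH1' Q R N M hCut
  have hn := hnorm x Y hR hH2' Q R N M hCut
  have hθ : ∀ i ∈ SS l Y Q R N, (1 + 4 * κ) * T ≤ 2 * Real.pi * x * ((i.2 : ℝ) / i.1) ∧
      2 * Real.pi * x * ((i.2 : ℝ) / i.1) ≤ (2 - 8 * κ) * T := by
    intro i hi
    rw [SS, mem_filter, mem_product, Mod, mem_filter, mem_Ioc, mem_Icc] at hi
    have hq1 : 0 < i.1 := by omega
    have hq0 : (0 : ℝ) < i.1 := by exact_mod_cast hq1
    have ha0 : (0 : ℝ) < i.2 := by exact_mod_cast hi.1.2.1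
    have h := hl2 _ hi.2.2
    rw [Real.exp_log (by positivity)] at h
    have e1 : 2 * Real.pi * x * ((i.2 : ℝ) / i.1) = (i.2 / (i.1 * Y)) * T := by
      rw [hTx]; field_simp
    rw [e1]
    exact ⟨by gcongr; exact h.1, by gcongr; exact h.2⟩
  have hd := hdual x T (ℕ × ℕ) (SS l Y Q R N) (fun i => (i.2 : ℝ) / i.1) (cc l Y) hx hTT1
    (fun i hi => (hθ i hi).1) (fun i hi => (hθ i hi).2)
  -- rewrite the tsum
  have e1 : (∑' n : ℕ, ((ArithmeticFunction.vonMangoldt n *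
            (ρ (Real.log (n / x)) * Real.exp (-(Real.log (n / x)) ^ 2 / (2 * b))) : ℝ) : ℂ) *
            ∑ i ∈ SS l Y Q R N, (cc l Y i : ℂ) * ex (n * ((i.2 : ℝ) / i.1))) =
      ∑ q ∈ Mod Q R, ∑ a ∈ (Icc 1 N).filter (fun a => a.Coprime q),
        (((ArithmeticFunction.moebius q : ℤ) : ℝ) / (Nat.totient q : ℝ)
          * l (Real.log (a / (q * Y))) : ℝ) *
        ∑ n ∈ Icc 1 M, ((ArithmeticFunction.vonMangoldt n * f (Real.log (n / x)) : ℝ) : ℂ) *
          ex (n * (a / q)) := by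
    rw [tsum_eq_sum (s := Icc 1 M)]
    · have h3 := sum_SS l Y Q R N (fun p => ∑ n ∈ Icc 1 M,
        ((ArithmeticFunction.vonMangoldt n * f (Real.log (n / x)) : ℝ) : ℂ) * ex (n * (p.2 / p.1)))
      rw [← h3]
      simp_rw [mul_sum]
      rw [sum_comm]
      apply sum_congr rfl
      intro p _
      apply sum_congr rfl
      intro n _
      simp only [hfdef]
      ring
    · intro n hn
      rw [mem_Icc, not_and_or] at hn
      rcases Nat.eq_zero_or_pos n with h0 | h0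
      · rw [h0]; simp
      · have h4 : M < n := by omega
        have h5 : (M : ℝ) ≤ n := by exact_mod_cast h4.le
        have h6 : Real.exp 1 ≤ n / x := by
          rw [le_div_iff₀ hx0]
          exact hCut.hM.trans h5
        have h7 : 1 ≤ Real.log (n / x) := by
          rw [← Real.log_exp 1]
          exact Real.log_le_log (Real.exp_pos 1) h6
        rw [hρ1.supp _ (h7.trans (le_abs_self _))]
        simp
  rw [e1] at hd
  have e2 : ∀ v : ℝ, ∑ i ∈ SS l Y Q R N, (cc l Y i : ℂ) *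
      ex (x * Real.exp v * ((i.2 : ℝ) / i.1)) =
      ∑ q ∈ Mod Q R, ∑ a ∈ (Icc 1 N).filter (fun a => a.Coprime q),
        (((ArithmeticFunction.moebius q : ℤ) : ℝ) / (Nat.totient q : ℝ)
          * l (Real.log (a / (q * Y))) : ℝ) * ex (x * Real.exp v * (a / q)) := by
    intro v
    exact sum_SS l Y Q R N (fun p => ex (x * Real.exp v * (p.2 / p.1)))
  simp_rw [e2] at hd
  -- error
  have hcs := hcc Y Q R N hY
  set Sc := ∑ p ∈ SS l Y Q R N, |cc l Y p| with hSc
  set MS : ℂ := ∑ q ∈ Mod Q R, ∑ a ∈ (Icc 1 N).filter (fun a => a.Coprime q),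
        (((ArithmeticFunction.moebius q : ℤ) : ℝ) / (Nat.totient q : ℝ)
          * l (Real.log (a / (q * Y))) : ℝ) *
        ∑ n ∈ Icc 1 M, ((ArithmeticFunction.vonMangoldt n * f (Real.log (n / x)) : ℝ) : ℂ) *
          ex (n * (a / q)) with hMS
  set NS : ℝ := x * ∫ v, Real.exp v * ρ v ^ 2 *
      ‖∑ q ∈ Mod Q R, ∑ a ∈ (Icc 1 N).filter (fun a => a.Coprime q),
        (((ArithmeticFunction.moebius q : ℤ) : ℝ) / (Nat.totient q : ℝ)
          * l (Real.log (a / (q * Y))) : ℝ) * ex (x * Real.exp v * (a / q))‖ ^ 2 with hNS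
  set A1 : ℝ := ∫ v, f v * Real.exp v with hA1
  set A2 : ℝ := ∫ v, ρ v ^ 2 * Real.exp v with hA2
  set L1 : ℝ := ∫ v, l v * Real.exp v with hL1
  set L2 : ℝ := ∫ v, l v ^ 2 * Real.exp v with hL2
  have hlogx : 0 ≤ Real.log x := Real.log_nonneg hx
  have hre : x * Y * A1 * L1 * LL Q R - η * (x * Y) * Real.log (x * Y) ≤ MS.re := by
    have h3 := (Complex.abs_re_le_norm (MS - ((x * Y * A1 * L1 * LL Q R : ℝ) : ℂ))).trans hm
    rw [Complex.sub_re, Complex.ofReal_re] at h3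
    have := (abs_le.1 h3).1
    linarith
  have hR0 : (R : ℝ) ≤ T ^ (1 / 2 : ℝ) := by
    refine hCut.hR.trans ?_
    have h1 := hR.h1
    have h2 : x * Y ≤ T := by
      rw [hxY]
      apply div_le_self (by linarith)
      have := Real.pi_gt_three
      linarith
    calc (x * Y) ^ (1 / 2 - ε) ≤ (x * Y) ^ (1 / 2 : ℝ) :=
          Real.rpow_le_rpow_of_exponent_le h1 (by linarith)
      _ ≤ T ^ (1 / 2 : ℝ) := by gcongr
  have hRR : (R : ℝ) * Real.sqrt R ≤ T ^ (3 / 4 : ℝ) := by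
    have h1 : Real.sqrt R ≤ T ^ (1 / 4 : ℝ) := by
      rw [Real.sqrt_eq_rpow]
      calc (R : ℝ) ^ (1 / 2 : ℝ) ≤ (T ^ (1 / 2 : ℝ)) ^ (1 / 2 : ℝ) := by gcongr
        _ = T ^ (1 / 4 : ℝ) := by
            rw [← Real.rpow_mul (by linarith)]; norm_num
    calc (R : ℝ) * Real.sqrt R ≤ T ^ (1 / 2 : ℝ) * T ^ (1 / 4 : ℝ) := by gcongr
      _ = T ^ (3 / 4 : ℝ) := by rw [← Real.rpow_add (by linarith)]; norm_num
  have herr : C1 * x * (1 + Real.log x) / T * Sc ≤ C1 * C2 * (1 + Real.log x) * T ^ (3 / 4 : ℝ) := by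
    calc C1 * x * (1 + Real.log x) / T * Sc
        ≤ C1 * x * (1 + Real.log x) / T * (C2 * Y * (R * Real.sqrt R)) := by
          gcongr
      _ = C1 * C2 * (1 + Real.log x) * ((x * Y) / T) * (R * Real.sqrt R) := by ring
      _ ≤ C1 * C2 * (1 + Real.log x) * 1 * (T ^ (3 / 4 : ℝ)) := by
          have h1 : (x * Y) / T ≤ 1 := by
            rw [hxY, div_div, div_le_one (by positivity)]
            have := Real.pi_gt_three
            nlinarith
          gcongr
      _ = _ := by ring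
  have hlogxY : Real.log (x * Y) ≤ Real.log T := by
    apply Real.log_le_log (by linarith [hR.h1])
    rw [hxY]
    apply div_le_self (by linarith)
    have := Real.pi_gt_three
    linarith
  have hTlog : 2 * Real.pi * (3 * (η * (x * Y) * Real.log (x * Y))) ≤ 3 * η * T * Real.log T := by
    calc 2 * Real.pi * (3 * (η * (x * Y) * Real.log (x * Y)))
        = 3 * η * (2 * Real.pi * (x * Y)) * Real.log (x * Y) := by ring
      _ = 3 * η * T * Real.log (x * Y) := by rw [← hTx]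
      _ ≤ 3 * η * T * Real.log T := by gcongr
  have hfin : 2 * Real.pi * (2 * MS.re - NS) ≥
      T * (2 * (A1 * L1) - A2 * L2) * LL Q R - 3 * η * T * Real.log T := by
    have h3 : 2 * MS.re - NS ≥ 2 * (x * Y * A1 * L1 * LL Q R - η * (x * Y) * Real.log (x * Y)) -
      (x * Y * A2 * L2 * LL Q R + η * (x * Y) * Real.log (x * Y)) := by linarith
    calc 2 * Real.pi * (2 * MS.re - NS) ≥ 2 * Real.pi * (2 * (x * Y * A1 * L1 * LL Q R -
          η * (x * Y) * Real.log (x * Y)) -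
          (x * Y * A2 * L2 * LL Q R + η * (x * Y) * Real.log (x * Y))) := by
          apply mul_le_mul_of_nonneg_left h3 (by positivity)
      _ = (2 * Real.pi * (x * Y)) * (2 * (A1 * L1) - A2 * L2) * LL Q R -
          2 * Real.pi * (3 * (η * (x * Y) * Real.log (x * Y))) := by ring
      _ = T * (2 * (A1 * L1) - A2 * L2) * LL Q R -
          2 * Real.pi * (3 * (η * (x * Y) * Real.log (x * Y))) := by rw [← hTx]
      _ ≥ _ := by linarith
  linarith

end H343.PSide
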