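import Pool.Agent.H343R2.PS2

open Finset MeasureTheory

namespace H343

namespace PSide

/-- choice of the cut-offs and the lower bound for `LL` -/
lemma cuts_exist (ε : ℝ) (hε : 0 < ε) (hε1 : ε ≤ 1 / 100) : ∃ t0 : ℝ, ∀ T u : ℝ, 0 < T →
    t0 ≤ Real.log T →
    (1 - ε) * Real.log T ≤ u → 100 * ε < 3 / 2 - max 1 (u / Real.log T) →
    Range ε (Real.exp u) (T / (2 * Real.pi * Real.exp u)) ∧
    ∃ Q R N M : ℕ, Cuts ε 1 (Real.exp u) (T / (2 * Real.pi * Real.exp u)) Q R N M ∧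
      (3 / 2 - max 1 (u / Real.log T) - 6 * ε) * Real.log T ≤ LL Q R := by
  obtain ⟨C3, hC3, hLL⟩ := LL_lower
  refine ⟨max ((5 + C3) / ε) 100, ?_⟩
  intro T u hT0 ht hu hg
  have ht1 : (5 + C3) / ε ≤ Real.log T := (le_max_left _ _).trans ht
  have ht2 : 100 ≤ Real.log T := (le_max_right _ _).trans ht
  rw [div_le_iff₀ hε] at ht1
  have hπ := Real.pi_pos
  have hπ3 := Real.pi_gt_three
  set t := Real.log T with htdef
  have ht0 : 0 < t := by linarith
  set x := Real.exp u with hx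
  have hx0 : 0 < x := Real.exp_pos u
  set Y := T / (2 * Real.pi * x) with hY
  have hY0 : 0 < Y := by positivity
  have hxY : x * Y = T / (2 * Real.pi) := by rw [hY]; field_simp
  set p := Real.log (2 * Real.pi) with hp
  have hp0 : 0 < p := Real.log_pos (by linarith)
  have hp2 : p ≤ 2 := by
    rw [hp, Real.log_le_iff_le_exp (by positivity)]
    have h1 : Real.exp 2 = Real.exp 1 * Real.exp 1 := by rw [← Real.exp_add]; norm_num
    have h2 := Real.exp_one_gt_d9
    have h3 := Real.pi_lt_d2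
    rw [h1]
    nlinarith
  have hlogH : Real.log (x * Y) = t - p := by
    rw [hxY, Real.log_div hT0.ne' (by positivity)]
  have hHpos : 0 < x * Y := by positivity
  have hH : x * Y = Real.exp (t - p) := by
    rw [← hlogH, Real.exp_log hHpos]
  have hH1 : 1 ≤ x * Y := by
    rw [hH]; exact Real.one_le_exp (by linarith)
  have hg1 : u / t < 3 / 2 - 100 * ε := by
    have := le_max_right 1 (u / t)
    linarith
  have hg1' : u < (3 / 2 - 100 * ε) * t := by rwa [div_lt_iff₀ ht0] at hg1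
  have hmax : max 1 (u / t) * t = max t u := by
    rw [max_mul_of_nonneg _ _ ht0.le, one_mul, div_mul_cancel₀ _ ht0.ne']
  have hHpow : ∀ a : ℝ, (x * Y) ^ a = Real.exp ((t - p) * a) := by
    intro a
    rw [hH, ← Real.exp_mul]
  refine ⟨⟨hx0, hY0, hH1, ?_, ?_⟩, ?_⟩
  · rw [hHpow, hx]
    apply Real.exp_le_exp.2
    nlinarith
  · rw [hHpow, hx]
    apply Real.exp_le_exp.2
    nlinarith
  · have hlogY : Real.log (1 / Y) = u - t + p := by
      have h1 : Real.log (x * Y) = Real.log x + Real.log Y := Real.log_mul hx0.ne' hY0.ne'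
      rw [hlogH, hx, Real.log_exp] at h1
      rw [one_div, Real.log_inv]
      linarith
    set q0 : ℝ := max 1 (1 / Y) * (x * Y) ^ (4 * ε) with hq0
    have hq1 : 1 ≤ q0 := by
      have h1 : 1 ≤ (x * Y) ^ (4 * ε) := Real.one_le_rpow hH1 (by positivity)
      have h2 : 1 ≤ max 1 (1 / Y) := le_max_left _ _
      rw [hq0]
      nlinarith
    set r0 : ℝ := (x * Y) ^ (1 / 2 - ε) with hr0
    have hr1 : 1 ≤ r0 := Real.one_le_rpow hH1 (by linarith)
    have hlogq0 : Real.log q0 ≤ (max t u - t) + p + 4 * ε * t := by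
      have hmax1 : 0 < max 1 (1 / Y) := lt_of_lt_of_le one_pos (le_max_left _ _)
      rw [hq0, Real.log_mul hmax1.ne' (by positivity), Real.log_rpow hHpos, hlogH]
      have h1 : Real.log (max 1 (1 / Y)) ≤ max t u - t + p := by
        rcases max_cases 1 (1 / Y) with ⟨h, _⟩ | ⟨h, _⟩
        · rw [h, Real.log_one]
          have := le_max_left t u
          linarith
        · rw [h, hlogY]
          have := le_max_right t u
          linarith
      nlinarith
    have hlogr0 : Real.log r0 = (1 / 2 - ε) * (t - p) := by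
      rw [hr0, Real.log_rpow hHpos, hlogH]
    have hln2 := Real.log_two_lt_d9
    -- Q
    have hQ1 : (1 : ℝ) ≤ (⌈q0⌉₊ : ℕ) := hq1.trans (Nat.le_ceil q0)
    have hQ2 : ((⌈q0⌉₊ : ℕ) : ℝ) ≤ 2 * q0 := by
      have := Nat.ceil_lt_add_one (a := q0) (by linarith)
      linarith
    have hlogQ : Real.log (⌈q0⌉₊ : ℕ) ≤ Real.log 2 + Real.log q0 := by
      rw [← Real.log_mul (by norm_num) (by linarith)]
      exact Real.log_le_log (by linarith) hQ2
    have hR1 : r0 ≤ 2 * (⌊r0⌋₊ : ℕ) := by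
      have h1 := Nat.lt_floor_add_one r0
      have h2 : 1 ≤ ⌊r0⌋₊ := Nat.le_floor (by simpa using hr1)
      have h3 : (1 : ℝ) ≤ (⌊r0⌋₊ : ℕ) := by exact_mod_cast h2
      linarith
    have hR2 : (0 : ℝ) < (⌊r0⌋₊ : ℕ) := by linarith
    have hlogR : Real.log r0 ≤ Real.log 2 + Real.log (⌊r0⌋₊ : ℕ) := by
      rw [← Real.log_mul (by norm_num) hR2.ne']
      exact Real.log_le_log (by linarith) hR1
    have hdiff : (3 / 2 - max 1 (u / t) - 5 * ε) * t - 5 ≤
        Real.log (⌊r0⌋₊ : ℕ) - Real.log (⌈q0⌉₊ : ℕ) := by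
      have h1 : (3 / 2 - max 1 (u / t) - 5 * ε) * t = 3 / 2 * t - max t u - 5 * ε * t := by
        rw [sub_mul, sub_mul, hmax]
      rw [h1]
      nlinarith
    have hpos : 0 < (3 / 2 - max 1 (u / t) - 5 * ε) * t - 5 := by
      have h1 : 95 * ε * t < (3 / 2 - max 1 (u / t) - 5 * ε) * t := by
        apply mul_lt_mul_of_pos_right _ ht0
        linarith
      nlinarith
    have hQR : ⌈q0⌉₊ ≤ ⌊r0⌋₊ := by
      have h1 : Real.log (⌈q0⌉₊ : ℕ) < Real.log (⌊r0⌋₊ : ℕ) := by linarith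
      have h2 := (Real.log_lt_log_iff (by linarith) hR2).1 h1
      exact_mod_cast h2.le
    refine ⟨⌈q0⌉₊, ⌊r0⌋₊, ⌈Real.exp 1 * (⌊r0⌋₊ : ℕ) * Y⌉₊, ⌈Real.exp 1 * x⌉₊, ?_, ?_⟩
    · refine ⟨?_, ?_, Nat.floor_le (by linarith), Nat.le_ceil _, Nat.le_ceil _⟩
      · refine le_trans ?_ (Nat.le_ceil q0)
        rw [hq0]
        have h2 : 1 ≤ max 1 (1 / Y) := le_max_left _ _
        have h3 : 0 < (x * Y) ^ (4 * ε) := by positivity
        nlinarith
      · refine le_trans ?_ (Nat.le_ceil q0)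
        rw [hq0, div_eq_mul_one_div, mul_comm]
        have h3 : 0 < (x * Y) ^ (4 * ε) := by positivity
        gcongr
        exact le_max_right _ _
    · have h1 := hLL ⌈q0⌉₊ ⌊r0⌋₊ (by exact_mod_cast hQ1) hQR
      refine le_trans ?_ h1
      have h2 : (3 / 2 - max 1 (u / t) - 6 * ε) * t =
        (3 / 2 - max 1 (u / t) - 5 * ε) * t - ε * t := by ring
      rw [h2]
      linarith

end PSide

open PSide in
theorem prime_side (δ : ℝ) (hδ : 0 < δ) : ∃ b0 : ℝ, 0 < b0 ∧ ∀ b : ℝ, 0 < b → b ≤ b0 →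
    ∃ T0 : ℝ, ∀ T u : ℝ, T0 ≤ T → (1 - b0) * Real.log T ≤ u → u ≤ 3 / 2 * Real.log T →
      (3 / 2 - max 1 (u / Real.log T) - δ) * Real.sqrt (Real.pi * b) * (T * Real.log T) ≤
        ∫ t in (T + Real.log T)..(2 * T - Real.log T), ‖AAt b (Real.exp u) t‖ ^ 2 := by
  set δ1 : ℝ := min δ 1 with hδ1
  have hδ1p : 0 < δ1 := lt_min hδ one_pos
  have hδ1l : δ1 ≤ δ := min_le_left _ _
  have hδ1o : δ1 ≤ 1 := min_le_right _ _
  set ε : ℝ := δ1 / 100 with hε
  have hε0 : 0 < ε := by positivity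
  have hε1 : ε ≤ 1 / 100 := by rw [hε]; linarith
  set κ : ℝ := δ1 / 200 with hκ
  have hκ0 : 0 < κ := by positivity
  have hκ1 : κ ≤ 1 / 100 := by rw [hκ]; linarith
  obtain ⟨χ, hχs, hχ0, hχ1, hχ2, hχ3⟩ := chi_exists κ hκ0
  obtain ⟨l, hlT, hl0, hl1, hl2, hlI⟩ := ell_exists κ hκ0 hκ1
  refine ⟨min ε (κ ^ 2 * δ1 / 240), lt_min hε0 (by positivity), ?_⟩
  intro b hb hbb
  have hb1 : b ≤ κ ^ 2 * δ1 / 240 := hbb.trans (min_le_right _ _)
  have hq : 12 * b / κ ^ 2 ≤ δ1 / 20 := by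
    rw [div_le_iff₀ (by positivity)]
    nlinarith
  set sb : ℝ := Real.sqrt (Real.pi * b) with hsb
  have hsb0 : 0 < sb := Real.sqrt_pos.2 (by have := Real.pi_pos; positivity)
  set η : ℝ := sb * δ1 / 30 with hη
  have hη0 : 0 < η := by positivity
  obtain ⟨C, T1, hC, hT1, hcore⟩ := core b κ hb hκ0 hκ1 hχs hχ3 hlT hl0 hl1 hl2 ε η hε0 hε1 hη0
  obtain ⟨t0, hcuts⟩ := cuts_exist ε hε0 hε1
  have hA1 := gauss_mass κ b hκ0 hb (by linarith) χ hχs.continuous hχ0 hχ2 hχ3
  set A1 : ℝ := ∫ v, (χ v * Real.exp (-v ^ 2 / (2 * b))) * Real.exp (-v ^ 2 / (2 * b)) *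
    Real.exp v with hA1d
  set A2 : ℝ := ∫ v, (χ v * Real.exp (-v ^ 2 / (2 * b))) ^ 2 * Real.exp v with hA2d
  set L1 : ℝ := ∫ v, l v * Real.exp v with hL1d
  set L2 : ℝ := ∫ v, l v ^ 2 * Real.exp v with hL2d
  -- integrability
  have hsuppχ : HasCompactSupport χ := by
    apply HasCompactSupport.of_support_subset_isCompact (isCompact_Icc (a := -κ) (b := κ))
    intro v hv
    by_contra hcon
    apply hv
    apply hχ3
    rw [Set.mem_Icc, not_and_or, not_le, not_le] at hcon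
    rw [le_abs]
    rcases hcon with h | h
    · right; linarith
    · left; linarith
  have hχc := hχs.continuous
  have hlc := hlT.smooth.continuous
  have hsuppl : HasCompactSupport l := hlT.hasCompactSupport
  have hA2 : A2 ≤ A1 := by
    apply integral_mono
    · apply Continuous.integrable_of_hasCompactSupport
      · fun_prop
      · have : HasCompactSupport (fun v => χ v * Real.exp (-v ^ 2 / (2 * b))) := hsuppχ.mul_right
        simp_rw [pow_two]
        simp_rw [pow_two] at this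
        exact (this.mul_right).mul_right
    · apply Continuous.integrable_of_hasCompactSupport
      · fun_prop
      · exact ((hsuppχ.mul_right).mul_right).mul_right
    · intro v
      simp only
      have h1 := hχ0 v
      have h2 := hχ1 v
      have h3 : 0 < Real.exp (-v ^ 2 / (2 * b)) := Real.exp_pos _
      have h4 : χ v * Real.exp (-v ^ 2 / (2 * b)) ≤ Real.exp (-v ^ 2 / (2 * b)) := by nlinarith
      rw [pow_two]
      gcongr
  have hL2 : L2 ≤ L1 := by
    apply integral_mono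
    · apply Continuous.integrable_of_hasCompactSupport
      · fun_prop
      · simp_rw [pow_two]
        exact (hsuppl.mul_right).mul_right
    · apply Continuous.integrable_of_hasCompactSupport
      · fun_prop
      · exact hsuppl.mul_right
    · intro v
      simp only
      have h1 := hl0 v
      have h2 := hl1 v
      have h3 : 0 < Real.exp v := Real.exp_pos _
      have h4 : l v ^ 2 ≤ l v := by nlinarith
      gcongr
  have hA20 : 0 ≤ A2 := integral_nonneg fun v => by positivity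
  have hL20 : 0 ≤ L2 := integral_nonneg fun v => by positivity
  have hA1' : (1 - δ1 / 10) * sb ≤ A1 := by
    refine le_trans ?_ hA1
    have h1 : (1 - δ1 / 20) * sb ≤ (1 - 12 * b / κ ^ 2) * sb := by gcongr
    have h2 : 0 ≤ (1 - δ1 / 20) * sb := by
      apply mul_nonneg _ hsb0.le; linarith
    have h3 : 1 - δ1 / 200 ≤ 1 - κ := by rw [hκ]
    calc (1 - δ1 / 10) * sb ≤ (1 - δ1 / 200) * ((1 - δ1 / 20) * sb) := by
          rw [← mul_assoc]
          apply mul_le_mul_of_nonneg_right _ hsb0.le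
          nlinarith
      _ ≤ (1 - κ) * ((1 - 12 * b / κ ^ 2) * sb) := by
          apply mul_le_mul h3 h1 h2
          linarith
  have hL1' : 1 - 2 * δ1 / 25 ≤ L1 := by
    refine le_trans (le_of_eq ?_) hlI
    rw [hκ]; ring
  have hAL : (1 - δ1 / 5) * sb ≤ A1 * L1 := by
    calc (1 - δ1 / 5) * sb ≤ ((1 - δ1 / 10) * sb) * (1 - 2 * δ1 / 25) := by
          have : (1 - δ1 / 5) ≤ (1 - δ1 / 10) * (1 - 2 * δ1 / 25) := by nlinarith
          calc (1 - δ1 / 5) * sb ≤ ((1 - δ1 / 10) * (1 - 2 * δ1 / 25)) * sb := by gcongr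
            _ = _ := by ring
      _ ≤ A1 * L1 := by
          apply mul_le_mul hA1' hL1' (by linarith)
          have : 0 ≤ (1 - δ1 / 10) * sb := mul_nonneg (by linarith) hsb0.le
          linarith
  have hA10 : 0 ≤ A1 := hA20.trans hA2
  have hL10 : 0 ≤ L1 := hL20.trans hL2
  have h2AL : A1 * L1 ≤ 2 * (A1 * L1) - A2 * L2 := by
    have : A2 * L2 ≤ A1 * L1 := mul_le_mul hA2 hL2 hL20 hA10
    linarith
  -- large T
  have hev1 := (tendsto_rpow_atTop (show (0 : ℝ) < 1 / 4 by norm_num)).eventually_ge_atTop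
    (25 * C / (δ1 * sb))
  have hev2 := Real.tendsto_log_atTop.eventually_ge_atTop (max t0 1)
  obtain ⟨T2, hT2⟩ := Filter.eventually_atTop.1 (hev1.and hev2)
  refine ⟨max (max T1 T2) 4, ?_⟩
  intro T u hT hu1 hu2
  have hTT1 : T1 ≤ T := ((le_max_left _ _).trans (le_max_left _ _)).trans hT
  obtain ⟨hT3, hT4⟩ := hT2 T (((le_max_right _ _).trans (le_max_left _ _)).trans hT)
  have hT5 : 4 ≤ T := (le_max_right _ _).trans hT
  have hT0 : 0 < T := by linarith
  have ht0 : t0 ≤ Real.log T := (le_max_left _ _).trans hT4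
  have ht1 : 1 ≤ Real.log T := (le_max_right _ _).trans hT4
  set t := Real.log T with ht
  have ht0' : 0 < t := by linarith
  have hRHS : 0 ≤ ∫ s in (T + t)..(2 * T - t), ‖AAt b (Real.exp u) s‖ ^ 2 := by
    apply intervalIntegral.integral_nonneg
    · have h1 : Real.log T = 2 * Real.log (Real.sqrt T) := by
        rw [Real.log_sqrt hT0.le]; ring
      have h2 := Real.log_le_sub_one_of_pos (Real.sqrt_pos.2 hT0)
      have h3 : Real.sqrt T * Real.sqrt T = T := Real.mul_self_sqrt hT0.le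
      have h4 : t ≤ 2 * (Real.sqrt T - 1) := by rw [ht, h1]; linarith
      nlinarith [sq_nonneg (Real.sqrt T - 2)]
    · intro s _
      positivity
  set g : ℝ := 3 / 2 - max 1 (u / t) with hg
  have hTt : 0 < T * t := by positivity
  have hg2 : g ≤ 1 / 2 := by
    have := le_max_left 1 (u / t)
    rw [hg]; linarith
  by_cases hgδ : g ≤ δ1
  · refine le_trans ?_ hRHS
    apply mul_nonpos_of_nonpos_of_nonneg _ hTt.le
    apply mul_nonpos_of_nonpos_of_nonneg _ hsb0.le
    linarith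
  push Not at hgδ
  have hu3 : (1 - ε) * t ≤ u := by
    refine le_trans ?_ hu1
    have := min_le_left ε (κ ^ 2 * δ1 / 240)
    gcongr
  obtain ⟨hRange, Q, R, N, M, hCut, hLLb⟩ := hcuts T u hT0 ht0 hu3 (by rw [hε]; linarith)
  have hu0 : 0 ≤ u := by
    refine le_trans ?_ hu3
    apply mul_nonneg _ ht0'.le
    linarith
  have hc := hcore (Real.exp u) T (Real.one_le_exp hu0) hTT1 hRange Q R N M hCut
  rw [Real.log_exp] at hc
  refine le_trans ?_ hc
  have hLLn : 0 ≤ LL Q R := by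
    unfold LL
    exact sum_nonneg fun q _ => by positivity
  have e1 : T * (A1 * L1) * LL Q R ≤ T * (2 * (A1 * L1) - A2 * L2) * LL Q R := by gcongr
  have e2 : T * ((1 - δ1 / 5) * sb) * ((g - 6 * ε) * t) ≤ T * (A1 * L1) * LL Q R := by
    have h1 : 0 ≤ (g - 6 * ε) * t := by
      apply mul_nonneg _ ht0'.le
      rw [hε]; linarith
    have h2 : 0 ≤ (1 - δ1 / 5) * sb := mul_nonneg (by linarith) hsb0.le
    apply mul_le_mul _ hLLb h1 (by positivity)
    gcongr
  have e3 : C * (1 + u) * T ^ (3 / 4 : ℝ) ≤ (δ1 / 10) * sb * (T * t) := by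
    have h1 : 1 + u ≤ 5 / 2 * t := by linarith
    have h2 : T = T ^ (3 / 4 : ℝ) * T ^ (1 / 4 : ℝ) := by
      rw [← Real.rpow_add hT0]; norm_num
    rw [div_le_iff₀ (by positivity)] at hT3
    have h3 : 0 < T ^ (3 / 4 : ℝ) := by positivity
    calc C * (1 + u) * T ^ (3 / 4 : ℝ) ≤ C * (5 / 2 * t) * T ^ (3 / 4 : ℝ) := by gcongr
      _ = (25 * C) * (T ^ (3 / 4 : ℝ) * t / 10) := by ring
      _ ≤ (T ^ (1 / 4 : ℝ) * (δ1 * sb)) * (T ^ (3 / 4 : ℝ) * t / 10) := by gcongr
      _ = (δ1 / 10) * sb * ((T ^ (3 / 4 : ℝ) * T ^ (1 / 4 : ℝ)) * t) := by ring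
      _ = _ := by rw [← h2]
  have e4 : 3 * η * T * t = (δ1 / 10) * sb * (T * t) := by rw [hη]; ring
  have e5 : (g - δ) * sb * (T * t) ≤ T * ((1 - δ1 / 5) * sb) * ((g - 6 * ε) * t) -
      (δ1 / 10) * sb * (T * t) - (δ1 / 10) * sb * (T * t) := by
    have h1 : g - δ ≤ (1 - δ1 / 5) * (g - 6 * ε) - δ1 / 10 - δ1 / 10 := by
      rw [hε]
      nlinarith
    calc (g - δ) * sb * (T * t) ≤ ((1 - δ1 / 5) * (g - 6 * ε) - δ1 / 10 - δ1 / 10) * sb * (T * t) := by
          gcongr
      _ = _ := by ring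
  linarith

end H343
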