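import Mathlib
import Pool.Agent.H343R2.Defs
import Pool.Agent.Helper923.PNT

open Finset MeasureTheory

namespace H343

open Pool.Agent.Helper923.PNT in
/-- `∫ ((sin π u)/(π u))^2 = 1` through the Fejer kernel -/
lemma K_integral_one : ∫ ξ : ℝ, K (2 * Real.pi * ξ) = 1 := by
  have hπ := Real.pi_pos
  set f : ℝ → ℂ := fun y => ((max 0 (1 - |y|) : ℝ) : ℂ) with hf
  have hfc : Continuous f := by rw [hf]; fun_prop
  have hfs : HasCompactSupport f := by
    refine HasCompactSupport.intro (isCompact_Icc (a := (-1:ℝ)) (b := 1)) fun y hy => ?_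
    have : 1 ≤ |y| := by
      by_contra hcon
      push Not at hcon
      rw [abs_lt] at hcon
      exact hy ⟨hcon.1.le, hcon.2.le⟩
    simp only [hf]
    rw [max_eq_left (by linarith)]
    simp
  have hfi : Integrable f := hfc.integrable_of_hasCompactSupport hfs
  have hF : ∀ ξ : ℝ, FourierTransform.fourier f ξ = ((K (2 * Real.pi * ξ) : ℝ) : ℂ) := by
    intro ξ
    rw [Real.fourier_eq' ]
    have h1 := fejer_complex 1 (-(2 * Real.pi * ξ)) one_pos
    have hKe : K (1 * -(2 * Real.pi * ξ)) = K (2 * Real.pi * ξ) := by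
      unfold K
      rw [one_mul, Real.cos_neg]
      simp
    rw [hKe, one_mul] at h1
    rw [← h1, intervalIntegral.integral_of_le (by norm_num)]
    rw [← setIntegral_eq_integral_of_forall_compl_eq_zero (s := Set.Ioc (-1:ℝ) 1)]
    · apply setIntegral_congr_fun measurableSet_Ioc
      intro y hy
      simp only [hf, smul_eq_mul]
      rw [max_eq_right (by
        have : |y| ≤ 1 := abs_le.mpr ⟨hy.1.le, hy.2⟩
        linarith), div_one, mul_comm]
      congr 2
      simp
      ring
    · intro y hy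
      have : 1 ≤ |y| := by
        by_contra hcon
        push Not at hcon
        rw [abs_lt] at hcon
        exact hy ⟨hcon.1, hcon.2.le⟩
      simp only [hf]
      rw [max_eq_left (by linarith)]
      simp
  have hFi : Integrable (FourierTransform.fourier f) := by
    have : FourierTransform.fourier f = fun ξ => ((K (2 * Real.pi * ξ) : ℝ) : ℂ) := by
      funext ξ; exact hF ξ
    rw [this]
    apply Integrable.ofReal
    exact K_integrable.comp_mul_left' (by positivity)
  have hinv := hfi.fourierInv_fourier_eq hFi (v := 0) hfc.continuousAt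
  rw [Real.fourierInv_eq'] at hinv
  simp only [hF] at hinv
  have h0 : f 0 = 1 := by simp [hf]
  rw [h0] at hinv
  simp only [inner_zero_right, mul_zero, Complex.ofReal_zero, zero_mul, Complex.exp_zero,
    one_smul] at hinv
  have h2 : ((∫ ξ : ℝ, K (2 * Real.pi * ξ) : ℝ) : ℂ) = 1 := by
    rw [← hinv]
    exact (integral_ofReal (𝕜 := ℂ)).symm
  exact_mod_cast h2

open Pool.Agent.Helper923.PNT in
lemma K_eq_sinc {u : ℝ} (hu : 0 < u) :
    K (2 * Real.pi * u) = (Real.sin (Real.pi * u) / (Real.pi * u)) ^ 2 := by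
  have hπ := Real.pi_pos
  unfold K
  rw [if_neg (by positivity)]
  have : Real.cos (2 * Real.pi * u) = 1 - 2 * Real.sin (Real.pi * u) ^ 2 := by
    rw [show 2 * Real.pi * u = 2 * (Real.pi * u) by ring, Real.cos_two_mul, Real.cos_sq']
    ring
  rw [this]
  field_simp
  ring

open Pool.Agent.Helper923.PNT in
lemma sinc_int : IntegrableOn (fun u : ℝ => (Real.sin (Real.pi * u) / (Real.pi * u)) ^ 2)
      (Set.Ioi 0) ∧
    ∫ u in Set.Ioi (0 : ℝ), (Real.sin (Real.pi * u) / (Real.pi * u)) ^ 2 = 1 / 2 := by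
  have hπ := Real.pi_pos
  have e1 : Set.EqOn (fun u : ℝ => K (2 * Real.pi * u))
      (fun u : ℝ => (Real.sin (Real.pi * u) / (Real.pi * u)) ^ 2) (Set.Ioi 0) := fun u hu =>
    K_eq_sinc hu
  constructor
  · apply IntegrableOn.congr_fun _ e1 measurableSet_Ioi
    exact (K_integrable.comp_mul_left' (by positivity)).integrableOn
  · rw [← setIntegral_congr_fun measurableSet_Ioi e1]
    have h1 := K_integral_one
    have h2 : ∀ ξ : ℝ, K (2 * Real.pi * ξ) = (fun u => K (2 * Real.pi * u)) |ξ| := by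
      intro ξ
      simp only
      rcases abs_cases ξ with ⟨h, _⟩ | ⟨h, _⟩
      · rw [h]
      · rw [h]
        unfold K
        rw [mul_neg, Real.cos_neg]
        simp
    have h3 : ∫ ξ : ℝ, (fun u => K (2 * Real.pi * u)) |ξ| = 1 := by
      rw [← h1]
      congr 1
      funext ξ
      exact (h2 ξ).symm
    rw [integral_comp_abs (f := fun u => K (2 * Real.pi * u))] at h3
    linarith

/-- exponential substitution -/
lemma int_exp (g : ℝ → ℝ) : ∫ v, g (Real.exp v) * Real.exp v = ∫ u in Set.Ioi 0, g u := by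
  have h1 := integral_image_eq_integral_abs_deriv_smul (s := Set.univ) (f := Real.exp)
    (f' := Real.exp) MeasurableSet.univ
    (fun x _ => (Real.hasDerivAt_exp x).hasDerivWithinAt)
    (Real.exp_injective.injOn) g
  rw [Set.image_univ, Real.range_exp] at h1
  rw [h1]
  simp only [Measure.restrict_univ, smul_eq_mul]
  congr 1
  funext v
  rw [abs_of_pos (Real.exp_pos v), mul_comm]

/-- smooth cut-off of an interval -/
lemma exists_cutoff (A η : ℝ) (hη : 0 < η) (hA : 4 * η < A) : ∃ G : ℝ → ℝ,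
    ContDiff ℝ ((⊤ : ℕ∞) : WithTop ℕ∞) G ∧ (∀ u, u ≤ η ∨ A - η ≤ u → G u = 0) ∧
    (∀ u, 0 ≤ G u) ∧ (∀ u, G u ≤ 1) ∧ ∀ u, 2 * η ≤ u → u ≤ A - 2 * η → G u = 1 := by
  let f : ContDiffBump (A / 2) := ⟨A / 2 - 2 * η, A / 2 - η, by linarith, by linarith⟩
  refine ⟨f, f.contDiff, ?_, fun u => f.nonneg, fun u => f.le_one, ?_⟩
  · intro u hu
    apply f.zero_of_le_dist
    change A / 2 - η ≤ _
    rw [Real.dist_eq]
    rcases hu with hu | hu
    · rw [abs_sub_comm]
      exact le_trans (by linarith) (le_abs_self _)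
    · exact le_trans (by linarith) (le_abs_self _)
  · intro u h1 h2
    apply f.one_of_mem_closedBall
    change u ∈ Metric.closedBall (A / 2) (A / 2 - 2 * η)
    rw [Metric.mem_closedBall, Real.dist_eq, abs_le]
    constructor <;> linarith

lemma cutoff_integrable {G : ℝ → ℝ} (hG : Continuous G) {A η : ℝ}
    (h : ∀ u, u ≤ η ∨ A - η ≤ u → G u = 0) : Integrable G := by
  apply hG.integrable_of_hasCompactSupport
  refine HasCompactSupport.intro (isCompact_Icc (a := η) (b := A - η)) fun u hu => ?_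
  apply h
  rw [Set.mem_Icc, not_and_or, not_le, not_le] at hu
  rcases hu with hu | hu
  · exact Or.inl hu.le
  · exact Or.inr hu.le

lemma exists_rho (δ : ℝ) (hδ : 0 < δ) (hδ1 : δ < 1) : ∃ (β : ℝ) (G : ℝ → ℝ), 0 < β ∧ β ≤ 1 ∧
    ContDiff ℝ ((⊤ : ℕ∞) : WithTop ℕ∞) G ∧ (∀ u, u ≤ β ∨ 1 ≤ u → G u = 0) ∧ (∀ u, 0 ≤ G u) ∧
    (∀ u, G u ≤ 1) ∧ 1 - δ ≤ ∫ u in Set.Ioi 0, G u := by
  obtain ⟨G, h1, h2, h3, h4, h5⟩ := exists_cutoff 1 (δ / 4) (by positivity) (by linarith)
  refine ⟨δ / 4, G, by positivity, by linarith, h1, ?_, h3, h4, ?_⟩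
  · intro u hu
    apply h2
    rcases hu with hu | hu
    · exact Or.inl hu
    · right; linarith
  · have hi : Integrable G := cutoff_integrable h1.continuous h2
    calc 1 - δ = ∫ u in Set.Icc (2 * (δ / 4)) (1 - 2 * (δ / 4)), (1 : ℝ) := by
          simp only [integral_const, MeasurableSet.univ, measureReal_restrict_apply,
            Set.univ_inter, Real.volume_real_Icc, smul_eq_mul, mul_one]
          rw [max_eq_left (by linarith)]
          ring
      _ = ∫ u in Set.Icc (2 * (δ / 4)) (1 - 2 * (δ / 4)), G u := by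
          apply setIntegral_congr_fun measurableSet_Icc
          intro u hu
          exact (h5 u hu.1 hu.2).symm
      _ ≤ ∫ u in Set.Ioi 0, G u := by
          apply setIntegral_mono_set hi.integrableOn
          · exact Filter.Eventually.of_forall h3
          · apply LE.le.eventuallyLE
            intro u hu
            have := hu.1
            simp only [Set.mem_Ioi]
            linarith

lemma exists_lam (δ : ℝ) (hδ : 0 < δ) (hδ1 : δ < 1) : ∃ (η A : ℝ) (G : ℝ → ℝ), 0 < η ∧ η ≤ 1 ∧
    1 ≤ A ∧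
    ContDiff ℝ ((⊤ : ℕ∞) : WithTop ℕ∞) G ∧ (∀ u, u ≤ η ∨ A ≤ u → G u = 0) ∧ (∀ u, 0 ≤ G u) ∧
    (∀ u, G u ≤ 1) ∧ 1 / 2 - δ ≤
      ∫ u in Set.Ioi 0, (Real.sin (Real.pi * u) / (Real.pi * u)) ^ 2 * G u := by
  obtain ⟨hI, hv⟩ := sinc_int
  set s : ℝ → ℝ := fun u => (Real.sin (Real.pi * u) / (Real.pi * u)) ^ 2 with hs
  have hs0 : ∀ u, 0 ≤ s u := fun u => sq_nonneg _
  have hs1 : ∀ u, s u ≤ 1 := by
    intro u
    simp only [hs]
    by_cases hu : u = 0
    · subst hu; simp
    · rw [sq_le_one_iff_abs_le_one, abs_div]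
      have hp : 0 < |Real.pi * u| := by
        have := Real.pi_pos
        positivity
      rw [div_le_one hp]
      exact Real.abs_sin_le_abs
  have ht := intervalIntegral_tendsto_integral_Ioi 0 hI Filter.tendsto_id
  rw [hv] at ht
  have hev : ∀ᶠ b : ℝ in Filter.atTop, 1 / 2 - δ / 2 < ∫ u in (0:ℝ)..b, s u :=
    ht.eventually (lt_mem_nhds (by linarith))
  obtain ⟨b, hb, hb1⟩ := (hev.and (Filter.eventually_ge_atTop 1)).exists
  set η : ℝ := δ / 16 with hη
  obtain ⟨G, h1, h2, h3, h4, h5⟩ := exists_cutoff (b + 2 * η) η (by positivity) (by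
    linarith)
  refine ⟨η, b + 2 * η, G, by positivity, by linarith, by linarith, h1, ?_, h3, h4, ?_⟩
  · intro u hu
    apply h2
    rcases hu with hu | hu
    · exact Or.inl hu
    · right; linarith
  · have hsG : IntegrableOn (fun u => s u * G u) (Set.Ioi 0) := by
      apply Integrable.mono' hI
      · apply hI.aestronglyMeasurable.mul h1.continuous.aestronglyMeasurable
      · refine Filter.Eventually.of_forall fun u => ?_
        rw [Real.norm_eq_abs, abs_mul, abs_of_nonneg (hs0 u), abs_of_nonneg (h3 u)]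
        calc s u * G u ≤ s u * 1 := mul_le_mul_of_nonneg_left (h4 u) (hs0 u)
          _ = s u := mul_one _
    have i1 : IntervalIntegrable s volume 0 b := by
      rw [intervalIntegrable_iff_integrableOn_Ioc_of_le (by linarith)]
      exact hI.mono_set Set.Ioc_subset_Ioi_self
    have i2 : IntervalIntegrable s volume 0 (2 * η) := by
      rw [intervalIntegrable_iff_integrableOn_Ioc_of_le (by positivity)]
      exact hI.mono_set Set.Ioc_subset_Ioi_self
    have i3 : IntervalIntegrable s volume (2 * η) b := i2.symm.trans i1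
    have e1 := intervalIntegral.integral_add_adjacent_intervals i2 i3
    have e2 : ∫ u in (0:ℝ)..(2 * η), s u ≤ 2 * η := by
      calc ∫ u in (0:ℝ)..(2 * η), s u ≤ ∫ u in (0:ℝ)..(2 * η), (1:ℝ) := by
            apply intervalIntegral.integral_mono_on (by positivity) i2
              intervalIntegrable_const
            intro u _
            exact hs1 u
        _ = 2 * η := by simp
    calc 1 / 2 - δ ≤ ∫ u in (2 * η)..b, s u := by linarith
      _ = ∫ u in Set.Ioc (2 * η) b, s u := by
          rw [intervalIntegral.integral_of_le (by linarith)]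
      _ = ∫ u in Set.Ioc (2 * η) b, s u * G u := by
          apply setIntegral_congr_fun measurableSet_Ioc
          intro u hu
          simp only
          rw [h5 u hu.1.le (by linarith [hu.2]), mul_one]
      _ ≤ ∫ u in Set.Ioi 0, s u * G u := by
          apply setIntegral_mono_set hsG
          · exact Filter.Eventually.of_forall fun u => mul_nonneg (hs0 u) (h3 u)
          · apply LE.le.eventuallyLE
            intro u hu
            have := hu.1
            simp only [Set.mem_Ioi]
            have : 0 < η := by positivity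
            linarith

lemma Test.mono {B B' : ℝ} {f : ℝ → ℝ} (h : Test B f) (hB : B ≤ B') : Test B' f :=
  ⟨h.smooth, fun v hv => h.supp v (hB.trans hv)⟩

lemma supp_exp {G : ℝ → ℝ} {η A B : ℝ} (h : ∀ u, u ≤ η ∨ A ≤ u → G u = 0)
    (h1 : Real.exp (-B) ≤ η) (h2 : A ≤ Real.exp B) (v : ℝ) (hv : B ≤ |v|) :
    G (Real.exp v) = 0 := by
  apply h
  rcases abs_cases v with ⟨h', _⟩ | ⟨h', _⟩
  · right
    refine h2.trans (Real.exp_le_exp.mpr (by linarith))
  · left
    refine le_trans (Real.exp_le_exp.mpr (by linarith)) h1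

/-- the test functions for the variance -/
lemma exists_tests (δ : ℝ) (hδ : 0 < δ) (hδ1 : δ < 1) : ∃ (B β : ℝ) (G K0 : ℝ → ℝ),
    1 ≤ B ∧ 0 < β ∧ β ≤ 1 ∧ ContDiff ℝ ((⊤ : ℕ∞) : WithTop ℕ∞) G ∧
    (∀ u, u ≤ β ∨ 1 ≤ u → G u = 0) ∧ (∀ u, |G u| ≤ 1) ∧ (∀ u, |K0 u| ≤ 1) ∧
    Test B (fun v => G (Real.exp v)) ∧
    Test B (fun v => Real.sin (Real.pi * Real.exp v) / (Real.pi * Real.exp v) *
      K0 (Real.exp v)) ∧
    Test B (fun v => (Real.sin (Real.pi * Real.exp v) / (Real.pi * Real.exp v)) ^ 2 *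
      K0 (Real.exp v)) ∧
    1 - δ ≤ ∫ v, G (Real.exp v) * Real.exp v ∧
    0 ≤ ∫ v, G (Real.exp v) ^ 2 * Real.exp v ∧
    ∫ v, G (Real.exp v) ^ 2 * Real.exp v ≤ 1 ∧
    1 / 2 - δ ≤ ∫ v, ((Real.sin (Real.pi * Real.exp v) / (Real.pi * Real.exp v)) ^ 2 *
      K0 (Real.exp v)) * Real.exp v ∧
    0 ≤ ∫ v, (Real.sin (Real.pi * Real.exp v) / (Real.pi * Real.exp v) *
      K0 (Real.exp v)) ^ 2 * Real.exp v ∧
    ∫ v, (Real.sin (Real.pi * Real.exp v) / (Real.pi * Real.exp v) *
      K0 (Real.exp v)) ^ 2 * Real.exp v ≤ 1 / 2 := by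
  have hπ := Real.pi_pos
  obtain ⟨β, G, hβ, hβ1, hG, hGs, hG0, hG1, hGI⟩ := exists_rho δ hδ hδ1
  obtain ⟨η, A, K0, hη, hη1, hA, hK, hKs, hK0, hK1, hKI⟩ := exists_lam δ hδ hδ1
  have ha : ∀ {F : ℝ → ℝ}, (∀ u, 0 ≤ F u) → (∀ u, F u ≤ 1) → ∀ u, |F u| ≤ 1 := by
    intro F h0 h1 u
    rw [abs_of_nonneg (h0 u)]
    exact h1 u
  set B : ℝ := 1 + Real.log (1 / β) + Real.log (1 / η) + Real.log A with hB
  have l1 : 0 ≤ Real.log (1 / β) := Real.log_nonneg (by rw [le_div_iff₀ hβ]; linarith)
  have l2 : 0 ≤ Real.log (1 / η) := Real.log_nonneg (by rw [le_div_iff₀ hη]; linarith)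
  have l3 : 0 ≤ Real.log A := Real.log_nonneg hA
  have b1 : Real.exp (-B) ≤ β := by
    rw [← Real.exp_log hβ]
    apply Real.exp_le_exp.mpr
    have : Real.log (1 / β) = - Real.log β := by rw [one_div, Real.log_inv]
    linarith
  have b2 : Real.exp (-B) ≤ η := by
    rw [← Real.exp_log hη]
    apply Real.exp_le_exp.mpr
    have : Real.log (1 / η) = - Real.log η := by rw [one_div, Real.log_inv]
    linarith
  have b3 : 1 ≤ Real.exp B := Real.one_le_exp (by linarith)
  have b4 : A ≤ Real.exp B := by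
    rw [← Real.exp_log (by linarith : 0 < A)]
    apply Real.exp_le_exp.mpr
    linarith
  have hsm : ContDiff ℝ ((⊤ : ℕ∞) : WithTop ℕ∞)
      (fun v : ℝ => Real.sin (Real.pi * Real.exp v) / (Real.pi * Real.exp v)) := by
    apply ContDiff.div
    · exact Real.contDiff_sin.comp (contDiff_const.mul Real.contDiff_exp)
    · exact contDiff_const.mul Real.contDiff_exp
    · intro v
      have := Real.exp_pos v
      positivity
  refine ⟨B, β, G, K0, by linarith, hβ, hβ1, hG, hGs, ha hG0 hG1, ha hK0 hK1, ?_, ?_, ?_, ?_, ?_,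
    ?_, ?_, ?_, ?_⟩
  · exact ⟨hG.comp Real.contDiff_exp, fun v hv => supp_exp hGs b1 b3 v hv⟩
  · exact ⟨hsm.mul (hK.comp Real.contDiff_exp), fun v hv => by
      rw [supp_exp hKs b2 b4 v hv, mul_zero]⟩
  · exact ⟨(hsm.pow 2).mul (hK.comp Real.contDiff_exp), fun v hv => by
      rw [supp_exp hKs b2 b4 v hv, mul_zero]⟩
  · rw [int_exp G]
    exact hGI
  · exact integral_nonneg fun v => mul_nonneg (sq_nonneg _) (Real.exp_pos v).le
  · rw [int_exp (fun u => G u ^ 2)]
    have h01 : ∀ u, G u ^ 2 ≤ 1 := fun u => by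
      have := hG0 u
      have := hG1 u
      nlinarith
    calc ∫ u in Set.Ioi 0, G u ^ 2 = ∫ u in Set.Ioc 0 1, G u ^ 2 := by
          apply setIntegral_eq_of_subset_of_forall_sdiff_eq_zero measurableSet_Ioi
            Set.Ioc_subset_Ioi_self
          intro u hu
          have : 1 ≤ u := by
            by_contra hcon
            push Not at hcon
            exact hu.2 ⟨hu.1, hcon.le⟩
          rw [hGs u (Or.inr this)]
          ring
      _ ≤ ∫ u in Set.Ioc (0:ℝ) 1, (1 : ℝ) := by
          apply setIntegral_mono_on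
          · exact (hG.continuous.pow 2).integrableOn_Ioc
          · exact continuous_const.integrableOn_Ioc
          · exact measurableSet_Ioc
          · intro u _
            exact h01 u
      _ = 1 := by simp
  · rw [int_exp (fun u => (Real.sin (Real.pi * u) / (Real.pi * u)) ^ 2 * K0 u)]
    exact hKI
  · exact integral_nonneg fun v => mul_nonneg (sq_nonneg _) (Real.exp_pos v).le
  · rw [int_exp (fun u => (Real.sin (Real.pi * u) / (Real.pi * u) * K0 u) ^ 2)]
    obtain ⟨hI, hv⟩ := sinc_int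
    rw [← hv]
    apply setIntegral_mono_on
    · apply Integrable.mono' hI
      · have : (fun u => (Real.sin (Real.pi * u) / (Real.pi * u) * K0 u) ^ 2) =
          fun u => (Real.sin (Real.pi * u) / (Real.pi * u)) ^ 2 * K0 u ^ 2 := by
          funext u; ring
        rw [this]
        exact hI.aestronglyMeasurable.mul (hK.continuous.pow 2).aestronglyMeasurable
      · refine Filter.Eventually.of_forall fun u => ?_
        rw [Real.norm_eq_abs, abs_of_nonneg (sq_nonneg _), mul_pow]
        have : K0 u ^ 2 ≤ 1 := by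
          have := hK0 u
          have := hK1 u
          nlinarith
        nlinarith [sq_nonneg (Real.sin (Real.pi * u) / (Real.pi * u))]
    · exact hI
    · exact measurableSet_Ioi
    · intro u _
      rw [mul_pow]
      have : K0 u ^ 2 ≤ 1 := by
        have := hK0 u
        have := hK1 u
        nlinarith
      nlinarith [sq_nonneg (Real.sin (Real.pi * u) / (Real.pi * u))]

end H343
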