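import Mathlib
import Pool.Agent.H343R2.Defs

open Finset MeasureTheory

namespace H343

/-- `ψ(y; h)`, the sum of `Λ(n)` over `y - h/2 ≤ n ≤ y + h/2` -/
noncomputable def psiI (y h : ℝ) : ℝ :=
  ∑' n : ℕ, if y - h / 2 ≤ n ∧ (n : ℝ) ≤ y + h / 2 then ArithmeticFunction.vonMangoldt n else 0

lemma psiI_eq (y h : ℝ) (M : ℕ) (hM : y + h / 2 ≤ M) :
    psiI y h = ∑ n ∈ Icc 1 M, (Set.Icc ((n:ℝ) - h/2) (n + h/2)).indicator
      (fun _ => ArithmeticFunction.vonMangoldt n) y := by
  unfold psiI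
  rw [tsum_eq_sum (s := Icc 1 M)]
  · refine sum_congr rfl fun n _ => ?_
    by_cases h1 : y - h / 2 ≤ n ∧ (n : ℝ) ≤ y + h / 2
    · rw [if_pos h1, Set.indicator_of_mem]
      constructor <;> linarith [h1.1, h1.2]
    · rw [if_neg h1, Set.indicator_of_notMem]
      intro h2
      exact h1 ⟨by linarith [h2.2], by linarith [h2.1]⟩
  · intro n hn
    rw [Finset.mem_Icc, not_and_or, not_le, not_le] at hn
    rcases hn with hn | hn
    · have : n = 0 := by omega
      subst this
      simp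
    · rw [if_neg]
      rintro ⟨-, h2⟩
      have : (n : ℝ) ≤ M := h2.trans hM
      have : n ≤ M := by exact_mod_cast this
      omega

/-- first-order oscillation -/
lemma osc {G : ℝ → ℝ} (hG : ContDiff ℝ 1 G) (hc : HasCompactSupport G) :
    ∃ C : ℝ, 0 < C ∧ ∀ X φ : ℝ, 0 < X → 0 < φ →
      |∫ y, G (y / X) * Real.cos (2 * Real.pi * (y * φ))| ≤ C / φ := by
  have hd : Continuous (deriv G) := hG.continuous_deriv le_rfl
  have hdc : HasCompactSupport (deriv G) := hc.deriv
  refine ⟨(∫ t, |deriv G t|) + 1, by positivity, fun X φ hX hφ => ?_⟩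
  have e1 : ∫ y, G (y / X) * Real.cos (2 * Real.pi * (y * φ)) =
      X * ∫ t, G t * Real.cos (2 * Real.pi * (X * φ) * t) := by
    have := MeasureTheory.Measure.integral_comp_div
      (fun t => G t * Real.cos (2 * Real.pi * (X * φ) * t)) X
    rw [abs_of_pos hX, smul_eq_mul] at this
    rw [← this]
    congr 1
    funext y
    congr 2
    field_simp
  set w : ℝ := 2 * Real.pi * (X * φ) with hw
  have hw0 : 0 < w := by positivity
  have e2 : ∫ t, G t * Real.cos (w * t) = - ∫ t, deriv G t * (Real.sin (w * t) / w) := by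
    apply integral_mul_deriv_eq_deriv_mul_of_integrable
    · intro t _
      exact (hG.differentiable one_ne_zero t).hasDerivAt
    · intro t _
      have := ((Real.hasDerivAt_sin (w * t)).comp t ((hasDerivAt_id t).const_mul w)).div_const w
      convert! this using 1
      field_simp
    · apply Continuous.integrable_of_hasCompactSupport
      · exact hG.continuous.mul (by fun_prop)
      · exact hc.mul_right
    · apply Continuous.integrable_of_hasCompactSupport
      · exact hd.mul (by fun_prop)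
      · exact hdc.mul_right
    · apply Continuous.integrable_of_hasCompactSupport
      · exact hG.continuous.mul (by fun_prop)
      · exact hc.mul_right
  have e3 : |∫ t, deriv G t * (Real.sin (w * t) / w)| ≤ (∫ t, |deriv G t|) / w := by
    rw [← Real.norm_eq_abs]
    refine (norm_integral_le_integral_norm _).trans ?_
    rw [← integral_div]
    apply integral_mono_of_nonneg
    · exact Filter.Eventually.of_forall fun t => norm_nonneg _
    · exact (hd.abs.integrable_of_hasCompactSupport hdc.norm).div_const w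
    · refine Filter.Eventually.of_forall fun t => ?_
      simp only [norm_mul, norm_div, Real.norm_eq_abs, abs_of_pos hw0]
      rw [mul_div_assoc']
      apply div_le_div_of_nonneg_right _ hw0.le
      calc |deriv G t| * |Real.sin (w * t)| ≤ |deriv G t| * 1 := by
            apply mul_le_mul_of_nonneg_left (Real.abs_sin_le_one _) (abs_nonneg _)
        _ = _ := mul_one _
  have hI : 0 ≤ ∫ t, |deriv G t| := integral_nonneg fun t => abs_nonneg _
  rw [e1, e2, abs_mul, abs_neg, abs_of_pos hX]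
  calc X * |∫ t, deriv G t * (Real.sin (w * t) / w)| ≤ X * ((∫ t, |deriv G t|) / w) := by gcongr
    _ = (∫ t, |deriv G t|) / (2 * Real.pi * φ) := by
        rw [hw]; field_simp
    _ ≤ ((∫ t, |deriv G t|) + 1) / φ := by
        apply div_le_div₀ (by linarith) (by linarith) hφ
        have := Real.pi_gt_three
        nlinarith

/-- the integral of a cosine over an interval of length `h` -/
lemma cos_window (n h θ : ℝ) (hθ : 0 < θ) (hh : 0 < h) :
    ∫ y in (n - h / 2)..(n + h / 2), Real.cos (2 * Real.pi * (y * θ)) =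
      h * (Real.sin (Real.pi * (h * θ)) / (Real.pi * (h * θ))) *
        Real.cos (2 * Real.pi * (n * θ)) := by
  have hπ := Real.pi_pos
  have h1 : ∀ y ∈ Set.uIcc (n - h / 2) (n + h / 2), HasDerivAt
      (fun y => Real.sin (2 * Real.pi * (y * θ)) / (2 * Real.pi * θ))
      (Real.cos (2 * Real.pi * (y * θ))) y := by
    intro y _
    have h2 : HasDerivAt (fun y : ℝ => 2 * Real.pi * (y * θ)) (2 * Real.pi * (1 * θ)) y :=
      ((hasDerivAt_id y).mul_const θ).const_mul _
    have := ((Real.hasDerivAt_sin _).comp y h2).div_const (2 * Real.pi * θ)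
    convert! this using 1
    field_simp
  rw [intervalIntegral.integral_eq_sub_of_hasDerivAt h1 (by
    apply Continuous.intervalIntegrable; fun_prop)]
  have e1 : 2 * Real.pi * ((n + h / 2) * θ) = 2 * Real.pi * (n * θ) + Real.pi * (h * θ) := by ring
  have e2 : 2 * Real.pi * ((n - h / 2) * θ) = 2 * Real.pi * (n * θ) - Real.pi * (h * θ) := by ring
  rw [e1, e2, Real.sin_add, Real.sin_sub]
  field_simp
  ring

/-- the test function on the `y` side -/
noncomputable def EE {ι : Type} (G : ℝ → ℝ) (X h : ℝ) (S : Finset ι) (θ c : ι → ℝ) (y : ℝ) : ℝ :=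
  2 * h * (G (y / X) * ∑ i ∈ S, c i * Real.cos (2 * Real.pi * (y * θ i)))

lemma EE_cont {ι : Type} {G : ℝ → ℝ} (hG : Continuous G) (X h : ℝ) (S : Finset ι)
    (θ c : ι → ℝ) : Continuous (EE G X h S θ c) := by
  unfold EE
  fun_prop

lemma EE_zero {ι : Type} {G : ℝ → ℝ} {β : ℝ} (hs : ∀ u, u ≤ β ∨ 1 ≤ u → G u = 0)
    {X : ℝ} (hX : 0 < X) (hβX : 1 ≤ β * X) (h : ℝ) (S : Finset ι) (θ c : ι → ℝ) (y : ℝ)
    (hy : y ∉ Set.Ioc 1 X) : EE G X h S θ c y = 0 := by
  unfold EE
  have : G (y / X) = 0 := by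
    apply hs
    rw [Set.mem_Ioc, not_and_or, not_lt, not_le] at hy
    rcases hy with hy | hy
    · left
      rw [div_le_iff₀ hX]
      linarith
    · right
      rw [one_le_div hX]
      exact hy.le
  rw [this]
  ring

lemma EE_compact {ι : Type} {G : ℝ → ℝ} {β : ℝ} (hs : ∀ u, u ≤ β ∨ 1 ≤ u → G u = 0)
    {X : ℝ} (hX : 0 < X) (hβX : 1 ≤ β * X) (h : ℝ) (S : Finset ι) (θ c : ι → ℝ) :
    HasCompactSupport (EE G X h S θ c) := by
  refine HasCompactSupport.intro (isCompact_Icc (a := (1:ℝ)) (b := X)) fun y hy => ?_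
  exact EE_zero hs hX hβX h S θ c y fun h' => hy ⟨h'.1.le, h'.2⟩

lemma EE_bound {ι : Type} {G : ℝ → ℝ} (hG1 : ∀ u, |G u| ≤ 1) (X : ℝ) {h : ℝ} (hh : 0 ≤ h)
    (S : Finset ι) (θ c : ι → ℝ) (y : ℝ) :
    |EE G X h S θ c y| ≤ 2 * h * ∑ i ∈ S, |c i| := by
  unfold EE
  rw [abs_mul, abs_of_nonneg (by positivity : (0:ℝ) ≤ 2 * h), abs_mul]
  apply mul_le_mul_of_nonneg_left _ (by positivity)
  calc |G (y / X)| * |∑ i ∈ S, c i * Real.cos (2 * Real.pi * (y * θ i))|
      ≤ 1 * ∑ i ∈ S, |c i| := by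
        apply mul_le_mul (hG1 _) _ (abs_nonneg _) zero_le_one
        refine (abs_sum_le_sum_abs _ _).trans (sum_le_sum fun i _ => ?_)
        rw [abs_mul]
        calc |c i| * |Real.cos (2 * Real.pi * (y * θ i))| ≤ |c i| * 1 := by
              apply mul_le_mul_of_nonneg_left (Real.abs_cos_le_one _) (abs_nonneg _)
          _ = _ := mul_one _
    _ = _ := one_mul _

lemma sum_Lambda_le (M : ℕ) : ∑ n ∈ Icc 1 M, ArithmeticFunction.vonMangoldt n ≤
    (Real.log 4 + 4) * M := by
  have := Chebyshev.psi_le_const_mul_self (x := (M : ℝ)) (by positivity)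
  rw [Chebyshev.psi, Nat.floor_natCast] at this
  convert this using 2
  ext k
  simp only [Finset.mem_Icc, Finset.mem_Ioc]
  omega

/-- window integral of the test function -/
lemma EE_window {ι : Type} {G : ℝ → ℝ} {L : ℝ} (hG : Continuous G)
    (hL : ∀ u v, |G u - G v| ≤ L * |u - v|) {X h : ℝ} (hX : 0 < X) (hh : 0 < h)
    (S : Finset ι) (θ c : ι → ℝ) (hθ : ∀ i ∈ S, 0 < θ i) (n : ℝ) :
    |(∫ y in (n - h / 2)..(n + h / 2), EE G X h S θ c y) - 2 * h ^ 2 * (G (n / X) *
      ∑ i ∈ S, c i * (Real.sin (Real.pi * (h * θ i)) / (Real.pi * (h * θ i))) *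
        Real.cos (2 * Real.pi * (n * θ i)))| ≤ L * h ^ 3 / X * ∑ i ∈ S, |c i| := by
  have hL0 : 0 ≤ L := by
    have := hL 1 0
    simp at this
    exact (abs_nonneg _).trans this
  have e1 : 2 * h ^ 2 * (G (n / X) *
      ∑ i ∈ S, c i * (Real.sin (Real.pi * (h * θ i)) / (Real.pi * (h * θ i))) *
        Real.cos (2 * Real.pi * (n * θ i))) =
      ∫ y in (n - h / 2)..(n + h / 2), 2 * h * (G (n / X) *
        ∑ i ∈ S, c i * Real.cos (2 * Real.pi * (y * θ i))) := by
    rw [intervalIntegral.integral_const_mul, intervalIntegral.integral_const_mul,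
      intervalIntegral.integral_finsetSum]
    · have : ∑ i ∈ S, ∫ y in (n - h / 2)..(n + h / 2), c i * Real.cos (2 * Real.pi * (y * θ i)) =
          ∑ i ∈ S, h * (c i * (Real.sin (Real.pi * (h * θ i)) / (Real.pi * (h * θ i))) *
            Real.cos (2 * Real.pi * (n * θ i))) := by
        refine sum_congr rfl fun i hi => ?_
        rw [intervalIntegral.integral_const_mul, cos_window n h (θ i) (hθ i hi) hh]
        ring
      rw [this, ← mul_sum]
      ring
    · intro i _
      apply Continuous.intervalIntegrable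
      fun_prop
  rw [e1, ← intervalIntegral.integral_sub ((EE_cont hG X h S θ c).intervalIntegrable _ _)
    (by apply Continuous.intervalIntegrable; fun_prop)]
  rw [← Real.norm_eq_abs]
  have := intervalIntegral.norm_integral_le_of_norm_le_const (a := n - h / 2) (b := n + h / 2)
    (C := L * h ^ 2 / X * ∑ i ∈ S, |c i|)
    (f := fun y => EE G X h S θ c y - 2 * h * (G (n / X) *
        ∑ i ∈ S, c i * Real.cos (2 * Real.pi * (y * θ i)))) (fun y hy => by
      rw [Set.uIoc_of_le (by linarith)] at hy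
      unfold EE
      rw [Real.norm_eq_abs]
      have e2 : 2 * h * (G (y / X) * ∑ i ∈ S, c i * Real.cos (2 * Real.pi * (y * θ i))) -
          2 * h * (G (n / X) * ∑ i ∈ S, c i * Real.cos (2 * Real.pi * (y * θ i))) =
          2 * h * ((G (y / X) - G (n / X)) *
            ∑ i ∈ S, c i * Real.cos (2 * Real.pi * (y * θ i))) := by ring
      rw [e2, abs_mul, abs_of_nonneg (by positivity : (0:ℝ) ≤ 2 * h), abs_mul]
      have e3 : |G (y / X) - G (n / X)| ≤ L * (h / 2) / X := by
        refine (hL _ _).trans ?_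
        rw [← sub_div, abs_div, abs_of_pos hX, mul_div_assoc]
        gcongr
        rw [abs_le]
        constructor <;> linarith [hy.1, hy.2]
      have e4 : |∑ i ∈ S, c i * Real.cos (2 * Real.pi * (y * θ i))| ≤ ∑ i ∈ S, |c i| := by
        refine (abs_sum_le_sum_abs _ _).trans (sum_le_sum fun i _ => ?_)
        rw [abs_mul]
        calc |c i| * |Real.cos (2 * Real.pi * (y * θ i))| ≤ |c i| * 1 := by
              apply mul_le_mul_of_nonneg_left (Real.abs_cos_le_one _) (abs_nonneg _)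
          _ = _ := mul_one _
      calc 2 * h * (|G (y / X) - G (n / X)| *
            |∑ i ∈ S, c i * Real.cos (2 * Real.pi * (y * θ i))|)
          ≤ 2 * h * (L * (h / 2) / X * ∑ i ∈ S, |c i|) := by gcongr
        _ = _ := by ring)
  refine this.trans (le_of_eq ?_)
  rw [show n + h / 2 - (n - h / 2) = h by ring, abs_of_pos hh]
  ring

lemma ex_re_im (x : ℝ) : (ex x).re = Real.cos (2 * Real.pi * x) ∧
    (ex x).im = Real.sin (2 * Real.pi * x) := by
  unfold ex
  constructor
  · rw [Complex.exp_ofReal_mul_I_re]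
  · rw [Complex.exp_ofReal_mul_I_im]

/-- square of the real part -/
lemma sq_re {ι : Type} (S : Finset ι) (θ c : ι → ℝ) (y : ℝ) :
    2 * (∑ i ∈ S, c i * Real.cos (2 * Real.pi * (y * θ i))) ^ 2 =
      ‖∑ i ∈ S, (c i : ℂ) * ex (y * θ i)‖ ^ 2 +
        ∑ i ∈ S, ∑ j ∈ S, c i * c j * Real.cos (2 * Real.pi * (y * (θ i + θ j))) := by
  have h1 : (∑ i ∈ S, (c i : ℂ) * ex (y * θ i)).re =
      ∑ i ∈ S, c i * Real.cos (2 * Real.pi * (y * θ i)) := by
    rw [Complex.re_sum]
    refine sum_congr rfl fun i _ => ?_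
    rw [Complex.re_ofReal_mul, (ex_re_im _).1]
  have h2 : (∑ i ∈ S, (c i : ℂ) * ex (y * θ i)).im =
      ∑ i ∈ S, c i * Real.sin (2 * Real.pi * (y * θ i)) := by
    rw [Complex.im_sum]
    refine sum_congr rfl fun i _ => ?_
    rw [Complex.im_ofReal_mul, (ex_re_im _).2]
  have h3 : ‖∑ i ∈ S, (c i : ℂ) * ex (y * θ i)‖ ^ 2 =
      (∑ i ∈ S, c i * Real.cos (2 * Real.pi * (y * θ i))) ^ 2 +
      (∑ i ∈ S, c i * Real.sin (2 * Real.pi * (y * θ i))) ^ 2 := by
    rw [← h1, ← h2, Complex.sq_norm, Complex.normSq_apply]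
    ring
  have h4 : ∑ i ∈ S, ∑ j ∈ S, c i * c j * Real.cos (2 * Real.pi * (y * (θ i + θ j))) =
      (∑ i ∈ S, c i * Real.cos (2 * Real.pi * (y * θ i))) ^ 2 -
      (∑ i ∈ S, c i * Real.sin (2 * Real.pi * (y * θ i))) ^ 2 := by
    rw [sq, sq, sum_mul_sum, sum_mul_sum, ← sum_sub_distrib]
    refine sum_congr rfl fun i _ => ?_
    rw [← sum_sub_distrib]
    refine sum_congr rfl fun j _ => ?_
    rw [show 2 * Real.pi * (y * (θ i + θ j)) =
      2 * Real.pi * (y * θ i) + 2 * Real.pi * (y * θ j) by ring, Real.cos_add]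
    ring
  rw [h3, h4]
  ring

lemma EE_sq {G : ℝ → ℝ} (hG : ContDiff ℝ 1 G) (hc : HasCompactSupport G) :
    ∃ C : ℝ, 0 < C ∧ ∀ (ι : Type) (X h θ0 : ℝ) (S : Finset ι) (θ c : ι → ℝ), 0 < X → 0 < h → 0 < θ0 →
      (∀ i ∈ S, θ0 ≤ θ i) →
      ∫ y, EE G X h S θ c y ^ 2 ≤
        2 * h ^ 2 * (∫ y, G (y / X) ^ 2 * ‖∑ i ∈ S, (c i : ℂ) * ex (y * θ i)‖ ^ 2) +
        C * (h ^ 2 * (∑ i ∈ S, |c i|) ^ 2 / θ0) := by
  have hG2 : ContDiff ℝ 1 (fun u => G u ^ 2) := hG.pow 2
  have hc2 : HasCompactSupport (fun u => G u ^ 2) := by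
    have : (fun u => G u ^ 2) = fun u => G u * G u := by funext u; ring
    rw [this]
    exact hc.mul_right
  obtain ⟨C, hC, hosc⟩ := osc hG2 hc2
  refine ⟨2 * C, by positivity, fun ι X h θ0 S θ c hX hh hθ0 hθ => ?_⟩
  have hdiv : ∀ F : ℝ → ℝ, Continuous F → Integrable (fun y => G (y / X) ^ 2 * F y) := by
    intro F hF
    have hcX : HasCompactSupport (fun y : ℝ => G (y / X) ^ 2) := by
      have := hc2.comp_homeomorph (Homeomorph.mulRight₀ X⁻¹ (inv_ne_zero hX.ne'))
      simpa [Function.comp_def, div_eq_mul_inv] using this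
    apply Continuous.integrable_of_hasCompactSupport
    · have := hG.continuous
      fun_prop
    · exact hcX.mul_right
  have e0 : ∀ y, EE G X h S θ c y ^ 2 = 2 * h ^ 2 * (G (y / X) ^ 2 *
      ‖∑ i ∈ S, (c i : ℂ) * ex (y * θ i)‖ ^ 2) + 2 * h ^ 2 * ∑ i ∈ S, ∑ j ∈ S, c i * c j *
        (G (y / X) ^ 2 * Real.cos (2 * Real.pi * (y * (θ i + θ j)))) := by
    intro y
    unfold EE
    have e1 := sq_re S θ c y
    have e2 : ∑ i ∈ S, ∑ j ∈ S, c i * c j *
        (G (y / X) ^ 2 * Real.cos (2 * Real.pi * (y * (θ i + θ j)))) = G (y / X) ^ 2 *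
        ∑ i ∈ S, ∑ j ∈ S, c i * c j * Real.cos (2 * Real.pi * (y * (θ i + θ j))) := by
      rw [mul_sum]
      refine sum_congr rfl fun i _ => ?_
      rw [mul_sum]
      refine sum_congr rfl fun j _ => ?_
      ring
    rw [e2]
    linear_combination 2 * h ^ 2 * G (y / X) ^ 2 * e1
  have hexc : ∀ i, Continuous fun y : ℝ => ex (y * θ i) := by
    intro i
    unfold ex
    fun_prop
  have i1 : Integrable (fun y => G (y / X) ^ 2 * ‖∑ i ∈ S, (c i : ℂ) * ex (y * θ i)‖ ^ 2) := by
    apply hdiv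
    apply Continuous.pow
    apply Continuous.norm
    apply continuous_finsetSum
    intro i _
    exact continuous_const.mul (hexc i)
  have i2 : ∀ i ∈ S, ∀ j ∈ S, Integrable (fun y => c i * c j *
        (G (y / X) ^ 2 * Real.cos (2 * Real.pi * (y * (θ i + θ j))))) := by
    intro i _ j _
    apply Integrable.const_mul
    apply hdiv
    fun_prop
  have i3 : Integrable (fun y => ∑ i ∈ S, ∑ j ∈ S, c i * c j *
        (G (y / X) ^ 2 * Real.cos (2 * Real.pi * (y * (θ i + θ j))))) :=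
    integrable_finsetSum _ fun i hi => integrable_finsetSum _ fun j hj => i2 i hi j hj
  have e3 : ∫ y, EE G X h S θ c y ^ 2 = 2 * h ^ 2 * (∫ y, G (y / X) ^ 2 *
      ‖∑ i ∈ S, (c i : ℂ) * ex (y * θ i)‖ ^ 2) + 2 * h ^ 2 * ∑ i ∈ S, ∑ j ∈ S, c i * c j *
        ∫ y, (G (y / X) ^ 2 * Real.cos (2 * Real.pi * (y * (θ i + θ j)))) := by
    simp_rw [e0]
    rw [integral_add (i1.const_mul _) (i3.const_mul _), integral_const_mul, integral_const_mul,
      integral_finsetSum _ fun i hi => integrable_finsetSum _ fun j hj => i2 i hi j hj]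
    congr 2
    refine sum_congr rfl fun i hi => ?_
    rw [integral_finsetSum _ fun j hj => i2 i hi j hj]
    refine sum_congr rfl fun j hj => ?_
    rw [integral_const_mul]
  rw [e3]
  have e4 : ∑ i ∈ S, ∑ j ∈ S, c i * c j *
        ∫ y, (G (y / X) ^ 2 * Real.cos (2 * Real.pi * (y * (θ i + θ j)))) ≤
      C * ((∑ i ∈ S, |c i|) ^ 2 / θ0) := by
    calc ∑ i ∈ S, ∑ j ∈ S, c i * c j *
        ∫ y, (G (y / X) ^ 2 * Real.cos (2 * Real.pi * (y * (θ i + θ j))))
        ≤ ∑ i ∈ S, ∑ j ∈ S, |c i| * |c j| * (C / θ0) := by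
          refine sum_le_sum fun i hi => sum_le_sum fun j hj => ?_
          refine (le_abs_self _).trans ?_
          rw [abs_mul, abs_mul]
          apply mul_le_mul_of_nonneg_left _ (by positivity)
          have hp : 0 < θ i + θ j := by linarith [hθ i hi, hθ j hj]
          refine (hosc X (θ i + θ j) hX hp).trans ?_
          apply div_le_div_of_nonneg_left hC.le hθ0
          linarith [hθ i hi, hθ j hj]
      _ = _ := by
          rw [sq, sum_mul_sum, sum_div, mul_sum]
          refine sum_congr rfl fun i _ => ?_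
          rw [sum_div, mul_sum]
          refine sum_congr rfl fun j _ => ?_
          ring
  have : 2 * h ^ 2 * ∑ i ∈ S, ∑ j ∈ S, c i * c j *
        ∫ y, (G (y / X) ^ 2 * Real.cos (2 * Real.pi * (y * (θ i + θ j)))) ≤
      2 * h ^ 2 * (C * ((∑ i ∈ S, |c i|) ^ 2 / θ0)) := by gcongr
  linarith [this, (by ring : 2 * h ^ 2 * (C * ((∑ i ∈ S, |c i|) ^ 2 / θ0)) =
    2 * C * (h ^ 2 * (∑ i ∈ S, |c i|) ^ 2 / θ0))]

lemma EE_int {G : ℝ → ℝ} (hG : ContDiff ℝ 1 G) (hc : HasCompactSupport G) :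
    ∃ C : ℝ, 0 < C ∧ ∀ (ι : Type) (X h θ0 : ℝ) (S : Finset ι) (θ c : ι → ℝ), 0 < X → 0 < h → 0 < θ0 →
      (∀ i ∈ S, θ0 ≤ θ i) →
      |∫ y, EE G X h S θ c y| ≤ C * (h * (∑ i ∈ S, |c i|) / θ0) := by
  obtain ⟨C, hC, hosc⟩ := osc hG hc
  refine ⟨2 * C, by positivity, fun ι X h θ0 S θ c hX hh hθ0 hθ => ?_⟩
  have hdiv : ∀ F : ℝ → ℝ, Continuous F → Integrable (fun y => G (y / X) * F y) := by
    intro F hF
    have hcX : HasCompactSupport (fun y : ℝ => G (y / X)) := by
      have := hc.comp_homeomorph (Homeomorph.mulRight₀ X⁻¹ (inv_ne_zero hX.ne'))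
      simpa [Function.comp_def, div_eq_mul_inv] using this
    apply Continuous.integrable_of_hasCompactSupport
    · have := hG.continuous
      fun_prop
    · exact hcX.mul_right
  have e0 : ∀ y, EE G X h S θ c y = 2 * h * ∑ i ∈ S, c i *
        (G (y / X) * Real.cos (2 * Real.pi * (y * θ i))) := by
    intro y
    unfold EE
    rw [mul_sum]
    congr 1
    refine sum_congr rfl fun i _ => ?_
    ring
  have i2 : ∀ i ∈ S, Integrable (fun y => c i *
        (G (y / X) * Real.cos (2 * Real.pi * (y * θ i)))) := by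
    intro i _
    apply Integrable.const_mul
    apply hdiv
    fun_prop
  have e3 : ∫ y, EE G X h S θ c y = 2 * h * ∑ i ∈ S, c i *
        ∫ y, (G (y / X) * Real.cos (2 * Real.pi * (y * θ i))) := by
    simp_rw [e0]
    rw [integral_const_mul, integral_finsetSum _ i2]
    congr 1
    refine sum_congr rfl fun i hi => ?_
    rw [integral_const_mul]
  rw [e3, abs_mul, abs_of_pos (by positivity : (0:ℝ) < 2 * h)]
  have e4 : |∑ i ∈ S, c i *
        ∫ y, (G (y / X) * Real.cos (2 * Real.pi * (y * θ i)))| ≤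
      C * ((∑ i ∈ S, |c i|) / θ0) := by
    refine (abs_sum_le_sum_abs _ _).trans ?_
    calc ∑ i ∈ S, |c i * ∫ y, (G (y / X) * Real.cos (2 * Real.pi * (y * θ i)))|
        ≤ ∑ i ∈ S, |c i| * (C / θ0) := by
          refine sum_le_sum fun i hi => ?_
          rw [abs_mul]
          apply mul_le_mul_of_nonneg_left _ (abs_nonneg _)
          have hp : 0 < θ i := by linarith [hθ i hi]
          refine (hosc X (θ i) hX hp).trans ?_
          apply div_le_div_of_nonneg_left hC.le hθ0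
          linarith [hθ i hi]
      _ = _ := by
          rw [← sum_mul]
          ring
  calc 2 * h * |∑ i ∈ S, c i * ∫ y, (G (y / X) * Real.cos (2 * Real.pi * (y * θ i)))|
      ≤ 2 * h * (C * ((∑ i ∈ S, |c i|) / θ0)) := by gcongr
    _ = _ := by ring

open ArithmeticFunction in
/-- analytic core of the variance bound -/
theorem core_bound {G : ℝ → ℝ} (hG : ContDiff ℝ 1 G) {β : ℝ} (hβ : 0 < β) (hβ1 : β ≤ 1)
    (hs : ∀ u, u ≤ β ∨ 1 ≤ u → G u = 0) (hG1 : ∀ u, |G u| ≤ 1) :
    ∃ C : ℝ, 0 < C ∧ ∀ (ι : Type) (X h θ0 : ℝ) (M : ℕ) (S : Finset ι) (θ c : ι → ℝ),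
      0 < h → 1 ≤ β * X → X + h ≤ M → 0 < θ0 → (∀ i ∈ S, θ0 ≤ θ i) →
      4 * h ^ 2 * (∑ n ∈ Icc 1 M, vonMangoldt n * (G (n / X) *
        ∑ i ∈ S, c i * (Real.sin (Real.pi * (h * θ i)) / (Real.pi * (h * θ i))) *
          Real.cos (2 * Real.pi * (n * θ i)))) -
      2 * h ^ 2 * (∫ y, G (y / X) ^ 2 * ‖∑ i ∈ S, (c i : ℂ) * ex (y * θ i)‖ ^ 2) -
      C * (h ^ 3 * (M / X) * (∑ i ∈ S, |c i|) + h ^ 2 * (∑ i ∈ S, |c i|) / θ0 +
        h ^ 2 * (∑ i ∈ S, |c i|) ^ 2 / θ0)
      ≤ ∫ y in (1 : ℝ)..X, (psiI y h - h) ^ 2 := by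
  have hc : HasCompactSupport G := by
    refine HasCompactSupport.intro (isCompact_Icc (a := β) (b := 1)) fun u hu => ?_
    apply hs
    rw [Set.mem_Icc, not_and_or, not_le, not_le] at hu
    rcases hu with hu | hu
    · exact Or.inl hu.le
    · exact Or.inr hu.le
  obtain ⟨L, hL⟩ := ContDiff.lipschitzWith_of_hasCompactSupport hc hG one_ne_zero
  have hL' : ∀ u v, |G u - G v| ≤ L * |u - v| := by
    intro u v
    have := hL.dist_le_mul u v
    rwa [Real.dist_eq, Real.dist_eq] at this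
  obtain ⟨C1, hC1, h1⟩ := EE_int hG hc
  obtain ⟨C2, hC2, h2⟩ := EE_sq hG hc
  set C3 : ℝ := 2 * (Real.log 4 + 4) * L with hC3
  have hC30 : 0 ≤ C3 := by
    have : 0 ≤ Real.log 4 := Real.log_nonneg (by norm_num)
    positivity
  refine ⟨C3 + 2 * C1 + C2, by positivity, ?_⟩
  intro ι X h θ0 M S θ c hh hβX hM hθ0 hθ
  have hX1 : 1 ≤ X := by
    by_contra hcon
    push Not at hcon
    have hX : 0 < X := by
      by_contra h'
      push Not at h'
      nlinarith
    nlinarith
  have hX : 0 < X := by linarith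
  have hT0 : 0 ≤ ∑ i ∈ S, |c i| := sum_nonneg fun i _ => abs_nonneg _
  set T : ℝ := ∑ i ∈ S, |c i| with hT
  set E : ℝ → ℝ := EE G X h S θ c with hE
  have hEc : Continuous E := EE_cont hG.continuous X h S θ c
  have hEs : HasCompactSupport E := EE_compact hs hX hβX h S θ c
  have hEi : Integrable E := hEc.integrable_of_hasCompactSupport hEs
  have hE2i : Integrable (fun y => E y ^ 2) := by
    have : (fun y => E y ^ 2) = fun y => E y * E y := by funext y; ring
    rw [this]
    exact (hEc.mul hEc).integrable_of_hasCompactSupport hEs.mul_right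
  have hE0 : ∀ y, y ∉ Set.Ioc 1 X → E y = 0 := fun y hy => EE_zero hs hX hβX h S θ c y hy
  set P : ℝ → ℝ := fun y => ∑ n ∈ Icc 1 M, (Set.Icc ((n:ℝ) - h/2) (n + h/2)).indicator
      (fun _ => vonMangoldt n) y with hP
  have hPm : Measurable P := by
    apply Finset.measurable_sum
    intro n _
    exact measurable_const.indicator measurableSet_Icc
  have hP0 : ∀ y, 0 ≤ P y := fun y => sum_nonneg fun n _ =>
    Set.indicator_nonneg (fun _ _ => vonMangoldt_nonneg) _
  have hPb : ∀ y, |P y| ≤ ∑ n ∈ Icc 1 M, vonMangoldt n := by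
    intro y
    rw [abs_of_nonneg (hP0 y)]
    refine sum_le_sum fun n _ => ?_
    exact Set.indicator_le_self' (fun _ _ => vonMangoldt_nonneg) _
  -- step 1: pass to `P`
  have s1 : ∫ y in (1 : ℝ)..X, (psiI y h - h) ^ 2 = ∫ y in Set.Ioc 1 X, (P y - h) ^ 2 := by
    rw [intervalIntegral.integral_of_le hX1]
    apply setIntegral_congr_fun measurableSet_Ioc
    intro y hy
    simp only [hP]
    rw [psiI_eq y h M (by linarith [hy.2])]
  have hbd : ∀ F : ℝ → ℝ, Measurable F → ∀ K : ℝ, (∀ y, |F y| ≤ K) →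
      IntegrableOn F (Set.Ioc 1 X) := by
    intro F hF K hK
    apply Measure.integrableOn_of_bounded (M := K)
    · simp
    · exact hF.aestronglyMeasurable
    · exact Filter.Eventually.of_forall fun y => hK y
  have hEb : ∀ y, |E y| ≤ 2 * h * T := EE_bound hG1 X hh.le S θ c
  set A : ℝ := ∑ n ∈ Icc 1 M, vonMangoldt n with hA
  have hPh : ∀ y, |P y - h| ≤ A + h := fun y => by
    have := abs_sub (P y) h
    rw [abs_of_pos hh] at this
    linarith [hPb y]
  -- step 2
  have s2 : ∫ y in Set.Ioc 1 X, (2 * (P y - h) * E y - E y ^ 2) ≤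
      ∫ y in Set.Ioc 1 X, (P y - h) ^ 2 := by
    apply setIntegral_mono_on
    · apply Integrable.sub
      · apply hbd _ _ (2 * (A + h) * (2 * h * T))
        · intro y
          rw [abs_mul, abs_mul, abs_two]
          have := hPh y
          have := hEb y
          have h0 : 0 ≤ A + h := (abs_nonneg _).trans (hPh y)
          gcongr
        · exact (measurable_const.mul (hPm.sub_const h)).mul hEc.measurable
      · exact hE2i.integrableOn
    · apply hbd _ ((hPm.sub_const h).pow_const 2) ((A + h) ^ 2)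
      intro y
      rw [abs_pow]
      have := hPh y
      gcongr
    · exact measurableSet_Ioc
    · intro y _
      nlinarith [sq_nonneg (P y - h - E y)]
  -- step 3
  have s3 : ∫ y in Set.Ioc 1 X, (2 * (P y - h) * E y - E y ^ 2) =
      ∫ y, (2 * (P y - h) * E y - E y ^ 2) := by
    apply setIntegral_eq_integral_of_forall_compl_eq_zero
    intro y hy
    rw [hE0 y hy]
    ring
  have hPE : ∀ y, P y * E y = ∑ n ∈ Icc 1 M, vonMangoldt n *
      (Set.Icc ((n:ℝ) - h/2) (n + h/2)).indicator E y := by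
    intro y
    rw [hP]
    simp only
    rw [sum_mul]
    refine sum_congr rfl fun n _ => ?_
    by_cases hy : y ∈ Set.Icc ((n:ℝ) - h/2) (n + h/2)
    · rw [Set.indicator_of_mem hy, Set.indicator_of_mem hy]
    · rw [Set.indicator_of_notMem hy, Set.indicator_of_notMem hy]
      ring
  have hindi : ∀ n ∈ Icc 1 M, Integrable (fun y => vonMangoldt n *
      (Set.Icc ((n:ℝ) - h/2) (n + h/2)).indicator E y) := fun n _ =>
    (hEi.indicator measurableSet_Icc).const_mul _
  have hPEi : Integrable (fun y => P y * E y) := by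
    simp_rw [hPE]
    exact integrable_finsetSum _ hindi
  have s4 : ∫ y, (2 * (P y - h) * E y - E y ^ 2) =
      2 * (∑ n ∈ Icc 1 M, vonMangoldt n * ∫ y in ((n:ℝ) - h/2)..(n + h/2), E y) -
        2 * h * (∫ y, E y) - ∫ y, E y ^ 2 := by
    have : ∀ y, 2 * (P y - h) * E y - E y ^ 2 = (2 * (P y * E y) - 2 * h * E y) - E y ^ 2 := by
      intro y; ring
    simp_rw [this]
    have j1 : Integrable (fun y => 2 * (P y * E y) - 2 * h * E y) :=
      (hPEi.const_mul 2).sub (hEi.const_mul (2 * h))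
    rw [integral_sub j1 hE2i,
      integral_sub (hPEi.const_mul 2) (hEi.const_mul (2 * h)), integral_const_mul,
      integral_const_mul]
    congr 3
    simp_rw [hPE]
    rw [integral_finsetSum _ hindi]
    refine sum_congr rfl fun n _ => ?_
    rw [integral_const_mul, integral_indicator measurableSet_Icc,
      integral_Icc_eq_integral_Ioc, intervalIntegral.integral_of_le (by linarith)]
  -- step 5: windows
  have s5 : 2 * h ^ 2 * (∑ n ∈ Icc 1 M, vonMangoldt n * (G (n / X) *
        ∑ i ∈ S, c i * (Real.sin (Real.pi * (h * θ i)) / (Real.pi * (h * θ i))) *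
          Real.cos (2 * Real.pi * (n * θ i)))) - (Real.log 4 + 4) * M * (L * h ^ 3 / X * T) ≤
      ∑ n ∈ Icc 1 M, vonMangoldt n * ∫ y in ((n:ℝ) - h/2)..(n + h/2), E y := by
    have t1 : (∑ n ∈ Icc 1 M, vonMangoldt n) * (L * h ^ 3 / X * T) ≤
        (Real.log 4 + 4) * M * (L * h ^ 3 / X * T) := by
      apply mul_le_mul_of_nonneg_right (sum_Lambda_le M)
      have : 0 ≤ (L : ℝ) := L.2
      positivity
    have t2 : 2 * h ^ 2 * (∑ n ∈ Icc 1 M, vonMangoldt n * (G (n / X) *
        ∑ i ∈ S, c i * (Real.sin (Real.pi * (h * θ i)) / (Real.pi * (h * θ i))) *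
          Real.cos (2 * Real.pi * (n * θ i)))) - (∑ n ∈ Icc 1 M, vonMangoldt n) *
            (L * h ^ 3 / X * T) ≤
      ∑ n ∈ Icc 1 M, vonMangoldt n * ∫ y in ((n:ℝ) - h/2)..(n + h/2), E y := by
      rw [mul_sum, sum_mul, ← sum_sub_distrib]
      refine sum_le_sum fun n _ => ?_
      have hw := EE_window hG.continuous hL' hX hh S θ c
        (fun i hi => lt_of_lt_of_le hθ0 (hθ i hi)) (n : ℝ)
      rw [abs_le] at hw
      have hΛ : 0 ≤ vonMangoldt n := vonMangoldt_nonneg
      have := mul_le_mul_of_nonneg_left hw.1 hΛ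
      linear_combination this
    linarith
  have s6 := h1 ι X h θ0 S θ c hX hh hθ0 hθ
  have s7 := h2 ι X h θ0 S θ c hX hh hθ0 hθ
  rw [s1]
  refine le_trans ?_ s2
  rw [s3, s4]
  rw [← hT, ← hE] at s6 s7
  have s8 : 2 * h * (∫ y, E y) ≤ 2 * C1 * (h ^ 2 * T / θ0) := by
    have := (abs_le.mp s6).2
    calc 2 * h * (∫ y, E y) ≤ 2 * h * (C1 * (h * T / θ0)) := by gcongr
      _ = _ := by ring
  have s9 : 2 * ((Real.log 4 + 4) * M * (L * h ^ 3 / X * T)) = C3 * (h ^ 3 * (M / X) * T) := by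
    rw [hC3]
    ring
  have p1 : 0 ≤ h ^ 3 * (M / X) * T := by positivity
  have p2 : 0 ≤ h ^ 2 * T / θ0 := by positivity
  have p3 : 0 ≤ h ^ 2 * T ^ 2 / θ0 := by positivity
  have q1 : 0 ≤ C3 * (h ^ 2 * T / θ0) := by positivity
  have q2 : 0 ≤ C3 * (h ^ 2 * T ^ 2 / θ0) := by positivity
  have q3 : 0 ≤ C1 * (h ^ 3 * (M / X) * T) := by positivity
  have q4 : 0 ≤ C1 * (h ^ 2 * T ^ 2 / θ0) := by positivity
  have q5 : 0 ≤ C2 * (h ^ 3 * (M / X) * T) := by positivity
  have q6 : 0 ≤ C2 * (h ^ 2 * T / θ0) := by positivity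
  nlinarith [s5, s7, s8, s9, q1, q2, q3, q4, q5, q6]

end H343
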