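import Mathlib
import Pool.Agent.H343R2.Defs
import Pool.Agent.H343R2.VarCore
import Pool.Agent.H343R2.VarAux
import Pool.Agent.H343R2.PhiSum
import Pool.Agent.H343R2.Norm
import Pool.Agent.H343R2.MainSum

open Finset MeasureTheory

namespace H343

/-- index set of the test vector -/
noncomputable def SS (Q R N : ℕ) : Finset (Σ _ : ℕ, ℕ) :=
  (Mod Q R).sigma fun q => (Icc 1 N).filter fun a => a.Coprime q

noncomputable def cc (K0 : ℝ → ℝ) (h : ℝ) (i : Σ _ : ℕ, ℕ) : ℝ :=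
  ((ArithmeticFunction.moebius i.1 : ℤ) : ℝ) / (Nat.totient i.1 : ℝ) *
    (Real.sin (Real.pi * (h * (i.2 / i.1))) / (Real.pi * (h * (i.2 / i.1))) *
      K0 (h * (i.2 / i.1)))

noncomputable def th (i : Σ _ : ℕ, ℕ) : ℝ := i.2 / i.1

lemma exp_log_th {h : ℝ} (hh : 0 < h) {q a : ℕ} (hq : 0 < q) (ha : 0 < a) :
    Real.exp (Real.log (a / (q * (1 / h)))) = h * (a / q) := by
  have : (0:ℝ) < q := by exact_mod_cast hq
  have : (0:ℝ) < a := by exact_mod_cast ha
  rw [Real.exp_log (by positivity)]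
  field_simp

lemma mem_SS {Q R N : ℕ} {i : Σ _ : ℕ, ℕ} (hi : i ∈ SS Q R N) : 0 < i.1 ∧ 0 < i.2 := by
  unfold SS Mod at hi
  simp only [mem_sigma, mem_filter, mem_Ioc, mem_Icc] at hi
  omega

/-- change of variables in the norm -/
lemma norm_cv (G : ℝ → ℝ) (hG0 : ∀ u, u ≤ 0 → G u = 0) {X : ℝ} (hX : 0 < X) (F : ℝ → ℝ) :
    ∫ y, G (y / X) ^ 2 * F y = X * ∫ v, Real.exp v * G (Real.exp v) ^ 2 * F (X * Real.exp v) := by
  have e1 : ∫ v, Real.exp v * G (Real.exp v) ^ 2 * F (X * Real.exp v) =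
      ∫ u in Set.Ioi 0, G u ^ 2 * F (X * u) := by
    rw [← int_exp (fun u => G u ^ 2 * F (X * u))]
    congr 1
    funext v
    ring
  have e2 : ∫ u in Set.Ioi 0, G u ^ 2 * F (X * u) = ∫ u, G u ^ 2 * F (X * u) := by
    apply setIntegral_eq_integral_of_forall_compl_eq_zero
    intro u hu
    rw [hG0 u (not_lt.mp hu)]
    ring
  rw [e1, e2]
  have := MeasureTheory.Measure.integral_comp_div (fun u => G u ^ 2 * F (X * u)) X
  rw [abs_of_pos hX, smul_eq_mul] at this
  rw [← this]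
  congr 1
  funext y
  rw [mul_div_cancel₀ _ hX.ne']

/-- the summands with nonzero coefficient -/
noncomputable def SS' (K0 : ℝ → ℝ) (h : ℝ) (Q R N : ℕ) : Finset (Σ _ : ℕ, ℕ) :=
  (SS Q R N).filter fun i => cc K0 h i ≠ 0

lemma sum_SS' {β : Type} [AddCommMonoid β] (K0 : ℝ → ℝ) (h : ℝ) (Q R N : ℕ)
    (F : (Σ _ : ℕ, ℕ) → β) (hF : ∀ i, cc K0 h i = 0 → F i = 0) :
    ∑ i ∈ SS' K0 h Q R N, F i = ∑ i ∈ SS Q R N, F i :=
  sum_filter_of_ne fun i _ hne hc => hne (hF i hc)

lemma th_lower {B : ℝ} {K0 : ℝ → ℝ} (hT : Test B (fun v => Real.sin (Real.pi * Real.exp v) /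
      (Real.pi * Real.exp v) * K0 (Real.exp v))) {h : ℝ} (hh : 0 < h) {Q R N : ℕ}
    {i : Σ _ : ℕ, ℕ} (hi : i ∈ SS' K0 h Q R N) : Real.exp (-B) / h ≤ th i := by
  unfold SS' at hi
  rw [mem_filter] at hi
  obtain ⟨h1, h2⟩ := hi
  obtain ⟨hq, ha⟩ := mem_SS h1
  by_contra hcon
  push Not at hcon
  apply h2
  have hq' : (0:ℝ) < i.1 := by exact_mod_cast hq
  have ha' : (0:ℝ) < i.2 := by exact_mod_cast ha
  have hpos : 0 < h * (i.2 / i.1 : ℝ) := by positivity
  have hlt : h * (i.2 / i.1 : ℝ) < Real.exp (-B) := by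
    rw [lt_div_iff₀ hh] at hcon
    unfold th at hcon
    linarith
  have h3 := hT.supp (Real.log (h * (i.2 / i.1 : ℝ))) (by
    have h4 : Real.log (h * (i.2 / i.1 : ℝ)) ≤ -B := by
      rw [Real.log_le_iff_le_exp hpos]
      exact hlt.le
    have := neg_abs_le (Real.log (h * (i.2 / i.1 : ℝ)))
    linarith)
  simp only [Real.exp_log hpos] at h3
  unfold cc
  rw [h3, mul_zero]

lemma cc_eq (K0 : ℝ → ℝ) {h : ℝ} (hh : 0 < h) {q a : ℕ} (hq : 0 < q) (ha : 0 < a) :
    ((ArithmeticFunction.moebius q : ℤ) : ℝ) / (Nat.totient q : ℝ) *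
      (fun v => Real.sin (Real.pi * Real.exp v) / (Real.pi * Real.exp v) * K0 (Real.exp v))
        (Real.log (a / (q * (1 / h)))) = cc K0 h ⟨q, a⟩ := by
  simp only [cc, exp_log_th hh hq ha]

lemma norm_eq (K0 : ℝ → ℝ) {h : ℝ} (hh : 0 < h) (Q R N : ℕ) (z : ℝ) :
    ∑ q ∈ Mod Q R, ∑ a ∈ (Icc 1 N).filter (fun a => a.Coprime q),
        (((ArithmeticFunction.moebius q : ℤ) : ℝ) / (Nat.totient q : ℝ)
          * (fun v => Real.sin (Real.pi * Real.exp v) / (Real.pi * Real.exp v) * K0 (Real.exp v))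
            (Real.log (a / (q * (1 / h)))) : ℝ) * ex (z * (a / q)) =
      ∑ i ∈ SS' K0 h Q R N, (cc K0 h i : ℂ) * ex (z * th i) := by
  rw [sum_SS' K0 h Q R N _ (fun i hc => by rw [hc]; simp)]
  unfold SS
  rw [sum_sigma]
  refine sum_congr rfl fun q hq => sum_congr rfl fun a ha => ?_
  have hq' : 0 < q := by
    unfold Mod at hq
    simp only [mem_filter, mem_Ioc] at hq
    omega
  have ha' : 0 < a := by
    simp only [mem_filter, mem_Icc] at ha
    omega
  rw [cc_eq K0 hh hq' ha']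
  rfl

lemma main_re (G K0 : ℝ → ℝ) {h X : ℝ} (hh : 0 < h) (hX : 0 < X) (Q R N M : ℕ) :
    (∑ q ∈ Mod Q R, ∑ a ∈ (Icc 1 N).filter (fun a => a.Coprime q),
        (((ArithmeticFunction.moebius q : ℤ) : ℝ) / (Nat.totient q : ℝ)
          * (fun v => (Real.sin (Real.pi * Real.exp v) / (Real.pi * Real.exp v)) ^ 2 *
            K0 (Real.exp v)) (Real.log (a / (q * (1 / h)))) : ℝ) *
        ∑ n ∈ Icc 1 M, ((ArithmeticFunction.vonMangoldt n *
          (fun v => G (Real.exp v)) (Real.log (n / X)) : ℝ) : ℂ) *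
          ex (n * (a / q))).re =
    ∑ n ∈ Icc 1 M, ArithmeticFunction.vonMangoldt n * (G (n / X) *
        ∑ i ∈ SS' K0 h Q R N, cc K0 h i *
          (Real.sin (Real.pi * (h * th i)) / (Real.pi * (h * th i))) *
          Real.cos (2 * Real.pi * (n * th i))) := by
  have e1 : ∀ n ∈ Icc 1 M, ArithmeticFunction.vonMangoldt n * (G (n / X) *
        ∑ i ∈ SS' K0 h Q R N, cc K0 h i *
          (Real.sin (Real.pi * (h * th i)) / (Real.pi * (h * th i))) *
          Real.cos (2 * Real.pi * (n * th i))) =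
      ∑ i ∈ SS Q R N, ArithmeticFunction.vonMangoldt n * (G (n / X) * (cc K0 h i *
          (Real.sin (Real.pi * (h * th i)) / (Real.pi * (h * th i))) *
          Real.cos (2 * Real.pi * (n * th i)))) := by
    intro n _
    rw [sum_SS' K0 h Q R N _ (fun i hc => by rw [hc]; simp), mul_sum, mul_sum]
  rw [sum_congr rfl e1, sum_comm]
  unfold SS
  rw [sum_sigma, Complex.re_sum]
  refine sum_congr rfl fun q hq => ?_
  rw [Complex.re_sum]
  refine sum_congr rfl fun a ha => ?_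
  have hq' : 0 < q := by
    unfold Mod at hq
    simp only [mem_filter, mem_Ioc] at hq
    omega
  have ha' : 0 < a := by
    simp only [mem_filter, mem_Icc] at ha
    omega
  rw [Complex.re_ofReal_mul, Complex.re_sum, mul_sum]
  refine sum_congr rfl fun n hn => ?_
  have hn' : 0 < n := by
    simp only [mem_Icc] at hn
    omega
  have hn'' : (0:ℝ) < n := by exact_mod_cast hn'
  rw [Complex.re_ofReal_mul, (ex_re_im _).1]
  simp only [exp_log_th hh hq' ha', Real.exp_log (by positivity : 0 < (n:ℝ) / X), cc, th]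
  ring

lemma cc_sum_le {K0 : ℝ → ℝ} (hK : ∀ u, |K0 u| ≤ 1) (h : ℝ) (Q R N : ℕ) :
    ∑ i ∈ SS' K0 h Q R N, |cc K0 h i| ≤ N * LL Q R := by
  have h1 : ∑ i ∈ SS' K0 h Q R N, |cc K0 h i| ≤ ∑ i ∈ SS Q R N, |cc K0 h i| := by
    unfold SS'
    apply sum_le_sum_of_subset_of_nonneg (filter_subset _ _)
    intro i _ _
    exact abs_nonneg _
  refine h1.trans ?_
  unfold SS LL
  rw [sum_sigma, mul_sum]
  refine sum_le_sum fun q hq => ?_
  have h2 : ∀ a ∈ (Icc 1 N).filter (fun a => a.Coprime q), |cc K0 h ⟨q, a⟩| ≤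
      1 / (Nat.totient q : ℝ) := by
    intro a _
    unfold cc
    simp only
    rw [abs_mul, abs_div, abs_mul]
    have m1 : |((ArithmeticFunction.moebius q : ℤ) : ℝ)| ≤ 1 := by
      have := ArithmeticFunction.abs_moebius_le_one (n := q)
      exact_mod_cast this
    have m2 : |Real.sin (Real.pi * (h * (a / q))) / (Real.pi * (h * (a / q)))| ≤ 1 := by
      by_cases hz : Real.pi * (h * ((a:ℝ) / q)) = 0
      · rw [hz]; simp
      · rw [abs_div, div_le_one (abs_pos.mpr hz)]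
        exact Real.abs_sin_le_abs
    have m3 := hK (h * (a / q))
    have m4 : |((Nat.totient q : ℕ) : ℝ)| = Nat.totient q := abs_of_nonneg (by positivity)
    rw [m4]
    calc |((ArithmeticFunction.moebius q : ℤ) : ℝ)| / (Nat.totient q : ℝ) *
        (|Real.sin (Real.pi * (h * (a / q))) / (Real.pi * (h * (a / q)))| * |K0 (h * (a / q))|)
        ≤ 1 / (Nat.totient q : ℝ) * (1 * 1) := by gcongr
      _ = _ := by ring
  refine (sum_le_sum h2).trans ?_
  rw [sum_const, nsmul_eq_mul]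
  apply mul_le_mul_of_nonneg_right _ (by positivity)
  have : ((Icc 1 N).filter (fun a => a.Coprime q)).card ≤ N := by
    refine (card_filter_le _ _).trans ?_
    simp
  exact_mod_cast this

lemma large_X (ε c D K : ℝ) (hε : 0 < ε) (hc : 0 < c) : ∃ X0 : ℝ, ∀ X : ℝ, X0 ≤ X →
    16 ≤ X ∧ K ≤ X ∧ D ≤ c * Real.log X ∧ K ≤ X ^ (2 / 3 : ℝ) ∧
      (1 + Real.log X) ^ 2 ≤ X ^ ε := by
  have h1 : ∀ᶠ X : ℝ in Filter.atTop, 16 ≤ X := Filter.eventually_ge_atTop 16
  have h2 : ∀ᶠ X : ℝ in Filter.atTop, K ≤ X := Filter.eventually_ge_atTop K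
  have h3 : ∀ᶠ X : ℝ in Filter.atTop, D ≤ c * Real.log X :=
    (Real.tendsto_log_atTop.const_mul_atTop hc).eventually_ge_atTop D
  have h4 : ∀ᶠ X : ℝ in Filter.atTop, K ≤ X ^ (2 / 3 : ℝ) :=
    (tendsto_rpow_atTop (by norm_num)).eventually_ge_atTop K
  have h5 : ∀ᶠ X : ℝ in Filter.atTop, (1 + Real.log X) ^ 2 ≤ X ^ ε := by
    have h6 := isLittleO_log_rpow_atTop (half_pos hε)
    have h7 := h6.bound (c := 1 / 2) (by norm_num)
    have h8 : ∀ᶠ X : ℝ in Filter.atTop, (2:ℝ) ≤ X ^ (ε / 2) :=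
      (tendsto_rpow_atTop (half_pos hε)).eventually_ge_atTop 2
    filter_upwards [h7, h8, h1] with X e1 e2 e3
    have hX : 0 < X := by linarith
    rw [Real.norm_eq_abs, Real.norm_eq_abs, abs_of_pos (Real.rpow_pos_of_pos hX _),
      abs_of_nonneg (Real.log_nonneg (by linarith))] at e1
    have e4 : X ^ ε = (X ^ (ε / 2)) ^ 2 := by
      rw [← Real.rpow_natCast, ← Real.rpow_mul hX.le]
      congr 1
      push_cast
      ring
    rw [e4]
    have e5 : 0 ≤ Real.log X := Real.log_nonneg (by linarith)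
    apply pow_le_pow_left₀ (by linarith)
    linarith
  obtain ⟨X0, hX0⟩ := Filter.eventually_atTop.mp (h1.and (h2.and (h3.and (h4.and h5))))
  exact ⟨X0, hX0⟩

lemma variance_lower_aux (ε : ℝ) (hε : 0 < ε) (hε1 : ε ≤ 1) : ∃ X0 : ℝ, ∀ X h : ℝ, X0 ≤ X →
    1 ≤ h → h ≤ X ^ (1 / 3 : ℝ) →
    X * h * (1 / 2 * Real.log (X / h ^ 3) - ε * Real.log X) ≤
      ∫ y in (1 : ℝ)..X, (psiI y h - h) ^ 2 := by
  obtain ⟨B, β, G, K0, hB1, hβ, hβ1, hG, hGs, hG1, hK1, hTρ, hTl1, hTl2, hI1, hI20, hI2, hJ2,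
    hJ10, hJ1⟩ := exists_tests (ε / 60) (by positivity) (by linarith)
  obtain ⟨H1, hns⟩ := norm_sum hTρ hTl1 (ε / 100) (ε / 60) (by positivity) (by linarith)
    (by positivity)
  obtain ⟨H2, hms⟩ := main_sum hTρ hTl2 (ε / 100) (ε / 60) (by positivity) (by linarith)
    (by positivity)
  obtain ⟨CL, hCL, hLL⟩ := LL_lower
  obtain ⟨CU, hCU, hLU⟩ := LL_upper
  have hG' : ContDiff ℝ 1 G := hG.of_le (by exact_mod_cast le_top)
  obtain ⟨CC, hCC, hcore⟩ := core_bound hG' hβ hβ1 hGs hG1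
  set c1 : ℝ := 2 * Real.exp B * CU with hc1
  have hc10 : 0 < c1 := by positivity
  set C5 : ℝ := CC * (3 * Real.exp B * c1 + Real.exp B * c1 ^ 2) with hC5
  have hC50 : 0 < C5 := by positivity
  obtain ⟨X0, hX0⟩ := large_X (4 / 3 * (ε / 100)) (ε / 2) (2 * Real.log 2 + CL + C5)
    (|H1| + |H2| + 1 / β + 256) (by positivity) (by positivity)
  refine ⟨X0, fun X h hX hh1 hh2 => ?_⟩
  obtain ⟨g1, g2, g3, g4, g5⟩ := hX0 X hX
  have hX' : 0 < X := by linarith
  have hXone : 1 ≤ X := by linarith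
  have hh : 1 ≤ h := hh1
  have hh0 : 0 < h := by linarith
  have hint : 0 ≤ ∫ y in (1 : ℝ)..X, (psiI y h - h) ^ 2 :=
    intervalIntegral.integral_nonneg hXone fun y _ => sq_nonneg _
  set Lx : ℝ := Real.log X with hLx
  set b : ℝ := Real.log h with hb
  have hLx0 : 0 ≤ Lx := Real.log_nonneg hXone
  have hb0 : 0 ≤ b := Real.log_nonneg hh
  have hb3 : 3 * b ≤ Lx := by
    have := Real.log_le_log hh0 hh2
    rw [Real.log_rpow hX'] at this
    linarith
  have hV : Real.log (X / h ^ 3) = Lx - 3 * b := by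
    rw [Real.log_div (by positivity) (by positivity), Real.log_pow, ← hLx, ← hb]
    push_cast
    ring
  rw [hV]
  by_cases hcase : 1 / 2 * (Lx - 3 * b) ≤ ε * Lx
  · refine le_trans ?_ hint
    apply mul_nonpos_of_nonneg_of_nonpos (by positivity)
    linarith
  push Not at hcase
  -- main case
  set H : ℝ := X / h with hH
  have hH0 : 0 < H := by positivity
  have hHX : H ≤ X := div_le_self hX'.le hh
  have hh3 : h ^ 3 ≤ X := by
    calc h ^ 3 ≤ (X ^ (1 / 3 : ℝ)) ^ 3 := by gcongr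
      _ = X := by
        rw [← Real.rpow_natCast, ← Real.rpow_mul hX'.le]
        norm_num
  have hH23 : X ^ (2 / 3 : ℝ) ≤ H := by
    rw [hH, le_div_iff₀ hh0]
    calc X ^ (2 / 3 : ℝ) * h ≤ X ^ (2 / 3 : ℝ) * X ^ (1 / 3 : ℝ) := by gcongr
      _ = X := by
        rw [← Real.rpow_add hX']
        norm_num
  have hHbig : |H1| + |H2| + 1 / β + 256 ≤ H := g4.trans hH23
  have hβ0 : 0 < 1 / β := by positivity
  have hH256 : 256 ≤ H := by
    have := abs_nonneg H1
    have := abs_nonneg H2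
    linarith
  have hH1 : 1 ≤ H := by linarith
  have hlogH : Real.log H = Lx - b := by
    rw [hH, Real.log_div (by positivity) (by positivity)]
  have hxY : X * (1 / h) = H := by rw [hH]; ring
  set Q : ℕ := ⌈h * H ^ (4 * (ε / 100))⌉₊ with hQ
  set R : ℕ := ⌊H ^ (1 / 2 - ε / 100)⌋₊ with hR
  set N : ℕ := ⌈Real.exp B * R / h⌉₊ with hN
  set M : ℕ := ⌈Real.exp B * X⌉₊ with hM
  have hQreal : h * H ^ (4 * (ε / 100)) ≤ Q := Nat.le_ceil _
  have hHe1 : 1 ≤ H ^ (4 * (ε / 100)) := Real.one_le_rpow hH1 (by positivity)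
  have hhp : 1 ≤ h * H ^ (4 * (ε / 100)) := one_le_mul_of_one_le_of_one_le hh hHe1
  have hQ1r : (1:ℝ) ≤ Q := hhp.trans hQreal
  have hQh : h ≤ Q := (le_mul_of_one_le_right hh0.le hHe1).trans hQreal
  have hQ1 : 1 ≤ Q := by exact_mod_cast hQ1r
  have hRle : (R : ℝ) ≤ H ^ (1 / 2 - ε / 100) := Nat.floor_le (by positivity)
  have hR2 : 2 ≤ H ^ (1 / 2 - ε / 100) := by
    calc (2:ℝ) ≤ (256 : ℝ) ^ (1 / 4 : ℝ) := by
          rw [show (256:ℝ) = 4 ^ (4:ℝ) by norm_num, ← Real.rpow_mul (by norm_num)]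
          norm_num
      _ ≤ H ^ (1 / 4 : ℝ) := by gcongr
      _ ≤ H ^ (1 / 2 - ε / 100) := by
          apply Real.rpow_le_rpow_of_exponent_le hH1
          linarith
  have hRge : H ^ (1 / 2 - ε / 100) / 2 ≤ R := by
    have := Nat.lt_floor_add_one (H ^ (1 / 2 - ε / 100))
    rw [← hR] at this
    linarith
  have hR1r : (1:ℝ) ≤ R := by linarith
  have hR1 : 1 ≤ R := by exact_mod_cast hR1r
  have hlogQ : Real.log Q ≤ Real.log 2 + b + 4 * (ε / 100) * (Lx - b) := by
    have h1 : (Q : ℝ) ≤ 2 * (h * H ^ (4 * (ε / 100))) := by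
      have := Nat.ceil_lt_add_one (a := h * H ^ (4 * (ε / 100))) (by positivity)
      rw [← hQ] at this
      linarith
    have h2 := Real.log_le_log (by linarith) h1
    rw [Real.log_mul (by norm_num) (by positivity), Real.log_mul (by positivity) (by positivity),
      Real.log_rpow hH0, hlogH] at h2
    linarith
  have hlogR : (1 / 2 - ε / 100) * (Lx - b) - Real.log 2 ≤ Real.log R := by
    have h2 := Real.log_le_log (by positivity) hRge
    rw [Real.log_div (by positivity) (by norm_num), Real.log_rpow hH0, hlogH] at h2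
    linarith
  have hlog2 : 0 < Real.log 2 := Real.log_pos (by norm_num)
  have hdiff : 1 / 2 * (Lx - 3 * b) - 5 * (ε / 100) * Lx - 2 * Real.log 2 ≤
      Real.log R - Real.log Q := by
    have : 0 ≤ 5 * (ε / 100) * b := by positivity
    linarith
  have hQR : Q ≤ R := by
    have hpos : 0 < Real.log R - Real.log Q := by
      refine lt_of_lt_of_le ?_ hdiff
      linarith
    have : (Q:ℝ) < R := by
      rw [← Real.log_lt_log_iff (by linarith) (by linarith)]
      linarith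
    exact_mod_cast this.le
  have hQRr : (Q:ℝ) ≤ R := by exact_mod_cast hQR
  have hLLlow := hLL Q R hQ1 hQR
  have hLL0 : 0 ≤ LL Q R := by
    unfold LL
    exact sum_nonneg fun q _ => by positivity
  have hlogRle : Real.log R ≤ Lx := by
    apply Real.log_le_log (by linarith)
    refine hRle.trans ?_
    calc H ^ (1 / 2 - ε / 100) ≤ H ^ (1 : ℝ) := by
          apply Real.rpow_le_rpow_of_exponent_le hH1
          linarith
      _ = H := Real.rpow_one H
      _ ≤ X := hHX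
  -- range and cuts
  have hRange : Range (ε / 100) X (1 / h) := by
    refine ⟨hX', by positivity, by rw [hxY]; exact hH1, ?_, ?_⟩
    · rw [hxY]
      calc H ^ (1 - ε / 100) ≤ H ^ (1 : ℝ) := by
            apply Real.rpow_le_rpow_of_exponent_le hH1
            linarith
        _ = H := Real.rpow_one H
        _ ≤ X := hHX
    · rw [hxY]
      have e1 : X ^ 2 ≤ H ^ 3 := by
        rw [hH, div_pow, le_div_iff₀ (by positivity)]
        calc X ^ 2 * h ^ 3 ≤ X ^ 2 * X := by gcongr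
          _ = X ^ 3 := by ring
      calc X = (X ^ 2) ^ (1 / 2 : ℝ) := by
            rw [← Real.rpow_natCast, ← Real.rpow_mul hX'.le]
            norm_num
        _ ≤ (H ^ 3) ^ (1 / 2 : ℝ) := by gcongr
        _ = H ^ (3 / 2 : ℝ) := by
            rw [← Real.rpow_natCast, ← Real.rpow_mul hH0.le]
            norm_num
  have hCuts : Cuts (ε / 100) B X (1 / h) Q R N M := by
    refine ⟨?_, ?_, ?_, ?_, ?_⟩
    · rw [hxY]
      refine le_trans ?_ hQreal
      exact le_mul_of_one_le_left (by positivity) hh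
    · rw [hxY]
      refine le_trans (le_of_eq ?_) hQreal
      field_simp
    · rw [hxY]
      exact hRle
    · refine le_trans (le_of_eq ?_) (Nat.le_ceil _)
      ring
    · exact Nat.le_ceil _
  have hns' := hns X (1 / h) hRange (by
    rw [hxY]
    have := le_abs_self H1
    have := abs_nonneg H2
    linarith) Q R N M hCuts
  have hms' := hms X (1 / h) hRange (by
    rw [hxY]
    have := le_abs_self H2
    have := abs_nonneg H1
    linarith) Q R N M hCuts
  have hms2 := (abs_le.mp ((Complex.abs_re_le_norm _).trans hms')).1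
  rw [Complex.sub_re, main_re G K0 hh0 hX' Q R N M, Complex.ofReal_re, hxY] at hms2
  simp_rw [norm_eq K0 hh0 Q R N] at hns'
  rw [hxY] at hns'
  have hcv := norm_cv G (fun u hu => hGs u (Or.inl (hu.trans hβ.le))) hX'
    (fun y => ‖∑ i ∈ SS' K0 h Q R N, (cc K0 h i : ℂ) * ex (y * th i)‖ ^ 2)
  have hX1h : 1 * X ≤ Real.exp B * X - X := by
    have h2 : 2 ≤ Real.exp B := by
      have := Real.add_one_le_exp B
      linarith
    have h3 := mul_le_mul_of_nonneg_right h2 hX'.le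
    linarith
  have hhX : h ≤ X := by
    calc h = h ^ 1 := (pow_one h).symm
      _ ≤ h ^ 3 := pow_le_pow_right₀ hh (by norm_num)
      _ ≤ X := hh3
  have hcore' := hcore (Σ _ : ℕ, ℕ) X h (Real.exp (-B) / h) M (SS' K0 h Q R N) th (cc K0 h) hh0
    (by
      have : 1 / β ≤ X := by
        have := abs_nonneg H1
        have := abs_nonneg H2
        linarith
      rw [div_le_iff₀ hβ] at this
      linarith)
    (by
      refine le_trans ?_ (Nat.le_ceil _)
      linarith)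
    (by positivity) (fun i hi => th_lower hTl1 hh0 hi)
  rw [hcv] at hcore'

  set T : ℝ := ∑ i ∈ SS' K0 h Q R N, |cc K0 h i| with hT
  set P : ℝ := ∑ n ∈ Icc 1 M, ArithmeticFunction.vonMangoldt n * (G (n / X) *
        ∑ i ∈ SS' K0 h Q R N, cc K0 h i *
          (Real.sin (Real.pi * (h * th i)) / (Real.pi * (h * th i))) *
          Real.cos (2 * Real.pi * (n * th i))) with hP
  set NS : ℝ := X * ∫ v, Real.exp v * G (Real.exp v) ^ 2 *
    ‖∑ i ∈ SS' K0 h Q R N, (cc K0 h i : ℂ) * ex (X * Real.exp v * th i)‖ ^ 2 with hNS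
  set I1 : ℝ := ∫ v, G (Real.exp v) * Real.exp v with hI1d
  set I2 : ℝ := ∫ v, G (Real.exp v) ^ 2 * Real.exp v with hI2d
  set J2 : ℝ := ∫ v, ((Real.sin (Real.pi * Real.exp v) / (Real.pi * Real.exp v)) ^ 2 *
      K0 (Real.exp v)) * Real.exp v with hJ2d
  set J1 : ℝ := ∫ v, (Real.sin (Real.pi * Real.exp v) / (Real.pi * Real.exp v) *
      K0 (Real.exp v)) ^ 2 * Real.exp v with hJ1d
  set LLv : ℝ := LL Q R with hLLv
  clear_value T P NS I1 I2 J1 J2
  clear hns hms hcore hms' hcv hTρ hTl1 hTl2 hRange hCuts hX0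
  have hT0 : 0 ≤ T := by rw [hT]; exact sum_nonneg fun i _ => abs_nonneg _
  have hTle : T ≤ N * LLv := by rw [hT]; exact cc_sum_le hK1 h Q R N
  have heB : 1 ≤ Real.exp B := Real.one_le_exp (by linarith)
  have hRh : 1 ≤ Real.exp B * R / h := by
    rw [le_div_iff₀ hh0, one_mul]
    calc h ≤ R := hQh.trans hQRr
      _ ≤ Real.exp B * R := le_mul_of_one_le_left (by positivity) heB
  have hNle : (N : ℝ) ≤ 2 * Real.exp B * R / h := by
    have := Nat.ceil_lt_add_one (a := Real.exp B * R / h) (by positivity)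
    rw [← hN] at this
    calc (N : ℝ) ≤ Real.exp B * R / h + Real.exp B * R / h := by linarith
      _ = _ := by ring
  have hLLle : LLv ≤ CU * (1 + Lx) := by
    refine (hLU Q R).trans ?_
    apply mul_le_mul_of_nonneg_left _ hCU.le
    linarith
  set W : ℝ := R * (1 + Lx) with hW
  have hW0 : 0 ≤ W := by positivity
  have hTW : T ≤ c1 * (W / h) := by
    calc T ≤ N * LLv := hTle
      _ ≤ (2 * Real.exp B * R / h) * (CU * (1 + Lx)) := by gcongr
      _ = c1 * (W / h) := by rw [hc1, hW]; ring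
  have hBc : h * W ^ 2 ≤ X := by
    have e1 : (H ^ (1 / 2 - ε / 100)) ^ 2 = H ^ (1 - 2 * (ε / 100)) := by
      rw [← Real.rpow_natCast, ← Real.rpow_mul hH0.le]
      congr 1
      push_cast
      ring
    have e2 : X ^ (4 / 3 * (ε / 100)) ≤ H ^ (2 * (ε / 100)) := by
      calc X ^ (4 / 3 * (ε / 100)) = (X ^ (2 / 3 : ℝ)) ^ (2 * (ε / 100)) := by
            rw [← Real.rpow_mul hX'.le]
            congr 1
            ring
        _ ≤ H ^ (2 * (ε / 100)) := by gcongr
    calc h * W ^ 2 = h * ((R:ℝ) ^ 2 * (1 + Lx) ^ 2) := by rw [hW]; ring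
      _ ≤ h * ((H ^ (1 / 2 - ε / 100)) ^ 2 * H ^ (2 * (ε / 100))) := by
          gcongr
          exact g5.trans e2
      _ = h * H := by
          rw [e1, ← Real.rpow_add hH0]
          norm_num
      _ = X := by rw [hH]; field_simp
  have hAc : h ^ 2 * W ≤ X := by
    have : (h ^ 2 * W) ^ 2 ≤ X ^ 2 := by
      calc (h ^ 2 * W) ^ 2 = h ^ 3 * (h * W ^ 2) := by ring
        _ ≤ X * X := by gcongr
        _ = X ^ 2 := by ring
    exact (pow_le_pow_iff_left₀ (by positivity) hX'.le two_ne_zero).mp this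
  have hT3 : h ^ 3 * T ≤ c1 * X := by
    calc h ^ 3 * T ≤ h ^ 3 * (c1 * (W / h)) := by gcongr
      _ = c1 * (h ^ 2 * W) := by field_simp
      _ ≤ c1 * X := by gcongr
  have hT32 : h ^ 3 * T ^ 2 ≤ c1 ^ 2 * X := by
    calc h ^ 3 * T ^ 2 ≤ h ^ 3 * (c1 * (W / h)) ^ 2 := by gcongr
      _ = c1 ^ 2 * (h * W ^ 2) := by field_simp
      _ ≤ c1 ^ 2 * X := by gcongr
  have hMle : (M : ℝ) / X ≤ 2 * Real.exp B := by
    rw [div_le_iff₀ hX']
    have h1 := Nat.ceil_lt_add_one (a := Real.exp B * X) (by positivity)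
    rw [← hM] at h1
    have h2 : 1 ≤ Real.exp B * X := one_le_mul_of_one_le_of_one_le heB hXone
    linarith
  have herr : CC * (h ^ 3 * (M / X) * T + h ^ 2 * T / (Real.exp (-B) / h) +
      h ^ 2 * T ^ 2 / (Real.exp (-B) / h)) ≤ C5 * X := by
    have e0 : C5 * X = CC * ((3 * Real.exp B * c1 + Real.exp B * c1 ^ 2) * X) := by
      rw [hC5]; ring
    rw [e0]
    apply mul_le_mul_of_nonneg_left _ hCC.le
    have e1 : h ^ 3 * (M / X) * T ≤ 2 * Real.exp B * (c1 * X) := by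
      calc h ^ 3 * (M / X) * T = (M / X) * (h ^ 3 * T) := by ring
        _ ≤ 2 * Real.exp B * (c1 * X) := by gcongr
    have e2 : h ^ 2 * T / (Real.exp (-B) / h) ≤ Real.exp B * (c1 * X) := by
      calc h ^ 2 * T / (Real.exp (-B) / h) = Real.exp B * (h ^ 3 * T) := by
            rw [Real.exp_neg]
            field_simp
        _ ≤ _ := by gcongr
    have e3 : h ^ 2 * T ^ 2 / (Real.exp (-B) / h) ≤ Real.exp B * (c1 ^ 2 * X) := by
      calc h ^ 2 * T ^ 2 / (Real.exp (-B) / h) = Real.exp B * (h ^ 3 * T ^ 2) := by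
            rw [Real.exp_neg]
            field_simp
        _ ≤ _ := by gcongr
    linarith
  have hlogHle : Real.log H ≤ Lx := by linarith
  have hlogH0 : 0 ≤ Real.log H := Real.log_nonneg hH1
  have hhH : h ^ 2 * H = h * X := by rw [hH]; field_simp
  have a1 : (1 - ε / 60) * (1 / 2 - ε / 60) ≤ I1 * J2 := by
    apply mul_le_mul hI1 hJ2 (by linarith)
    linarith
  have a2 : I2 * J1 ≤ 1 / 2 := by
    calc I2 * J1 ≤ 1 * (1 / 2) := by gcongr
      _ = _ := by ring
  have a3 : 1 - ε / 10 ≤ 4 * (I1 * J2) - 2 * (I2 * J1) := by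
    have : 1 / 2 - 3 / 2 * (ε / 60) ≤ (1 - ε / 60) * (1 / 2 - ε / 60) := by
      have : 0 ≤ (ε / 60) ^ 2 := by positivity
      linarith
    linarith
  have f1 : h ^ 2 * (H * I1 * J2 * LLv - ε / 60 * H * Real.log H) ≤ h ^ 2 * P := by
    apply mul_le_mul_of_nonneg_left _ (by positivity)
    linarith
  have f2 : h ^ 2 * NS ≤ h ^ 2 * (H * I2 * J1 * LLv + ε / 60 * H * Real.log H) := by
    apply mul_le_mul_of_nonneg_left _ (by positivity)
    linarith
  have f1' : h ^ 2 * (H * I1 * J2 * LLv - ε / 60 * H * Real.log H) =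
      h * X * (I1 * J2 * LLv - ε / 60 * Real.log H) := by
    rw [← hhH]; ring
  have f2' : h ^ 2 * (H * I2 * J1 * LLv + ε / 60 * H * Real.log H) =
      h * X * (I2 * J1 * LLv + ε / 60 * Real.log H) := by
    rw [← hhH]; ring
  have f3 : h * X * ((1 - ε / 10) * LLv) ≤ h * X * ((4 * (I1 * J2) - 2 * (I2 * J1)) * LLv) := by
    apply mul_le_mul_of_nonneg_left _ (by positivity)
    exact mul_le_mul_of_nonneg_right a3 hLL0
  have f4 : C5 * X ≤ C5 * (h * X) := by
    apply mul_le_mul_of_nonneg_left _ hC50.le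
    exact le_mul_of_one_le_left hX'.le hh
  have f5 : h * X * ((1 - ε / 10) * LLv - ε / 10 * Real.log H - C5) ≤
      ∫ y in (1 : ℝ)..X, (psiI y h - h) ^ 2 := by
    refine le_trans ?_ hcore'
    linarith
  refine le_trans ?_ f5
  rw [mul_comm X h]
  apply mul_le_mul_of_nonneg_left _ (by positivity)
  have g6 : 1 / 2 * (Lx - 3 * b) - 5 * (ε / 100) * Lx - 2 * Real.log 2 - CL ≤ LLv := by linarith
  have g7 : (1 - ε / 10) * (1 / 2 * (Lx - 3 * b) - 5 * (ε / 100) * Lx - 2 * Real.log 2 - CL) ≤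
      (1 - ε / 10) * LLv := mul_le_mul_of_nonneg_left g6 (by linarith)
  have g8 : ε / 10 * (1 / 2 * (Lx - 3 * b) - 5 * (ε / 100) * Lx - 2 * Real.log 2 - CL) ≤
      ε / 10 * (1 / 2 * Lx) := by
    apply mul_le_mul_of_nonneg_left _ (by positivity)
    have : 0 ≤ 5 * (ε / 100) * Lx := by positivity
    linarith
  have g9 : ε / 10 * Real.log H ≤ ε / 10 * Lx := mul_le_mul_of_nonneg_left hlogHle (by positivity)
  have g10 : 0 ≤ ε * Lx := by positivity
  linarith

/-- **Variance of primes in short intervals, unconditional lower bound**. -/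
theorem variance_lower_one (ε : ℝ) (hε : 0 < ε) : ∃ X0 : ℝ, ∀ X h : ℝ, X0 ≤ X → 1 ≤ h →
    h ≤ X ^ (1 / 3 : ℝ) →
    X * h * (1 / 2 * Real.log (X / h ^ 3) - ε * Real.log X) ≤
      ∫ y in (1 : ℝ)..X, (psiI y h - h) ^ 2 := by
  obtain ⟨X0, hX0⟩ := variance_lower_aux (min ε 1) (lt_min hε one_pos) (min_le_right _ _)
  refine ⟨max X0 1, fun X h hX h1 h2 => ?_⟩
  have hX1 : 1 ≤ X := (le_max_right _ _).trans hX
  have hX' : 0 < X := by linarith
  have hh : 0 < h := by linarith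
  refine le_trans ?_ (hX0 X h ((le_max_left _ _).trans hX) h1 h2)
  apply mul_le_mul_of_nonneg_left _ (by positivity)
  have : min ε 1 * Real.log X ≤ ε * Real.log X :=
    mul_le_mul_of_nonneg_right (min_le_left _ _) (Real.log_nonneg hX1)
  linarith

theorem variance_lower (ε : ℝ) (hε : 0 < ε) : ∃ X0 : ℝ, ∀ X h : ℝ, X0 ≤ X → X ^ ε ≤ h →
    h ≤ X ^ (1 / 3 : ℝ) →
    X * h * (1 / 2 * Real.log (X / h ^ 3) - ε * Real.log X) ≤
      ∫ y in (1 : ℝ)..X, (psiI y h - h) ^ 2 := by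
  obtain ⟨X0, hX0⟩ := variance_lower_one ε hε
  refine ⟨max X0 1, fun X h hX h1 h2 => ?_⟩
  have hX1 : 1 ≤ X := (le_max_right _ _).trans hX
  exact hX0 X h ((le_max_left _ _).trans hX) ((Real.one_le_rpow hX1 hε.le).trans h1) h2

end H343
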