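import Pool.Agent.H343R2.EFb

open Finset MeasureTheory Complex

namespace H343

/-- finite pair sum with kernel `k` -/
noncomputable def PPair (k : ℂ → ℂ) (u : ℝ) (Z : Finset ℂ) (m : ℂ → ℝ) : ℂ :=
  ∑ s ∈ Z, ∑ s' ∈ Z, ((m s * m s' : ℝ) : ℂ) *
    (cexp (u * (s + (starRingEnd ℂ) s' - 1)) * k (s + (starRingEnd ℂ) s' - 1))

/-- Gaussian kernel (`exp (-b v^2/4)` at `z = i v`) -/
noncomputable def kG (b : ℝ) (z : ℂ) : ℂ := cexp (b * z ^ 2 / 4)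

/-- Montgomery's kernel (`4 / (4 + v^2)` at `z = i v`) -/
noncomputable def kW (z : ℂ) : ℂ := 4 / (4 - z ^ 2)

/-- the Gaussian polynomial over the zeros -/
noncomputable def GGb (b u t : ℝ) (Z : Finset ℂ) (m : ℂ → ℝ) : ℂ :=
  ∑ s ∈ Z, (m s : ℂ) * hhb b u t s

end H343
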